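import Mathlib
import Pool.Agent.Lib.ANT.SieveSums
import Pool.Agent.Lib.ANT.Mertens
import Pool.Agent.Lib.LargeSieve.Arith
import Pool.Agent.Lib.LargeSieve.Additive

-- merged part: Pool.Agent.Work.MP_6d9ff5_nt.Defs
section
/-!
# Factorials are almost values of the sum-of-divisors function: definitions

Primes are written `q = 2 N - 1`, so that `q + 1 = 2 N`.
-/

noncomputable section

open Finset

namespace Pool.Agent.Work.MP_6d9ff5_nt

/-- `log q` on primes, `0` elsewhere -/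
def th (q : ℕ) : ℝ := if q.Prime then Real.log q else 0

/-- the range of `N` -/
def NN (W Y : ℕ) : Finset ℕ := (Ioc Y (2 * Y)).filter fun N => Nat.Coprime N W

/-- weighted count of primes `2 N - 1` with `k ∣ N` -/
def cnt (W Y k : ℕ) : ℝ := ∑ N ∈ (NN W Y).filter (fun N => k ∣ N), th (2 * N - 1)

/-- the total error of Bombieri-Vinogradov type -/
def err (W Y : ℕ) (M : ℝ) (Q : ℕ) : ℝ :=
  ∑ k ∈ (Icc 1 Q).filter (fun k => Nat.Coprime k W), |cnt W Y k - M / k.totient|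

/-- the window of divisors `D / R < d ≤ D` -/
def DD (W D R : ℕ) : Finset ℕ := (Icc 1 D).filter fun d => D < d * R ∧ Nat.Coprime d W

/-- the mass of the window -/
def ZZ (W D R : ℕ) : ℝ := ∑ d ∈ DD W D R, 1 / (d.totient : ℝ)

/-- number of divisors of `N` in the window -/
def gg (W D R N : ℕ) : ℕ := ((DD W D R).filter fun d => d ∣ N).card

/-- good `N` -/
def GG (W Y s : ℕ) : Finset ℕ := (NN W Y).filter fun N => Squarefree N ∧ N.primeFactors.card ≤ s

/-- divisors in the window that are multiples of `l` -/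
def c1 (W D R N l : ℕ) : ℕ := ((DD W D R).filter fun d => d ∣ N ∧ l ∣ d).card

/-- divisors in the window that are not multiples of `l` -/
def c2 (W D R N l : ℕ) : ℕ := ((DD W D R).filter fun d => d ∣ N ∧ ¬ l ∣ d).card

/-- use of `l` through the divisor -/
def U1 (W Y D R s l : ℕ) : ℝ :=
  ∑ N ∈ (GG W Y s).filter (fun N => l ∣ N), th (2 * N - 1) * c1 W D R N l

/-- use of `l` through the cofactor -/
def U2 (W Y D R s l : ℕ) : ℝ :=
  ∑ N ∈ (GG W Y s).filter (fun N => l ∣ N), th (2 * N - 1) * c2 W D R N l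

/-- the mixing primes -/
def PP (t J : ℕ) : Finset ℕ := (Ico (2 ^ t) ((2 ^ t) ^ (J + 1))).filter Nat.Prime

/-- sum of reciprocals -/
def lam (P : Finset ℕ) : ℝ := ∑ p ∈ P, 1 / (p : ℝ)

/-- number of subsets of `S` of given height (shifted by `o`) -/
def NS (h : ℕ → ℕ) (o : ℕ) (S : Finset ℕ) (j : ℕ) : ℝ :=
  ((S.powerset.filter fun T => o + ∑ p ∈ T, h p = j).card : ℝ)

/-- variation of `NS` on `[i, i + n]` -/
def osc (h : ℕ → ℕ) (o : ℕ) (S : Finset ℕ) (i n : ℕ) : ℝ :=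
  ∑ k ∈ range n, |NS h o S (i + k + 1) - NS h o S (i + k)|

/-- the local transfer error -/
def EE (t r s : ℕ) (S : Finset ℕ) (i : ℕ) : ℝ :=
  (2 * s + 1) * NS (Nat.log (2 ^ t)) (r + s) S i + 2 * r * osc (Nat.log (2 ^ t)) (r + s) S i (4 * r)

/-- cofactors prime to `P` giving primes -/
def Hc (P : Finset ℕ) (Y u : ℕ) : ℕ :=
  ((Icc 1 (2 * Y / u)).filter fun b =>
    Y < u * b ∧ (∀ p ∈ P, ¬ p ∣ b) ∧ (2 * (u * b) - 1).Prime).card

open Classical in
/-- candidates for the large prime `l` -/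
def CC (W Y n R l : ℕ) : Finset ℕ :=
  (NN W Y).filter fun N => l ∣ N ∧ Squarefree N ∧ (2 * N - 1).Prime ∧
    ∀ p : ℕ, p.Prime → p ∣ N → p ≠ l → p * R ≤ n

/-- weight of the candidates -/
def wt (W Y n R l : ℕ) : ℝ := ∑ N ∈ CC W Y n R l, th (2 * N - 1)

lemma th_nonneg (q : ℕ) : 0 ≤ th q := by
  unfold th; split_ifs
  · exact Real.log_natCast_nonneg q
  · exact le_rfl

lemma th_le {W Y N : ℕ} (h : N ∈ NN W Y) : th (2 * N - 1) ≤ Real.log (4 * Y) := by
  have h1 := mem_Ioc.1 (mem_filter.1 h).1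
  have hY : (1 : ℝ) ≤ Y := by exact_mod_cast (by omega : 1 ≤ Y)
  unfold th; split_ifs with hp
  · refine Real.log_le_log (by exact_mod_cast hp.pos) ?_
    exact_mod_cast (by omega : 2 * N - 1 ≤ 4 * Y)
  · exact Real.log_nonneg (by linarith)

lemma cnt_nonneg (W Y k : ℕ) : 0 ≤ cnt W Y k := sum_nonneg fun _ _ => th_nonneg _

lemma err_nonneg (W Y : ℕ) (M : ℝ) (Q : ℕ) : 0 ≤ err W Y M Q := sum_nonneg fun _ _ => abs_nonneg _

lemma ZZ_nonneg (W D R : ℕ) : 0 ≤ ZZ W D R := sum_nonneg fun _ _ => by positivity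

lemma lam_nonneg (P : Finset ℕ) : 0 ≤ lam P := sum_nonneg fun _ _ => by positivity

lemma NS_nonneg (h : ℕ → ℕ) (o : ℕ) (S : Finset ℕ) (j : ℕ) : 0 ≤ NS h o S j := Nat.cast_nonneg _

lemma osc_nonneg (h : ℕ → ℕ) (o : ℕ) (S : Finset ℕ) (i n : ℕ) : 0 ≤ osc h o S i n :=
  sum_nonneg fun _ _ => abs_nonneg _

lemma EE_nonneg (t r s : ℕ) (S : Finset ℕ) (i : ℕ) : 0 ≤ EE t r s S i := by
  have := NS_nonneg (Nat.log (2 ^ t)) (r + s) S i
  have := osc_nonneg (Nat.log (2 ^ t)) (r + s) S i (4 * r)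
  unfold EE; positivity

end Pool.Agent.Work.MP_6d9ff5_nt
end
end

-- merged part: Pool.Agent.Work.MP_6d9ff5_nt.Tr1
section
/-!
# Transfer across the square root, pointwise form
-/

noncomputable section

open Finset

namespace Pool.Agent.Work.MP_6d9ff5_nt

lemma Tr1_card_window (h : ℕ → ℕ) (o : ℕ) (S : Finset ℕ) (lo n : ℕ) :
    ((S.powerset.filter fun T =>
        lo ≤ o + ∑ p ∈ T, h p ∧ o + ∑ p ∈ T, h p < lo + n).card : ℝ)
      = ∑ k ∈ range n, NS h o S (lo + k) := by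
  induction n with
  | zero =>
    rw [sum_range_zero, Nat.cast_eq_zero, card_eq_zero, filter_eq_empty_iff]
    intro T _ hT
    omega
  | succ n ih =>
    rw [sum_range_succ, ← ih, NS, ← Nat.cast_add, ← card_union_of_disjoint]
    · congr 2
      ext T
      simp only [mem_filter, mem_union]
      constructor
      · rintro ⟨h1, h2, h3⟩
        by_cases h4 : o + ∑ p ∈ T, h p = lo + n
        · exact Or.inr ⟨h1, h4⟩
        · exact Or.inl ⟨h1, h2, by omega⟩
      · rintro (⟨h1, h2, h3⟩ | ⟨h1, h2⟩)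
        · exact ⟨h1, h2, by omega⟩
        · exact ⟨h1, by omega, by omega⟩
    · rw [disjoint_filter]
      intro T _ hT
      omega

lemma Tr1_near (h : ℕ → ℕ) (o : ℕ) (S : Finset ℕ) (i : ℕ) {n m : ℕ} (hm : m ≤ n) :
    |NS h o S (i + m) - NS h o S i| ≤ osc h o S i n := by
  have e : NS h o S (i + m) - NS h o S i
      = ∑ k ∈ range m, (NS h o S (i + k + 1) - NS h o S (i + k)) := by
    have := Finset.sum_range_sub (fun k => NS h o S (i + k)) m
    simp only [add_zero] at this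
    rw [← this]
    rfl
  rw [e]
  refine (abs_sum_le_sum_abs _ _).trans ?_
  exact sum_le_sum_of_subset_of_nonneg (range_mono hm) fun _ _ _ => abs_nonneg _

lemma Tr1_pow_le (b : ℕ) {B : Finset ℕ} (hB : ∀ p ∈ B, p ≠ 0) :
    b ^ (∑ p ∈ B, Nat.log b p) ≤ ∏ p ∈ B, p := by
  rw [← prod_pow_eq_pow_sum]
  exact prod_le_prod' fun p hp => Nat.pow_log_le_self b (hB p hp)

lemma Tr1_le_pow {b : ℕ} (hb : 1 < b) (B : Finset ℕ) :
    ∏ p ∈ B, p ≤ b ^ (∑ p ∈ B, Nat.log b p + B.card) := by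
  rw [card_eq_sum_ones, ← sum_add_distrib, ← prod_pow_eq_pow_sum]
  exact prod_le_prod' fun p _ => (Nat.lt_pow_succ_log_self hb p).le

lemma Tr1_log_lo {b X a : ℕ} (ha : 0 < a) (h : a ≤ X) : b ^ Nat.log b (X / a) * a ≤ X := by
  have h1 : X / a ≠ 0 := (Nat.div_pos h ha).ne'
  exact (Nat.mul_le_mul_right a (Nat.pow_log_le_self b h1)).trans (Nat.div_mul_le_self X a)

lemma Tr1_log_hi {b X a : ℕ} (hb : 1 < b) (ha : 0 < a) :
    X < b ^ (Nat.log b (X / a) + 1) * a :=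
  (Nat.div_lt_iff_lt_mul ha).1 (Nat.lt_pow_succ_log_self hb _)

/-- divisors not divisible by `l`, sorted by their part outside `P` -/
lemma Tr1_c2_le {W D b r s N l : ℕ} (hb : 1 < b) (hN : Squarefree N)
    (hω : N.primeFactors.card ≤ s) (P : Finset ℕ) :
    c2 W D (b ^ r) N l
      ≤ ∑ A ∈ ((N.primeFactors.erase l) \ P).powerset.filter (fun A => ∏ p ∈ A, p ≤ D),
          (((N.primeFactors.erase l) ∩ P).powerset.filter fun T =>
            Nat.log b (D / ∏ p ∈ A, p) + 1 ≤ r + s + ∑ p ∈ T, Nat.log b p ∧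
              r + s + ∑ p ∈ T, Nat.log b p < Nat.log b (D / ∏ p ∈ A, p) + 1 + (r + s)).card := by
  rw [← card_sigma]
  unfold c2
  have key : ∀ d : ℕ, d ∣ N →
      (∏ p ∈ d.primeFactors \ P, p) * ∏ p ∈ d.primeFactors ∩ P, p = d := by
    intro d hd
    rw [mul_comm, prod_inter_mul_prod_sdiff]
    exact Nat.prod_primeFactors_of_squarefree (hN.squarefree_of_dvd hd)
  refine card_le_card_of_injOn
    (fun d => (⟨d.primeFactors \ P, d.primeFactors ∩ P⟩ : Σ _ : Finset ℕ, Finset ℕ)) ?_ ?_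
  · intro d hd
    simp only [coe_filter, DD, mem_filter, mem_Icc, Set.mem_ofPred_eq] at hd
    obtain ⟨⟨⟨hd1, hd2⟩, hd3, -⟩, hdN, hld⟩ := hd
    have hsub : d.primeFactors ⊆ N.primeFactors.erase l := by
      intro p hp
      refine mem_erase.2 ⟨?_, Nat.primeFactors_mono hdN hN.ne_zero hp⟩
      rintro rfl
      exact hld (Nat.dvd_of_mem_primeFactors hp)
    have hk := key d hdN
    set a := ∏ p ∈ d.primeFactors \ P, p with ha
    set T := ∏ p ∈ d.primeFactors ∩ P, p with hT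
    have ha0 : 0 < a := Nat.pos_of_ne_zero fun h => by rw [h] at hk; omega
    have hT0 : 0 < T := Nat.pos_of_ne_zero fun h => by rw [h] at hk; omega
    have haD : a ≤ D := by nlinarith
    have hlo := Tr1_pow_le b (B := d.primeFactors ∩ P) fun p hp =>
      (Nat.prime_of_mem_primeFactors (mem_inter.1 hp).1).ne_zero
    have hhi := Tr1_le_pow hb (d.primeFactors ∩ P)
    have hc : (d.primeFactors ∩ P).card ≤ s :=
      (card_le_card (inter_subset_left.trans (hsub.trans (erase_subset _ _)))).trans hω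
    have l1 := Tr1_log_lo (b := b) ha0 haD
    have l2 := Tr1_log_hi (X := D) hb ha0
    rw [← hT] at hlo hhi
    set H := ∑ p ∈ d.primeFactors ∩ P, Nat.log b p with hH
    set i := Nat.log b (D / a) with hi
    have u1 : H < i + 1 := by
      refine (Nat.pow_lt_pow_iff_right hb).1 (Nat.lt_of_mul_lt_mul_right (a := a) ?_)
      calc b ^ H * a ≤ T * a := Nat.mul_le_mul_right a hlo
        _ = d := by rw [mul_comm]; exact hk
        _ ≤ D := hd2
        _ < _ := l2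
    have u2 : i < H + s + r := by
      refine (Nat.pow_lt_pow_iff_right hb).1 (Nat.lt_of_mul_lt_mul_right (a := a) ?_)
      have h3 : T ≤ b ^ (H + s) :=
        hhi.trans (Nat.pow_le_pow_right hb.le (Nat.add_le_add_left hc H))
      calc b ^ i * a ≤ D := l1
        _ < d * b ^ r := hd3
        _ = T * b ^ r * a := by rw [← hk]; ring
        _ ≤ b ^ (H + s) * b ^ r * a :=
          Nat.mul_le_mul_right a (Nat.mul_le_mul_right _ h3)
        _ = _ := by rw [← pow_add]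
    simp only [coe_sigma, Set.mem_sigma_iff, mem_coe, mem_filter, mem_powerset]
    refine ⟨⟨sdiff_subset_sdiff hsub (Subset.refl _), haD⟩,
      inter_subset_inter_right hsub, ?_, ?_⟩
    · change i + 1 ≤ r + s + H
      omega
    · change r + s + H < i + 1 + (r + s)
      omega
  · intro d hd e he hde
    simp only [coe_filter, Set.mem_ofPred_eq] at hd he
    simp only [Sigma.mk.injEq, heq_eq_eq] at hde
    rw [← key d hd.2.1, ← key e he.2.1, hde.1, hde.2]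

/-- complementary divisors -/
lemma Tr1_c1_ge {W D b r s N l : ℕ} (hb : 1 < b) (hs : s + 1 ≤ r) (hN : Squarefree N)
    (hW : N.Coprime W) (hω : N.primeFactors.card ≤ s) (h1 : D ^ 2 ≤ N)
    (hl : l.Prime) (hlN : l ∣ N) (P : Finset ℕ) :
    ∑ A ∈ ((N.primeFactors.erase l) \ P).powerset.filter (fun A => ∏ p ∈ A, p ≤ D),
          (((N.primeFactors.erase l) ∩ P).powerset.filter fun T =>
            Nat.log b (N / (D * ∏ p ∈ A, p)) + (r + s) + 1 ≤ r + s + ∑ p ∈ T, Nat.log b p ∧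
              r + s + ∑ p ∈ T, Nat.log b p
                < Nat.log b (N / (D * ∏ p ∈ A, p)) + (r + s) + 1 + (r - s - 1)).card
      ≤ c1 W D (b ^ r) N l := by
  rw [← card_sigma]
  unfold c1
  have hN0 : 0 < N := Nat.pos_of_ne_zero hN.ne_zero
  have hlF : l ∈ N.primeFactors := Nat.mem_primeFactors.2 ⟨hl, hlN, hN.ne_zero⟩
  have key : ∀ A B : Finset ℕ, A ⊆ (N.primeFactors.erase l) \ P →
      B ⊆ (N.primeFactors.erase l) ∩ P →
      (∏ p ∈ A, p) * (∏ p ∈ B, p) * ∏ p ∈ N.primeFactors \ (A ∪ B), p = N := by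
    intro A B hA hB
    have hd : Disjoint A B := by
      rw [disjoint_left]
      intro p hp hq
      exact (mem_sdiff.1 (hA hp)).2 (mem_inter.1 (hB hq)).2
    have hsub : A ∪ B ⊆ N.primeFactors :=
      union_subset (hA.trans (sdiff_subset.trans (erase_subset _ _)))
        (hB.trans (inter_subset_left.trans (erase_subset _ _)))
    rw [← prod_union hd, mul_comm, prod_sdiff hsub]
    exact Nat.prod_primeFactors_of_squarefree hN
  refine card_le_card_of_injOn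
    (fun x : (Σ _ : Finset ℕ, Finset ℕ) => ∏ p ∈ N.primeFactors \ (x.1 ∪ x.2), p) ?_ ?_
  · rintro ⟨A, B⟩ hx
    simp only [coe_sigma, Set.mem_sigma_iff, mem_coe, mem_filter, mem_powerset] at hx
    obtain ⟨⟨hA, haD⟩, hB, u1, u2⟩ := hx
    have hk := key A B hA hB
    have hle : l ∣ ∏ p ∈ N.primeFactors \ (A ∪ B), p := by
      refine dvd_prod_of_mem (fun p => p) (mem_sdiff.2 ⟨hlF, fun h => ?_⟩)
      rcases mem_union.1 h with h | h
      · exact (mem_erase.1 (mem_sdiff.1 (hA h)).1).1 rfl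
      · exact (mem_erase.1 (mem_inter.1 (hB h)).1).1 rfl
    have hlo := Tr1_pow_le b (B := B) fun p hp =>
      (Nat.prime_of_mem_primeFactors (mem_erase.1 (mem_inter.1 (hB hp)).1).2).ne_zero
    have hhi := Tr1_le_pow hb B
    have hc : B.card ≤ s :=
      (card_le_card (hB.trans (inter_subset_left.trans (erase_subset _ _)))).trans hω
    simp only [coe_filter, DD, mem_filter, mem_Icc, Set.mem_ofPred_eq]
    set a := ∏ p ∈ A, p with ha
    set T := ∏ p ∈ B, p with hT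
    set e := ∏ p ∈ N.primeFactors \ (A ∪ B), p with he
    have ha0 : 0 < a := Nat.pos_of_ne_zero fun h => by rw [h] at hk; simp at hk; omega
    have hT0 : 0 < T := Nat.pos_of_ne_zero fun h => by rw [h] at hk; simp at hk; omega
    have he0 : 0 < e := Nat.pos_of_ne_zero fun h => by rw [h] at hk; simp at hk; omega
    have hD0 : 0 < D := ha0.trans_le haD
    have hDa0 : 0 < D * a := Nat.mul_pos hD0 ha0
    have hDa : D * a ≤ N := (Nat.mul_le_mul_left D haD).trans (by rw [← sq]; exact h1)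
    have l1 := Tr1_log_lo (b := b) hDa0 hDa
    have l2 := Tr1_log_hi (X := N) hb hDa0
    set H := ∑ p ∈ B, Nat.log b p with hH
    set i := Nat.log b (N / (D * a)) with hi
    have heN : e ∣ N := Dvd.intro_left _ hk
    have haT : 0 < a * T := Nat.mul_pos ha0 hT0
    have v1 : e ≤ D := by
      refine Nat.le_of_mul_le_mul_left (a := e) (b := D) (c := a * T) ?_ haT
      have h3 : b ^ (i + 1) ≤ T := (Nat.pow_le_pow_right hb.le (by omega)).trans hlo
      calc a * T * e = N := hk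
        _ ≤ b ^ (i + 1) * (D * a) := l2.le
        _ ≤ T * (D * a) := Nat.mul_le_mul_right _ h3
        _ = a * T * D := by ring
    have v2 : D < e * b ^ r := by
      refine Nat.lt_of_mul_lt_mul_left (a := a * T) ?_
      have h3 : T < b ^ (i + r) :=
        hhi.trans_lt ((Nat.pow_lt_pow_iff_right hb).2 (by omega))
      calc a * T * D = T * (D * a) := by ring
        _ < b ^ (i + r) * (D * a) := Nat.mul_lt_mul_of_pos_right h3 hDa0
        _ = b ^ i * (D * a) * b ^ r := by rw [pow_add]; ring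
        _ ≤ N * b ^ r := Nat.mul_le_mul_right _ l1
        _ = a * T * (e * b ^ r) := by rw [← hk]; ring
    exact ⟨⟨⟨he0, v1⟩, v2, Nat.Coprime.coprime_dvd_left heN hW⟩, heN, hle⟩
  · rintro ⟨A, B⟩ hx ⟨A', B'⟩ hy hxy
    simp only [coe_sigma, Set.mem_sigma_iff, mem_coe, mem_filter, mem_powerset] at hx hy
    obtain ⟨⟨hA, -⟩, hB, -⟩ := hx
    obtain ⟨⟨hA', -⟩, hB', -⟩ := hy
    have pr : ∀ C : Finset ℕ, (∏ p ∈ N.primeFactors \ C, p).primeFactors = N.primeFactors \ C :=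
      fun C => Nat.primeFactors_prod fun p hp => Nat.prime_of_mem_primeFactors (mem_sdiff.1 hp).1
    have e1 : N.primeFactors \ (A ∪ B) = N.primeFactors \ (A' ∪ B') := by
      rw [← pr, ← pr (A' ∪ B')]
      exact congrArg Nat.primeFactors hxy
    have e2 : ∀ p, p ∈ N.primeFactors → (p ∈ A ∪ B ↔ p ∈ A' ∪ B') := by
      intro p hp
      have := Finset.ext_iff.1 e1 p
      simp only [mem_sdiff, hp, true_and] at this
      exact not_iff_not.1 this
    have eA : A = A' := by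
      ext p
      constructor
      · intro hp
        have h := mem_sdiff.1 (hA hp)
        rcases mem_union.1 ((e2 p (mem_erase.1 h.1).2).1 (mem_union_left _ hp)) with h' | h'
        · exact h'
        · exact absurd (mem_inter.1 (hB' h')).2 h.2
      · intro hp
        have h := mem_sdiff.1 (hA' hp)
        rcases mem_union.1 ((e2 p (mem_erase.1 h.1).2).2 (mem_union_left _ hp)) with h' | h'
        · exact h'
        · exact absurd (mem_inter.1 (hB h')).2 h.2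
    have eB : B = B' := by
      ext p
      constructor
      · intro hp
        have h := mem_inter.1 (hB hp)
        rcases mem_union.1 ((e2 p (mem_erase.1 h.1).2).1 (mem_union_right _ hp)) with h' | h'
        · exact absurd h.2 (mem_sdiff.1 (hA' h')).2
        · exact h'
      · intro hp
        have h := mem_inter.1 (hB' hp)
        rcases mem_union.1 ((e2 p (mem_erase.1 h.1).2).2 (mem_union_right _ hp)) with h' | h'
        · exact absurd h.2 (mem_sdiff.1 (hA h')).2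
        · exact h'
    rw [eA, eB]

/-- the two windows compared -/
lemma Tr1_local (h : ℕ → ℕ) {r s i i' : ℕ} (S : Finset ℕ) (hs : s + 1 ≤ r) (h1 : i ≤ i')
    (h2 : i' ≤ i + 2 * r + 1) :
    ∑ k ∈ range (r + s), NS h (r + s) S (i + 1 + k)
        - ∑ k ∈ range (r - s - 1), NS h (r + s) S (i' + (r + s) + 1 + k)
      ≤ (2 * s + 1) * NS h (r + s) S i + 2 * r * osc h (r + s) S i (4 * r) := by
  have o0 := osc_nonneg h (r + s) S i (4 * r)
  have a1 : ∑ k ∈ range (r + s), NS h (r + s) S (i + 1 + k)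
      ≤ ((r + s : ℕ) : ℝ) * (NS h (r + s) S i + osc h (r + s) S i (4 * r)) := by
    rw [← nsmul_eq_mul]
    nth_rewrite 3 [← card_range (r + s)]
    refine sum_le_card_nsmul _ _ _ fun k hk => ?_
    have hk' := mem_range.1 hk
    have := (abs_le.1 (Tr1_near h (r + s) S i (n := 4 * r) (m := 1 + k) (by omega))).2
    rw [← add_assoc] at this
    linarith
  have a2 : ((r - s - 1 : ℕ) : ℝ) * (NS h (r + s) S i - osc h (r + s) S i (4 * r))
      ≤ ∑ k ∈ range (r - s - 1), NS h (r + s) S (i' + (r + s) + 1 + k) := by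
    rw [← nsmul_eq_mul]
    nth_rewrite 1 [← card_range (r - s - 1)]
    refine card_nsmul_le_sum _ _ _ fun k hk => ?_
    have hk' := mem_range.1 hk
    have := (abs_le.1 (Tr1_near h (r + s) S i (n := 4 * r)
      (m := i' - i + (r + s) + 1 + k) (by omega))).1
    rw [show i + (i' - i + (r + s) + 1 + k) = i' + (r + s) + 1 + k by omega] at this
    linarith
  have c : ((r - s - 1 : ℕ) : ℝ) = r - s - 1 := by
    rw [Nat.sub_sub, Nat.cast_sub hs]; push_cast; ring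
  rw [c] at a2
  push_cast at a1
  nlinarith

/-- Hints. `b = 2 ^ t`, `R = b ^ r`, `h = Nat.log b`, `F = N.primeFactors.erase l`, `S = F ∩ P`, `A₀ = F \ P`.
Divisors of `N` not divisible by `l` are the products `a T`, `a = ∏ A`, `T = ∏ B`, `A ⊆ A₀`, `B ⊆ S`
(squarefree: `Nat.divisors` of `N / l` versus subsets of `F`), and `b ^ h(B) ≤ T ≤ b ^ (h(B) + s)` where
`h(B) = ∑ p ∈ B, h p`. Fix `A` with `a ≤ D` (otherwise it does not contribute to `c2`), `i = h (D / a)`,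
`i' = h (N / (D a))`, so `i ≤ i' ≤ i + 2r + 1`. If `a T ∈ DD` then `r + s + h(B) ∈ [i + 1, i + r + s]`
(`r + s` values). If `h(B) ∈ [i' + 1, i' + r - s - 1]` (`r - s - 1` values, shifted indices in `[i, i + 4r]`) then
`N ≤ D a T` and `D a T < N R`, so `e = N / (a T)` lies in `DD`, `l ∣ e`, and `(A, B) ↦ e` is injective.
Every value of `NS` on `[i, i + 4r]` is within `osc` of `NS i`, whence
`(r + s) (NS i + osc) - (r - s - 1) (NS i - osc) ≤ EE`. -/
theorem tr1 {W D t r s N l : ℕ} (ht : 1 ≤ t) (hs : s + 1 ≤ r) (hN : Squarefree N)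
    (hW : N.Coprime W) (hω : N.primeFactors.card ≤ s)
    (h1 : D ^ 2 * ((2 ^ t) ^ r) ^ 2 < N) (h2 : N ≤ 2 * (D ^ 2 * ((2 ^ t) ^ r) ^ 2))
    (hl : l.Prime) (hlN : l ∣ N) (P : Finset ℕ) :
    (c2 W D ((2 ^ t) ^ r) N l : ℝ) - c1 W D ((2 ^ t) ^ r) N l
      ≤ ∑ A ∈ ((N.primeFactors.erase l) \ P).powerset.filter (fun A => ∏ p ∈ A, p ≤ D),
          EE t r s ((N.primeFactors.erase l) ∩ P) (Nat.log (2 ^ t) (D / ∏ p ∈ A, p)) := by
  have hb : 1 < 2 ^ t := Nat.one_lt_two_pow (by omega)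
  have hb2 : 2 ≤ 2 ^ t := hb
  set b := 2 ^ t with hbdef
  have hR : 0 < (b ^ r) ^ 2 := by positivity
  have hDN : D ^ 2 ≤ N := (Nat.le_mul_of_pos_right _ hR).trans h1.le
  have e2 := (Nat.cast_le (α := ℝ)).2 (Tr1_c2_le (W := W) (D := D) (r := r) (l := l) hb hN hω P)
  have e1 := (Nat.cast_le (α := ℝ)).2 (Tr1_c1_ge (W := W) hb hs hN hW hω hDN hl hlN P)
  rw [Nat.cast_sum] at e1 e2
  simp only [Tr1_card_window] at e1 e2
  refine (sub_le_sub e2 e1).trans ?_
  rw [← sum_sub_distrib]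
  refine sum_le_sum fun A hA => ?_
  obtain ⟨hA, haD⟩ := mem_filter.1 hA
  have hA' := mem_powerset.1 hA
  have ha0 : 0 < ∏ p ∈ A, p := prod_pos fun p hp =>
    (Nat.prime_of_mem_primeFactors (mem_erase.1 (mem_sdiff.1 (hA' hp)).1).2).pos
  set a := ∏ p ∈ A, p with ha
  have hD0 : 0 < D := ha0.trans_le haD
  have hDa0 : 0 < D * a := Nat.mul_pos hD0 ha0
  have hDa : D * a ≤ N := (Nat.mul_le_mul_left D haD).trans (by rw [← sq]; exact hDN)
  have l1 := Tr1_log_lo (b := b) ha0 haD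
  have l2 := Tr1_log_hi (X := D) hb ha0
  have l3 := Tr1_log_lo (b := b) hDa0 hDa
  have l4 := Tr1_log_hi (X := N) hb hDa0
  set i := Nat.log b (D / a) with hi
  set i' := Nat.log b (N / (D * a)) with hi'
  have u1 : i < i' + 1 := by
    refine (Nat.pow_lt_pow_iff_right hb).1 (Nat.lt_of_mul_lt_mul_right (a := D * a) ?_)
    calc b ^ i * (D * a) = D * (b ^ i * a) := by ring
      _ ≤ D * D := Nat.mul_le_mul_left D l1
      _ ≤ N := by rw [← sq]; exact hDN
      _ < _ := l4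
  have u2 : i' < i + 2 * r + 2 := by
    refine (Nat.pow_lt_pow_iff_right hb).1 (Nat.lt_of_mul_lt_mul_right (a := D * a) ?_)
    have hp : 0 < b * (D * (b ^ r) ^ 2) := by positivity
    calc b ^ i' * (D * a) ≤ N := l3
      _ ≤ 2 * (D ^ 2 * (b ^ r) ^ 2) := h2
      _ ≤ b * (D ^ 2 * (b ^ r) ^ 2) := Nat.mul_le_mul_right _ hb2
      _ = b * (D * (b ^ r) ^ 2) * D := by ring
      _ < b * (D * (b ^ r) ^ 2) * (b ^ (i + 1) * a) := Nat.mul_lt_mul_of_pos_left l2 hp
      _ = _ := by ring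
  exact Tr1_local (Nat.log b) _ hs (by omega) (by omega)

/-- `EE` vanishes beyond the largest height. -/
theorem EE_eq_zero {t r s J : ℕ} {S : Finset ℕ} (hS : S.card ≤ s)
    (hJ : ∀ p ∈ S, Nat.log (2 ^ t) p ≤ J) {i : ℕ} (hi : r + s + s * J < i) : EE t r s S i = 0 := by
  have z : ∀ j, i ≤ j → NS (Nat.log (2 ^ t)) (r + s) S j = 0 := by
    intro j hj
    rw [NS, Nat.cast_eq_zero, card_eq_zero, filter_eq_empty_iff]
    intro T hT
    have hT' := mem_powerset.1 hT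
    have h1 : ∑ p ∈ T, Nat.log (2 ^ t) p ≤ T.card * J := by
      rw [← smul_eq_mul]
      exact sum_le_card_nsmul _ _ _ fun p hp => hJ p (hT' hp)
    have h2 : T.card * J ≤ s * J := Nat.mul_le_mul_right J ((card_le_card hT').trans hS)
    omega
  have z2 : osc (Nat.log (2 ^ t)) (r + s) S i (4 * r) = 0 := by
    refine sum_eq_zero fun k _ => ?_
    rw [z _ (by omega), z _ (by omega), sub_zero, abs_zero]
  rw [EE, z i le_rfl, z2]
  ring

/-- Hint: `∑ i, NS i ≤ 2 ^ card S`, and each `|NS (j+1) - NS j|`, `j < m + 4r`, occurs at most `4r` times. -/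
theorem sum_EE_le (t r s : ℕ) (S : Finset ℕ) (m : ℕ) :
    ∑ i ∈ range m, EE t r s S i
      ≤ (2 * s + 1) * 2 ^ S.card + 8 * r ^ 2 * osc (Nat.log (2 ^ t)) (r + s) S 0 (m + 4 * r) := by
  set h := Nat.log (2 ^ t) with hh
  have a1 : ∑ i ∈ range m, NS h (r + s) S i ≤ 2 ^ S.card := by
    have e := Tr1_card_window h (r + s) S 0 m
    simp only [zero_add] at e
    rw [← e]
    have := card_filter_le S.powerset
      (fun T => 0 ≤ r + s + ∑ p ∈ T, h p ∧ r + s + ∑ p ∈ T, h p < m)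
    rw [card_powerset] at this
    exact_mod_cast this
  have a2 : ∑ i ∈ range m, osc h (r + s) S i (4 * r)
      ≤ ((4 * r : ℕ) : ℝ) * osc h (r + s) S 0 (m + 4 * r) := by
    unfold osc
    rw [sum_comm, ← nsmul_eq_mul]
    nth_rewrite 2 [← card_range (4 * r)]
    refine sum_le_card_nsmul _ _ _ fun k hk => ?_
    have hk' := mem_range.1 hk
    simp only [zero_add]
    have e := Finset.sum_range_add
      (fun j => |NS h (r + s) S (j + 1) - NS h (r + s) S j|) k m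
    have p1 : 0 ≤ ∑ j ∈ range k, |NS h (r + s) S (j + 1) - NS h (r + s) S j| :=
      sum_nonneg fun _ _ => abs_nonneg _
    have p2 : ∑ j ∈ range (k + m), |NS h (r + s) S (j + 1) - NS h (r + s) S j|
        ≤ ∑ j ∈ range (m + 4 * r), |NS h (r + s) S (j + 1) - NS h (r + s) S j| :=
      sum_le_sum_of_subset_of_nonneg (range_mono (by omega)) fun _ _ _ => abs_nonneg _
    have p3 : ∑ i ∈ range m, |NS h (r + s) S (i + k + 1) - NS h (r + s) S (i + k)|
        = ∑ i ∈ range m, |NS h (r + s) S (k + i + 1) - NS h (r + s) S (k + i)| :=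
      sum_congr rfl fun i _ => by rw [add_comm i k]
    rw [p3]
    linarith
  unfold EE
  rw [sum_add_distrib, ← mul_sum, ← mul_sum]
  push_cast at a2
  have b1 : (0 : ℝ) ≤ 2 * s + 1 := by positivity
  have b2 : (0 : ℝ) ≤ 2 * r := by positivity
  have c1' := mul_le_mul_of_nonneg_left a1 b1
  have c2' := mul_le_mul_of_nonneg_left a2 b2
  nlinarith

end Pool.Agent.Work.MP_6d9ff5_nt
end
end

-- merged part: Pool.Agent.Work.MP_6d9ff5_nt.Tr2
section
/-!
# Transfer across the square root, change of variables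
-/

noncomputable section

open Finset

namespace Pool.Agent.Work.MP_6d9ff5_nt

lemma Tr2_inj {α β : Type*} (s : Finset α) (t : Finset β) (φ : α → β) (f : α → ℝ) (g : β → ℝ)
    (hm : ∀ a ∈ s, φ a ∈ t) (hi : Set.InjOn φ s) (hf : ∀ a ∈ s, f a ≤ g (φ a))
    (hg : ∀ b ∈ t, 0 ≤ g b) : ∑ a ∈ s, f a ≤ ∑ b ∈ t, g b := by
  classical
  refine (sum_le_sum hf).trans ?_
  rw [← sum_image hi]
  exact sum_le_sum_of_subset_of_nonneg (image_subset_iff.2 hm) fun b hb _ => hg b hb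

lemma Tr2_ndvd (P B : Finset ℕ) (hP : ∀ p ∈ P, p.Prime) (hB : ∀ q ∈ B, q.Prime ∧ q ∉ P) :
    ∀ p ∈ P, ¬ p ∣ ∏ q ∈ B, q := by
  intro p hp hd
  obtain ⟨q, hq, hpq⟩ := ((hP p hp).prime.dvd_finsetProd_iff _).1 hd
  have := (Nat.prime_dvd_prime_iff_eq (hP p hp) (hB q hq).1).1 hpq
  exact (hB q hq).2 (this ▸ hp)

lemma Tr2_fact (N : ℕ) (hN : Squarefree N) (P Q A : Finset ℕ) (hQP : Q ⊆ P)
    (hQ : Q ⊆ N.primeFactors) (hA : A ⊆ N.primeFactors \ P) :
    ((∏ p ∈ A, p) * (∏ p ∈ Q, p) * ∏ p ∈ (N.primeFactors \ Q) ∩ P, p)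
      * ∏ p ∈ (N.primeFactors \ P) \ A, p = N := by
  have h1 := Nat.prod_primeFactors_of_squarefree hN
  have h2 := prod_inter_mul_prod_sdiff N.primeFactors P (fun p : ℕ => p)
  have h3 := prod_sdiff (f := fun p : ℕ => p) hA
  have h4 := prod_sdiff (f := fun p : ℕ => p) (subset_inter hQ hQP)
  have h5 : (N.primeFactors ∩ P) \ Q = (N.primeFactors \ Q) ∩ P := by
    ext x
    simp only [mem_sdiff, mem_inter]
    tauto
  rw [h5] at h4
  rw [h1, ← h3, ← h4] at h2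
  rw [← h2]
  conv_lhs => rw [h2]
  ring

/-- the change of variables with a fixed set `Q` of removed primes -/
lemma Tr2_core (W Y D s : ℕ) (P : Finset ℕ) (hP : ∀ p ∈ P, p.Prime) (F : Finset ℕ → ℕ → ℝ)
    (hF : ∀ S a, 0 ≤ F S a) (Q : Finset ℕ) (hQP : Q ⊆ P) (G : Finset ℕ) (hG : G ⊆ GG W Y s)
    (hG2 : ∀ N ∈ G, (2 * N - 1).Prime ∧ Q ⊆ N.primeFactors) :
    ∑ N ∈ G, ∑ A ∈ (N.primeFactors \ P).powerset.filter (fun A => ∏ p ∈ A, p ≤ D),
          F ((N.primeFactors \ Q) ∩ P) (∏ p ∈ A, p)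
      ≤ ∑ S ∈ P.powerset.filter (fun S => S.card ≤ s),
          ∑ a ∈ (Icc 1 D).filter (fun a => ∀ p ∈ P, ¬ p ∣ a),
            F S a * Hc P Y (a * (∏ p ∈ Q, p) * ∏ p ∈ S, p) := by
  have e : ∀ (S : Finset ℕ) (a u : ℕ), F S a * Hc P Y u
      = ∑ _b ∈ (Icc 1 (2 * Y / u)).filter fun b =>
          Y < u * b ∧ (∀ p ∈ P, ¬ p ∣ b) ∧ (2 * (u * b) - 1).Prime, F S a := by
    intro S a u
    rw [sum_const, nsmul_eq_mul, mul_comm]
    rfl
  simp only [e]
  rw [sum_sigma']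
  simp only [sum_sigma']
  refine Tr2_inj _ _ (fun x => ⟨(x.1.primeFactors \ Q) ∩ P, ⟨∏ p ∈ x.2, p,
    ∏ p ∈ (x.1.primeFactors \ P) \ x.2, p⟩⟩) _ _ ?_ ?_ (fun _ _ => le_rfl) fun _ _ => hF _ _
  · rintro ⟨N, A⟩ hx
    obtain ⟨hN, hA⟩ := mem_sigma.1 hx
    obtain ⟨hA, hAD⟩ := mem_filter.1 hA
    replace hA : A ⊆ N.primeFactors \ P := mem_powerset.1 hA
    obtain ⟨hNN, hsq, hs⟩ := mem_filter.1 (hG hN)
    obtain ⟨hN1, hN2⟩ := mem_Ioc.1 (mem_filter.1 hNN).1
    obtain ⟨hpr, hQ⟩ := hG2 N hN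
    have hf := Tr2_fact N hsq P Q A hQP hQ hA
    have hpp : ∀ q ∈ N.primeFactors \ P, q.Prime ∧ q ∉ P := fun q hq =>
      ⟨Nat.prime_of_mem_primeFactors (mem_sdiff.1 hq).1, (mem_sdiff.1 hq).2⟩
    simp only at hN1 hN2 hpr hs hAD
    refine mem_sigma.2 ⟨mem_filter.2 ⟨mem_powerset.2 inter_subset_right,
      (card_le_card (inter_subset_left.trans sdiff_subset)).trans hs⟩,
      mem_sigma.2 ⟨mem_filter.2 ⟨mem_Icc.2 ⟨prod_pos fun q hq => (hpp q (hA hq)).1.pos, hAD⟩,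
        Tr2_ndvd P A hP fun q hq => hpp q (hA hq)⟩, mem_filter.2 ⟨mem_Icc.2 ⟨?_, ?_⟩, ?_,
        Tr2_ndvd P _ hP fun q hq => hpp q (mem_sdiff.1 hq).1, ?_⟩⟩⟩
    · exact prod_pos fun q hq => (hpp q (mem_sdiff.1 hq).1).1.pos
    · simp only
      rw [Nat.le_div_iff_mul_le (Nat.pos_of_mul_pos_right (hf.symm ▸ (by omega : 0 < N))),
        mul_comm, hf]
      exact hN2
    · simp only
      rw [hf]
      exact hN1
    · simp only
      rw [hf]
      exact hpr
  · rintro ⟨N, A⟩ hx ⟨N', A'⟩ hx' h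
    obtain ⟨hN, hA⟩ := mem_sigma.1 (mem_coe.1 hx)
    obtain ⟨hN', hA'⟩ := mem_sigma.1 (mem_coe.1 hx')
    replace hA : A ⊆ N.primeFactors \ P := mem_powerset.1 (mem_filter.1 hA).1
    replace hA' : A' ⊆ N'.primeFactors \ P := mem_powerset.1 (mem_filter.1 hA').1
    have hf := Tr2_fact N (mem_filter.1 (hG hN)).2.1 P Q A hQP (hG2 N hN).2 hA
    have hf' := Tr2_fact N' (mem_filter.1 (hG hN')).2.1 P Q A' hQP (hG2 N' hN').2 hA'
    simp only [Sigma.mk.injEq, heq_eq_eq] at h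
    obtain ⟨h1, h2, h3⟩ := h
    have hNN : N = N' := by rw [← hf, ← hf', h1, h2, h3]
    have hAA : A = A' := by
      rw [← Nat.primeFactors_prod (s := A) fun q hq =>
          Nat.prime_of_mem_primeFactors (mem_sdiff.1 (hA hq)).1,
        ← Nat.primeFactors_prod (s := A') fun q hq =>
          Nat.prime_of_mem_primeFactors (mem_sdiff.1 (hA' hq)).1, h2]
    subst hNN hAA
    rfl

/-- Hints. Split `l ∉ P` and `l ∈ P`; only `N` with `2N - 1` prime contribute and `th ≤ log (4Y)` (`th_le`).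
For `l ∉ P`: the set `S = primeFactors N ∩ P` does not depend on `l`, the sets `A` lie in `primeFactors N \ P`,
at most `s` primes `l` divide `N`, and `(N, A) ↦ (S, a = ∏ A, b = N / (a ∏ S))` is injective with `b` counted
by `Hc P Y (a ∏ S)` (`N` squarefree). For fixed `l ∈ P` (extend the sum from `I ∩ P` to `P`):
`(N, A) ↦ (S.erase l, a, b = N / (a l ∏ (S.erase l)))`. `Lib.LargeSieve.sum_le_of_injOn` with sigma types
is one way to write this. -/
theorem tr2 (W Y D s : ℕ) (P : Finset ℕ) (hP : ∀ p ∈ P, p.Prime) (F : Finset ℕ → ℕ → ℝ)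
    (hF : ∀ S a, 0 ≤ F S a) (I : Finset ℕ) (hI : ∀ l ∈ I, l.Prime) :
    ∑ l ∈ I, ∑ N ∈ (GG W Y s).filter (fun N => l ∣ N), th (2 * N - 1) *
        ∑ A ∈ ((N.primeFactors.erase l) \ P).powerset.filter (fun A => ∏ p ∈ A, p ≤ D),
          F ((N.primeFactors.erase l) ∩ P) (∏ p ∈ A, p)
      ≤ Real.log (4 * Y) * ∑ S ∈ P.powerset.filter (fun S => S.card ≤ s),
          ∑ a ∈ (Icc 1 D).filter (fun a => ∀ p ∈ P, ¬ p ∣ a),
            F S a * (s * Hc P Y (a * ∏ p ∈ S, p) + ∑ l ∈ P, (Hc P Y (a * l * ∏ p ∈ S, p) : ℝ)) := by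
  classical
  have hL : 0 ≤ Real.log (4 * Y) := by
    have := Real.log_natCast_nonneg (4 * Y)
    exact_mod_cast this
  set G := (GG W Y s).filter fun N => (2 * N - 1).Prime with hG
  set Φ : ℕ → Finset ℕ → ℝ := fun N Q =>
    ∑ A ∈ (N.primeFactors \ P).powerset.filter (fun A => ∏ p ∈ A, p ≤ D),
      F ((N.primeFactors \ Q) ∩ P) (∏ p ∈ A, p) with hΦ
  have hΦ0 : ∀ N Q, 0 ≤ Φ N Q := fun N Q => sum_nonneg fun _ _ => hF _ _
  have step : ∀ l : ℕ, ∀ Q : Finset ℕ, (∀ N : ℕ, N.primeFactors.erase l ∩ P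
        = (N.primeFactors \ Q) ∩ P) →
      ∑ N ∈ (GG W Y s).filter (fun N => l ∣ N), th (2 * N - 1) *
        ∑ A ∈ ((N.primeFactors.erase l) \ P).powerset.filter (fun A => ∏ p ∈ A, p ≤ D),
          F ((N.primeFactors.erase l) ∩ P) (∏ p ∈ A, p)
      ≤ Real.log (4 * Y) * ∑ N ∈ G.filter (fun N => l ∣ N), Φ N Q := by
    intro l Q hQ
    rw [hG, filter_comm, sum_filter (s := (GG W Y s).filter fun N => l ∣ N), mul_sum]
    refine sum_le_sum fun N hN => ?_
    split_ifs with hp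
    · refine mul_le_mul (th_le (mem_filter.1 (mem_filter.1 hN).1).1) ?_
        (sum_nonneg fun _ _ => hF _ _) hL
      rw [hQ]
      exact sum_le_sum_of_subset_of_nonneg (filter_subset_filter _ (powerset_mono.2
        (sdiff_subset_sdiff (erase_subset _ _) Subset.rfl))) fun _ _ _ => hF _ _
    · simp [th, hp]
  have hN0 : ∀ N ∈ G, N ≠ 0 := fun N hN => (mem_filter.1 (mem_filter.1 hN).1).2.1.ne_zero
  have out : ∑ l ∈ I.filter (fun l => l ∉ P), ∑ N ∈ G.filter (fun N => l ∣ N), Φ N ∅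
      ≤ s * ∑ N ∈ G, Φ N ∅ := by
    simp only [sum_filter (fun N => _ ∣ N)]
    rw [sum_comm, mul_sum]
    refine sum_le_sum fun N hN => ?_
    rw [← sum_filter, sum_const, nsmul_eq_mul]
    refine mul_le_mul_of_nonneg_right ?_ (hΦ0 _ _)
    have : ((I.filter fun l => l ∉ P).filter fun l => l ∣ N) ⊆ N.primeFactors := fun l hl =>
      Nat.mem_primeFactors.2 ⟨hI l (mem_filter.1 (mem_filter.1 hl).1).1, (mem_filter.1 hl).2,
        hN0 N hN⟩
    exact_mod_cast (card_le_card this).trans (mem_filter.1 (mem_filter.1 hN).1).2.2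
  have c0 := Tr2_core W Y D s P hP F hF ∅ (empty_subset _) G (filter_subset _ _)
    fun N hN => ⟨(mem_filter.1 hN).2, empty_subset _⟩
  have c1 : ∀ l ∈ P, ∑ N ∈ G.filter (fun N => l ∣ N), Φ N {l}
      ≤ ∑ S ∈ P.powerset.filter (fun S => S.card ≤ s),
          ∑ a ∈ (Icc 1 D).filter (fun a => ∀ p ∈ P, ¬ p ∣ a),
            F S a * Hc P Y (a * l * ∏ p ∈ S, p) := by
    intro l hl
    have := Tr2_core W Y D s P hP F hF {l} (singleton_subset_iff.2 hl)
      (G.filter fun N => l ∣ N) ((filter_subset _ _).trans (filter_subset _ _))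
      fun N hN => ⟨(mem_filter.1 (mem_filter.1 hN).1).2, singleton_subset_iff.2
        (Nat.mem_primeFactors.2 ⟨hP l hl, (mem_filter.1 hN).2, hN0 N (mem_filter.1 hN).1⟩)⟩
    simpa only [prod_singleton] using this
  simp only [prod_empty, mul_one] at c0
  rw [← sum_filter_add_sum_filter_not I (fun l => l ∈ P)]
  have a1 := sum_le_sum fun l (_ : l ∈ I.filter fun l => l ∈ P) =>
    step l {l} fun N => by rw [sdiff_singleton_eq_erase]
  have a2 := sum_le_sum fun l (hl : l ∈ I.filter fun l => l ∉ P) =>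
    step l ∅ fun N => by
      ext x
      simp only [mem_inter, mem_erase, sdiff_empty]
      exact ⟨fun h => ⟨h.1.2, h.2⟩, fun h => ⟨⟨fun e => (mem_filter.1 hl).2 (e ▸ h.2), h.1⟩, h.2⟩⟩
  rw [← mul_sum] at a1 a2
  have a3 : ∑ l ∈ I.filter (fun l => l ∈ P), ∑ N ∈ G.filter (fun N => l ∣ N), Φ N {l}
      ≤ ∑ l ∈ P, ∑ N ∈ G.filter (fun N => l ∣ N), Φ N {l} :=
    sum_le_sum_of_subset_of_nonneg (fun l hl => (mem_filter.1 hl).2)
      fun _ _ _ => sum_nonneg fun _ _ => hΦ0 _ _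
  refine (add_le_add a1 a2).trans ?_
  rw [← mul_add]
  refine mul_le_mul_of_nonneg_left ?_ hL
  have a4 := (a3.trans (sum_le_sum c1))
  have a5 := out.trans (mul_le_mul_of_nonneg_left c0 (Nat.cast_nonneg s))
  refine (add_le_add a4 a5).trans (le_of_eq ?_)
  rw [sum_comm, mul_sum, ← sum_add_distrib]
  refine sum_congr rfl fun S _ => ?_
  rw [sum_comm, mul_sum, ← sum_add_distrib]
  refine sum_congr rfl fun a _ => ?_
  rw [mul_add, mul_sum]
  ring

end Pool.Agent.Work.MP_6d9ff5_nt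
end
end

-- merged part: Pool.Agent.Work.MP_6d9ff5_nt.Sv
section
/-!
# Upper bound sieves
-/

noncomputable section

open Finset

namespace Pool.Agent.Work.MP_6d9ff5_nt

/-- the primes up to `z` -/
def Sv_Ps (z : ℝ) : Finset ℕ := (range (⌊z⌋₊ + 1)).filter Nat.Prime

lemma Sv_mem (z : ℝ) (hz : 0 ≤ z) (p : ℕ) : p ∈ Sv_Ps z ↔ p.Prime ∧ (p : ℝ) ≤ z := by
  unfold Sv_Ps
  rw [mem_filter, mem_range, Nat.lt_succ_iff, Nat.le_floor_iff hz, and_comm]

/-- the product of the primes up to `z` outside `P` -/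
def Sv_q (P : Finset ℕ) (z : ℝ) : ℕ := ∏ p ∈ Sv_Ps z \ P, p

lemma Sv_q_pos (P : Finset ℕ) (z : ℝ) : 0 < Sv_q P z :=
  prod_pos fun _ hp => (mem_filter.1 (mem_sdiff.1 hp).1).2.pos

lemma Sv_q_dvd (P : Finset ℕ) (z : ℝ) (hz : 0 ≤ z) (p : ℕ) (hp : p.Prime) (hpz : (p : ℝ) ≤ z)
    (h : p ∉ P) : p ∣ Sv_q P z :=
  dvd_prod_of_mem _ (mem_sdiff.2 ⟨(Sv_mem z hz p).2 ⟨hp, hpz⟩, h⟩)

lemma Sv_q_bound (P : Finset ℕ) (z : ℝ) (hz : 2 ≤ z) (hP : ∀ p ∈ P, p.Prime ∧ (p : ℝ) ≤ z) :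
    1 ≤ (Real.exp 73 * Real.exp (-lam P)) *
      (((Sv_q P z).totient : ℝ) / (Sv_q P z) * Real.log z) := by
  have hz0 : (0 : ℝ) ≤ z := by linarith
  have hq0 : (0 : ℝ) < Sv_q P z := by exact_mod_cast Sv_q_pos P z
  have hsub : P ⊆ Sv_Ps z := fun p hp => (Sv_mem z hz0 p).2 (hP p hp)
  have hpf : (Sv_q P z).primeFactors = Sv_Ps z \ P :=
    Nat.primeFactors_prod fun p hp => (mem_filter.1 (mem_sdiff.1 hp).1).2
  have htot : ((Sv_q P z).totient : ℝ) / (Sv_q P z) = ∏ p ∈ Sv_Ps z \ P, (1 - (p : ℝ)⁻¹) := by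
    have h := Nat.totient_eq_mul_prod_factors (Sv_q P z)
    have h2 : (((Sv_q P z).totient : ℚ) : ℝ) =
        (((Sv_q P z : ℚ) * ∏ p ∈ (Sv_q P z).primeFactors, (1 - (p : ℚ)⁻¹) : ℚ) : ℝ) := by rw [h]
    push_cast at h2
    rw [h2, hpf]; field_simp
  have hpos : ∀ p ∈ Sv_Ps z, (0 : ℝ) < 1 - (p : ℝ)⁻¹ := fun p hp => by
    have h1 : (1 : ℝ) < p := by exact_mod_cast (mem_filter.1 hp).2.one_lt
    have := inv_lt_one_of_one_lt₀ h1
    linarith
  have hN : 2 ≤ ⌊z⌋₊ := Nat.le_floor (by exact_mod_cast hz)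
  have hM := Lib.ANT.prod_one_sub_inv_prime_inv_le ⌊z⌋₊ hN
  have hset : (Ioc 0 ⌊z⌋₊).filter Nat.Prime = Sv_Ps z := by
    ext p
    simp only [Sv_Ps, mem_filter, mem_Ioc, mem_range, Nat.lt_succ_iff]
    exact ⟨fun h => ⟨h.1.2, h.2⟩, fun h => ⟨⟨h.2.pos, h.1⟩, h.2⟩⟩
  rw [hset, prod_inv_distrib] at hM
  have hlog : Real.log (⌊z⌋₊ : ℝ) ≤ Real.log z :=
    Real.log_le_log (by exact_mod_cast (by omega : 0 < ⌊z⌋₊)) (Nat.floor_le hz0)
  have hA : 0 < ∏ p ∈ Sv_Ps z \ P, (1 - (p : ℝ)⁻¹) :=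
    prod_pos fun p hp => hpos p (mem_sdiff.1 hp).1
  have hB : 0 < ∏ p ∈ P, (1 - (p : ℝ)⁻¹) := prod_pos fun p hp => hpos p (hsub hp)
  have hBle : ∏ p ∈ P, (1 - (p : ℝ)⁻¹) ≤ Real.exp (-lam P) := by
    unfold lam
    rw [← sum_neg_distrib, Real.exp_sum]
    refine prod_le_prod (fun p hp => (hpos p (hsub hp)).le) fun p _ => ?_
    have := Real.add_one_le_exp (-(1 / (p : ℝ)))
    rw [one_div] at this ⊢
    linarith
  rw [← prod_sdiff hsub] at hM
  rw [htot]
  set A := ∏ p ∈ Sv_Ps z \ P, (1 - (p : ℝ)⁻¹)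
  set B := ∏ p ∈ P, (1 - (p : ℝ)⁻¹)
  have hL : 0 < Real.log z := Real.log_pos (by linarith)
  have h1 : (A * B)⁻¹ ≤ Real.exp 73 * Real.log z :=
    hM.trans (mul_le_mul_of_nonneg_left hlog (Real.exp_pos _).le)
  have h2 : 1 ≤ (A * B) * (Real.exp 73 * Real.log z) := by
    have := mul_le_mul_of_nonneg_left h1 (mul_pos hA hB).le
    rwa [mul_inv_cancel₀ (mul_pos hA hB).ne'] at this
  have h3 : B * (A * (Real.exp 73 * Real.log z)) ≤
      Real.exp (-lam P) * (A * (Real.exp 73 * Real.log z)) :=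
    mul_le_mul_of_nonneg_right hBle (by positivity)
  nlinarith

/-- residues `x` with `2 u x = 1` -/
def Sv_R (u p : ℕ) : Finset ℕ := (range p).filter fun x => 2 * u * x ≡ 1 [MOD p]

lemma Sv_R_le (u p : ℕ) : (Sv_R u p).card ≤ 1 := by
  refine card_le_one.2 fun a ha b hb => ?_
  obtain ⟨ha1, ha2⟩ := mem_filter.1 ha
  obtain ⟨hb1, hb2⟩ := mem_filter.1 hb
  have hc : Nat.Coprime p (2 * u) := (Nat.coprime_of_mul_modEq_one a ha2).symm
  have h : a ≡ b [MOD p] := Nat.ModEq.cancel_left_of_coprime hc (ha2.trans hb2.symm)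
  exact Nat.ModEq.eq_of_lt_of_lt h (mem_range.1 ha1) (mem_range.1 hb1)

lemma Sv_R_ne (u p : ℕ) (hp : p.Prime) (h : ¬ p ∣ 2 * u) : (Sv_R u p).Nonempty := by
  have hc : Nat.Coprime (2 * u) p := ((Nat.Prime.coprime_iff_not_dvd hp).2 h).symm
  obtain ⟨m, -, hm⟩ := Nat.exists_mul_mod_eq_one_of_coprime hc hp.one_lt
  refine ⟨m % p, mem_filter.2 ⟨mem_range.2 (Nat.mod_lt _ hp.pos), ?_⟩⟩
  have h1 : 2 * u * (m % p) ≡ 2 * u * m [MOD p] := (Nat.mod_modEq m p).mul_left _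
  refine h1.trans ?_
  unfold Nat.ModEq
  rw [hm, Nat.mod_eq_of_lt hp.one_lt]

lemma Sv_R_zero (u p : ℕ) (hp : p.Prime) : 0 ∉ Sv_R u p := fun h => by
  have h2 := (mem_filter.1 h).2
  rw [mul_zero] at h2
  exact hp.one_lt.ne' (Nat.dvd_one.1 ((Nat.modEq_zero_iff_dvd).1 h2.symm))

lemma Sv_R_two (u : ℕ) : Sv_R u 2 = ∅ := by
  refine eq_empty_of_forall_notMem fun x hx => ?_
  have h2 := (mem_filter.1 hx).2
  unfold Nat.ModEq at h2
  rw [mul_assoc] at h2
  omega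

lemma Sv_core (P : Finset ℕ) (z : ℝ) (hz : 2 ≤ z) (u X : ℕ) (hu : 0 < u) :
    (((Icc 1 X).filter fun b : ℕ => (∀ p ∈ P, ¬ p ∣ b) ∧ (2 * (u * b) - 1).Prime ∧
        z < ((2 * (u * b) - 1 : ℕ) : ℝ)).card : ℝ)
      ≤ X / ((((Sv_q P z).totient : ℝ) / (Sv_q P z) * Real.log z) *
          (((2 * u).totient : ℝ) / (2 * u : ℕ) * Real.log z)) + z ^ 8 := by
  classical
  have hz0 : (0 : ℝ) ≤ z := by linarith
  have h := Lib.ANT.sieve_dim (univ : Finset Bool) (fun i => if i then Sv_q P z else 2 * u)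
    (fun i _ => by cases i <;> simp [Sv_q_pos, hu]) z (by linarith)
    (fun p => (if p ∈ P then {0} else ∅) ∪ Sv_R u p)
    (fun p hp _ => by
      refine union_subset ?_ (filter_subset _ _)
      split_ifs
      · simpa using hp.pos
      · exact empty_subset _)
    (fun p hp _ => by
      have h1 : (if p ∈ P then ({0} : Finset ℕ) else ∅).card ≤ 1 := by split_ifs <;> simp
      have h2 := card_union_le (if p ∈ P then ({0} : Finset ℕ) else ∅) (Sv_R u p)
      have h3 := Sv_R_le u p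
      rcases hp.eq_two_or_odd' with rfl | ho
      · rw [Sv_R_two, union_empty]; omega
      · have h4 := hp.two_le
        have h5 : p ≠ 2 := by rintro rfl; exact absurd ho (by decide)
        omega)
    (fun p hp hpz => by
      have hd : Disjoint (if p ∈ P then ({0} : Finset ℕ) else ∅) (Sv_R u p) := by
        split_ifs
        · exact disjoint_singleton_left.2 (Sv_R_zero u p hp)
        · exact disjoint_empty_left _
      rw [card_union_of_disjoint hd, card_filter, Fintype.sum_bool]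
      refine add_le_add ?_ ?_
      · by_cases hpP : p ∈ P
        · rw [if_pos hpP, card_singleton]; split_ifs <;> simp
        · simp [Sv_q_dvd P z hz0 p hp hpz hpP]
      · by_cases hd2 : p ∣ 2 * u
        · simp [hd2]
        · have := card_pos.2 (Sv_R_ne u p hp hd2)
          simp only [Bool.false_eq_true, if_false, hd2, not_false_eq_true, if_true]
          omega)
    0 X
  rw [Fintype.prod_bool, card_univ, Fintype.card_bool, ← pow_mul] at h
  simp only [if_true, Bool.false_eq_true, if_false] at h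
  refine le_trans (Nat.cast_le.2 (card_le_card fun b hb => ?_)) h
  obtain ⟨hb1, hb2, hb3, hb4⟩ := mem_filter.1 hb
  obtain ⟨hb5, hb6⟩ := mem_Icc.1 hb1
  refine mem_filter.2 ⟨mem_Ioc.2 ⟨hb5, by omega⟩, fun p hp hmem => ?_⟩
  obtain ⟨hpp, hpz⟩ := (Sv_mem z hz0 p).1 hp
  rcases mem_union.1 hmem with h1 | h1
  · split_ifs at h1 with hpP
    · exact hb2 p hpP (Nat.dvd_of_mod_eq_zero (mem_singleton.1 h1))
    · simp at h1
  · have h2 : 2 * u * b ≡ 1 [MOD p] :=
      ((Nat.mod_modEq b p).mul_left _).symm.trans (mem_filter.1 h1).2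
    have hpos : 1 ≤ 2 * u * b := Nat.mul_pos (by omega) hb5
    have h3 : p ∣ 2 * u * b - 1 := (Nat.modEq_iff_dvd' hpos).1 h2.symm
    rw [mul_assoc] at h3
    have h4 := (Nat.prime_dvd_prime_iff_eq hpp hb3).1 h3
    rw [← h4] at hb4
    linarith

/-- Hints. `Lib.ANT.sieve_dim` with `I = univ : Finset (Fin 2)` (or `Bool`), `q₀ = ∏ (p ≤ z prime, p ∉ P) p`,
`q₁ = 2u`, `Ω p` = residues `x < p` with (`p ∈ P` and `x = 0`) or `p ∣ 2 u x - 1` (write it as
`2 u x ≡ 1 [MOD p]`; exactly one residue if `p ∤ 2u`, none otherwise, never `0`).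
`φ q₀ / q₀ * log z ≥ exp (-73) exp (lam P)` by `prod_one_sub_inv_prime_inv_le` and `1 - 1/p ≤ exp (-1/p)`. -/
theorem sv1 (P : Finset ℕ) (z : ℝ) (hz : 2 ≤ z) (hP : ∀ p ∈ P, p.Prime ∧ 3 ≤ p ∧ (p : ℝ) ≤ z)
    (u X : ℕ) (hu : 0 < u) :
    (((Icc 1 X).filter fun b : ℕ => (∀ p ∈ P, ¬ p ∣ b) ∧ (2 * (u * b) - 1).Prime ∧
        z < ((2 * (u * b) - 1 : ℕ) : ℝ)).card : ℝ)
      ≤ X * (Real.exp 73 * Real.exp (-lam P)) * ((2 * u : ℕ) / (2 * u).totient) / Real.log z
        + z ^ 8 := by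
  have hq := Sv_q_bound P z hz fun p hp => ⟨(hP p hp).1, (hP p hp).2.2⟩
  refine (Sv_core P z hz u X hu).trans (add_le_add ?_ le_rfl)
  have hL : 0 < Real.log z := Real.log_pos (by linarith)
  have ht : (0 : ℝ) < (2 * u).totient := by exact_mod_cast Nat.totient_pos.2 (by omega)
  have hu' : (0 : ℝ) < (2 * u : ℕ) := by exact_mod_cast (by omega : 0 < 2 * u)
  set E := Real.exp 73 * Real.exp (-lam P) with hE
  have hE0 : 0 < E := by positivity
  set A := ((Sv_q P z).totient : ℝ) / (Sv_q P z) * Real.log z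
  have hA : 0 < A := by
    by_contra hn
    have := mul_nonpos_of_nonneg_of_nonpos hE0.le (not_lt.1 hn)
    linarith
  have h1 : 1 / A ≤ E := by rw [div_le_iff₀ hA]; exact hq
  have h2 : (X : ℝ) / (A * (((2 * u).totient : ℝ) / (2 * u : ℕ) * Real.log z))
      = X * (1 / A) * ((2 * u : ℕ) / (2 * u).totient) / Real.log z := by field_simp
  rw [h2]
  gcongr

/-- Hint: `sieve_dim` with one form. -/
theorem sv2 (P : Finset ℕ) (z : ℝ) (hz : 2 ≤ z) (hP : ∀ p ∈ P, p.Prime ∧ (p : ℝ) ≤ z) (v : ℕ) :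
    (((Ioc v (2 * v)).filter fun a => ∀ p ∈ P, ¬ p ∣ a).card : ℝ)
      ≤ v * (Real.exp 73 * Real.exp (-lam P)) + z ^ 4 := by
  classical
  have hz0 : (0 : ℝ) ≤ z := by linarith
  have hq := Sv_q_bound P z hz hP
  have h := Lib.ANT.sieve_dim (univ : Finset Unit) (fun _ => Sv_q P z)
    (fun _ _ => Sv_q_pos P z) z (by linarith) (fun p => if p ∈ P then {0} else ∅)
    (fun p hp _ => by
      split_ifs
      · simpa using hp.pos
      · exact empty_subset _)
    (fun p hp _ => by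
      split_ifs
      · simpa using hp.one_lt
      · simpa using hp.pos)
    (fun p hp hpz => by
      by_cases hpP : p ∈ P
      · rw [if_pos hpP, card_singleton]
        exact (card_filter_le _ _).trans (by simp)
      · simp [Sv_q_dvd P z hz0 p hp hpz hpP])
    v v
  rw [Fintype.prod_unique, card_univ, Fintype.card_unit, pow_one] at h
  refine le_trans (Nat.cast_le.2 (card_le_card fun b hb => ?_)) (h.trans (add_le_add ?_ le_rfl))
  · obtain ⟨hb1, hb2⟩ := mem_filter.1 hb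
    refine mem_filter.2 ⟨by rwa [← two_mul], fun p _ hmem => ?_⟩
    split_ifs at hmem with hpP
    · exact hb2 p hpP (Nat.dvd_of_mod_eq_zero (mem_singleton.1 hmem))
    · simp at hmem
  · set E := Real.exp 73 * Real.exp (-lam P) with hE
    have hE0 : 0 < E := by positivity
    set A := ((Sv_q P z).totient : ℝ) / (Sv_q P z) * Real.log z
    have hA : 0 < A := by
      by_contra hn
      have := mul_nonpos_of_nonneg_of_nonpos hE0.le (not_lt.1 hn)
      linarith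
    have h1 : 1 / A ≤ E := by rw [div_le_iff₀ hA]; exact hq
    rw [div_eq_mul_one_div]
    gcongr

/-- Hint: `sieve_dim` with `q₀ = 1`, `q₁ = 2u`. -/
theorem sv3 (z : ℝ) (hz : 2 ≤ z) (u X : ℕ) (hu : 0 < u) :
    (((Icc 1 X).filter fun b : ℕ => b.Prime ∧ z < (b : ℝ) ∧ (2 * (u * b) - 1).Prime).card : ℝ)
      ≤ X * ((2 * u : ℕ) / (2 * u).totient) / Real.log z ^ 2 + z ^ 8 := by
  have hz0 : (0 : ℝ) ≤ z := by linarith
  have h := Sv_core (Sv_Ps z) z hz u X hu
  have hq : Sv_q (Sv_Ps z) z = 1 := by simp [Sv_q]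
  have hL : 0 < Real.log z := Real.log_pos (by linarith)
  have ht : (0 : ℝ) < (2 * u).totient := by exact_mod_cast Nat.totient_pos.2 (by omega)
  have hu' : (0 : ℝ) < (2 * u : ℕ) := by exact_mod_cast (by omega : 0 < 2 * u)
  rw [hq] at h
  refine le_trans (Nat.cast_le.2 (card_le_card fun b hb => ?_)) (h.trans (le_of_eq ?_))
  · obtain ⟨hb1, hb2, hb3, hb4⟩ := mem_filter.1 hb
    refine mem_filter.2 ⟨hb1, fun p hp hd => ?_, hb4, hb3.trans_le ?_⟩
    · obtain ⟨hpp, hpz⟩ := (Sv_mem z hz0 p).1 hp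
      rw [(Nat.prime_dvd_prime_iff_eq hpp hb2).1 hd] at hpz
      linarith
    · have h1 : b ≤ u * b := Nat.le_mul_of_pos_left b hu
      have h2 := hb2.pos
      exact_mod_cast (by omega : b ≤ 2 * (u * b) - 1)
  · simp only [Nat.totient_one, Nat.cast_one]
    field_simp

/-- Hint: with `v = D / (2^t)^(i+1) ≥ 1` every such `a` lies in `Ioc v (v * 2 ^ (t + 1))`; cut this into the
`t + 1` blocks `Ioc (v 2^k) (v 2^(k+1))` and use `sv2` on each. -/
theorem asum (P : Finset ℕ) (z : ℝ) (hz : 2 ≤ z) (hP : ∀ p ∈ P, p.Prime ∧ (p : ℝ) ≤ z)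
    (t D i : ℕ) (ht : 1 ≤ t) (hv : z ^ 4 * Real.exp (lam P) ≤ (D / (2 ^ t) ^ (i + 1) : ℕ)) :
    ∑ a ∈ (Icc 1 D).filter (fun a => (∀ p ∈ P, ¬ p ∣ a) ∧ Nat.log (2 ^ t) (D / a) = i), 1 / (a : ℝ)
      ≤ (t + 1) * ((Real.exp 73 + 1) * Real.exp (-lam P)) := by
  classical
  set v := D / (2 ^ t) ^ (i + 1) with hvdef
  set c := (Real.exp 73 + 1) * Real.exp (-lam P) with hc
  have hel : 1 ≤ Real.exp (lam P) := Real.one_le_exp (lam_nonneg P)
  have hz4 : (1 : ℝ) ≤ z ^ 4 := one_le_pow₀ (by linarith)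
  have hv1 : (1 : ℝ) ≤ v := le_trans (one_le_mul_of_one_le_of_one_le hz4 hel) hv
  have hv1' : 1 ≤ v := by exact_mod_cast hv1
  have hT : 1 < 2 ^ t := Nat.one_lt_two_pow (by omega)
  have hblock : ∀ k : ℕ, ∑ a ∈ (Ioc (v * 2 ^ k) (2 * (v * 2 ^ k))).filter (fun a => ∀ p ∈ P, ¬ p ∣ a),
      1 / (a : ℝ) ≤ c := fun k => by
    have hw : v ≤ v * 2 ^ k := Nat.le_mul_of_pos_right v (by positivity)
    have h2 := sv2 P z hz hP (v * 2 ^ k)
    set w := v * 2 ^ k
    have hw' : (v : ℝ) ≤ w := by exact_mod_cast hw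
    have hw0 : (0 : ℝ) < w := by linarith
    have h1 := sum_le_card_nsmul ((Ioc w (2 * w)).filter (fun a => ∀ p ∈ P, ¬ p ∣ a))
      (fun a => 1 / (a : ℝ)) (1 / (w : ℝ)) fun a ha => by
        have : (w : ℝ) ≤ a := by exact_mod_cast (mem_Ioc.1 (mem_filter.1 ha).1).1.le
        exact one_div_le_one_div_of_le hw0 this
    refine h1.trans ?_
    rw [nsmul_eq_mul, mul_one_div, div_le_iff₀ hw0]
    refine h2.trans ?_
    have h3 : z ^ 4 ≤ w * Real.exp (-lam P) := by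
      have h4 : z ^ 4 * Real.exp (lam P) * Real.exp (-lam P) ≤ w * Real.exp (-lam P) :=
        mul_le_mul_of_nonneg_right (hv.trans hw') (Real.exp_pos _).le
      rwa [mul_assoc, ← Real.exp_add, add_neg_cancel, Real.exp_zero, mul_one] at h4
    rw [hc]; nlinarith
  have hall : ∀ n : ℕ, ∑ a ∈ (Ioc v (v * 2 ^ n)).filter (fun a => ∀ p ∈ P, ¬ p ∣ a),
      1 / (a : ℝ) ≤ n * c := fun n => by
    induction n with
    | zero => simp
    | succ n ih =>
      have hw : v ≤ v * 2 ^ n := Nat.le_mul_of_pos_right v (by positivity)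
      have e : v * 2 ^ (n + 1) = 2 * (v * 2 ^ n) := by ring
      rw [e, ← Ioc_union_Ioc_eq_Ioc hw (by omega : v * 2 ^ n ≤ 2 * (v * 2 ^ n)), filter_union,
        sum_union (disjoint_filter_filter (Ioc_disjoint_Ioc_of_le le_rfl))]
      have := hblock n
      push_cast
      linarith
  have hfin := hall (t + 1)
  push_cast at hfin
  refine le_trans (sum_le_sum_of_subset_of_nonneg (fun a ha => ?_) fun a _ _ => by positivity) hfin
  obtain ⟨ha1, ha2, ha3⟩ := mem_filter.1 ha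
  obtain ⟨ha4, ha5⟩ := mem_Icc.1 ha1
  refine mem_filter.2 ⟨mem_Ioc.2 ?_, ha2⟩
  have hDa : D / a ≠ 0 := (Nat.div_pos ha5 ha4).ne'
  have hlo : (2 ^ t) ^ i ≤ D / a := ha3 ▸ Nat.pow_log_le_self _ hDa
  have hhi : D / a < (2 ^ t) ^ (i + 1) := ha3 ▸ Nat.lt_pow_succ_log_self hT _
  have hTi : 0 < (2 ^ t) ^ i := by positivity
  have hTi1 : 0 < (2 ^ t) ^ (i + 1) := by positivity
  rw [Nat.le_div_iff_mul_le ha4] at hlo
  rw [Nat.div_lt_iff_lt_mul ha4] at hhi
  constructor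
  · rw [hvdef, Nat.div_lt_iff_lt_mul hTi1, mul_comm]; exact hhi
  · have h1 : D < (2 ^ t) ^ (i + 1) * (v + 1) := Nat.lt_mul_div_succ D hTi1
    have h2 : (2 ^ t) ^ i * a < (2 ^ t) ^ i * (2 ^ t * (v + 1)) := by
      rw [← mul_assoc, ← pow_succ]; omega
    have h3 := Nat.lt_of_mul_lt_mul_left h2
    have h4 : 2 ^ t * (v + 1) ≤ 2 ^ t * (v + v) := Nat.mul_le_mul_left _ (by omega)
    have h5 : 2 ^ t * (v + v) = v * 2 ^ (t + 1) := by ring
    omega

end Pool.Agent.Work.MP_6d9ff5_nt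
end
end

-- merged part: Pool.Agent.Work.MP_6d9ff5_nt.Grad
section
/-!
# Subset sums are smoothly distributed (`2 log 2 > 1`)
-/

noncomputable section

open Finset

namespace Pool.Agent.Work.MP_6d9ff5_nt

open Pool.Agent.Lib.LargeSieve

lemma Grad_NS_eq (h : ℕ → ℕ) (o : ℕ) (S : Finset ℕ) (j : ℕ) :
    NS h o S j = ∑ T ∈ S.powerset, if o + ∑ p ∈ T, h p = j then (1 : ℝ) else 0 := by
  unfold NS
  rw [card_filter]; push_cast; rfl

lemma Grad_height_le (h : ℕ → ℕ) (J s : ℕ) (S T : Finset ℕ) (hT : T ⊆ S) (hs : S.card ≤ s)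
    (hJ : ∀ p ∈ S, h p ≤ J) : ∑ p ∈ T, h p ≤ s * J := by
  calc ∑ p ∈ T, h p ≤ T.card • J := sum_le_card_nsmul _ _ _ fun p hp => hJ p (hT hp)
    _ = T.card * J := by rw [smul_eq_mul]
    _ ≤ s * J := Nat.mul_le_mul_right _ ((card_le_card hT).trans hs)

lemma Grad_ee_sum (h : ℕ → ℕ) (T : Finset ℕ) (θ : ℝ) :
    ee (((∑ p ∈ T, h p : ℕ) : ℝ) * θ) = ∏ p ∈ T, ee (h p * θ) := by
  rw [ee_nat_mul, ← prod_pow_eq_pow_sum]
  exact prod_congr rfl fun p _ => (ee_nat_mul _ _).symm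

lemma Grad_fourier (h : ℕ → ℕ) (J s o : ℕ) (ho : 1 ≤ o) (S : Finset ℕ) (hs : S.card ≤ s)
    (hJ : ∀ p ∈ S, h p ≤ J) (θ : ℝ) :
    ∑ j ∈ range (o + s * J + 2), ee (j * θ) * ((NS h o S (j + 1) - NS h o S j : ℝ) : ℂ)
      = (ee (-θ) - 1) * ee (o * θ) * ∏ p ∈ S, (1 + ee (h p * θ)) := by
  have e1 : ∀ j : ℕ, ee (j * θ) * ((NS h o S (j + 1) - NS h o S j : ℝ) : ℂ)
      = ∑ T ∈ S.powerset, ((if o + ∑ p ∈ T, h p - 1 = j then ee (j * θ) else 0)
        - (if o + ∑ p ∈ T, h p = j then ee (j * θ) else 0)) := by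
    intro j
    rw [Grad_NS_eq, Grad_NS_eq, ← sum_sub_distrib, Complex.ofReal_sum, mul_sum]
    refine sum_congr rfl fun T _ => ?_
    have : (o + ∑ p ∈ T, h p - 1 = j) ↔ (o + ∑ p ∈ T, h p = j + 1) := by omega
    simp only [this]
    split_ifs <;> simp
  simp_rw [e1]
  rw [sum_comm, prod_one_add, mul_sum]
  refine sum_congr rfl fun T hT => ?_
  have hb := Grad_height_le h J s S T (mem_powerset.1 hT) hs hJ
  rw [sum_sub_distrib, sum_ite_eq, sum_ite_eq, if_pos (mem_range.2 (by omega)),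
    if_pos (mem_range.2 (by omega)), ← Grad_ee_sum, Nat.cast_sub (by omega), Nat.cast_add,
    sub_mul, sub_mul, sub_mul, ← ee_add, ← ee_add, one_mul, ← ee_add]
  congr 2
  · push_cast; ring
  · ring

lemma Grad_norm_one_add (x : ℝ) : ‖1 + ee x‖ ^ 2 = 2 + 2 * Real.cos (2 * Real.pi * x) := by
  unfold ee
  rw [mul_comm Complex.I, Complex.sq_norm, Complex.normSq_apply]
  simp only [Complex.add_re, Complex.add_im, Complex.one_re, Complex.one_im,
    Complex.exp_ofReal_mul_I_re, Complex.exp_ofReal_mul_I_im]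
  nlinarith [Real.sin_sq_add_cos_sq (2 * Real.pi * x)]

lemma Grad_norm_neg (θ : ℝ) : ‖ee (-θ) - 1‖ = ‖ee θ - 1‖ := by
  rw [← conj_ee, ← Complex.norm_conj (ee θ - 1), map_sub, map_one]

lemma Grad_parseval (h : ℕ → ℕ) (J s o : ℕ) (ho : 1 ≤ o) (S : Finset ℕ) (hs : S.card ≤ s)
    (hJ : ∀ p ∈ S, h p ≤ J) :
    ((o + s * J + 2 : ℕ) : ℝ) * ∑ j ∈ range (o + s * J + 2), (NS h o S (j + 1) - NS h o S j) ^ 2
      = ∑ k ∈ range (o + s * J + 2), ‖ee ((k : ℝ) / (o + s * J + 2 : ℕ)) - 1‖ ^ 2 *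
          ∏ p ∈ S, (2 + 2 * Real.cos (2 * Real.pi * (h p * ((k : ℝ) / (o + s * J + 2 : ℕ))))) := by
  have h2 := sum_normSq_of_orth (range (o + s * J + 2)) (range (o + s * J + 2))
    (fun k r => ee (k * ((r : ℝ) / (o + s * J + 2 : ℕ))))
    (fun _ => ((o + s * J + 2 : ℕ) : ℝ)) (fun j => ((NS h o S (j + 1) - NS h o S j : ℝ) : ℂ))
    (fun j hj k hk => sum_ee_orth _ (by omega) (mem_range.1 hj) (mem_range.1 hk))
  simp only [Complex.norm_real, Real.norm_eq_abs, sq_abs] at h2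
  rw [mul_sum, ← h2]
  refine sum_congr rfl fun k _ => ?_
  have e : ∀ j : ℕ, (k : ℝ) * ((j : ℝ) / (o + s * J + 2 : ℕ))
      = j * ((k : ℝ) / (o + s * J + 2 : ℕ)) := fun j => by ring
  simp only [e]
  rw [Grad_fourier h J s o ho S hs hJ, norm_mul, norm_mul, norm_ee, mul_one, Grad_norm_neg,
    norm_prod, mul_pow, ← prod_pow]
  simp only [Grad_norm_one_add]

lemma Grad_sum_prod_le (P : Finset ℕ) (y : ℕ → ℝ) (hy : ∀ p ∈ P, 0 ≤ y p)
    (A : Finset (Finset ℕ)) (hA : A ⊆ P.powerset) :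
    ∑ S ∈ A, ∏ p ∈ S, y p ≤ Real.exp (∑ p ∈ P, y p) := by
  calc ∑ S ∈ A, ∏ p ∈ S, y p ≤ ∑ S ∈ P.powerset, ∏ p ∈ S, y p :=
        sum_le_sum_of_subset_of_nonneg hA fun S hS _ =>
          prod_nonneg fun p hp => hy p (mem_powerset.1 hS hp)
    _ = ∏ p ∈ P, (1 + y p) := (prod_one_add _).symm
    _ ≤ ∏ p ∈ P, Real.exp (y p) :=
        prod_le_prod (fun p hp => by linarith [hy p hp])
          fun p _ => by linarith [Real.add_one_le_exp (y p)]
    _ = Real.exp (∑ p ∈ P, y p) := (Real.exp_sum _ _).symm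

lemma Grad_sum_NS_le (h : ℕ → ℕ) (o : ℕ) (S : Finset ℕ) (a m : ℕ) :
    ∑ k ∈ range m, NS h o S (k + a) ≤ 2 ^ S.card := by
  simp only [Grad_NS_eq]
  rw [sum_comm]
  have : ∀ T ∈ S.powerset,
      ∑ k ∈ range m, (if o + ∑ p ∈ T, h p = k + a then (1 : ℝ) else 0) ≤ 1 := by
    intro T _
    calc ∑ k ∈ range m, (if o + ∑ p ∈ T, h p = k + a then (1 : ℝ) else 0)
        ≤ ∑ k ∈ range m, (if o + ∑ p ∈ T, h p - a = k then (1 : ℝ) else 0) := by
          refine sum_le_sum fun k _ => ?_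
          split_ifs with h1 h2
          · exact le_rfl
          · omega
          · exact zero_le_one
          · exact le_rfl
      _ ≤ 1 := by
          rw [sum_ite_eq]; split_ifs
          · exact le_rfl
          · exact zero_le_one
  refine (sum_le_card_nsmul _ _ _ this).trans ?_
  rw [card_powerset]; simp

lemma Grad_osc_le_pow (h : ℕ → ℕ) (o : ℕ) (S : Finset ℕ) (m : ℕ) :
    osc h o S 0 m ≤ 2 * 2 ^ S.card := by
  have h0 := Grad_sum_NS_le h o S 0 m
  have h1 := Grad_sum_NS_le h o S 1 m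
  have : osc h o S 0 m ≤ ∑ k ∈ range m, (NS h o S (k + 1) + NS h o S (k + 0)) := by
    unfold osc
    refine sum_le_sum fun k _ => ?_
    have a1 := NS_nonneg h o S (k + 1)
    have a2 := NS_nonneg h o S k
    simp only [zero_add, add_zero]
    rw [abs_le]; constructor <;> linarith
  rw [sum_add_distrib] at this
  linarith

lemma Grad_NS_zero (h : ℕ → ℕ) (J s o : ℕ) (S : Finset ℕ) (hs : S.card ≤ s)
    (hJ : ∀ p ∈ S, h p ≤ J) (j : ℕ) (hj : o + s * J < j) : NS h o S j = 0 := by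
  rw [Grad_NS_eq]
  refine sum_eq_zero fun T hT => ?_
  have hb := Grad_height_le h J s S T (mem_powerset.1 hT) hs hJ
  rw [if_neg (by omega)]

lemma Grad_osc_sq (h : ℕ → ℕ) (J s o : ℕ) (S : Finset ℕ) (hs : S.card ≤ s)
    (hJ : ∀ p ∈ S, h p ≤ J) (m : ℕ) :
    osc h o S 0 m ^ 2 ≤ ((o + s * J + 2 : ℕ) : ℝ) *
      ∑ j ∈ range (o + s * J + 2), (NS h o S (j + 1) - NS h o S j) ^ 2 := by
  have h1 : osc h o S 0 m ≤ ∑ j ∈ range (o + s * J + 2), |NS h o S (j + 1) - NS h o S j| := by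
    unfold osc
    simp only [zero_add]
    rw [← sum_filter_ne_zero (range m)]
    refine sum_le_sum_of_subset_of_nonneg ?_ fun k _ _ => abs_nonneg _
    intro k hk
    by_contra hc
    rw [mem_range] at hc
    apply (mem_filter.1 hk).2
    rw [Grad_NS_zero h J s o S hs hJ (k + 1) (by omega),
      Grad_NS_zero h J s o S hs hJ k (by omega)]
    simp
  have h2 := sq_sum_le_card_mul_sum_sq (s := range (o + s * J + 2))
    (f := fun j => |NS h o S (j + 1) - NS h o S j|)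
  simp only [sq_abs, card_range] at h2
  exact (pow_le_pow_left₀ (osc_nonneg _ _ _ _ _) h1 2).trans h2

/-- Parseval. Hints. `m₀ = o + s J + 2`; the sequence `j ↦ NS (j+1) - NS j` vanishes for `j + 1 ≥ m₀`, and
`∑ j < m₀, (NS (j+1) - NS j) ee (j θ) = (ee (-θ) - 1) ee (o θ) ∏ p ∈ S (1 + ee (h p θ))` (here `NS 0 = 0` as
`o ≥ 1`). Average over `θ = k / m₀` with `sum_ee_orth`; `‖1 + ee x‖^2 = 2 + 2 cos (2 π x)`;
`∑ S ⊆ P, ∏ p ∈ S, y p = ∏ p ∈ P (1 + y p) ≤ exp (∑ y p)` (`Finset.prod_one_add`). -/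
theorem grad_sq (P : Finset ℕ) (w : ℕ → ℝ) (hw : ∀ p ∈ P, 0 ≤ w p) (h : ℕ → ℕ) (J s o : ℕ)
    (ho : 1 ≤ o) (hJ : ∀ p ∈ P, h p ≤ J) (C : ℝ)
    (hcos : ∀ θ : ℝ, ‖ee θ - 1‖ * Real.exp (∑ p ∈ P, w p * Real.cos (2 * Real.pi * (h p * θ))) ≤ C) :
    ∑ S ∈ P.powerset.filter (fun S => S.card ≤ s), (∏ p ∈ S, w p) *
        ∑ j ∈ range (o + s * J + 2), (NS h o S (j + 1) - NS h o S j) ^ 2
      ≤ C ^ 2 * Real.exp (2 * ∑ p ∈ P, w p) := by
  set m := o + s * J + 2 with hm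
  have hm0 : (0 : ℝ) < m := by exact_mod_cast (by omega : 0 < m)
  refine le_of_mul_le_mul_left ?_ hm0
  rw [mul_sum]
  have e1 : ∀ S ∈ P.powerset.filter (fun S => S.card ≤ s),
      (m : ℝ) * ((∏ p ∈ S, w p) * ∑ j ∈ range m, (NS h o S (j + 1) - NS h o S j) ^ 2)
        = ∑ k ∈ range m, ‖ee ((k : ℝ) / m) - 1‖ ^ 2 *
          ∏ p ∈ S, (w p * (2 + 2 * Real.cos (2 * Real.pi * (h p * ((k : ℝ) / m))))) := by
    intro S hS
    obtain ⟨hS1, hS2⟩ := mem_filter.1 hS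
    have := Grad_parseval h J s o ho S hS2 (fun p hp => hJ p (mem_powerset.1 hS1 hp))
    rw [← hm] at this
    rw [mul_left_comm, this, mul_sum]
    refine sum_congr rfl fun k _ => ?_
    rw [prod_mul_distrib]; ring
  rw [sum_congr rfl e1, sum_comm]
  have e2 : ∀ k ∈ range m, ∑ S ∈ P.powerset.filter (fun S => S.card ≤ s),
      ‖ee ((k : ℝ) / m) - 1‖ ^ 2 *
          ∏ p ∈ S, (w p * (2 + 2 * Real.cos (2 * Real.pi * (h p * ((k : ℝ) / m)))))
        ≤ C ^ 2 * Real.exp (2 * ∑ p ∈ P, w p) := by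
    intro k _
    rw [← mul_sum]
    have h1 := Grad_sum_prod_le P
      (fun p => w p * (2 + 2 * Real.cos (2 * Real.pi * (h p * ((k : ℝ) / m)))))
      (fun p hp => mul_nonneg (hw p hp)
        (by linarith [Real.neg_one_le_cos (2 * Real.pi * (h p * ((k : ℝ) / m)))]))
      _ (filter_subset (fun S => S.card ≤ s) _)
    have h2 : ∑ p ∈ P, w p * (2 + 2 * Real.cos (2 * Real.pi * (h p * ((k : ℝ) / m))))
        = (2 : ℕ) * (∑ p ∈ P, w p * Real.cos (2 * Real.pi * (h p * ((k : ℝ) / m))))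
          + 2 * ∑ p ∈ P, w p := by
      rw [mul_sum, mul_sum, ← sum_add_distrib]
      refine sum_congr rfl fun p _ => ?_
      push_cast; ring
    rw [h2, Real.exp_add, Real.exp_nat_mul] at h1
    have h3 := pow_le_pow_left₀ (by positivity) (hcos ((k : ℝ) / m)) 2
    refine (mul_le_mul_of_nonneg_left h1 (by positivity)).trans ?_
    rw [← mul_assoc, ← mul_pow]
    exact mul_le_mul_of_nonneg_right h3 (Real.exp_pos _).le
  refine (sum_le_card_nsmul _ _ _ e2).trans ?_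
  rw [card_range, nsmul_eq_mul]

/-- Hints. `Λ = ∑ w`. Sets with `card S < 1.8 Λ`: `osc ≤ 2 * 2 ^ card S` and
`2 ^ card S ≤ (1.8) ^ card S * (10/9) ^ (1.8 Λ)`, sum at most `2 exp (1.8 Λ) (10/9) ^ (1.8 Λ) ≤ 2 exp (1.99 Λ)`
(`log (10/9) < 0.1054`). Sets with `card S ≥ 1.8 Λ`: `osc ≤ √m₀ * √(∑ squares)` (terms with `j + 1 ≥ m₀` vanish),
Cauchy-Schwarz over `S` with the weights `2 ^ card S`, `∑ (∏ w) 2 ^ card S ≤ exp (2Λ)`, `grad_sq`, and
`2 ^ (-1.8 Λ) ≤ exp (-1.24 Λ)`. -/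
theorem grad (P : Finset ℕ) (w : ℕ → ℝ) (hw : ∀ p ∈ P, 0 ≤ w p) (h : ℕ → ℕ) (J s o : ℕ)
    (ho : 1 ≤ o) (hJ : ∀ p ∈ P, h p ≤ J) (C : ℝ) (hC : 0 ≤ C)
    (hcos : ∀ θ : ℝ, ‖ee θ - 1‖ * Real.exp (∑ p ∈ P, w p * Real.cos (2 * Real.pi * (h p * θ))) ≤ C)
    (m : ℕ) :
    ∑ S ∈ P.powerset.filter (fun S => S.card ≤ s), (∏ p ∈ S, w p) * osc h o S 0 m
      ≤ Real.exp (2 * ∑ p ∈ P, w p) * (2 * Real.exp (-(∑ p ∈ P, w p) / 100)
        + C * √((o + s * J + 2 : ℕ) : ℝ) * Real.exp (-(62 / 100) * ∑ p ∈ P, w p)) := by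
  set L := ∑ p ∈ P, w p with hL
  have hL0 : 0 ≤ L := sum_nonneg hw
  set A := P.powerset.filter (fun S => S.card ≤ s) with hA
  have hAP : A ⊆ P.powerset := filter_subset _ _
  have hwS : ∀ S ∈ A, 0 ≤ ∏ p ∈ S, w p := fun S hS =>
    prod_nonneg fun p hp => hw p (mem_powerset.1 (hAP hS) hp)
  rw [← sum_filter_add_sum_filter_not A (fun S => (S.card : ℝ) < 9 / 5 * L), mul_add]
  refine add_le_add ?_ ?_
  · have h1 : ∀ S ∈ A.filter (fun S => (S.card : ℝ) < 9 / 5 * L),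
        (∏ p ∈ S, w p) * osc h o S 0 m
          ≤ 2 * Real.exp (19 / 100 * L) * ∏ p ∈ S, (9 / 5 * w p) := by
      intro S hS
      obtain ⟨hS1, hS2⟩ := mem_filter.1 hS
      have a1 : (10 / 9 : ℝ) ≤ Real.exp (19 / 180) := by
        have := Real.quadratic_le_exp_of_nonneg (x := 19 / 180) (by norm_num)
        norm_num at this ⊢
        linarith
      have a2 : (10 / 9 : ℝ) ^ S.card ≤ Real.exp (19 / 100 * L) := by
        refine (pow_le_pow_left₀ (by norm_num) a1 _).trans ?_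
        rw [← Real.exp_nat_mul]
        exact Real.exp_le_exp.2 (by linarith)
      have a3 : (2 : ℝ) ^ S.card ≤ Real.exp (19 / 100 * L) * (9 / 5) ^ S.card := by
        have : (2 : ℝ) ^ S.card = (10 / 9) ^ S.card * (9 / 5) ^ S.card := by
          rw [← mul_pow]; norm_num
        rw [this]
        exact mul_le_mul_of_nonneg_right a2 (by positivity)
      have a4 := Grad_osc_le_pow h o S m
      rw [prod_mul_distrib, prod_const]
      calc (∏ p ∈ S, w p) * osc h o S 0 m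
          ≤ (∏ p ∈ S, w p) * (2 * (Real.exp (19 / 100 * L) * (9 / 5) ^ S.card)) :=
            mul_le_mul_of_nonneg_left (by linarith) (hwS S hS1)
        _ = _ := by ring
    refine (sum_le_sum h1).trans ?_
    rw [← mul_sum]
    have h2 := Grad_sum_prod_le P (fun p => 9 / 5 * w p)
      (fun p hp => mul_nonneg (by norm_num) (hw p hp))
      (A.filter (fun S => (S.card : ℝ) < 9 / 5 * L)) ((filter_subset _ _).trans hAP)
    rw [← mul_sum, ← hL] at h2
    refine (mul_le_mul_of_nonneg_left h2 (by positivity)).trans (le_of_eq ?_)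
    rw [mul_assoc, ← Real.exp_add, mul_left_comm, ← Real.exp_add]
    congr 2; ring
  · set B := A.filter (fun S => ¬ (S.card : ℝ) < 9 / 5 * L) with hB
    have hBA : B ⊆ A := filter_subset _ _
    set m₀ := o + s * J + 2 with hm₀
    have h1 := sum_sq_le_sum_mul_sum_of_sq_le_mul B
      (r := fun S => (∏ p ∈ S, w p) * osc h o S 0 m) (f := fun S => ∏ p ∈ S, w p)
      (g := fun S => (m₀ : ℝ) * ((∏ p ∈ S, w p) *
        ∑ j ∈ range m₀, (NS h o S (j + 1) - NS h o S j) ^ 2))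
      (fun S hS => hwS S (hBA hS))
      (fun S hS => mul_nonneg (Nat.cast_nonneg _) (mul_nonneg (hwS S (hBA hS))
        (sum_nonneg fun _ _ => sq_nonneg _)))
      (fun S hS => by
        obtain ⟨hS1, hS2⟩ := mem_filter.1 (hBA hS)
        have := Grad_osc_sq h J s o S hS2 (fun p hp => hJ p (mem_powerset.1 hS1 hp)) m
        rw [← hm₀] at this
        calc ((∏ p ∈ S, w p) * osc h o S 0 m) ^ 2
            = (∏ p ∈ S, w p) ^ 2 * osc h o S 0 m ^ 2 := by ring
          _ ≤ (∏ p ∈ S, w p) ^ 2 * ((m₀ : ℝ) *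
              ∑ j ∈ range m₀, (NS h o S (j + 1) - NS h o S j) ^ 2) :=
            mul_le_mul_of_nonneg_left this (sq_nonneg _)
          _ = _ := by ring)
    have h2 : ∑ S ∈ B, ∏ p ∈ S, w p ≤ Real.exp (76 / 100 * L) := by
      have b1 : ∀ S ∈ B, ∏ p ∈ S, w p ≤ Real.exp (-(124 / 100) * L) * ∏ p ∈ S, (2 * w p) := by
        intro S hS
        obtain ⟨hS1, hS2⟩ := mem_filter.1 hS
        have a1 : Real.exp (124 / 100 * L) ≤ 2 ^ S.card := by
          have : (2 : ℝ) ^ S.card = Real.exp (S.card * Real.log 2) := by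
            rw [Real.exp_nat_mul, Real.exp_log (by norm_num)]
          rw [this]
          refine Real.exp_le_exp.2 ?_
          have l2 := Real.log_two_gt_d9
          have c0 : (0 : ℝ) ≤ S.card := Nat.cast_nonneg _
          have : (S.card : ℝ) * 0.69 ≤ S.card * Real.log 2 :=
            mul_le_mul_of_nonneg_left (by linarith) c0
          linarith [not_lt.1 hS2]
        have a2 : 1 ≤ Real.exp (-(124 / 100) * L) * 2 ^ S.card := by
          calc (1 : ℝ) = Real.exp (-(124 / 100) * L) * Real.exp (124 / 100 * L) := by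
                rw [← Real.exp_add]; simp
            _ ≤ _ := mul_le_mul_of_nonneg_left a1 (Real.exp_pos _).le
        rw [prod_mul_distrib, prod_const, ← mul_assoc]
        exact le_mul_of_one_le_left (hwS S hS1) a2
      refine (sum_le_sum b1).trans ?_
      rw [← mul_sum]
      have b2 := Grad_sum_prod_le P (fun p => 2 * w p)
        (fun p hp => mul_nonneg (by norm_num) (hw p hp)) B (hBA.trans hAP)
      rw [← mul_sum, ← hL] at b2
      refine (mul_le_mul_of_nonneg_left b2 (Real.exp_pos _).le).trans (le_of_eq ?_)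
      rw [← Real.exp_add]; congr 1; ring
    have h3 : ∑ S ∈ B, (m₀ : ℝ) * ((∏ p ∈ S, w p) *
        ∑ j ∈ range m₀, (NS h o S (j + 1) - NS h o S j) ^ 2)
          ≤ m₀ * (C ^ 2 * Real.exp (2 * L)) := by
      rw [← mul_sum]
      refine mul_le_mul_of_nonneg_left ?_ (Nat.cast_nonneg _)
      refine le_trans ?_ (grad_sq P w hw h J s o ho hJ C hcos)
      exact sum_le_sum_of_subset_of_nonneg hBA fun S hS _ =>
        mul_nonneg (hwS S hS) (sum_nonneg fun _ _ => sq_nonneg _)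
    have h4 := h1.trans (mul_le_mul h2 h3
      (sum_nonneg fun S hS => mul_nonneg (Nat.cast_nonneg _) (mul_nonneg (hwS S (hBA hS))
        (sum_nonneg fun _ _ => sq_nonneg _))) (Real.exp_pos _).le)
    refine le_of_pow_le_pow_left₀ two_ne_zero ?_ (h4.trans (le_of_eq ?_))
    · positivity
    · have q1 : √(m₀ : ℝ) ^ 2 = m₀ := Real.sq_sqrt (Nat.cast_nonneg _)
      have q2 : (Real.exp (2 * L) * Real.exp (-(62 / 100) * L)) ^ 2
          = Real.exp (76 / 100 * L) * Real.exp (2 * L) := by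
        rw [← Real.exp_add, ← Real.exp_nat_mul, ← Real.exp_add]; congr 1; push_cast; ring
      calc Real.exp (76 / 100 * L) * ((m₀ : ℝ) * (C ^ 2 * Real.exp (2 * L)))
          = C ^ 2 * (m₀ : ℝ) * (Real.exp (76 / 100 * L) * Real.exp (2 * L)) := by ring
        _ = C ^ 2 * √(m₀ : ℝ) ^ 2 * (Real.exp (2 * L) * Real.exp (-(62 / 100) * L)) ^ 2 := by
            rw [q1, q2]
        _ = _ := by ring

end Pool.Agent.Work.MP_6d9ff5_nt
end
end

-- merged part: Pool.Agent.Work.MP_6d9ff5_nt.Tr3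
section
/-!
# Transfer across the square root, total error
-/

noncomputable section

open Finset

namespace Pool.Agent.Work.MP_6d9ff5_nt

open Pool.Agent.Lib.LargeSieve

lemma PP_mem {t J p : ℕ} (ht : 2 ≤ t) (hp : p ∈ PP t J) :
    p.Prime ∧ 3 ≤ p ∧ p < (2 ^ t) ^ (J + 1) ∧ Nat.log (2 ^ t) p ≤ J := by
  obtain ⟨h1, h2⟩ := mem_filter.1 hp
  obtain ⟨h3, h4⟩ := mem_Ico.1 h1
  have : 2 ^ 2 ≤ 2 ^ t := Nat.pow_le_pow_right (by norm_num) ht
  exact ⟨h2, by omega, h4, Nat.lt_succ_iff.1 (Nat.log_lt_of_lt_pow h2.ne_zero h4)⟩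

lemma Hc_le (P : Finset ℕ) (Y u : ℕ) (z Φ : ℝ) (hz : 2 ≤ z)
    (hP : ∀ p ∈ P, p.Prime ∧ 3 ≤ p ∧ (p : ℝ) ≤ z) (hzY : z ≤ Y) (hu : 1 ≤ u)
    (hΦ : ∀ u : ℕ, 1 ≤ u → u ≤ 2 * Y → ((2 * u : ℕ) : ℝ) / (2 * u).totient ≤ Φ)
    (h : z ^ 8 * Real.exp (lam P) * Real.log z * u ≤ Y) :
    (Hc P Y u : ℝ) ≤ (2 * Real.exp 73 * Φ + 1) * Real.exp (-lam P) / Real.log z * Y / u := by
  have hl : (0.69 : ℝ) < Real.log z := by
    have := Real.log_two_gt_d9
    have := Real.log_le_log (by norm_num) hz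
    linarith
  have hu' : (1 : ℝ) ≤ u := by exact_mod_cast hu
  have he : 1 ≤ Real.exp (lam P) := Real.one_le_exp (lam_nonneg P)
  have hz8 : (256 : ℝ) ≤ z ^ 8 := by
    have := pow_le_pow_left₀ (by norm_num) hz 8
    norm_num at this; linarith
  have huY : u ≤ 2 * Y := by
    have h1 : (1 : ℝ) ≤ z ^ 8 * Real.exp (lam P) * Real.log z := by
      have : 256 * 1 * (0.69 : ℝ) ≤ z ^ 8 * Real.exp (lam P) * Real.log z := by gcongr
      linarith
    have h2 : (u : ℝ) ≤ Y := le_trans (le_mul_of_one_le_left (by linarith) h1) h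
    have : u ≤ Y := by exact_mod_cast h2
    omega
  have h1 := sv1 P z hz hP u (2 * Y / u) hu
  have h2 : Hc P Y u ≤ ((Icc 1 (2 * Y / u)).filter fun b : ℕ => (∀ p ∈ P, ¬ p ∣ b) ∧
      (2 * (u * b) - 1).Prime ∧ z < ((2 * (u * b) - 1 : ℕ) : ℝ)).card := by
    refine card_le_card fun b hb => ?_
    simp only [mem_filter] at hb ⊢
    refine ⟨hb.1, hb.2.2.1, hb.2.2.2, hzY.trans_lt ?_⟩
    exact_mod_cast (by have := hb.2.1; omega : Y < 2 * (u * b) - 1)
  have h3 : ((2 * Y / u : ℕ) : ℝ) ≤ 2 * Y / u := by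
    have := @Nat.cast_div_le ℝ _ _ _ (2 * Y) u
    push_cast at this; exact this
  have h4 := hΦ u hu huY
  have h5 : z ^ 8 ≤ Real.exp (-lam P) / Real.log z * Y / u := by
    rw [Real.exp_neg, le_div_iff₀ (by linarith), div_mul_eq_mul_div, le_div_iff₀ (by linarith),
      le_inv_mul_iff₀ (by linarith)]
    linarith
  calc (Hc P Y u : ℝ) ≤ _ := (Nat.cast_le.2 h2).trans h1
    _ ≤ 2 * Y / u * (Real.exp 73 * Real.exp (-lam P)) * Φ / Real.log z
        + Real.exp (-lam P) / Real.log z * Y / u := by gcongr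
    _ = _ := by ring

lemma sum_a_le (P : Finset ℕ) (z : ℝ) (hz : 2 ≤ z) (hP : ∀ p ∈ P, p.Prime ∧ (p : ℝ) ≤ z)
    (t r s J D : ℕ) (ht : 1 ≤ t) (S : Finset ℕ) (hS : S.card ≤ s)
    (hJ : ∀ p ∈ S, Nat.log (2 ^ t) p ≤ J)
    (hv : z ^ 4 * Real.exp (lam P) ≤ (D / (2 ^ t) ^ (r + s + s * J + 1) : ℕ)) :
    ∑ a ∈ (Icc 1 D).filter (fun a => ∀ p ∈ P, ¬ p ∣ a),
        EE t r s S (Nat.log (2 ^ t) (D / a)) * (1 / (a : ℝ))
      ≤ (t + 1) * ((Real.exp 73 + 1) * Real.exp (-lam P)) *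
        ∑ i ∈ range (r + s + s * J + 1), EE t r s S i := by
  set m := r + s + s * J + 1 with hm
  have e1 : ∀ a : ℕ, EE t r s S (Nat.log (2 ^ t) (D / a)) * (1 / (a : ℝ))
      = ∑ i ∈ range m, if Nat.log (2 ^ t) (D / a) = i then EE t r s S i * (1 / (a : ℝ)) else 0 := by
    intro a
    rw [sum_ite_eq]
    split_ifs with h
    · rfl
    · rw [EE_eq_zero hS hJ (by rw [mem_range] at h; omega), zero_mul]
  rw [sum_congr rfl fun a _ => e1 a, sum_comm, mul_sum]
  refine sum_le_sum fun i hi => ?_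
  rw [← sum_filter, ← mul_sum, filter_filter, mul_comm]
  refine mul_le_mul_of_nonneg_right (asum P z hz hP t D i ht (hv.trans ?_)) (EE_nonneg _ _ _ _ _)
  exact_mod_cast Nat.div_le_div_left (Nat.pow_le_pow_right (by positivity) (mem_range.1 hi))
    (by positivity)

lemma sum_two_pow_le (P : Finset ℕ) (s : ℕ) :
    ∑ S ∈ P.powerset.filter (fun S => S.card ≤ s), (∏ p ∈ S, 1 / (p : ℝ)) * 2 ^ S.card
      ≤ Real.exp (2 * lam P) := by
  calc _ ≤ ∑ S ∈ P.powerset, (∏ p ∈ S, 1 / (p : ℝ)) * 2 ^ S.card :=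
        sum_le_sum_of_subset_of_nonneg (filter_subset _ _) fun _ _ _ => by positivity
    _ = ∏ p ∈ P, (1 + 1 / (p : ℝ) * 2) := by
        rw [prod_one_add]
        refine sum_congr rfl fun S _ => ?_
        rw [prod_mul_distrib, prod_const]
    _ ≤ ∏ p ∈ P, Real.exp (2 * (1 / (p : ℝ))) :=
        prod_le_prod (fun _ _ => by positivity) fun p _ => by
          have := Real.add_one_le_exp (2 * (1 / (p : ℝ))); linarith
    _ = _ := by rw [← Real.exp_sum, lam, mul_sum]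

theorem tr3 (W Y D t r s J : ℕ) (I : Finset ℕ) (hI : ∀ l ∈ I, l.Prime) (z Φ C : ℝ)
    (ht : 2 ≤ t) (hs : s + 1 ≤ r) (hY : Y = D ^ 2 * ((2 ^ t) ^ r) ^ 2) (hz : 2 ≤ z)
    (hPz : (((2 ^ t) ^ (J + 1) : ℕ) : ℝ) ≤ z) (hzY : z ≤ Y)
    (hΦ : ∀ u : ℕ, 1 ≤ u → u ≤ 2 * Y → ((2 * u : ℕ) : ℝ) / (2 * u).totient ≤ Φ)
    (hv : z ^ 4 * Real.exp (lam (PP t J)) ≤ (D / (2 ^ t) ^ (r + s + s * J + 1) : ℕ))
    (hu : z ^ 8 * Real.exp (lam (PP t J)) * Real.log z *
      (D * ((2 ^ t) ^ (J + 1)) ^ (s + 1) : ℕ) ≤ Y) (hC : 0 ≤ C)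
    (hcos : ∀ θ : ℝ, ‖ee θ - 1‖ * Real.exp (∑ p ∈ PP t J,
      1 / (p : ℝ) * Real.cos (2 * Real.pi * (Nat.log (2 ^ t) p * θ))) ≤ C) :
    ∑ l ∈ I, max (U2 W Y D ((2 ^ t) ^ r) s l - U1 W Y D ((2 ^ t) ^ r) s l) 0
      ≤ Real.log (4 * Y) * (s + lam (PP t J)) * ((2 * Real.exp 73 * Φ + 1) / Real.log z * Y) *
        ((t + 1) * (Real.exp 73 + 1)) * ((2 * s + 1) + 8 * r ^ 2 *
          (2 * Real.exp (-lam (PP t J) / 100) + C * √((r + s + s * J + 2 : ℕ) : ℝ) *
            Real.exp (-(62 / 100) * lam (PP t J)))) := by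
  set P := PP t J with hP
  set B := (2 ^ t) ^ (J + 1) with hB
  have hB1 : 1 ≤ B := Nat.one_le_iff_ne_zero.2 (by positivity)
  have hP3 : ∀ p ∈ P, p.Prime ∧ 3 ≤ p ∧ (p : ℝ) ≤ z := fun p hp =>
    ⟨(PP_mem ht hp).1, (PP_mem ht hp).2.1,
      le_trans (by exact_mod_cast (PP_mem ht hp).2.2.1.le) hPz⟩
  have hl : 0 < Real.log z := Real.log_pos (by linarith)
  have hY1 : (1 : ℝ) ≤ Y := by linarith
  have hΦ0 : 0 ≤ Φ := le_trans (by positivity)
    (hΦ 1 le_rfl (by have : 1 ≤ Y := (by exact_mod_cast hY1); omega))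
  have hlam := lam_nonneg P
  set F : Finset ℕ → ℕ → ℝ := fun S a => EE t r s S (Nat.log (2 ^ t) (D / a)) with hF
  have hF0 : ∀ S a, 0 ≤ F S a := fun S a => EE_nonneg _ _ _ _ _
  have s1 : ∀ l ∈ I, max (U2 W Y D ((2 ^ t) ^ r) s l - U1 W Y D ((2 ^ t) ^ r) s l) 0
      ≤ ∑ N ∈ (GG W Y s).filter (fun N => l ∣ N), th (2 * N - 1) *
        ∑ A ∈ ((N.primeFactors.erase l) \ P).powerset.filter (fun A => ∏ p ∈ A, p ≤ D),
          F ((N.primeFactors.erase l) ∩ P) (∏ p ∈ A, p) := by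
    intro l hl
    refine max_le ?_ (sum_nonneg fun N _ => mul_nonneg (th_nonneg _) (sum_nonneg fun _ _ => hF0 _ _))
    rw [U2, U1, ← sum_sub_distrib]
    refine sum_le_sum fun N hN => ?_
    rw [← mul_sub]
    refine mul_le_mul_of_nonneg_left ?_ (th_nonneg _)
    obtain ⟨hN1, hN2⟩ := mem_filter.1 hN
    obtain ⟨hN3, hN4, hN5⟩ := mem_filter.1 hN1
    obtain ⟨hN6, hN7⟩ := mem_filter.1 hN3
    obtain ⟨hN8, hN9⟩ := mem_Ioc.1 hN6
    exact tr1 (by omega) hs hN4 hN7 hN5 (hY ▸ hN8) (hY ▸ hN9) (hI l hl) hN2 P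
  refine (sum_le_sum s1).trans ((tr2 W Y D s P (fun p hp => (hP3 p hp).1) F hF0 I hI).trans ?_)
  set A1 : ℝ := (2 * Real.exp 73 * Φ + 1) * Real.exp (-lam P) / Real.log z * Y with hA1
  have hA10 : 0 ≤ A1 := by positivity
  set A2 : ℝ := (t + 1) * ((Real.exp 73 + 1) * Real.exp (-lam P)) with hA2
  have hH : ∀ u : ℕ, 1 ≤ u → u ≤ D * B ^ (s + 1) → (Hc P Y u : ℝ) ≤ A1 / u := fun u h1 h2 =>
    Hc_le P Y u z Φ hz hP3 hzY h1 hΦ (le_trans (mul_le_mul_of_nonneg_left (by exact_mod_cast h2)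
      (by positivity)) hu)
  have s2 : ∀ S ∈ P.powerset.filter (fun S => S.card ≤ s),
      ∑ a ∈ (Icc 1 D).filter (fun a => ∀ p ∈ P, ¬ p ∣ a),
        F S a * (s * Hc P Y (a * ∏ p ∈ S, p) + ∑ l ∈ P, (Hc P Y (a * l * ∏ p ∈ S, p) : ℝ))
      ≤ (s + lam P) * A1 * A2 * ((2 * s + 1) * ((∏ p ∈ S, 1 / (p : ℝ)) * 2 ^ S.card) + 8 * r ^ 2 *
        ((∏ p ∈ S, 1 / (p : ℝ)) *
          osc (Nat.log (2 ^ t)) (r + s) S 0 (r + s + s * J + 1 + 4 * r))) := by
    intro S hS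
    obtain ⟨hS1, hS2⟩ := mem_filter.1 hS
    rw [mem_powerset] at hS1
    have p0 : 1 ≤ ∏ p ∈ S, p := prod_pos fun p hp => (hP3 p (hS1 hp)).1.pos
    have p1 : ∏ p ∈ S, p ≤ B ^ s :=
      (prod_le_pow_card S _ B fun p hp => (PP_mem ht (hS1 hp)).2.2.1.le).trans
        (Nat.pow_le_pow_right hB1 hS2)
    have p2 : (∏ p ∈ S, 1 / (p : ℝ)) = 1 / ((∏ p ∈ S, p : ℕ) : ℝ) := by
      push_cast; rw [prod_div_distrib, prod_const_one]
    have p3 : 0 ≤ ∏ p ∈ S, 1 / (p : ℝ) := prod_nonneg fun _ _ => by positivity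
    calc _ ≤ ∑ a ∈ (Icc 1 D).filter (fun a => ∀ p ∈ P, ¬ p ∣ a),
          (s + lam P) * A1 * (∏ p ∈ S, 1 / (p : ℝ)) * (F S a * (1 / (a : ℝ))) := by
          refine sum_le_sum fun a ha => ?_
          obtain ⟨a1, a2⟩ := mem_Icc.1 (mem_filter.1 ha).1
          have b1 := hH (a * ∏ p ∈ S, p) (Nat.mul_pos a1 p0)
            (Nat.mul_le_mul a2 (p1.trans (Nat.pow_le_pow_right hB1 (by omega))))
          have b2 : ∑ l ∈ P, (Hc P Y (a * l * ∏ p ∈ S, p) : ℝ)
              ≤ lam P * (A1 / (a * ∏ p ∈ S, p : ℕ)) := by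
            rw [lam, sum_mul]
            refine sum_le_sum fun l hl => (hH _ (Nat.mul_pos (Nat.mul_pos a1 (hP3 l hl).1.pos) p0)
              ?_).trans (le_of_eq ?_)
            · rw [mul_assoc, pow_succ']
              exact Nat.mul_le_mul a2 (Nat.mul_le_mul (PP_mem ht hl).2.2.1.le p1)
            · generalize (∏ p ∈ S, p) = X
              push_cast; ring
          calc _ ≤ F S a * (s * (A1 / (a * ∏ p ∈ S, p : ℕ)) + lam P * (A1 / (a * ∏ p ∈ S, p : ℕ))) := by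
                have := hF0 S a
                gcongr
            _ = _ := by
                rw [p2]
                generalize (∏ p ∈ S, p) = X
                push_cast; ring
      _ ≤ (s + lam P) * A1 * (∏ p ∈ S, 1 / (p : ℝ)) * (A2 * ((2 * s + 1) * 2 ^ S.card + 8 * r ^ 2 *
          osc (Nat.log (2 ^ t)) (r + s) S 0 (r + s + s * J + 1 + 4 * r))) := by
          rw [← mul_sum]
          refine mul_le_mul_of_nonneg_left ?_ (by positivity)
          refine (sum_a_le P z hz (fun p hp => ⟨(hP3 p hp).1, (hP3 p hp).2.2⟩) t r s J D (by omega)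
            S hS2 (fun p hp => (PP_mem ht (hS1 hp)).2.2.2) hv).trans ?_
          exact mul_le_mul_of_nonneg_left (sum_EE_le _ _ _ _ _) (by positivity)
      _ = _ := by ring
  have g1 := sum_two_pow_le P s
  have g2 := grad P (fun p => 1 / (p : ℝ)) (fun _ _ => by positivity) (Nat.log (2 ^ t)) J s (r + s)
    (by omega) (fun p hp => (PP_mem ht hp).2.2.2) C hC hcos (r + s + s * J + 1 + 4 * r)
  change _ ≤ Real.exp (2 * lam P) * (2 * Real.exp (-(lam P) / 100)
        + C * √((r + s + s * J + 2 : ℕ) : ℝ) * Real.exp (-(62 / 100) * lam P)) at g2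
  have hL : 0 ≤ Real.log (4 * Y) := Real.log_nonneg (by linarith)
  have e : Real.exp (-lam P) * Real.exp (-lam P) * Real.exp (2 * lam P) = 1 := by
    rw [← Real.exp_add, ← Real.exp_add]; simp [two_mul]
  calc _ ≤ Real.log (4 * Y) * ((s + lam P) * A1 * A2 * ((2 * s + 1) * Real.exp (2 * lam P)
        + 8 * r ^ 2 * (Real.exp (2 * lam P) * (2 * Real.exp (-(lam P) / 100)
        + C * √((r + s + s * J + 2 : ℕ) : ℝ) * Real.exp (-(62 / 100) * lam P))))) := by
        refine mul_le_mul_of_nonneg_left ((sum_le_sum s2).trans ?_) hL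
        rw [← mul_sum, sum_add_distrib, ← mul_sum, ← mul_sum]
        gcongr
    _ = _ := by
        rw [hA1, hA2]
        linear_combination (Real.log (4 * Y) * (s + lam P) *
          ((2 * Real.exp 73 * Φ + 1) / Real.log z * Y) * ((t + 1) * (Real.exp 73 + 1)) *
          ((2 * s + 1) + 8 * r ^ 2 * (2 * Real.exp (-lam P / 100) +
            C * √((r + s + s * J + 2 : ℕ) : ℝ) * Real.exp (-(62 / 100) * lam P)))) * e

end Pool.Agent.Work.MP_6d9ff5_nt
end
end

-- merged part: Pool.Agent.Work.MP_6d9ff5_nt.Zwin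
section
/-!
# Sums of `1 / φ` over long windows
-/

noncomputable section

open Finset Filter

namespace Pool.Agent.Work.MP_6d9ff5_nt

lemma Zwin_cnt (W : ℕ) (hW : 0 < W) (n : ℕ) :
    |∑ k ∈ range n, ((if Nat.Coprime (k + 1) W then (1 : ℝ) else 0) - W.totient / W)| ≤ W := by
  have W0 : (0 : ℝ) < W := by exact_mod_cast hW
  have t1 : (W.totient : ℝ) / W ≤ 1 := div_le_one_of_le₀ (by exact_mod_cast W.totient_le) W0.le
  have t0 : (0 : ℝ) ≤ W.totient / W := by positivity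
  induction n using Nat.strong_induction_on with
  | _ n ih =>
  rcases lt_or_ge n W with h | h
  · refine (abs_sum_le_sum_abs _ _).trans ((sum_le_card_nsmul _ _ 1 fun k _ => ?_).trans ?_)
    · split_ifs <;> rw [abs_le] <;> constructor <;> linarith
    · simpa using h.le
  · obtain ⟨m, rfl⟩ := Nat.exists_eq_add_of_le' h
    have e : ∑ k ∈ range W, ((if Nat.Coprime (m + k + 1) W then (1 : ℝ) else 0) - W.totient / W)
        = 0 := by
      rw [sum_sub_distrib, sum_const, card_range, nsmul_eq_mul, mul_div_cancel₀ _ W0.ne',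
        ← Nat.filter_coprime_Ico_eq_totient W (m + 1), card_filter, sum_Ico_eq_sum_range,
        Nat.add_sub_cancel_left, sub_eq_zero]
      push_cast
      exact sum_congr rfl fun k _ => if_congr (by rw [Nat.coprime_comm, add_right_comm]) rfl rfl
    rw [sum_range_add, e, add_zero]
    exact ih m (by omega)

lemma Zwin_abel (f : ℕ → ℝ) {B : ℝ} (h : ∀ n, |∑ k ∈ range n, f k| ≤ B) (n : ℕ) :
    |∑ k ∈ range n, f k / (k + 1)| ≤ 2 * B := by
  have a : ∀ n : ℕ, |∑ k ∈ range n, f k / (k + 1) - (∑ k ∈ range n, f k) / (n + 1)| ≤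
      B * (1 - 1 / (n + 1)) := by
    intro n
    induction n with
    | zero => simp
    | succ n ih =>
      have p : (0 : ℝ) ≤ 1 / (n + 1) - 1 / (n + 1 + 1) :=
        sub_nonneg.2 (one_div_le_one_div_of_le (by positivity) (by linarith))
      have e : ∑ k ∈ range (n + 1), f k / (k + 1) - (∑ k ∈ range (n + 1), f k) / ((n + 1 : ℕ) + 1) =
          (∑ k ∈ range n, f k / (k + 1) - (∑ k ∈ range n, f k) / (n + 1)) +
            (∑ k ∈ range (n + 1), f k) * (1 / (n + 1) - 1 / (n + 1 + 1)) := by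
        rw [sum_range_succ, sum_range_succ]
        push_cast
        ring
      rw [e]
      refine (abs_add_le _ _).trans ?_
      rw [abs_mul, abs_of_nonneg p]
      push_cast
      linarith [mul_le_mul_of_nonneg_right (h (n + 1)) p]
  have B0 : 0 ≤ B := (abs_nonneg _).trans (h 0)
  have b : |(∑ k ∈ range n, f k) / (n + 1)| ≤ B := by
    rw [abs_div, abs_of_pos (by positivity : (0 : ℝ) < n + 1)]
    exact (div_le_self (abs_nonneg _) (by linarith [Nat.cast_nonneg (α := ℝ) n])).trans (h n)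
  have c : 0 ≤ B * (1 / (n + 1)) := by positivity
  have := abs_sub_abs_le_abs_sub (∑ k ∈ range n, f k / (k + 1)) ((∑ k ∈ range n, f k) / (n + 1))
  linarith [a n]

lemma Zwin_S (W : ℕ) (hW : 0 < W) (n : ℕ) :
    |∑ k ∈ range n, (if Nat.Coprime (k + 1) W then 1 / ((k : ℝ) + 1) else 0) -
      W.totient / W * Real.log (n + 1)| ≤ 2 * W + 1 := by
  have W0 : (0 : ℝ) < W := by exact_mod_cast hW
  have t1 : (W.totient : ℝ) / W ≤ 1 := div_le_one_of_le₀ (by exact_mod_cast W.totient_le) W0.le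
  have t0 : (0 : ℝ) ≤ W.totient / W := by positivity
  have a := abs_le.1 (Zwin_abel _ (Zwin_cnt W hW) n)
  have e : ∑ k ∈ range n, ((if Nat.Coprime (k + 1) W then (1 : ℝ) else 0) - W.totient / W) / (k + 1)
      = ∑ k ∈ range n, (if Nat.Coprime (k + 1) W then 1 / ((k : ℝ) + 1) else 0) -
        W.totient / W * (harmonic n : ℝ) := by
    simp only [harmonic, Rat.cast_sum, Rat.cast_inv, Rat.cast_natCast, mul_sum, ← sum_sub_distrib]
    refine sum_congr rfl fun k _ => ?_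
    push_cast
    split_ifs <;> ring
  have h1 := log_add_one_le_harmonic n
  have h2 := harmonic_le_one_add_log n
  have h3 : Real.log n ≤ Real.log (n + 1) := by
    rcases n with _ | n
    · simp
    · exact Real.log_le_log (by positivity) (by linarith)
  push_cast at h1
  rw [e] at a
  rw [abs_le]
  constructor <;> nlinarith

lemma Zwin_G (W : ℕ) (hW : 0 < W) {R : ℕ} (hR : 0 < R) (v : ℕ) :
    ∑ l ∈ DD W v R, 1 / (l : ℝ) ≤ W.totient / W * Real.log R + (4 * W + 2) ∧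
      (R ≤ v → W.totient / W * Real.log R - (4 * W + 3) ≤ ∑ l ∈ DD W v R, 1 / (l : ℝ)) := by
  have W0 : (0 : ℝ) < W := by exact_mod_cast hW
  have R0 : (0 : ℝ) < R := by exact_mod_cast hR
  have t1 : (W.totient : ℝ) / W ≤ 1 := div_le_one_of_le₀ (by exact_mod_cast W.totient_le) W0.le
  have t0 : (0 : ℝ) ≤ W.totient / W := by positivity
  have e : ∑ l ∈ DD W v R, 1 / (l : ℝ) =
      ∑ k ∈ range v, (if Nat.Coprime (k + 1) W then 1 / ((k : ℝ) + 1) else 0) -
        ∑ k ∈ range (v / R), (if Nat.Coprime (k + 1) W then 1 / ((k : ℝ) + 1) else 0) := by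
    rw [← sum_Ico_eq_sub _ (Nat.div_le_self v R), ← sum_filter]
    refine sum_nbij' (fun l => l - 1) (fun k => k + 1) (fun l hl => ?_) (fun k hk => ?_)
      (fun l hl => ?_) (fun k _ => by omega) fun l hl => ?_
    · simp only [DD, mem_filter, mem_Icc, mem_Ico, ← Nat.div_lt_iff_lt_mul hR] at hl ⊢
      rw [Nat.sub_add_cancel hl.1.1]
      exact ⟨⟨by omega, by omega⟩, hl.2.2⟩
    · simp only [DD, mem_filter, mem_Icc, mem_Ico, ← Nat.div_lt_iff_lt_mul hR] at hk ⊢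
      exact ⟨⟨by omega, by omega⟩, by omega, hk.2⟩
    · exact Nat.sub_add_cancel (mem_Icc.1 (mem_filter.1 hl).1).1
    · rw [Nat.cast_sub (mem_Icc.1 (mem_filter.1 hl).1).1]
      simp
  have a := abs_le.1 (Zwin_S W hW v)
  have b := abs_le.1 (Zwin_S W hW (v / R))
  have u0 : (0 : ℝ) ≤ (v / R : ℕ) := Nat.cast_nonneg _
  rw [e]
  refine ⟨?_, fun h => ?_⟩
  · have c : Real.log (v + 1) ≤ Real.log R + Real.log ((v / R : ℕ) + 1) := by
      rw [← Real.log_mul R0.ne' (by positivity)]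
      refine Real.log_le_log (by positivity) ?_
      exact_mod_cast (Nat.lt_mul_div_succ v hR : v + 1 ≤ R * (v / R + 1))
    nlinarith
  · have c : Real.log R + Real.log ((v / R : ℕ) + 1) ≤ Real.log 2 + Real.log (v + 1) := by
      rw [← Real.log_mul R0.ne' (by positivity), ← Real.log_mul two_ne_zero (by positivity)]
      refine Real.log_le_log (by positivity) ?_
      have := Nat.mul_div_le v R
      exact_mod_cast (by rw [mul_add]; omega : R * (v / R + 1) ≤ 2 * (v + 1))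
    nlinarith [Real.log_two_lt_d9]

lemma Zwin_phi (r : ℕ) : Odd r → r ≤ r.totient ^ 2 := by
  induction r using induction_on_primes with
  | zero => simp
  | one => simp
  | prime_mul p a hp ih =>
    intro h
    obtain ⟨h1, h2⟩ := Nat.odd_mul.1 h
    have a1 := Nat.totient_super_multiplicative p a
    rw [Nat.totient_prime hp] at a1
    have a2 : 3 ≤ p := by
      have := hp.two_le
      obtain ⟨k, rfl⟩ := h1
      omega
    obtain ⟨s, rfl⟩ := Nat.exists_eq_add_of_le' a2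
    refine le_trans ?_ (Nat.pow_le_pow_left a1 2)
    rw [mul_pow]
    exact Nat.mul_le_mul (by simp only [show s + 3 - 1 = s + 2 from rfl]; nlinarith) (ih h2)

lemma Zwin_tail (η : ℝ) (hη : 0 < η) : ∀ᶠ K : ℕ in atTop, ∀ v : ℕ,
    ∑ r ∈ (Icc 1 v).filter (fun r => Nat.Coprime r (primorial K)), 1 / ((r : ℝ) * r.totient)
      ≤ 1 + η := by
  obtain ⟨s, hs⟩ := (Real.summable_nat_rpow_inv.2 (by norm_num : (1 : ℝ) < 3 / 2)).vanishing
    (Iio_mem_nhds hη)
  filter_upwards [eventually_ge_atTop (s.sup id + 2)] with K hK v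
  have big : ∀ r ∈ ((Icc 1 v).filter fun r => Nat.Coprime r (primorial K)).erase 1,
      ∀ p, p.Prime → p ∣ r → K < p := fun r hr p hp h => by
    by_contra c
    exact hp.one_lt.ne' (Nat.eq_one_of_dvd_coprimes (mem_filter.1 (mem_erase.1 hr).2).2 h
      ((hp.dvd_primorial_iff).2 (not_lt.1 c)))
  have a := hs (((Icc 1 v).filter fun r => Nat.Coprime r (primorial K)).erase 1)
    (disjoint_left.2 fun r hr h => by
      have r1 := mem_erase.1 hr
      have r2 := (mem_Icc.1 (mem_filter.1 r1.2).1).1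
      have := big r hr _ (Nat.minFac_prime r1.1) (Nat.minFac_dvd r)
      have := Nat.minFac_le r2
      have : r ≤ s.sup id := le_sup (f := id) h
      omega)
  have b : ∑ r ∈ ((Icc 1 v).filter fun r => Nat.Coprime r (primorial K)).erase 1,
      1 / ((r : ℝ) * r.totient) ≤ η := by
    refine le_trans (sum_le_sum fun r hr => ?_) (le_of_lt a)
    have r2 : (0 : ℝ) < r := by exact_mod_cast (mem_Icc.1 (mem_filter.1 (mem_erase.1 hr).2).1).1
    have o : (r : ℝ) ≤ (r.totient : ℝ) ^ 2 := by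
      exact_mod_cast Zwin_phi r (Nat.not_even_iff_odd.1 fun e => by
        have := big r hr 2 Nat.prime_two e.two_dvd
        omega)
    rw [one_div, show (3 / 2 : ℝ) = 1 + 1 / 2 by norm_num, Real.rpow_add r2, Real.rpow_one,
      ← Real.sqrt_eq_rpow]
    exact inv_anti₀ (by positivity)
      (mul_le_mul_of_nonneg_left (Real.sqrt_le_iff.2 ⟨by positivity, o⟩) r2.le)
  by_cases h : 1 ∈ (Icc 1 v).filter fun r => Nat.Coprime r (primorial K)
  · rw [← add_sum_erase _ _ h]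
    simpa using b
  · rw [erase_eq_of_notMem h] at b
    linarith

lemma Zwin_inv {k : ℕ} (hk : 0 < k) :
    1 / (k.totient : ℝ) ≤ ∑ r ∈ k.divisors, 1 / ((r : ℝ) * r.totient) * (1 / (k / r : ℕ)) := by
  have k0 : (0 : ℝ) < k := by exact_mod_cast hk
  have t0 : (0 : ℝ) < k.totient := by exact_mod_cast Nat.totient_pos.2 hk
  have e : (k : ℝ) = ∑ r ∈ k.divisors, ((k / r).totient : ℝ) := by
    rw [← Nat.cast_sum, Nat.sum_div_divisors k Nat.totient, Nat.sum_totient]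
  rw [show 1 / (k.totient : ℝ) = k / (k * k.totient) by field_simp]
  nth_rewrite 1 [e]
  rw [sum_div]
  refine sum_le_sum fun r hr => ?_
  obtain ⟨l, rfl⟩ := Nat.dvd_of_mem_divisors hr
  have r1 : 0 < r := Nat.pos_of_mul_pos_right hk
  have l1 : 0 < l := Nat.pos_of_mul_pos_left hk
  have r0 : (0 : ℝ) < r.totient := by exact_mod_cast Nat.totient_pos.2 r1
  have a : (r.totient : ℝ) * l.totient ≤ (r * l).totient := by
    exact_mod_cast Nat.totient_super_multiplicative r l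
  rw [Nat.mul_div_cancel_left _ r1, one_div_mul_one_div, div_le_div_iff₀ (by positivity)
    (by positivity)]
  push_cast at k0 ⊢
  nlinarith [mul_le_mul_of_nonneg_left a k0.le]

/-- multiples of `j` in a window -/
lemma Zwin_mul (W D R : ℕ) {j : ℕ} (hj : 0 < j) (f : ℕ → ℝ) (hf : ∀ k, 0 ≤ f k) :
    ∑ d ∈ (DD W D R).filter (fun d => j ∣ d), f (d / j) ≤ ∑ k ∈ DD W (D / j) R, f k := by
  rw [← sum_image (g := fun d => d / j) fun d hd d' hd' e => by
    rw [← Nat.mul_div_cancel' (mem_filter.1 (mem_coe.1 hd)).2,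
      ← Nat.mul_div_cancel' (mem_filter.1 (mem_coe.1 hd')).2]
    exact congrArg _ e]
  refine sum_le_sum_of_subset_of_nonneg (fun k hk => ?_) fun _ _ _ => hf _
  obtain ⟨d, hd, rfl⟩ := mem_image.1 hk
  simp only [DD, mem_filter, mem_Icc] at hd ⊢
  obtain ⟨⟨⟨h1, h2⟩, h3, h4⟩, l, rfl⟩ := hd
  rw [Nat.mul_div_cancel_left _ hj, Nat.le_div_iff_mul_le hj, Nat.div_lt_iff_lt_mul hj]
  exact ⟨⟨Nat.pos_of_mul_pos_left h1, by rwa [mul_comm]⟩, by rwa [mul_comm, ← mul_assoc],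
    h4.coprime_mul_left⟩

lemma Zwin_up (W v R : ℕ) {B : ℝ} (hB : ∀ u, ∑ l ∈ DD W u R, 1 / (l : ℝ) ≤ B) :
    ∑ k ∈ DD W v R, 1 / (k.totient : ℝ) ≤
      (∑ r ∈ (Icc 1 v).filter (fun r => Nat.Coprime r W), 1 / ((r : ℝ) * r.totient)) * B := by
  refine (sum_le_sum fun k hk => Zwin_inv (mem_Icc.1 (mem_filter.1 hk).1).1).trans ?_
  have a : ∀ k ∈ DD W v R, ∑ r ∈ k.divisors, 1 / ((r : ℝ) * r.totient) * (1 / (k / r : ℕ)) ≤
      ∑ r ∈ (Icc 1 v).filter (fun r => Nat.Coprime r W),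
        if r ∣ k then 1 / ((r : ℝ) * r.totient) * (1 / (k / r : ℕ)) else 0 := fun k hk => by
    rw [← sum_filter]
    refine sum_le_sum_of_subset_of_nonneg (fun r hr => ?_) fun _ _ _ => by positivity
    simp only [DD, mem_filter, mem_Icc] at hk ⊢
    have h := Nat.dvd_of_mem_divisors hr
    exact ⟨⟨⟨Nat.pos_of_mem_divisors hr, (Nat.le_of_dvd hk.1.1 h).trans hk.1.2⟩,
      hk.2.2.coprime_dvd_left h⟩, h⟩
  refine (sum_le_sum a).trans ?_
  rw [sum_comm, sum_mul]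
  refine sum_le_sum fun r hr => ?_
  rw [← sum_filter, ← mul_sum]
  exact mul_le_mul_of_nonneg_left ((Zwin_mul W v R (mem_Icc.1 (mem_filter.1 hr).1).1
    (fun k => 1 / (k : ℝ)) fun _ => by positivity).trans (hB _)) (by positivity)

/-- Hints. `W = primorial K`, `θ = ∑ r ∣ W, μ r / r = ∏ p ∣ W (1 - 1/p) > 0`. Put
`S u = ∑ (k ≤ u, k prime to W) 1 / k = ∑ r ∣ W, μ r / r * HH ⌊u / r⌋`, so `|S u - θ log u| ≤ C = W (1 + log W)`
for real `u ≥ 1` and `S u = 0` for `u < 1`. For real `v > 0` the window sum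
`G v = ∑ (v / R < k ≤ v, k prime to W) 1 / k` is at most `θ log R + 2C` (three cases: `v ≥ R`, `1 ≤ v < R`,
`v < 1`) and at least `θ log R - 2C` if `v ≥ R`; so `ZZ ≥ θ log R - 2C`. For the upper bound write `d = j k`,
`φ (j k) ≥ φ j φ k` (`Nat.totient_super_multiplicative`), `1 / φ k = (1 / k) ∑ (r ∣ k, squarefree) 1 / φ r`,
and `∑ (r prime to W) 1 / (r φ r) ≤ 1 + ∑ (r > K) 1 / (r φ r) ≤ 1 + η / 2` for `K` large
(`r > 1` prime to `W` exceeds `K`; `φ r ≥ √(r / 2)`, or any other summable bound). -/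
theorem zwin (η : ℝ) (hη : 0 < η) : ∀ᶠ K : ℕ in atTop, ∃ c : ℝ, 0 < c ∧ ∀ᶠ R : ℕ in atTop,
    ∀ D : ℕ, R ≤ D → c * Real.log R ≤ ZZ (primorial K) D R ∧ ∀ j : ℕ, 1 ≤ j →
      ∑ d ∈ (DD (primorial K) D R).filter (fun d => j ∣ d), 1 / (d.totient : ℝ)
        ≤ (1 + η) * ZZ (primorial K) D R / j.totient := by
  filter_upwards [Zwin_tail (η / 2) (by linarith)] with K hK
  have hW := primorial_pos K
  generalize primorial K = W at hK hW ⊢
  have t0 : (0 : ℝ) < W.totient / W :=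
    div_pos (by exact_mod_cast Nat.totient_pos.2 hW) (by exact_mod_cast hW)
  refine ⟨W.totient / W / 2, by linarith, ?_⟩
  have T := ((Real.tendsto_log_atTop.comp tendsto_natCast_atTop_atTop).const_mul_atTop t0)
  filter_upwards [eventually_gt_atTop 0, T.eventually_ge_atTop (2 * (4 * W + 3)),
    T.eventually_ge_atTop (4 * (1 + η) * (4 * W + 3) / η)] with R hR h1 h2 D hD
  simp only [Function.comp] at h1 h2
  have z : W.totient / W * Real.log R - (4 * W + 3) ≤ ZZ W D R :=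
    ((Zwin_G W hW hR D).2 hD).trans (sum_le_sum fun d hd => one_div_le_one_div_of_le
      (by exact_mod_cast Nat.totient_pos.2 (mem_Icc.1 (mem_filter.1 hd).1).1)
      (by exact_mod_cast d.totient_le))
  refine ⟨by linarith, fun j hj => ?_⟩
  have j0 : (0 : ℝ) < j.totient := by exact_mod_cast Nat.totient_pos.2 hj
  have W0 : (0 : ℝ) ≤ W := Nat.cast_nonneg _
  have a := (Zwin_mul W D R hj (fun k => 1 / (k.totient : ℝ)) fun _ => by positivity).trans
    ((Zwin_up W (D / j) R fun u => (Zwin_G W hW hR u).1).trans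
      (mul_le_mul_of_nonneg_right (hK _) (by linarith)))
  rw [le_div_iff₀ j0, sum_mul]
  refine le_trans (sum_le_sum fun d hd => ?_) (a.trans ?_)
  · obtain ⟨h3, l, rfl⟩ := mem_filter.1 hd
    have d0 : 0 < j * l := (mem_Icc.1 (mem_filter.1 h3).1).1
    have l0 : (0 : ℝ) < l.totient := by
      exact_mod_cast Nat.totient_pos.2 (Nat.pos_of_mul_pos_left d0)
    have b : (j.totient : ℝ) * l.totient ≤ (j * l).totient := by
      exact_mod_cast Nat.totient_super_multiplicative j l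
    rw [Nat.mul_div_cancel_left _ hj, one_div_mul_eq_div, div_le_div_iff₀ (by nlinarith) l0]
    linarith
  · rw [div_le_iff₀ hη] at h2
    nlinarith [mul_le_mul_of_nonneg_left z (by linarith : 0 ≤ 1 + η), mul_nonneg W0 hη.le]

end Pool.Agent.Work.MP_6d9ff5_nt
end
end

-- merged part: Pool.Agent.Work.MP_6d9ff5_nt.Mass1
section
/-!
# Total mass, many prime factors, use through the divisor
-/

noncomputable section

open Finset

namespace Pool.Agent.Work.MP_6d9ff5_nt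

/-- number of multiples of `k` in `[1, X]` -/
lemma Mass1_card_mult (X k : ℕ) :
    (((Icc 1 X).filter (fun N => k ∣ N)).card : ℝ) ≤ X * (1 / (k : ℝ)) := by
  have h : (Icc 1 X).filter (fun N => k ∣ N) = (Ioc 0 X).filter (fun N => k ∣ N) := by
    congr 1
  rw [h, Nat.Ioc_filter_dvd_card_eq_div, mul_one_div]
  exact Nat.cast_div_le

lemma Mass1_sum_exch {ι : Type*} (A : Finset ℕ) (T : Finset ι) (f : ι → ℕ) :
    ∑ N ∈ A, ((T.filter (fun x => f x ∣ N)).card : ℝ)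
      = ∑ x ∈ T, ((A.filter (fun N => f x ∣ N)).card : ℝ) := by
  simp only [card_filter]
  push_cast
  exact sum_comm

lemma Mass1_tau_sq (X N : ℕ) (hN : N ∈ Icc 1 X) :
    N.divisors.card ^ 2 ≤ ((Icc 1 X ×ˢ Icc 1 X ×ˢ Icc 1 X).filter
      (fun x : ℕ × ℕ × ℕ => x.1 * x.2.1 * x.2.2 ∣ N)).card := by
  obtain ⟨h1, h2⟩ := mem_Icc.1 hN
  rw [sq, ← card_product]
  refine card_le_card_of_injOn
    (fun y : ℕ × ℕ => (Nat.gcd y.1 y.2, y.1 / Nat.gcd y.1 y.2, y.2 / Nat.gcd y.1 y.2)) ?_ ?_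
  · rintro ⟨d, e⟩ hy
    have hy' := mem_product.1 (mem_coe.1 hy)
    have hd : d ∣ N := Nat.dvd_of_mem_divisors hy'.1
    have he : e ∣ N := Nat.dvd_of_mem_divisors hy'.2
    have hd0 : 0 < d := Nat.pos_of_dvd_of_pos hd (by omega)
    have he0 : 0 < e := Nat.pos_of_dvd_of_pos he (by omega)
    have hdX : d ≤ X := (Nat.le_of_dvd (by omega) hd).trans h2
    have heX : e ≤ X := (Nat.le_of_dvd (by omega) he).trans h2
    have hg : 0 < Nat.gcd d e := Nat.gcd_pos_of_pos_left _ hd0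
    have hgd : Nat.gcd d e ≤ d := Nat.le_of_dvd hd0 (Nat.gcd_dvd_left d e)
    have hge : Nat.gcd d e ≤ e := Nat.le_of_dvd he0 (Nat.gcd_dvd_right d e)
    refine mem_coe.2 (mem_filter.2 ⟨?_, ?_⟩)
    · simp only [mem_product, mem_Icc]
      exact ⟨⟨hg, hgd.trans hdX⟩, ⟨Nat.div_pos hgd hg, (Nat.div_le_self _ _).trans hdX⟩,
        ⟨Nat.div_pos hge hg, (Nat.div_le_self _ _).trans heX⟩⟩
    · show Nat.gcd d e * (d / Nat.gcd d e) * (e / Nat.gcd d e) ∣ N
      rw [Nat.mul_div_cancel' (Nat.gcd_dvd_left d e)]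
      have : d * (e / Nat.gcd d e) = Nat.lcm d e := by
        rw [Nat.lcm, Nat.mul_div_assoc _ (Nat.gcd_dvd_right d e)]
      rw [this]
      exact Nat.lcm_dvd hd he
  · rintro ⟨d, e⟩ _ ⟨d', e'⟩ _ h
    simp only [Prod.mk.injEq] at h
    obtain ⟨hg, ha, hb⟩ := h
    have e1 : d = d' := by
      rw [← Nat.mul_div_cancel' (Nat.gcd_dvd_left d e), ha, hg,
        Nat.mul_div_cancel' (Nat.gcd_dvd_left d' e')]
    have e2 : e = e' := by
      rw [← Nat.mul_div_cancel' (Nat.gcd_dvd_right d e), hb, hg,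
        Nat.mul_div_cancel' (Nat.gcd_dvd_right d' e')]
    rw [e1, e2]

/-- exchange of the sums over `N` and over the divisor -/
lemma Mass1_exch (W Y : ℕ) (T : Finset ℕ) :
    ∑ N ∈ NN W Y, th (2 * N - 1) * ((T.filter fun d => d ∣ N).card : ℝ)
      = ∑ d ∈ T, cnt W Y d := by
  unfold cnt
  simp only [card_filter, sum_filter]
  push_cast
  rw [sum_comm]
  refine sum_congr rfl fun N _ => ?_
  rw [mul_sum]
  refine sum_congr rfl fun d _ => ?_
  split_ifs <;> simp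

lemma Mass1_DD_sub (W D R Q : ℕ) (hD : D ≤ Q) :
    DD W D R ⊆ (Icc 1 Q).filter (fun k => Nat.Coprime k W) := by
  intro d hd
  obtain ⟨h1, h2⟩ := mem_filter.1 hd
  obtain ⟨h3, h4⟩ := mem_Icc.1 h1
  exact mem_filter.2 ⟨mem_Icc.2 ⟨h3, h4.trans hD⟩, h2.2⟩

lemma Mass1_err (W Y D R Q : ℕ) (M : ℝ) (hD : D ≤ Q) :
    ∑ d ∈ DD W D R, |cnt W Y d - M / d.totient| ≤ err W Y M Q :=
  sum_le_sum_of_subset_of_nonneg (Mass1_DD_sub W D R Q hD) fun _ _ _ => abs_nonneg _

lemma Mass1_omega (d : ℕ) (hd : 1 ≤ d) : d.primeFactors.card ≤ Nat.log 2 d := by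
  refine Nat.le_log_of_pow_le (by norm_num) ?_
  calc 2 ^ d.primeFactors.card ≤ ∏ p ∈ d.primeFactors, p :=
        pow_card_le_prod _ _ _ fun p hp => (Nat.prime_of_mem_primeFactors hp).two_le
    _ ≤ d := Nat.le_of_dvd hd (Nat.prod_primeFactors_dvd d)

lemma Mass1_tau_sqfree {N : ℕ} (h : Squarefree N) :
    N.divisors.card = 2 ^ N.primeFactors.card := by
  rw [Nat.card_divisors h.ne_zero, ← prod_const]
  refine prod_congr rfl fun p hp => ?_
  rw [Nat.factorization_eq_one_of_squarefree h (Nat.prime_of_mem_primeFactors hp)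
    (Nat.dvd_of_mem_primeFactors hp)]

/-- `∑ (N ≤ X) τ N ≤ X (1 + log X)`. Hint: count pairs, `HH_le`. -/
theorem sum_tau_le (X : ℕ) :
    ∑ N ∈ Icc 1 X, (N.divisors.card : ℝ) ≤ X * (1 + Real.log X) := by
  have h1 : ∀ N ∈ Icc 1 X, (N.divisors.card : ℝ)
      ≤ (((Icc 1 X).filter (fun d => d ∣ N)).card : ℝ) := by
    intro N hN
    obtain ⟨h1, h2⟩ := mem_Icc.1 hN
    refine Nat.cast_le.2 (card_le_card fun d hd => ?_)
    have hd' := Nat.dvd_of_mem_divisors hd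
    exact mem_filter.2 ⟨mem_Icc.2 ⟨Nat.pos_of_dvd_of_pos hd' (by omega),
      (Nat.le_of_dvd (by omega) hd').trans h2⟩, hd'⟩
  calc ∑ N ∈ Icc 1 X, (N.divisors.card : ℝ)
      ≤ ∑ N ∈ Icc 1 X, (((Icc 1 X).filter (fun d => d ∣ N)).card : ℝ) := sum_le_sum h1
    _ = ∑ d ∈ Icc 1 X, (((Icc 1 X).filter (fun N => d ∣ N)).card : ℝ) :=
        Mass1_sum_exch (Icc 1 X) (Icc 1 X) (fun d => d)
    _ ≤ ∑ d ∈ Icc 1 X, (X : ℝ) * (1 / (d : ℝ)) := sum_le_sum fun d _ => Mass1_card_mult X d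
    _ = X * Pool.Agent.Lib.LargeSieve.HH X := by rw [← mul_sum]; rfl
    _ ≤ X * (1 + Real.log X) :=
        mul_le_mul_of_nonneg_left (Pool.Agent.Lib.LargeSieve.HH_le X) (Nat.cast_nonneg _)

/-- `∑ (N ≤ X) (τ N)^2 ≤ X (1 + log X)^3`. Hint: pairs of divisors `d, e`, `X / lcm d e`,
`d = g a`, `e = g b`, `lcm = g a b`, `HH X ^ 3`. -/
theorem sum_tau_sq_le (X : ℕ) :
    ∑ N ∈ Icc 1 X, (N.divisors.card : ℝ) ^ 2 ≤ X * (1 + Real.log X) ^ 3 := by
  have hH := Pool.Agent.Lib.LargeSieve.HH_le X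
  have hH0 := Pool.Agent.Lib.LargeSieve.HH_nonneg X
  calc ∑ N ∈ Icc 1 X, (N.divisors.card : ℝ) ^ 2
      ≤ ∑ N ∈ Icc 1 X, (((Icc 1 X ×ˢ Icc 1 X ×ˢ Icc 1 X).filter
          (fun x : ℕ × ℕ × ℕ => x.1 * x.2.1 * x.2.2 ∣ N)).card : ℝ) :=
        sum_le_sum fun N hN => by exact_mod_cast Mass1_tau_sq X N hN
    _ = ∑ x ∈ Icc 1 X ×ˢ Icc 1 X ×ˢ Icc 1 X,
          (((Icc 1 X).filter (fun N => x.1 * x.2.1 * x.2.2 ∣ N)).card : ℝ) :=
        Mass1_sum_exch (Icc 1 X) _ (fun x : ℕ × ℕ × ℕ => x.1 * x.2.1 * x.2.2)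
    _ ≤ ∑ x ∈ Icc 1 X ×ˢ Icc 1 X ×ˢ Icc 1 X,
          (X : ℝ) * (1 / ((x.1 * x.2.1 * x.2.2 : ℕ) : ℝ)) :=
        sum_le_sum fun x _ => Mass1_card_mult X _
    _ = X * Pool.Agent.Lib.LargeSieve.HH X ^ 3 := by
        rw [← mul_sum]
        congr 1
        have : Pool.Agent.Lib.LargeSieve.HH X ^ 3 = Pool.Agent.Lib.LargeSieve.HH X *
            (Pool.Agent.Lib.LargeSieve.HH X * Pool.Agent.Lib.LargeSieve.HH X) := by ring
        rw [this]
        unfold Pool.Agent.Lib.LargeSieve.HH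
        rw [sum_mul_sum (Icc 1 X) (Icc 1 X), ← sum_product', sum_mul_sum, ← sum_product']
        refine sum_congr rfl fun x _ => ?_
        push_cast
        rw [one_div_mul_one_div, one_div_mul_one_div, mul_assoc]
    _ ≤ X * (1 + Real.log X) ^ 3 :=
        mul_le_mul_of_nonneg_left (pow_le_pow_left₀ hH0 hH 3) (Nat.cast_nonneg _)

/-- Hint: exchange the sums, `∑ N, th * gg = ∑ d ∈ DD, cnt d`. -/
theorem m1 (W Y D R Q : ℕ) (M : ℝ) (hD : D ≤ Q) :
    |∑ N ∈ NN W Y, th (2 * N - 1) * gg W D R N - M * ZZ W D R| ≤ err W Y M Q := by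
  unfold gg ZZ
  rw [Mass1_exch, mul_sum, ← sum_sub_distrib]
  refine (abs_sum_le_sum_abs _ _).trans (le_trans (le_of_eq ?_) (Mass1_err W Y D R Q M hD))
  refine sum_congr rfl fun d _ => ?_
  rw [mul_one_div]

/-- Hint: `gg ≤ τ N = 2 ^ ω N ≤ (τ N)^2 / 2 ^ s`, `th_le`, `sum_tau_sq_le`. -/
theorem m3 (W Y D R s : ℕ) :
    ∑ N ∈ (NN W Y).filter (fun N => Squarefree N ∧ s < N.primeFactors.card),
        th (2 * N - 1) * gg W D R N
      ≤ Real.log (4 * Y) * (2 * Y) * (1 + Real.log (2 * Y)) ^ 3 / 2 ^ s := by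
  have hL : 0 ≤ Real.log (4 * Y) := by
    have := Real.log_natCast_nonneg (4 * Y)
    push_cast at this
    exact this
  have hsub : (NN W Y).filter (fun N => Squarefree N ∧ s < N.primeFactors.card)
      ⊆ Icc 1 (2 * Y) := by
    intro N hN
    have h1 := mem_Ioc.1 (mem_filter.1 (mem_filter.1 hN).1).1
    exact mem_Icc.2 ⟨by omega, h1.2⟩
  have hs : (0 : ℝ) < 2 ^ s := by positivity
  have key : ∀ N ∈ (NN W Y).filter (fun N => Squarefree N ∧ s < N.primeFactors.card),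
      th (2 * N - 1) * gg W D R N
        ≤ Real.log (4 * Y) / 2 ^ s * (N.divisors.card : ℝ) ^ 2 := by
    intro N hN
    obtain ⟨hN1, hsq, hc⟩ := mem_filter.1 hN
    have hg : (gg W D R N : ℝ) ≤ N.divisors.card := by
      refine Nat.cast_le.2 (card_le_card fun d hd => ?_)
      exact Nat.mem_divisors.2 ⟨(mem_filter.1 hd).2, hsq.ne_zero⟩
    have ht : (2 : ℝ) ^ s ≤ N.divisors.card := by
      rw [Mass1_tau_sqfree hsq]
      push_cast
      exact pow_le_pow_right₀ (by norm_num) hc.le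
    have h0 : (0 : ℝ) ≤ N.divisors.card := Nat.cast_nonneg _
    have hg2 : (gg W D R N : ℝ) ≤ (N.divisors.card : ℝ) ^ 2 / 2 ^ s := by
      rw [le_div_iff₀ hs, sq]
      exact mul_le_mul hg ht hs.le h0
    calc th (2 * N - 1) * gg W D R N
        ≤ Real.log (4 * Y) * ((N.divisors.card : ℝ) ^ 2 / 2 ^ s) :=
          mul_le_mul (th_le hN1) hg2 (Nat.cast_nonneg _) hL
      _ = Real.log (4 * Y) / 2 ^ s * (N.divisors.card : ℝ) ^ 2 := by ring
  have h2 := sum_tau_sq_le (2 * Y)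
  push_cast at h2
  calc _ ≤ ∑ N ∈ (NN W Y).filter (fun N => Squarefree N ∧ s < N.primeFactors.card),
          Real.log (4 * Y) / 2 ^ s * (N.divisors.card : ℝ) ^ 2 := sum_le_sum key
    _ ≤ ∑ N ∈ Icc 1 (2 * Y), Real.log (4 * Y) / 2 ^ s * (N.divisors.card : ℝ) ^ 2 :=
        sum_le_sum_of_subset_of_nonneg hsub fun _ _ _ => by positivity
    _ = Real.log (4 * Y) / 2 ^ s * ∑ N ∈ Icc 1 (2 * Y), (N.divisors.card : ℝ) ^ 2 := by
        rw [mul_sum]
    _ ≤ Real.log (4 * Y) / 2 ^ s * (2 * Y * (1 + Real.log (2 * Y)) ^ 3) :=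
        mul_le_mul_of_nonneg_left h2 (by positivity)
    _ = _ := by ring

/-- Hint: `U1 l ≤ ∑ (d ∈ DD, l ∣ d) cnt d ≤ M * ∑ 1 / φ d + ∑ (d ∈ DD, l ∣ d) |cnt d - M / φ d|`,
and each `d ≤ D` has at most `Nat.log 2 D` prime factors. -/
theorem u1 (W Y D R s Q : ℕ) (M η : ℝ) (hM : 0 ≤ M) (hD : D ≤ Q) (I : Finset ℕ)
    (hI : ∀ l ∈ I, l.Prime)
    (hZ : ∀ j : ℕ, 1 ≤ j → ∑ d ∈ (DD W D R).filter (fun d => j ∣ d), 1 / (d.totient : ℝ)
      ≤ (1 + η) * ZZ W D R / j.totient) :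
    ∑ l ∈ I, max (U1 W Y D R s l - (1 + η) * M * ZZ W D R / (l - 1)) 0
      ≤ Nat.log 2 D * err W Y M Q := by
  have key : ∀ l ∈ I, max (U1 W Y D R s l - (1 + η) * M * ZZ W D R / (l - 1)) 0
      ≤ ∑ d ∈ (DD W D R).filter (fun d => l ∣ d), |cnt W Y d - M / d.totient| := by
    intro l hl
    have hp := hI l hl
    refine max_le ?_ (sum_nonneg fun _ _ => abs_nonneg _)
    have h1 : U1 W Y D R s l ≤ ∑ d ∈ (DD W D R).filter (fun d => l ∣ d), cnt W Y d := by
      rw [← Mass1_exch]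
      unfold U1
      have hsub : (GG W Y s).filter (fun N => l ∣ N) ⊆ NN W Y :=
        (filter_subset _ _).trans (filter_subset _ _)
      refine le_trans (le_of_eq ?_) (sum_le_sum_of_subset_of_nonneg hsub fun N _ _ =>
        mul_nonneg (th_nonneg _) (Nat.cast_nonneg _))
      refine sum_congr rfl fun N _ => ?_
      unfold c1
      rw [filter_filter]
      congr 3
      ext d
      simp only [mem_filter, and_comm]
    have h2 : ∑ d ∈ (DD W D R).filter (fun d => l ∣ d), cnt W Y d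
        ≤ M * ∑ d ∈ (DD W D R).filter (fun d => l ∣ d), 1 / (d.totient : ℝ)
          + ∑ d ∈ (DD W D R).filter (fun d => l ∣ d), |cnt W Y d - M / d.totient| := by
      rw [mul_sum, ← sum_add_distrib]
      refine sum_le_sum fun d _ => ?_
      have := le_abs_self (cnt W Y d - M / d.totient)
      rw [mul_one_div]
      linarith
    have h3 := mul_le_mul_of_nonneg_left (hZ l hp.one_le) hM
    have h4 : ((l.totient : ℕ) : ℝ) = l - 1 := by
      rw [Nat.totient_prime hp, Nat.cast_sub hp.one_le, Nat.cast_one]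
    rw [h4] at h3
    have h5 : M * ((1 + η) * ZZ W D R / (l - 1)) = (1 + η) * M * ZZ W D R / (l - 1) := by ring
    linarith
  calc _ ≤ ∑ l ∈ I, ∑ d ∈ (DD W D R).filter (fun d => l ∣ d), |cnt W Y d - M / d.totient| :=
        sum_le_sum key
    _ = ∑ d ∈ DD W D R, ((I.filter fun l => l ∣ d).card : ℝ) * |cnt W Y d - M / d.totient| := by
        simp only [sum_filter, card_filter]
        push_cast
        rw [sum_comm]
        refine sum_congr rfl fun d _ => ?_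
        rw [sum_mul]
        refine sum_congr rfl fun l _ => ?_
        split_ifs <;> simp
    _ ≤ ∑ d ∈ DD W D R, (Nat.log 2 D : ℝ) * |cnt W Y d - M / d.totient| := by
        refine sum_le_sum fun d hd => mul_le_mul_of_nonneg_right ?_ (abs_nonneg _)
        obtain ⟨h3, h4⟩ := mem_Icc.1 (mem_filter.1 hd).1
        refine Nat.cast_le.2 ?_
        calc (I.filter fun l => l ∣ d).card ≤ d.primeFactors.card := by
              refine card_le_card fun l hl => ?_
              obtain ⟨hl1, hl2⟩ := mem_filter.1 hl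
              exact Nat.mem_primeFactors.2 ⟨hI l hl1, hl2, by omega⟩
          _ ≤ Nat.log 2 d := Mass1_omega d h3
          _ ≤ Nat.log 2 D := Nat.log_mono_right h4
    _ = (Nat.log 2 D : ℝ) * ∑ d ∈ DD W D R, |cnt W Y d - M / d.totient| := by rw [mul_sum]
    _ ≤ _ := mul_le_mul_of_nonneg_left (Mass1_err W Y D R Q M hD) (Nat.cast_nonneg _)

end Pool.Agent.Work.MP_6d9ff5_nt
end
end

-- merged part: Pool.Agent.Work.MP_6d9ff5_nt.Mass2
section
/-!
# Non-squarefree `N`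
-/

noncomputable section

open Finset

namespace Pool.Agent.Work.MP_6d9ff5_nt

lemma Mass2_tel (K m : ℕ) (hK : 1 ≤ K) :
    ∑ n ∈ Ioc K (K + m), 1 / ((n : ℝ) * (n - 1)) = 1 / K - 1 / ((K : ℝ) + m) := by
  have hK' : (1 : ℝ) ≤ K := by exact_mod_cast hK
  induction m with
  | zero => simp
  | succ m ih =>
    rw [← add_assoc, sum_Ioc_succ_top (by omega), ih]
    have h1 : (0 : ℝ) < (K : ℝ) + m := by positivity
    push_cast
    have h2 : (K : ℝ) + m + 1 - 1 = K + m := by ring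
    rw [h2]
    field_simp
    ring

lemma Mass2_tail (K V : ℕ) (hK : 1 ≤ K) (A : Finset ℕ) (hA : A ⊆ Ioc K V) :
    ∑ n ∈ A, 1 / ((n : ℝ) * (n - 1)) ≤ 1 / K := by
  have h1 : ∑ n ∈ A, 1 / ((n : ℝ) * (n - 1)) ≤ ∑ n ∈ Ioc K (K + V), 1 / ((n : ℝ) * (n - 1)) := by
    refine sum_le_sum_of_subset_of_nonneg (hA.trans (Ioc_subset_Ioc_right (by omega))) ?_
    intro n hn _
    have : (1 : ℝ) ≤ n := by exact_mod_cast (by have := (mem_Ioc.1 hn).1; omega : 1 ≤ n)
    have : (0 : ℝ) ≤ (n : ℝ) - 1 := by linarith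
    positivity
  rw [Mass2_tel K V hK] at h1
  have : (0 : ℝ) ≤ 1 / ((K : ℝ) + V) := by positivity
  linarith

lemma Mass2_lcm {p : ℕ} (hp : p.Prime) (d : ℕ) :
    (Nat.lcm d (p ^ 2) = d ∧ p ^ 2 ∣ d) ∨ (Nat.lcm d (p ^ 2) = d * p ∧ p ∣ d) ∨
      (Nat.lcm d (p ^ 2) = d * p ^ 2 ∧ Nat.Coprime d p) := by
  by_cases h2 : p ^ 2 ∣ d
  · exact Or.inl ⟨Nat.lcm_eq_left h2, h2⟩
  by_cases h1 : p ∣ d
  · refine Or.inr (Or.inl ⟨?_, h1⟩)
    obtain ⟨e, rfl⟩ := h1
    have he : ¬ p ∣ e := fun h => h2 (by rw [pow_two]; exact Nat.mul_dvd_mul_left p h)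
    have hc : Nat.Coprime e p := ((Nat.Prime.coprime_iff_not_dvd hp).2 he).symm
    rw [pow_two, Nat.lcm_mul_left, hc.lcm_eq_mul, mul_assoc]
  · have hc : Nat.Coprime d p := ((Nat.Prime.coprime_iff_not_dvd hp).2 h1).symm
    exact Or.inr (Or.inr ⟨(hc.pow_right 2).lcm_eq_mul, hc⟩)

lemma Mass2_swap (W Y D R k : ℕ) :
    ∑ N ∈ (NN W Y).filter (fun N => k ∣ N), th (2 * N - 1) * gg W D R N
      = ∑ d ∈ DD W D R, cnt W Y (Nat.lcm d k) := by
  unfold cnt gg
  simp only [card_filter, Nat.cast_sum, mul_sum, sum_filter]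
  have : ∀ N ∈ NN W Y, (if k ∣ N then ∑ d ∈ DD W D R, th (2 * N - 1) *
      ((if d ∣ N then 1 else 0 : ℕ) : ℝ) else 0)
      = ∑ d ∈ DD W D R, if Nat.lcm d k ∣ N then th (2 * N - 1) else 0 := by
    intro N _
    by_cases hk : k ∣ N
    · rw [if_pos hk]
      refine sum_congr rfl fun d _ => ?_
      by_cases hd : d ∣ N
      · rw [if_pos hd, if_pos (Nat.lcm_dvd hd hk)]; simp
      · rw [if_neg hd, if_neg fun h => hd ((Nat.dvd_lcm_left d k).trans h)]; simp
    · rw [if_neg hk]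
      refine (sum_eq_zero fun d _ => ?_).symm
      rw [if_neg fun h => hk ((Nat.dvd_lcm_right d k).trans h)]
  rw [sum_congr rfl this, sum_comm]

lemma Mass2_err (W Y D R Q c : ℕ) (M : ℝ) (hc : 1 ≤ c) (hQ : D * c ≤ Q) (hW : Nat.Coprime c W) :
    ∑ d ∈ DD W D R, |cnt W Y (d * c) - M / (d * c).totient| ≤ err W Y M Q := by
  unfold err
  have hinj : Set.InjOn (fun d => d * c) (DD W D R : Set ℕ) := fun a _ b _ h =>
    Nat.eq_of_mul_eq_mul_right hc h
  rw [← sum_image (f := fun k => |cnt W Y k - M / k.totient|) hinj]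
  refine sum_le_sum_of_subset_of_nonneg ?_ fun _ _ _ => abs_nonneg _
  intro k hk
  obtain ⟨d, hd, rfl⟩ := mem_image.1 hk
  have h1 := mem_filter.1 hd
  have h2 := mem_Icc.1 h1.1
  refine mem_filter.2 ⟨mem_Icc.2 ⟨Nat.mul_pos h2.1 hc, ?_⟩, Nat.Coprime.mul_left h1.2.2 hW⟩
  exact (Nat.mul_le_mul_right c h2.2).trans hQ

lemma Mass2_main (W D R p : ℕ) (η : ℝ) (hp : p.Prime) (hη : 0 ≤ η)
    (hZ : ∀ j : ℕ, 1 ≤ j →
      ∑ d ∈ (DD W D R).filter (fun d => j ∣ d), 1 / (d.totient : ℝ)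
        ≤ (1 + η) * ZZ W D R / j.totient) :
    ∑ d ∈ DD W D R, 1 / ((Nat.lcm d (p ^ 2)).totient : ℝ)
      ≤ 3 * (1 + η) * ZZ W D R * (1 / ((p : ℝ) * (p - 1))) := by
  have hp2 : (2 : ℝ) ≤ p := by exact_mod_cast hp.two_le
  have hp0 : (0 : ℝ) < p := by linarith
  have hp1 : (0 : ℝ) < (p : ℝ) - 1 := by linarith
  have ht1 : (p.totient : ℝ) = p - 1 := by
    rw [Nat.totient_prime hp, Nat.cast_sub hp.one_le, Nat.cast_one]
  have ht2 : ((p ^ 2).totient : ℝ) = p * (p - 1) := by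
    rw [Nat.totient_prime_pow_succ hp 1, Nat.cast_mul, Nat.cast_sub hp.one_le]; simp
  have h1 := hZ p hp.one_le
  have h2 := hZ (p ^ 2) (Nat.one_le_pow _ _ hp.pos)
  rw [ht1] at h1
  rw [ht2] at h2
  have hpt : ∀ d ∈ DD W D R, 1 / ((Nat.lcm d (p ^ 2)).totient : ℝ) ≤
      (if p ^ 2 ∣ d then 1 / (d.totient : ℝ) else 0)
        + (1 / p) * (if p ∣ d then 1 / (d.totient : ℝ) else 0)
        + (1 / ((p : ℝ) * (p - 1))) * (1 / (d.totient : ℝ)) := by
    intro d _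
    have a1 : (0 : ℝ) ≤ (if p ^ 2 ∣ d then 1 / (d.totient : ℝ) else 0) := by
      split_ifs <;> positivity
    have a2 : (0 : ℝ) ≤ (1 / p) * (if p ∣ d then 1 / (d.totient : ℝ) else 0) := by
      split_ifs <;> positivity
    have a3 : (0 : ℝ) ≤ (1 / ((p : ℝ) * (p - 1))) * (1 / (d.totient : ℝ)) := by positivity
    rcases Mass2_lcm hp d with ⟨e, h⟩ | ⟨e, h⟩ | ⟨e, h⟩
    · rw [e, if_pos h]; linarith
    · have : 1 / ((Nat.lcm d (p ^ 2)).totient : ℝ)
          = (1 / p) * (if p ∣ d then 1 / (d.totient : ℝ) else 0) := by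
        rw [e, if_pos h, mul_comm d p, Nat.totient_mul_of_prime_of_dvd hp h, Nat.cast_mul,
          one_div_mul_one_div]
      linarith
    · have : 1 / ((Nat.lcm d (p ^ 2)).totient : ℝ)
          = (1 / ((p : ℝ) * (p - 1))) * (1 / (d.totient : ℝ)) := by
        rw [e, Nat.totient_mul (h.pow_right 2), Nat.cast_mul, ht2, one_div_mul_one_div, mul_comm]
      linarith
  refine (sum_le_sum hpt).trans ?_
  rw [sum_add_distrib, sum_add_distrib, ← mul_sum, ← mul_sum, ← sum_filter, ← sum_filter]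
  have hZ0 := ZZ_nonneg W D R
  have h3 : (1 / (p : ℝ)) * ∑ d ∈ (DD W D R).filter (fun d => p ∣ d), 1 / (d.totient : ℝ)
      ≤ (1 + η) * ZZ W D R * (1 / ((p : ℝ) * (p - 1))) := by
    refine (mul_le_mul_of_nonneg_left h1 (by positivity)).trans (le_of_eq ?_)
    field_simp
  have h4 : (1 / ((p : ℝ) * (p - 1))) * ∑ d ∈ DD W D R, 1 / (d.totient : ℝ)
      ≤ (1 + η) * ZZ W D R * (1 / ((p : ℝ) * (p - 1))) := by
    rw [mul_comm]
    refine mul_le_mul_of_nonneg_right ?_ (by positivity)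
    change ZZ W D R ≤ _
    nlinarith
  have h5 : (1 + η) * ZZ W D R / ((p : ℝ) * (p - 1))
      = (1 + η) * ZZ W D R * (1 / ((p : ℝ) * (p - 1))) := by ring
  linarith

lemma Mass2_small (W Y D R Q V p : ℕ) (M η : ℝ) (hp : p.Prime) (hM : 0 ≤ M) (hη : 0 ≤ η)
    (hpV : p ≤ V) (hpW : Nat.Coprime p W) (hQ : D * V ^ 2 ≤ Q)
    (hZ : ∀ j : ℕ, 1 ≤ j →
      ∑ d ∈ (DD W D R).filter (fun d => j ∣ d), 1 / (d.totient : ℝ)
        ≤ (1 + η) * ZZ W D R / j.totient) :
    ∑ N ∈ (NN W Y).filter (fun N => p ^ 2 ∣ N), th (2 * N - 1) * gg W D R N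
      ≤ 3 * (1 + η) * M * ZZ W D R * (1 / ((p : ℝ) * (p - 1))) + 3 * err W Y M Q := by
  rw [Mass2_swap]
  have hpp : p ^ 2 ≤ V ^ 2 := Nat.pow_le_pow_left hpV 2
  have hp1 : p ≤ p ^ 2 := Nat.le_self_pow (by norm_num) p
  have e0 := Mass2_err W Y D R Q 1 M le_rfl
    ((Nat.mul_le_mul_left D (hp.one_le.trans (hp1.trans hpp))).trans hQ) (Nat.coprime_one_left W)
  have e1 := Mass2_err W Y D R Q p M hp.one_le
    ((Nat.mul_le_mul_left D (hp1.trans hpp)).trans hQ) hpW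
  have e2 := Mass2_err W Y D R Q (p ^ 2) M (hp.one_le.trans hp1)
    ((Nat.mul_le_mul_left D hpp).trans hQ) (hpW.pow_left 2)
  have hm := Mass2_main W D R p η hp hη hZ
  have hpt : ∀ d ∈ DD W D R, cnt W Y (Nat.lcm d (p ^ 2)) ≤
      M * (1 / ((Nat.lcm d (p ^ 2)).totient : ℝ))
        + (|cnt W Y (d * 1) - M / (d * 1).totient| + |cnt W Y (d * p) - M / (d * p).totient|
          + |cnt W Y (d * p ^ 2) - M / (d * p ^ 2).totient|) := by
    intro d _
    have a0 := le_abs_self (cnt W Y (Nat.lcm d (p ^ 2)) - M / (Nat.lcm d (p ^ 2)).totient)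
    have a1 := abs_nonneg (cnt W Y (d * 1) - M / (d * 1).totient)
    have a2 := abs_nonneg (cnt W Y (d * p) - M / (d * p).totient)
    have a3 := abs_nonneg (cnt W Y (d * p ^ 2) - M / (d * p ^ 2).totient)
    rw [mul_one_div]
    rcases Mass2_lcm hp d with ⟨e, _⟩ | ⟨e, _⟩ | ⟨e, _⟩
    · rw [e] at a0 ⊢; rw [mul_one] at a1 ⊢; linarith
    · rw [e] at a0 ⊢; linarith
    · rw [e] at a0 ⊢; linarith
  refine (sum_le_sum hpt).trans ?_
  rw [sum_add_distrib, sum_add_distrib, sum_add_distrib, ← mul_sum]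
  have := mul_le_mul_of_nonneg_left hm hM
  linarith

lemma Mass2_tau {p : ℕ} (hp : p.Prime) (j : ℕ) :
    (p ^ 2 * j).divisors.card ≤ 3 * j.divisors.card := by
  rw [Nat.divisors_mul]
  refine card_mul_le.trans (Nat.mul_le_mul_right _ ?_)
  rw [Nat.divisors_prime_pow hp, card_map, card_range]

lemma Mass2_large (W Y D R p : ℕ) (hp : p.Prime) :
    ∑ N ∈ (NN W Y).filter (fun N => p ^ 2 ∣ N), th (2 * N - 1) * gg W D R N
      ≤ 6 * Real.log (4 * Y) * Y * (1 + Real.log (2 * Y)) * (1 / ((p : ℝ) * (p - 1))) := by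
  have hp2 : (2 : ℝ) ≤ p := by exact_mod_cast hp.two_le
  have hp0 : (0 : ℝ) < p := by linarith
  have hp1 : (0 : ℝ) < (p : ℝ) - 1 := by linarith
  have hpp : 0 < p ^ 2 := pow_pos hp.pos 2
  have hL4 : 0 ≤ Real.log (4 * Y) := by
    have := Real.log_natCast_nonneg (4 * Y); push_cast at this; exact this
  have hL2 : 0 ≤ Real.log (2 * Y) := by
    have := Real.log_natCast_nonneg (2 * Y); push_cast at this; exact this
  set X := 2 * Y / p ^ 2 with hX
  have h1 : ∑ N ∈ (NN W Y).filter (fun N => p ^ 2 ∣ N), th (2 * N - 1) * gg W D R N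
      ≤ ∑ N ∈ (NN W Y).filter (fun N => p ^ 2 ∣ N),
        Real.log (4 * Y) * (N.divisors.card : ℝ) := by
    refine sum_le_sum fun N hN => ?_
    have hN1 := (mem_filter.1 hN).1
    have hN2 := mem_Ioc.1 (mem_filter.1 hN1).1
    refine mul_le_mul (th_le hN1) ?_ (Nat.cast_nonneg _) hL4
    refine Nat.cast_le.2 (card_le_card fun d hd => ?_)
    exact Nat.mem_divisors.2 ⟨(mem_filter.1 hd).2, by omega⟩
  have h2 : ∑ N ∈ (NN W Y).filter (fun N => p ^ 2 ∣ N), (N.divisors.card : ℝ)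
      ≤ ∑ N ∈ (Icc 1 X).image (fun j => p ^ 2 * j), (N.divisors.card : ℝ) := by
    refine sum_le_sum_of_subset_of_nonneg ?_ fun _ _ _ => Nat.cast_nonneg _
    intro N hN
    have hN2 := mem_Ioc.1 (mem_filter.1 (mem_filter.1 hN).1).1
    obtain ⟨j, rfl⟩ := (mem_filter.1 hN).2
    refine mem_image.2 ⟨j, mem_Icc.2 ⟨?_, ?_⟩, rfl⟩
    · rcases Nat.eq_zero_or_pos j with h | h
      · subst h; simp at hN2
      · exact h
    · rw [hX, Nat.le_div_iff_mul_le hpp, mul_comm]; exact hN2.2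
  have h3 : ∑ N ∈ (Icc 1 X).image (fun j => p ^ 2 * j), (N.divisors.card : ℝ)
      ≤ 3 * ∑ j ∈ Icc 1 X, (j.divisors.card : ℝ) := by
    rw [sum_image fun a _ b _ h => Nat.eq_of_mul_eq_mul_left hpp h, mul_sum]
    exact sum_le_sum fun j _ => by exact_mod_cast Mass2_tau hp j
  have h4 := sum_tau_le X
  have hX1 : (X : ℝ) ≤ 2 * Y * (1 / ((p : ℝ) * (p - 1))) := by
    have a1 : (X : ℝ) ≤ ((2 * Y : ℕ) : ℝ) / ((p ^ 2 : ℕ) : ℝ) := Nat.cast_div_le
    push_cast at a1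
    refine a1.trans ?_
    rw [mul_one_div]
    refine div_le_div_of_nonneg_left (by positivity) (by positivity) (by nlinarith)
  have hX2 : Real.log X ≤ Real.log (2 * Y) := by
    rcases Nat.eq_zero_or_pos X with h | h
    · rw [h]; simpa using hL2
    · refine Real.log_le_log (by exact_mod_cast h) ?_
      exact_mod_cast Nat.div_le_self (2 * Y) (p ^ 2)
  have hX3 : 0 ≤ Real.log X := Real.log_natCast_nonneg X
  have h5 : (X : ℝ) * (1 + Real.log X)
      ≤ 2 * Y * (1 / ((p : ℝ) * (p - 1))) * (1 + Real.log (2 * Y)) :=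
    mul_le_mul hX1 (by linarith) (by linarith) (by positivity)
  rw [← mul_sum] at h1
  have h6 : ∑ N ∈ (NN W Y).filter (fun N => p ^ 2 ∣ N), (N.divisors.card : ℝ)
      ≤ 3 * (2 * Y * (1 / ((p : ℝ) * (p - 1))) * (1 + Real.log (2 * Y))) := by linarith
  refine h1.trans ((mul_le_mul_of_nonneg_left h6 hL4).trans (le_of_eq ?_))
  ring

lemma Mass2_cover (K Y V : ℕ) (f : ℕ → ℝ) (hf : ∀ N, 0 ≤ f N) :
    ∑ N ∈ (NN (primorial K) Y).filter (fun N => ¬ Squarefree N), f N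
      ≤ ∑ p ∈ (Ioc K V).filter Nat.Prime,
          ∑ N ∈ (NN (primorial K) Y).filter (fun N => p ^ 2 ∣ N), f N
        + ∑ p ∈ (Ioc V (2 * Y)).filter Nat.Prime,
          ∑ N ∈ (NN (primorial K) Y).filter (fun N => p ^ 2 ∣ N), f N := by
  simp only [sum_filter (s := NN (primorial K) Y)]
  rw [sum_comm (s := (Ioc K V).filter Nat.Prime), sum_comm (s := (Ioc V (2 * Y)).filter Nat.Prime),
    ← sum_add_distrib]
  refine sum_le_sum fun N hN => ?_
  have hn : ∀ p : ℕ, (0 : ℝ) ≤ if p ^ 2 ∣ N then f N else 0 := fun p => by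
    split_ifs
    · exact hf N
    · exact le_rfl
  have a1 : (0 : ℝ) ≤ ∑ p ∈ (Ioc K V).filter Nat.Prime, if p ^ 2 ∣ N then f N else 0 :=
    sum_nonneg fun p _ => hn p
  have a2 : (0 : ℝ) ≤ ∑ p ∈ (Ioc V (2 * Y)).filter Nat.Prime, if p ^ 2 ∣ N then f N else 0 :=
    sum_nonneg fun p _ => hn p
  by_cases hs : Squarefree N
  · rw [if_neg (not_not.2 hs)]; linarith
  rw [if_pos hs]
  have hN1 := mem_filter.1 hN
  have hN2 := mem_Ioc.1 hN1.1
  rw [Nat.squarefree_iff_prime_squarefree] at hs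
  push Not at hs
  obtain ⟨p, hp, hd⟩ := hs
  have hd2 : p ^ 2 ∣ N := by rwa [pow_two]
  have hd1 : p ∣ N := (Dvd.intro p rfl).trans hd
  have hK : K < p := by
    by_contra h
    have h1 : p ∣ primorial K := hp.dvd_primorial_iff.2 (by omega)
    have h2 : p ∣ Nat.gcd N (primorial K) := Nat.dvd_gcd hd1 h1
    rw [hN1.2] at h2
    exact hp.one_lt.ne' (Nat.dvd_one.1 h2)
  have hle : p ≤ 2 * Y := (Nat.le_of_dvd (by omega) hd1).trans hN2.2
  by_cases hV : p ≤ V
  · have := single_le_sum (f := fun p : ℕ => if p ^ 2 ∣ N then f N else 0) (fun p _ => hn p)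
      (mem_filter.2 ⟨mem_Ioc.2 ⟨hK, hV⟩, hp⟩ : p ∈ (Ioc K V).filter Nat.Prime)
    rw [if_pos hd2] at this
    linarith
  · have := single_le_sum (f := fun p : ℕ => if p ^ 2 ∣ N then f N else 0) (fun p _ => hn p)
      (mem_filter.2 ⟨mem_Ioc.2 ⟨by omega, hle⟩, hp⟩ : p ∈ (Ioc V (2 * Y)).filter Nat.Prime)
    rw [if_pos hd2] at this
    linarith

/-- Hints. A non-squarefree `N` prime to `primorial K` is divisible by `p ^ 2`, `p > K` prime.
For `p ≤ V`: `∑ (N, p^2 ∣ N) th * gg = ∑ d ∈ DD, cnt (lcm d (p^2)) ≤ ∑ d, M / φ (lcm) + ∑ d, |cnt - M / φ|(lcm)`;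
`φ (lcm d (p^2))` is `φ d * p (p-1)`, `φ d * p`, `φ d` according to `p ∤ d`, `p ∥ d`, `p^2 ∣ d`, so by `hZ` with
`j = p`, `j = p^2` the first sum is at most `3 (1 + η) M ZZ / (p (p-1))`, and `∑ (p > K) 1 / (p (p-1)) ≤ 1 / K`;
`d ↦ lcm d (p^2)` is at most three to one (`d = k, k/p, k/p^2`) into the range of `err`.
For `p > V`: `th_le`, `gg ≤ τ`, `τ (p^2 j) ≤ 3 τ j`, `sum_tau_le`, `∑ (p > V) 1 / p^2 ≤ 1 / V`. -/
theorem m2 (K Y D R Q V : ℕ) (M η : ℝ) (hK : 1 ≤ K) (hM : 0 ≤ M) (hη : 0 ≤ η) (hV : 1 ≤ V)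
    (hQ : D * V ^ 2 ≤ Q)
    (hZ : ∀ j : ℕ, 1 ≤ j →
      ∑ d ∈ (DD (primorial K) D R).filter (fun d => j ∣ d), 1 / (d.totient : ℝ)
        ≤ (1 + η) * ZZ (primorial K) D R / j.totient) :
    ∑ N ∈ (NN (primorial K) Y).filter (fun N => ¬ Squarefree N),
        th (2 * N - 1) * gg (primorial K) D R N
      ≤ 3 * (1 + η) * M * ZZ (primorial K) D R / K + 3 * V * err (primorial K) Y M Q
        + 6 * Real.log (4 * Y) * Y * (1 + Real.log (2 * Y)) / V := by
  refine (Mass2_cover K Y V (fun N => th (2 * N - 1) * gg (primorial K) D R N)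
    fun N => mul_nonneg (th_nonneg _) (Nat.cast_nonneg _)).trans ?_
  have hZ0 := ZZ_nonneg (primorial K) D R
  have hE0 := err_nonneg (primorial K) Y M Q
  have hL4 : 0 ≤ Real.log (4 * Y) := by
    have := Real.log_natCast_nonneg (4 * Y); push_cast at this; exact this
  have hL2 : 0 ≤ Real.log (2 * Y) := by
    have := Real.log_natCast_nonneg (2 * Y); push_cast at this; exact this
  have h1 : ∑ p ∈ (Ioc K V).filter Nat.Prime,
      ∑ N ∈ (NN (primorial K) Y).filter (fun N => p ^ 2 ∣ N),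
        th (2 * N - 1) * gg (primorial K) D R N
      ≤ ∑ p ∈ (Ioc K V).filter Nat.Prime,
        (3 * (1 + η) * M * ZZ (primorial K) D R * (1 / ((p : ℝ) * (p - 1)))
          + 3 * err (primorial K) Y M Q) := by
    refine sum_le_sum fun p hp => ?_
    have a1 := mem_filter.1 hp
    have a2 := mem_Ioc.1 a1.1
    refine Mass2_small _ Y D R Q V p M η a1.2 hM hη a2.2 ?_ hQ hZ
    rw [Nat.Prime.coprime_iff_not_dvd a1.2, a1.2.dvd_primorial_iff]
    omega
  have h2 : ∑ p ∈ (Ioc V (2 * Y)).filter Nat.Prime,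
      ∑ N ∈ (NN (primorial K) Y).filter (fun N => p ^ 2 ∣ N),
        th (2 * N - 1) * gg (primorial K) D R N
      ≤ ∑ p ∈ (Ioc V (2 * Y)).filter Nat.Prime,
        6 * Real.log (4 * Y) * Y * (1 + Real.log (2 * Y)) * (1 / ((p : ℝ) * (p - 1))) :=
    sum_le_sum fun p hp => Mass2_large _ Y D R p (mem_filter.1 hp).2
  rw [sum_add_distrib, ← mul_sum, sum_const, nsmul_eq_mul] at h1
  rw [← mul_sum] at h2
  have t1 := Mass2_tail K V hK _ (filter_subset Nat.Prime (Ioc K V))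
  have t2 := Mass2_tail V (2 * Y) hV _ (filter_subset Nat.Prime (Ioc V (2 * Y)))
  have c1 : (((Ioc K V).filter Nat.Prime).card : ℝ) ≤ V := by
    have := card_filter_le (Ioc K V) Nat.Prime
    rw [Nat.card_Ioc] at this
    exact_mod_cast (by omega : ((Ioc K V).filter Nat.Prime).card ≤ V)
  have u1 := mul_le_mul_of_nonneg_left t1
    (by positivity : 0 ≤ 3 * (1 + η) * M * ZZ (primorial K) D R)
  have u2 := mul_le_mul_of_nonneg_left t2
    (by positivity : 0 ≤ 6 * Real.log (4 * Y) * Y * (1 + Real.log (2 * Y)))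
  have u3 := mul_le_mul_of_nonneg_right c1 (by positivity : 0 ≤ 3 * err (primorial K) Y M Q)
  rw [mul_one_div] at u1 u2
  linarith

end Pool.Agent.Work.MP_6d9ff5_nt
end
end

-- merged part: Pool.Agent.Work.MP_6d9ff5_nt.Top2
section
/-!
# Two sieve bounds for the large primes
-/

noncomputable section

open Finset

namespace Pool.Agent.Work.MP_6d9ff5_nt

/-- common counting step: every `N` in `S` is `c j p` with `j ∈ J` and a prime `p > z` -/
lemma Top2_core (W Y c : ℕ) (z Φ : ℝ) (hz : 2 ≤ z) (hc : 0 < c) (J S : Finset ℕ)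
    (hJ : ∀ j ∈ J, 0 < j) (hS : S ⊆ NN W Y)
    (hd : ∀ N ∈ S, ∃ j ∈ J, ∃ p : ℕ, p.Prime ∧ z < (p : ℝ) ∧ N = c * j * p)
    (hΦ : ∀ u : ℕ, 1 ≤ u → u ≤ 2 * Y → ((2 * u : ℕ) : ℝ) / (2 * u).totient ≤ Φ)
    (A B : ℝ) (hA : ∑ j ∈ J, (1 : ℝ) / j ≤ A) (hB : (J.card : ℝ) ≤ B) :
    ∑ N ∈ S, th (2 * N - 1)
      ≤ Real.log (4 * Y) * (2 * Y / c * Φ * A / Real.log z ^ 2 + B * z ^ 8) := by
  classical
  rcases Nat.eq_zero_or_pos Y with rfl | hY
  · have : S = ∅ := by
      refine eq_empty_of_forall_notMem fun N hN => ?_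
      have := mem_Ioc.1 (mem_filter.1 (hS hN)).1
      omega
    simp [this]
  have hYr : (1 : ℝ) ≤ Y := by exact_mod_cast hY
  have hL : 0 ≤ Real.log (4 * Y) := Real.log_nonneg (by linarith)
  have hΦ0 : 0 ≤ Φ := le_trans (by positivity) (hΦ 1 le_rfl (by omega))
  have hlz : 0 < Real.log z := Real.log_pos (by linarith)
  have hz0 : 0 < z := by linarith
  have hcr : (0 : ℝ) < c := by exact_mod_cast hc
  set F : ℕ → Finset ℕ := fun j => (Icc 1 (2 * Y / (c * j))).filter fun b : ℕ =>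
    b.Prime ∧ z < (b : ℝ) ∧ (2 * (c * j * b) - 1).Prime with hF
  set S' := S.filter fun N => (2 * N - 1).Prime with hS'
  have h1 : ∑ N ∈ S, th (2 * N - 1) ≤ Real.log (4 * Y) * S'.card := by
    have : ∑ N ∈ S, th (2 * N - 1) = ∑ N ∈ S', th (2 * N - 1) := by
      refine (sum_subset (filter_subset _ _) fun N hN hN' => ?_).symm
      have : ¬ (2 * N - 1).Prime := fun h => hN' (mem_filter.2 ⟨hN, h⟩)
      simp [th, this]
    rw [this, mul_comm]
    have := card_nsmul_le_sum S' (fun N => Real.log (4 * Y) - th (2 * N - 1)) 0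
      fun N hN => sub_nonneg.2 (th_le (hS (mem_filter.1 hN).1))
    rw [sum_sub_distrib] at this
    simp only [smul_zero, sum_const, nsmul_eq_mul] at this
    linarith
  have h2 : S' ⊆ J.biUnion fun j => (F j).image fun b => c * j * b := by
    intro N hN
    obtain ⟨hNS, hp⟩ := mem_filter.1 hN
    obtain ⟨j, hj, p, hpp, hzp, rfl⟩ := hd N hNS
    have hN2 := (mem_Ioc.1 (mem_filter.1 (hS hNS)).1).2
    refine mem_biUnion.2 ⟨j, hj, mem_image.2 ⟨p, mem_filter.2 ⟨mem_Icc.2 ⟨hpp.one_le, ?_⟩,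
      hpp, hzp, hp⟩, rfl⟩⟩
    rw [Nat.le_div_iff_mul_le (Nat.mul_pos hc (hJ j hj)), mul_comm]
    exact hN2
  have h3 : (S'.card : ℝ) ≤ ∑ j ∈ J, ((F j).card : ℝ) := by
    have := (card_le_card h2).trans card_biUnion_le
    have h4 : ∑ j ∈ J, ((F j).image fun b => c * j * b).card ≤ ∑ j ∈ J, (F j).card :=
      sum_le_sum fun j _ => card_image_le
    exact_mod_cast this.trans h4
  have h5 : ∀ j ∈ J, ((F j).card : ℝ)
      ≤ 2 * Y / c * Φ / Real.log z ^ 2 * ((1 : ℝ) / j) + z ^ 8 := by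
    intro j hj
    have hj0 := hJ j hj
    have hjr : (0 : ℝ) < j := by exact_mod_cast hj0
    have hu : 0 < c * j := Nat.mul_pos hc hj0
    by_cases hcj : c * j ≤ 2 * Y
    · refine (sv3 z hz (c * j) (2 * Y / (c * j)) hu).trans ?_
      have e1 : ((2 * Y / (c * j) : ℕ) : ℝ) ≤ 2 * Y / (c * j) := by
        have := @Nat.cast_div_le ℝ _ _ _ (2 * Y) (c * j)
        push_cast at this
        exact this
      have e2 := hΦ (c * j) hu hcj
      have e3 : ((2 * Y / (c * j) : ℕ) : ℝ) * (((2 * (c * j) : ℕ) : ℝ) / (2 * (c * j)).totient)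
          ≤ 2 * Y / (c * j) * Φ := mul_le_mul e1 e2 (by positivity) (by positivity)
      have e4 : 2 * Y / c * Φ / Real.log z ^ 2 * ((1 : ℝ) / j)
          = 2 * Y / (c * j) * Φ / Real.log z ^ 2 := by
        field_simp
      rw [e4]
      gcongr
    · have : F j = ∅ := by
        have h0 : 2 * Y / (c * j) = 0 := Nat.div_eq_of_lt (by omega)
        simp [hF, h0]
      rw [this]
      simp only [card_empty, Nat.cast_zero]
      positivity
  have h6 : ∑ j ∈ J, ((F j).card : ℝ)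
      ≤ 2 * Y / c * Φ * A / Real.log z ^ 2 + B * z ^ 8 := by
    refine (sum_le_sum h5).trans ?_
    rw [sum_add_distrib, ← mul_sum, sum_const, nsmul_eq_mul]
    have e1 : 2 * Y / c * Φ / Real.log z ^ 2 * ∑ j ∈ J, (1 : ℝ) / j
        ≤ 2 * Y / c * Φ / Real.log z ^ 2 * A := mul_le_mul_of_nonneg_left hA (by positivity)
    have e2 : (J.card : ℝ) * z ^ 8 ≤ B * z ^ 8 := mul_le_mul_of_nonneg_right hB (by positivity)
    have e3 : 2 * Y / c * Φ / Real.log z ^ 2 * A = 2 * Y / c * Φ * A / Real.log z ^ 2 := by ring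
    linarith
  exact h1.trans (mul_le_mul_of_nonneg_left (h3.trans h6) hL)

lemma Top2_harm (a d : ℕ) (ha : 0 < a) :
    ∑ j ∈ Icc a (a + d), (1 : ℝ) / j ≤ 1 + Real.log (a + d : ℕ) - Real.log a := by
  have har : (1 : ℝ) ≤ a := by exact_mod_cast ha
  induction d with
  | zero =>
    simp only [add_zero, Icc_self, sum_singleton, add_sub_cancel_right]
    rw [div_le_one (by linarith)]
    exact har
  | succ d ih =>
    rw [← add_assoc, sum_Icc_succ_top (by omega)]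
    have hp : (0 : ℝ) < (a + d : ℕ) := by exact_mod_cast (by omega : 0 < a + d)
    have hq : (0 : ℝ) < (a + d + 1 : ℕ) := by exact_mod_cast (by omega : 0 < a + d + 1)
    have h := Real.log_le_sub_one_of_pos (div_pos hp hq)
    rw [Real.log_div hp.ne' hq.ne'] at h
    have e : ((a + d : ℕ) : ℝ) / (a + d + 1 : ℕ) - 1 = -(1 / (a + d + 1 : ℕ)) := by
      field_simp
      push_cast
      ring
    rw [e] at h
    linarith

open Classical in
/-- Hints. `N = l j p`, `j ≥ 1`, `n l j < 2 Y R`; for fixed `j` the prime `p ≤ 2Y / (l j)` exceeds `z` and `sv3`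
applies with `u = l j ≤ 2Y`; `∑ j ≤ m, 1 / j ≤ 1 + log m` (`HH_le`); `th_le`. -/
theorem top_big (W Y n R l : ℕ) (z Φ : ℝ) (hz : 2 ≤ z) (hzR : z * R ≤ n) (hR : 0 < R) (hl : l.Prime)
    (hΦ : ∀ u : ℕ, 1 ≤ u → u ≤ 2 * Y → ((2 * u : ℕ) : ℝ) / (2 * u).totient ≤ Φ) :
    ∑ N ∈ (NN W Y).filter (fun N => l ∣ N ∧ ∃ p : ℕ, p.Prime ∧ p ∣ N ∧ p ≠ l ∧ n < p * R),
        th (2 * N - 1)
      ≤ Real.log (4 * Y) * (2 * Y / l * Φ * (1 + Real.log (2 * Y * R / (n * l) : ℕ)) / Real.log z ^ 2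
        + 2 * Y * R / (n * l) * z ^ 8) := by
  have hRr : (0 : ℝ) < R := by exact_mod_cast hR
  have hn : 0 < n := by
    have : (0 : ℝ) < n := lt_of_lt_of_le (by positivity) hzR
    exact_mod_cast this
  refine Top2_core W Y l z Φ hz hl.pos (Icc 1 (2 * Y * R / (n * l))) _
    (fun j hj => (mem_Icc.1 hj).1) (filter_subset _ _) ?_ hΦ _ _
    (Pool.Agent.Lib.LargeSieve.HH_le _) ?_
  · intro N hN
    obtain ⟨hNN, hlN, p, hp, hpN, hpl, hnp⟩ := mem_filter.1 hN
    obtain ⟨hN1, hN2⟩ := mem_Ioc.1 (mem_filter.1 hNN).1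
    obtain ⟨j, rfl⟩ : l * p ∣ N :=
      Nat.Coprime.mul_dvd_of_dvd_of_dvd ((Nat.coprime_primes hl hp).2 hpl.symm) hlN hpN
    have hj : 0 < j := Nat.pos_of_ne_zero (by rintro rfl; simp at hN1)
    refine ⟨j, mem_Icc.2 ⟨hj, ?_⟩, p, hp, ?_, by ring⟩
    · rw [Nat.le_div_iff_mul_le (Nat.mul_pos hn hl.pos)]
      calc j * (n * l) ≤ j * (p * R * l) := by gcongr
        _ = l * p * j * R := by ring
        _ ≤ 2 * Y * R := by gcongr
    · have h1 : (n : ℝ) < p * R := by exact_mod_cast hnp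
      exact lt_of_mul_lt_mul_right (hzR.trans_lt h1) hRr.le
  · have := @Nat.cast_div_le ℝ _ _ _ (2 * Y * R) (n * l)
    push_cast at this
    simpa using this

open Classical in
/-- Hints. `k` is `1` or a prime, `k T ≤ n`, so `k` is prime to `l` and `N = k j l` with `Y < n k j`,
`n k j < 2 Y T`; for fixed `j` apply `sv3` with `u = k j`; the sum of `1 / j` over `α < j < 2 T α` is at most
`1 + log (2T)` (first term at most `1`, then `1 / (j+1) ≤ log ((j+1)/j)`). -/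
theorem top_use (W Y n T k : ℕ) (z Φ : ℝ) (hz : 2 ≤ z) (hzT : z * T ≤ n) (hT : 0 < T)
    (hk : k = 1 ∨ k.Prime) (hkT : k * T ≤ n)
    (hΦ : ∀ u : ℕ, 1 ≤ u → u ≤ 2 * Y → ((2 * u : ℕ) : ℝ) / (2 * u).totient ≤ Φ) :
    ∑ N ∈ (NN W Y).filter (fun N => k ∣ N ∧ ∃ l : ℕ, l.Prime ∧ l ∣ N ∧ n < l * T ∧ l ≤ n),
        th (2 * N - 1)
      ≤ Real.log (4 * Y) * (2 * Y / k * Φ * (1 + Real.log (2 * T)) / Real.log z ^ 2
        + 2 * Y * T / (n * k) * z ^ 8) := by
  have hTr : (0 : ℝ) < T := by exact_mod_cast hT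
  have hn : 0 < n := by
    have : (0 : ℝ) < n := lt_of_lt_of_le (by positivity) hzT
    exact_mod_cast this
  have hk0 : 0 < k := by
    rcases hk with rfl | hk
    · exact one_pos
    · exact hk.pos
  have hnk : 0 < n * k := Nat.mul_pos hn hk0
  refine Top2_core W Y k z Φ hz hk0 (Icc (Y / (n * k) + 1) (2 * Y * T / (n * k))) _
    (fun j hj => lt_of_lt_of_le (Nat.succ_pos _) (mem_Icc.1 hj).1) (filter_subset _ _) ?_ hΦ _ _
    ?_ ?_
  · intro N hN
    obtain ⟨hNN, hkN, l, hl, hlN, hnl, hln⟩ := mem_filter.1 hN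
    obtain ⟨hN1, hN2⟩ := mem_Ioc.1 (mem_filter.1 hNN).1
    have hcop : Nat.Coprime k l := by
      rcases hk with rfl | hk
      · exact Nat.coprime_one_left l
      · refine (Nat.coprime_primes hk hl).2 ?_
        rintro rfl
        omega
    obtain ⟨j, rfl⟩ : k * l ∣ N := Nat.Coprime.mul_dvd_of_dvd_of_dvd hcop hkN hlN
    refine ⟨j, mem_Icc.2 ⟨?_, ?_⟩, l, hl, ?_, by ring⟩
    · rw [Nat.succ_le_iff, Nat.div_lt_iff_lt_mul hnk]
      calc Y < k * l * j := hN1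
        _ ≤ k * n * j := by gcongr
        _ = j * (n * k) := by ring
    · rw [Nat.le_div_iff_mul_le hnk]
      calc j * (n * k) ≤ j * (l * T * k) := by gcongr
        _ = k * l * j * T := by ring
        _ ≤ 2 * Y * T := by gcongr
    · have h1 : (n : ℝ) < l * T := by exact_mod_cast hnl
      exact lt_of_mul_lt_mul_right (hzT.trans_lt h1) hTr.le
  · set a := Y / (n * k) + 1 with ha
    have ha0 : 0 < a := Nat.succ_pos _
    have hYa : Y < a * (n * k) := (Nat.div_lt_iff_lt_mul hnk).1 (Nat.lt_succ_self _)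
    have hb : 2 * Y * T / (n * k) ≤ 2 * T * a := by
      refine Nat.div_le_of_le_mul ?_
      calc 2 * Y * T ≤ 2 * (a * (n * k)) * T := by gcongr
        _ = n * k * (2 * T * a) := by ring
    obtain ⟨d, hd⟩ : ∃ d, 2 * T * a = a + d :=
      Nat.exists_eq_add_of_le (Nat.le_mul_of_pos_left a (by omega))
    have h1 := Top2_harm a d ha0
    rw [← hd] at h1
    have har : (0 : ℝ) < a := by exact_mod_cast ha0
    have h2 : Real.log (2 * T * a : ℕ) = Real.log (2 * T) + Real.log a := by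
      push_cast
      exact Real.log_mul (by positivity) har.ne'
    refine (sum_le_sum_of_subset_of_nonneg (Icc_subset_Icc_right hb)
      fun _ _ _ => by positivity).trans ?_
    linarith
  · have h1 := @Nat.cast_div_le ℝ _ _ _ (2 * Y * T) (n * k)
    push_cast at h1
    refine le_trans ?_ h1
    rw [Nat.card_Icc]
    have key : ∀ x y : ℕ, x + 1 - (y + 1) ≤ x := fun x y => by omega
    exact_mod_cast key _ _

end Pool.Agent.Work.MP_6d9ff5_nt
end
end
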