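import Pool.Agent.Lib.LargeSieve.Vaughan
import Pool.Agent.Lib.ANT.MeanValue
import Pool.Agent.Lib.ANT.Siegel
import Pool.Agent.Lib.ANT.DivisorBound
import Pool.Agent.Work.MP_6d9ff5_nt.Top2
import Pool.Agent.Lib.ANT.PNT

-- merged part: Pool.Agent.Work.MP_6d9ff5_nt.BVa
section
/-!
# Bombieri-Vinogradov, part 1: all moduli, small conductors as a hypothesis
-/

noncomputable section

open Finset ArithmeticFunction

namespace Pool.Agent.Work.MP_6d9ff5_nt

open Pool.Agent.Lib.LargeSieve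

open Classical in
lemma BVa_kap {q a : ℕ} (hq : 0 < q) (ha : Nat.Coprime a q) (s : Finset ℕ) (T : ℕ → ℝ) :
    |∑ n ∈ s, T n * kap q a n| ≤ (1 / (q.totient : ℝ)) *
      ∑ χ : DirichletCharacter ℂ q with χ ≠ 1, ‖∑ n ∈ s, (T n : ℂ) * χ n‖ := by
  have e : ((∑ n ∈ s, T n * kap q a n : ℝ) : ℂ) = (1 / (q.totient : ℂ)) *
      ∑ χ : DirichletCharacter ℂ q with χ ≠ 1,
        (starRingEnd ℂ) (χ a) * ∑ n ∈ s, (T n : ℂ) * χ n := by
    rw [Complex.ofReal_sum]
    simp_rw [Complex.ofReal_mul, kap_eq hq ha, mul_sum]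
    rw [sum_comm]
    refine sum_congr rfl fun χ _ => sum_congr rfl fun n _ => ?_
    ring
  rw [← Real.norm_eq_abs, ← Complex.norm_real, e, norm_mul, norm_div, norm_one,
    Complex.norm_natCast]
  refine mul_le_mul_of_nonneg_left ?_ (by positivity)
  refine (norm_sum_le _ _).trans (sum_le_sum fun χ _ => ?_)
  rw [norm_mul, Complex.norm_conj]
  exact mul_le_of_le_one_left (norm_nonneg _) (χ.norm_le_one _)

lemma BVa_inj {q : ℕ} (hq : 0 < q) : Function.Injective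
    (fun χ : DirichletCharacter ℂ q =>
      (⟨χ.conductor, χ.primitiveCharacter⟩ : Σ f : ℕ, DirichletCharacter ℂ f)) := by
  have : NeZero q := ⟨hq.ne'⟩
  intro χ χ' h
  apply MulChar.ext
  intro u
  have h1 := congrArg (fun x : (Σ f : ℕ, DirichletCharacter ℂ f) =>
    x.2 (((u : ZMod q).val : ℤ) : ZMod x.1)) h
  have hc : IsCoprime (((u : ZMod q).val : ℕ) : ℤ) q :=
    Nat.isCoprime_iff_coprime.2 (ZMod.val_coe_unit_coprime u)
  simp only at h1
  rw [χ.primitiveCharacter_apply_of_isCoprime hc,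
    χ'.primitiveCharacter_apply_of_isCoprime hc] at h1
  simpa using h1

open Classical in
lemma BVa_card_small {q : ℕ} (hq : 0 < q) (F : ℕ) :
    (((univ.filter fun χ : DirichletCharacter ℂ q => χ ≠ 1).filter
      fun χ => ¬ F ≤ χ.conductor).card : ℝ) ≤ (F : ℝ) ^ 2 := by
  have : NeZero q := ⟨hq.ne'⟩
  have h1 := card_le_card_of_injOn
    (s := (univ.filter fun χ : DirichletCharacter ℂ q => χ ≠ 1).filter
      fun χ => ¬ F ≤ χ.conductor)
    (t := (Icc 1 F).sigma fun f => univ.filter fun ψ : DirichletCharacter ℂ f => ψ.IsPrimitive)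
    (fun χ : DirichletCharacter ℂ q =>
      (⟨χ.conductor, χ.primitiveCharacter⟩ : Σ f : ℕ, DirichletCharacter ℂ f))
    (fun χ hχ => by
      simp only [coe_filter, mem_filter, mem_univ, true_and, Set.mem_ofPred_eq, not_le] at hχ
      rw [mem_coe, mem_sigma, mem_Icc, mem_filter]
      exact ⟨⟨Nat.pos_of_ne_zero χ.conductor_ne_zero, hχ.2.le⟩, mem_univ _,
        χ.primitiveCharacter_isPrimitive⟩)
    ((BVa_inj hq).injOn)
  have h2 : ((Icc 1 F).sigma fun f =>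
      univ.filter fun ψ : DirichletCharacter ℂ f => ψ.IsPrimitive).card ≤ F ^ 2 := by
    rw [card_sigma]
    refine (sum_le_card_nsmul _ _ F fun f hf => ?_).trans ?_
    · rw [mem_Icc] at hf
      exact (Pool.Agent.Lib.ANT.card_primitive_le f hf.1).trans hf.2
    · simp [sq]
  exact_mod_cast h1.trans h2

open Classical in
lemma BVa_sum_large {q : ℕ} (hq : 0 < q) (F M N : ℕ) (α β : ℕ → ℂ) :
    ∑ χ ∈ (univ.filter fun χ : DirichletCharacter ℂ q => χ ≠ 1).filter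
        (fun χ => F ≤ χ.conductor), ‖∑ m ∈ range M, α m * χ m‖ * ‖∑ n ∈ range N, β n * χ n‖
      ≤ ∑ f ∈ q.divisors.filter (fun f => F ≤ f), ∑ ψ : DirichletCharacter ℂ f with ψ.IsPrimitive,
        ‖∑ m ∈ range M, resCop α (q / f) m * ψ m‖ * ‖∑ n ∈ range N, resCop β (q / f) n * ψ n‖ := by
  have : NeZero q := ⟨hq.ne'⟩
  rw [sum_sigma']
  refine sum_le_of_injOn _ _ _ _
    (fun χ : DirichletCharacter ℂ q =>
      (⟨χ.conductor, χ.primitiveCharacter⟩ : Σ f : ℕ, DirichletCharacter ℂ f))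
    (BVa_inj hq).injOn ?_ (fun _ _ => by positivity) ?_
  · intro χ hχ
    simp only [mem_sigma, mem_filter, Nat.mem_divisors, mem_univ, true_and] at hχ ⊢
    exact ⟨⟨⟨χ.conductor_dvd_level, hq.ne'⟩, hχ.2⟩, χ.primitiveCharacter_isPrimitive⟩
  · intro χ _
    simp only [mul_char_eq_primitive χ α, mul_char_eq_primitive χ β, le_refl]

lemma BVa_inv_totient {q : ℕ} (hq : 0 < q) {Φ : ℝ} (h : (q : ℝ) ≤ Φ * q.totient) :
    1 / (q.totient : ℝ) ≤ Φ / q := by
  have a1 : (0 : ℝ) < q := by exact_mod_cast hq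
  have a2 : (0 : ℝ) < q.totient := by exact_mod_cast Nat.totient_pos.2 hq
  rw [div_le_div_iff₀ a2 a1]; linarith

open Classical in
theorem BVa_bilinear {ι : Type*} (I : Finset ι) (q : ι → ℕ) (hinj : Set.InjOn q I) (w E : ℕ)
    (Φ : ℝ) (hΦ : 1 ≤ Φ)
    (hw : 2 ≤ w) (hq0 : ∀ i ∈ I, 0 < q i) (hq1 : ∀ i ∈ I, q i < w ^ E)
    (hq2 : ∀ i ∈ I, (q i : ℝ) ≤ Φ * (q i).totient)
    (M N : ℕ) (α β : ℕ → ℂ) (B : ℝ) (hB : 0 ≤ B)
    (h : ∀ j ∈ Ico 2 E, ((M + (w : ℝ) ^ (2 * j + 2) * HH (w ^ (2 * E))) * ∑ m ∈ range M, ‖α m‖ ^ 2) *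
      ((N + (w : ℝ) ^ (2 * j + 2) * HH (w ^ (2 * E))) * ∑ n ∈ range N, ‖β n‖ ^ 2)
        ≤ ((w : ℝ) ^ j * B) ^ 2) :
    ∑ i ∈ I, (1 / ((q i).totient : ℝ)) *
      ∑ χ ∈ (univ.filter fun χ : DirichletCharacter ℂ (q i) => χ ≠ 1).filter
        (fun χ => w ^ 2 ≤ χ.conductor),
        ‖∑ m ∈ range M, α m * χ m‖ * ‖∑ n ∈ range N, β n * χ n‖
      ≤ Φ * HH (w ^ E) * (E * B) := by
  have hw0 : (0 : ℝ) < w := by exact_mod_cast (by omega : 0 < w)
  have hΦ0 : 0 ≤ Φ := by linarith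
  have hw2 : 0 < w ^ 2 := by positivity
  set X : ℕ → ℕ → ℝ := fun g f => ∑ ψ : DirichletCharacter ℂ f with ψ.IsPrimitive,
    ‖∑ m ∈ range M, resCop α g m * ψ m‖ * ‖∑ n ∈ range N, resCop β g n * ψ n‖ with hX
  have hX0 : ∀ g f, 0 ≤ X g f := fun g f => sum_nonneg fun _ _ => by positivity
  have s1 : ∀ i ∈ I, (1 / ((q i).totient : ℝ)) *
      ∑ χ ∈ (univ.filter fun χ : DirichletCharacter ℂ (q i) => χ ≠ 1).filter
        (fun χ => w ^ 2 ≤ χ.conductor),
        ‖∑ m ∈ range M, α m * χ m‖ * ‖∑ n ∈ range N, β n * χ n‖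
      ≤ ∑ f ∈ (q i).divisors.filter (fun f => w ^ 2 ≤ f), Φ / (q i : ℝ) * X (q i / f) f := by
    intro i hi
    rw [← mul_sum]
    exact mul_le_mul (BVa_inv_totient (hq0 i hi) (hq2 i hi))
      (BVa_sum_large (hq0 i hi) (w ^ 2) M N α β)
      (sum_nonneg fun _ _ => by positivity) (by positivity)
  have s2 : ∑ i ∈ I, ∑ f ∈ (q i).divisors.filter (fun f => w ^ 2 ≤ f),
        Φ / (q i : ℝ) * X (q i / f) f
      ≤ ∑ x ∈ Icc 1 (w ^ E) ×ˢ Ico (w ^ 2) (w ^ E),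
        Φ * (1 / (x.1 : ℝ)) * (1 / (x.2 : ℝ) * X x.1 x.2) := by
    rw [sum_sigma']
    refine sum_le_of_injOn _ _ _ _ (fun x : (Σ _ : ι, ℕ) => (q x.1 / x.2, x.2)) ?_ ?_
      (fun x _ => by have := hX0 x.1 x.2; positivity) ?_
    · rintro ⟨i, f⟩ hx ⟨i', f'⟩ hy hxy
      simp only [coe_sigma, coe_filter, Set.mem_sigma_iff, mem_coe, Nat.mem_divisors,
        Set.mem_ofPred_eq, Prod.mk.injEq] at hx hy hxy
      obtain ⟨e1, rfl⟩ := hxy
      have : q i = q i' := by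
        rw [← Nat.div_mul_cancel hx.2.1.1, ← Nat.div_mul_cancel hy.2.1.1, e1]
      rw [hinj hx.1 hy.1 this]
    · rintro ⟨i, f⟩ hx
      simp only [mem_sigma, mem_filter, Nat.mem_divisors, mem_product, mem_Icc, mem_Ico] at hx ⊢
      obtain ⟨hi, ⟨hf, -⟩, hf1⟩ := hx
      have hle := Nat.le_of_dvd (hq0 i hi) hf
      exact ⟨⟨Nat.div_pos hle (by omega), (Nat.div_le_self _ _).trans (hq1 i hi).le⟩,
        hf1, hle.trans_lt (hq1 i hi)⟩
    · rintro ⟨i, f⟩ hx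
      simp only [mem_sigma, mem_filter, Nat.mem_divisors] at hx ⊢
      obtain ⟨hi, ⟨hf, -⟩, hf1⟩ := hx
      apply le_of_eq
      have e : (q i : ℝ) = (q i / f : ℕ) * f := by exact_mod_cast (Nat.div_mul_cancel hf).symm
      generalize X (q i / f) f = Y
      rw [e]
      field_simp
  have s3 : ∀ g, ∑ f ∈ Ico (w ^ 2) (w ^ E), 1 / (f : ℝ) * X g f ≤ E * B := by
    intro g
    have t1 : ∑ f ∈ Ico (w ^ 2) (w ^ E), 1 / (f : ℝ) * X g f
        ≤ ∑ y ∈ (Ico 2 E).sigma (fun j => Icc 1 (w ^ (j + 1))), 1 / (w : ℝ) ^ y.1 * X g y.2 := by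
      refine sum_le_of_section _ _ _ _ (fun y : (Σ _ : ℕ, ℕ) => y.2)
        (fun y _ => by have := hX0 g y.2; positivity) ?_
      intro f hf
      rw [mem_Ico] at hf
      have hf0 : 0 < f := lt_of_lt_of_le (by positivity) hf.1
      refine ⟨⟨Nat.log w f, f⟩, ?_, rfl, ?_⟩
      · simp only [mem_sigma, mem_Ico, mem_Icc]
        exact ⟨⟨Nat.le_log_of_pow_le (by omega) hf.1, Nat.log_lt_of_lt_pow hf0.ne' hf.2⟩, hf0,
          (Nat.lt_pow_succ_log_self (by omega) f).le⟩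
      · refine mul_le_mul_of_nonneg_right ?_ (hX0 g f)
        apply one_div_le_one_div_of_le (by positivity)
        exact_mod_cast Nat.pow_log_le_self w hf0.ne'
    refine t1.trans ?_
    rw [sum_sigma]
    calc _ ≤ ∑ j ∈ Ico 2 E, B := by
          refine sum_le_sum fun j hj => ?_
          simp only
          rw [← mul_sum, one_div, inv_mul_le_iff₀ (by positivity)]
          refine primitive_bilinear_le (w ^ (j + 1)) M N (resCop α g) (resCop β g) _
            (by positivity) (le_trans ?_ (h j hj))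
          have hH : HH ((w ^ (j + 1)) ^ 2) ≤ HH (w ^ (2 * E)) := by
            apply HH_mono
            rw [← pow_mul]
            apply Nat.pow_le_pow_right (by omega)
            have := (mem_Ico.1 hj).2
            omega
          have hH0 := HH_nonneg ((w ^ (j + 1)) ^ 2)
          have e : (((w ^ (j + 1)) ^ 2 : ℕ) : ℝ) = (w : ℝ) ^ (2 * j + 2) := by
            push_cast; ring
          rw [e]
          have b1 : ∑ m ∈ range M, ‖resCop α g m‖ ^ 2 ≤ ∑ m ∈ range M, ‖α m‖ ^ 2 :=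
            sum_le_sum fun m _ => pow_le_pow_left₀ (norm_nonneg _) (norm_resCop_le α g m) 2
          have b2 : ∑ m ∈ range N, ‖resCop β g m‖ ^ 2 ≤ ∑ m ∈ range N, ‖β m‖ ^ 2 :=
            sum_le_sum fun m _ => pow_le_pow_left₀ (norm_nonneg _) (norm_resCop_le β g m) 2
          have b3 : 0 ≤ ∑ m ∈ range M, ‖resCop α g m‖ ^ 2 := sum_nonneg fun _ _ => by positivity
          have b4 : 0 ≤ ∑ m ∈ range N, ‖resCop β g m‖ ^ 2 := sum_nonneg fun _ _ => by positivity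
          have b5 := b3.trans b1
          have b6 := hH0.trans hH
          gcongr
      _ ≤ E * B := by
          rw [sum_const, Nat.card_Ico, nsmul_eq_mul]
          apply mul_le_mul_of_nonneg_right _ hB
          exact_mod_cast Nat.sub_le E 2
  calc _ ≤ _ := sum_le_sum s1
    _ ≤ _ := s2
    _ = ∑ g ∈ Icc 1 (w ^ E), Φ * (1 / (g : ℝ)) *
          ∑ f ∈ Ico (w ^ 2) (w ^ E), 1 / (f : ℝ) * X g f := by
        rw [sum_product]
        simp_rw [mul_sum]
    _ ≤ ∑ g ∈ Icc 1 (w ^ E), Φ * (1 / (g : ℝ)) * (E * B) :=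
        sum_le_sum fun g _ => mul_le_mul_of_nonneg_left (s3 g) (by positivity)
    _ = _ := by rw [← sum_mul, ← mul_sum]; rfl

open Classical in
theorem BVa_typeII {ι : Type*} (I : Finset ι) (q : ι → ℕ) (hinj : Set.InjOn q I) (w E : ℕ)
    (Φ : ℝ) (hΦ : 1 ≤ Φ)
    (hw : 2 ≤ w) (hq0 : ∀ i ∈ I, 0 < q i) (hq1 : ∀ i ∈ I, q i < w ^ E)
    (hq2 : ∀ i ∈ I, (q i : ℝ) ≤ Φ * (q i).totient)
    (M N : ℕ) (hN : 0 < N) (α β : ℕ → ℝ) (g : ℕ → ℕ) (hg : ∀ m, g m < N) (B : ℝ) (hB : 0 ≤ B)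
    (h : ∀ j ∈ Ico 2 E, ((M + (w : ℝ) ^ (2 * j + 2) * HH (w ^ (2 * E))) * ∑ m ∈ range M, α m ^ 2) *
      ((N + (w : ℝ) ^ (2 * j + 2) * HH (w ^ (2 * E))) * ∑ n ∈ range N, β n ^ 2)
        ≤ ((w : ℝ) ^ j * B) ^ 2) :
    ∑ i ∈ I, (1 / ((q i).totient : ℝ)) *
      ∑ χ ∈ (univ.filter fun χ : DirichletCharacter ℂ (q i) => χ ≠ 1).filter
        (fun χ => w ^ 2 ≤ χ.conductor), ‖∑ m ∈ range M, ∑ n ∈ range N,
          if n ≤ g m then (α m : ℂ) * (β n * χ ((m * n : ℕ) : ZMod (q i))) else 0‖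
      ≤ (1 + HH (2 * N)) * (Φ * HH (w ^ E) * (E * B)) := by
  have hΦ0 : 0 ≤ Φ := by linarith
  set A : ℕ → ℕ → ℂ := fun h m => α m * ee (h * ((g m : ℝ) / (2 * N : ℕ))) with hA
  set Bt : ℕ → ℕ → ℂ := fun h n => β n * (starRingEnd ℂ) (ee (h * ((n : ℝ) / (2 * N : ℕ)))) with hBt
  have s1 : ∀ f (χ : DirichletCharacter ℂ f), ‖∑ m ∈ range M, ∑ n ∈ range N,
        if n ≤ g m then (α m : ℂ) * (β n * χ ((m * n : ℕ) : ZMod f)) else 0‖
      ≤ ∑ h ∈ range (2 * N), ‖cutCoef N h‖ *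
          (‖∑ m ∈ range M, A h m * χ m‖ * ‖∑ n ∈ range N, Bt h n * χ n‖) := by
    intro f χ
    have e : (∑ m ∈ range M, ∑ n ∈ range N,
        if n ≤ g m then (α m : ℂ) * (β n * χ ((m * n : ℕ) : ZMod f)) else 0)
        = ∑ h ∈ range (2 * N), cutCoef N h *
          ((∑ m ∈ range M, A h m * χ m) * (∑ n ∈ range N, Bt h n * χ n)) := by
      have e1 : ∀ m ∈ range M, ∀ n ∈ range N,
          (if n ≤ g m then (α m : ℂ) * (β n * χ ((m * n : ℕ) : ZMod f)) else 0)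
          = ∑ h ∈ range (2 * N), cutCoef N h * ((A h m * χ m) * (Bt h n * χ n)) := by
        intro m _ n hn
        calc _ = (if n ≤ g m then (1 : ℂ) else 0) * (α m * (β n * χ ((m * n : ℕ) : ZMod f))) := by
              split_ifs <;> simp
          _ = _ := by
              rw [cut_eq (mem_range.1 hn) (hg m), sum_mul]
              refine sum_congr rfl fun h _ => ?_
              simp only [hA, hBt]
              rw [Nat.cast_mul m n, map_mul]; ring
      rw [sum_congr rfl fun m hm => sum_congr rfl fun n hn => e1 m hm n hn]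
      simp_rw [sum_mul_sum, mul_sum]
      rw [sum_congr rfl fun m _ => sum_comm, sum_comm]
    rw [e]
    refine (norm_sum_le _ _).trans (sum_le_sum fun h _ => ?_)
    rw [norm_mul, norm_mul]
  have hH := HH_nonneg (w ^ E)
  calc _ ≤ ∑ i ∈ I, ∑ h ∈ range (2 * N), ‖cutCoef N h‖ * ((1 / ((q i).totient : ℝ)) *
        ∑ χ ∈ (univ.filter fun χ : DirichletCharacter ℂ (q i) => χ ≠ 1).filter
          (fun χ => w ^ 2 ≤ χ.conductor),
          ‖∑ m ∈ range M, A h m * χ m‖ * ‖∑ n ∈ range N, Bt h n * χ n‖) := by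
        refine sum_le_sum fun i _ => ?_
        refine (mul_le_mul_of_nonneg_left (sum_le_sum fun χ _ => s1 _ χ) (by positivity)).trans ?_
        rw [sum_comm, mul_sum]
        refine sum_le_sum fun r _ => le_of_eq ?_
        rw [← mul_sum]; ring
    _ ≤ ∑ h ∈ range (2 * N), ‖cutCoef N h‖ * (Φ * HH (w ^ E) * (E * B)) := by
        rw [sum_comm]
        refine sum_le_sum fun r _ => ?_
        rw [← mul_sum]
        refine mul_le_mul_of_nonneg_left ?_ (norm_nonneg _)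
        refine BVa_bilinear I q hinj w E Φ hΦ hw hq0 hq1 hq2 M N (A r) (Bt r) B hB fun j hj => ?_
        simpa [hA, hBt] using h j hj
    _ ≤ _ := by
        rw [← sum_mul]
        exact mul_le_mul_of_nonneg_right (sum_norm_cutCoef_le hN) (by positivity)

lemma BVa_split_real (w J x : ℕ) (hw : 2 ≤ w) (hx : x ≤ w ^ J) (α β : ArithmeticFunction ℝ)
    (hα : ∀ m ≤ w ^ 6, α m = 0) (hβ : ∀ n ≤ w ^ 6, β n = 0) (κ : ℕ → ℝ) :
    ∑ n ∈ Icc 1 x, (α * β) n * κ n
      = ∑ j ∈ Icc 6 (J - 7), ∑ m ∈ range (w ^ (j + 1)), ∑ n ∈ range (w ^ (J - j) + 1),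
          if n ≤ min (x / m) (w ^ (J - j)) then
            (if Nat.log w m = j then α m else 0) * (β n * κ (m * n)) else 0 := by
  have e1 : ∑ n ∈ Icc 1 x, (α * β) n * κ n
      = ∑ n ∈ Icc 1 (w ^ J), (α * β) n * (if n ≤ x then κ n else 0) := by
    have : Icc 1 x = (Icc 1 (w ^ J)).filter (fun n => n ≤ x) := by
      ext n; simp only [mem_filter, mem_Icc]; omega
    rw [this, sum_filter]
    refine sum_congr rfl fun n _ => ?_
    split_ifs <;> simp
  rw [e1, typeII_split w J hw α β hα hβ (fun n => if n ≤ x then κ n else 0)]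
  refine sum_congr rfl fun j _ => sum_congr rfl fun m _ => sum_congr rfl fun n _ => ?_
  rcases Nat.eq_zero_or_pos m with rfl | hm
  · simp
  have h1 : x / m ≤ w ^ J / m := Nat.div_le_div_right hx
  have h2 : n ≤ x / m ↔ m * n ≤ x := by rw [Nat.le_div_iff_mul_le hm, mul_comm]
  by_cases h3 : m * n ≤ x
  · have h4 := h2.2 h3
    rw [if_pos h3]
    by_cases h5 : n ≤ w ^ (J - j)
    · rw [if_pos (le_min (h4.trans h1) h5), if_pos (le_min h4 h5), mul_assoc]
    · rw [if_neg (fun h => h5 (h.trans (min_le_right _ _))),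
        if_neg (fun h => h5 (h.trans (min_le_right _ _)))]
  · rw [if_neg h3, mul_zero, ite_self, if_neg (fun h => h3 (h2.1 (h.trans (min_le_left _ _))))]

lemma BVa_split (w J x : ℕ) (hw : 2 ≤ w) (hx : x ≤ w ^ J) (α β : ArithmeticFunction ℝ)
    (hα : ∀ m ≤ w ^ 6, α m = 0) (hβ : ∀ n ≤ w ^ 6, β n = 0) (κ : ℕ → ℂ) :
    ∑ n ∈ Icc 1 x, ((α * β) n : ℂ) * κ n
      = ∑ j ∈ Icc 6 (J - 7), ∑ m ∈ range (w ^ (j + 1)), ∑ n ∈ range (w ^ (J - j) + 1),
          if n ≤ min (x / m) (w ^ (J - j)) then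
            ((if Nat.log w m = j then α m else 0 : ℝ) : ℂ) * (β n * κ (m * n)) else 0 := by
  apply Complex.ext
  · have := BVa_split_real w J x hw hx α β hα hβ (fun n => (κ n).re)
    simp only [Complex.re_sum, apply_ite Complex.re, Complex.re_ofReal_mul, Complex.zero_re]
    exact this
  · have := BVa_split_real w J x hw hx α β hα hβ (fun n => (κ n).im)
    simp only [Complex.im_sum, apply_ite Complex.im, Complex.im_ofReal_mul, Complex.zero_im]
    exact this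

lemma BVa_typeI_char {q : ℕ} [NeZero q] {χ : DirichletCharacter ℂ q} (hχ : χ ≠ 1) (x U : ℕ)
    (hU : U ≤ x) (hU1 : 1 ≤ U) :
    ‖∑ n ∈ Icc 1 x, ((highPart muR U * (highPart vonMangoldt U * zetaR)) n : ℂ) * χ n‖
      ≤ 5 * q * (U : ℝ) ^ 2 * Real.log x + ‖∑ n ∈ Icc 1 x, (vonMangoldt n : ℂ) * χ n‖ := by
  have hL : 0 ≤ Real.log x := Real.log_natCast_nonneg x
  have hU1' : (1 : ℝ) ≤ U := by exact_mod_cast hU1
  have hq1 : (1 : ℝ) ≤ q := by exact_mod_cast NeZero.pos q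
  have hΛ : ∀ X, ∑ n ∈ Icc 1 X, |lowPart vonMangoldt U n| ≤ U * Real.log x := fun X =>
    sum_abs_lowPart_le _ U X _ hL fun n hn => by
      rw [abs_of_nonneg vonMangoldt_nonneg]
      exact vonMangoldt_le_log.trans (log_nat_mono (hn.trans hU))
  have hμ : ∑ n ∈ Icc 1 x, |lowPart muR U n| ≤ U * 1 :=
    sum_abs_lowPart_le _ U x _ zero_le_one fun n _ => abs_muR_le n
  have e : ∑ n ∈ Icc 1 x, ((highPart muR U * (highPart vonMangoldt U * zetaR)) n : ℂ) * χ n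
      = ∑ n ∈ Icc 1 x, ((lowPart muR U * (lowPart vonMangoldt U * zetaR)) n : ℂ) * χ n
        - (∑ n ∈ Icc 1 x, (lowPart vonMangoldt U n : ℂ) * χ n
        + ∑ n ∈ Icc 1 x, ((lowPart muR U * ArithmeticFunction.log) n : ℂ) * χ n)
        + ∑ n ∈ Icc 1 x, (vonMangoldt n : ℂ) * χ n := by
    rw [← sum_add_distrib, ← sum_sub_distrib, ← sum_add_distrib]
    refine sum_congr rfl fun n _ => ?_
    have := congrArg (fun f : ArithmeticFunction ℝ => (f n : ℂ)) (vaughan U U)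
    simp only [ArithmeticFunction.add_apply, Complex.ofReal_add] at this
    linear_combination (-χ n) * this
  have b1 : ‖∑ n ∈ Icc 1 x, (lowPart vonMangoldt U n : ℂ) * χ n‖ ≤ U * Real.log x := by
    refine (norm_sum_le _ _).trans (le_trans (sum_le_sum fun n _ => ?_) (hΛ x))
    rw [norm_mul, Complex.norm_real]
    exact mul_le_of_le_one_right (abs_nonneg _) (χ.norm_le_one _)
  have b2 : ‖∑ n ∈ Icc 1 x, ((lowPart muR U * ArithmeticFunction.log) n : ℂ) * χ n‖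
      ≤ U * (2 * q * Real.log x) := by
    rw [Pool.Agent.Lib.ANT.sum_mul_weight_complex]
    refine (norm_sum_le _ _).trans ?_
    calc _ ≤ ∑ d ∈ Icc 1 x, |lowPart muR U d| * (2 * q * Real.log x) := by
          refine sum_le_sum fun d _ => ?_
          rw [← mul_sum, norm_mul, Complex.norm_real]
          refine mul_le_mul_of_nonneg_left ?_ (abs_nonneg _)
          refine (Pool.Agent.Lib.ANT.typeI_char hχ (fun m => Real.log m) log_nat_mono
            (fun m => Real.log_natCast_nonneg m) d (x / d)).trans ?_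
          exact mul_le_mul_of_nonneg_left (log_nat_mono (Nat.div_le_self _ _)) (by positivity)
      _ ≤ _ := by rw [← sum_mul]; exact mul_le_mul_of_nonneg_right (by linarith) (by positivity)
  have b3 : ‖∑ n ∈ Icc 1 x, ((lowPart muR U * (lowPart vonMangoldt U * zetaR)) n : ℂ) * χ n‖
      ≤ U * (U * Real.log x * (2 * q)) := by
    rw [Pool.Agent.Lib.ANT.sum_mul_weight_complex]
    refine (norm_sum_le _ _).trans ?_
    calc _ ≤ ∑ d ∈ Icc 1 x, |lowPart muR U d| * (U * Real.log x * (2 * q)) := by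
          refine sum_le_sum fun d _ => ?_
          rw [← mul_sum, norm_mul, Complex.norm_real]
          refine mul_le_mul_of_nonneg_left ?_ (abs_nonneg _)
          rw [Pool.Agent.Lib.ANT.sum_mul_weight_complex _ _
            (fun m => χ ((d * m : ℕ) : ZMod q))]
          refine (norm_sum_le _ _).trans (le_trans (sum_le_sum
            (g := fun e => |lowPart vonMangoldt U e| * (2 * q)) fun e _ => ?_) ?_)
          · rw [← mul_sum, norm_mul, Complex.norm_real]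
            refine mul_le_mul_of_nonneg_left ?_ (abs_nonneg _)
            have := Pool.Agent.Lib.ANT.typeI_char hχ (fun _ => 1) monotone_const
              (fun _ => zero_le_one) (d * e) (x / d / e)
            rw [mul_one] at this
            refine le_of_eq_of_le (congrArg _ (sum_congr rfl fun m hm => ?_)) this
            rw [zetaR_apply (by have := (mem_Icc.1 hm).1; omega), mul_assoc]
          · rw [← sum_mul]; exact mul_le_mul_of_nonneg_right (hΛ _) (by positivity)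
      _ ≤ _ := by rw [← sum_mul]; exact mul_le_mul_of_nonneg_right (by linarith) (by positivity)
  rw [e]
  refine (norm_add_le _ _).trans (add_le_add ?_ le_rfl)
  refine (norm_sub_le _ _).trans ((add_le_add le_rfl (norm_add_le _ _)).trans ?_)
  have b4 : (U : ℝ) * Real.log x ≤ q * U ^ 2 * Real.log x := by
    refine mul_le_mul_of_nonneg_right ?_ hL; nlinarith
  have b5 : (U : ℝ) * (2 * q * Real.log x) ≤ 2 * (q * U ^ 2 * Real.log x) := by
    have : (U : ℝ) ≤ U ^ 2 := by nlinarith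
    calc _ ≤ (U : ℝ) ^ 2 * (2 * q * Real.log x) := by gcongr
      _ = _ := by ring
  nlinarith

/-- Same as `bv_lite` of Lib/LargeSieve/Vaughan, for arbitrary moduli and arbitrary `x ≤ w ^ J`.
Hints. `typeI_pieces` reduces to the Type II sum `T = highPart muR U * (highPart vonMangoldt U * zetaR)`,
`U = w ^ 6` (if `x < w ^ 6` every term is trivially at most `w ^ 6 * log`). By `kap_eq` split the non-principal
characters modulo `q i` into conductor `< w ^ 2` and conductor `≥ w ^ 2`.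
Small conductors: at most `w ^ 4` characters (inject `χ ↦ ⟨χ.conductor, χ.primitiveCharacter⟩` as in
`sum_nonprincipal_le`, `card_primitive_le`), and `‖∑ T χ‖ ≤ ‖∑ Λ χ‖ + 5 q U^2 log x`
(copy the proof of `Lib.ANT.typeI_pieces_char`, other direction); `∑ 1 / φ (q i) ≤ Φ * HH (w ^ E)`.
Large conductors: copy `sum_nonprincipal_le`, `bilinear_le`, `typeII_le`, `typeII_split` with the filter
`w ^ 2 ≤ χ.conductor` in place of `χ ≠ 1`, `Φ` in place of `2`, and `x / m` in place of `w ^ J / m`;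
`scale_ineq` is unchanged. -/
theorem bv_large {ι : Type*} (I : Finset ι) (q a : ι → ℕ) (hinj : Set.InjOn q I) (w E J : ℕ)
    (Φ : ℝ) (hΦ : 1 ≤ Φ) (hw : 2 ≤ w) (hq0 : ∀ i ∈ I, 0 < q i) (hq1 : ∀ i ∈ I, q i < w ^ E)
    (hq2 : ∀ i ∈ I, (q i : ℝ) ≤ Φ * (q i).totient)
    (ha : ∀ i ∈ I, Nat.Coprime (a i) (q i)) (hJ1 : 2 * E + 5 ≤ J) (hJ2 : E + 17 ≤ J)
    (x : ℕ) (hx : x ≤ w ^ J) (S : ℝ) (hS0 : 0 ≤ S)
    (hS : ∀ i ∈ I, ∀ χ : DirichletCharacter ℂ (q i), χ ≠ 1 → χ.conductor < w ^ 2 →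
      ‖∑ n ∈ Icc 1 x, (vonMangoldt n : ℂ) * χ n‖ ≤ S) :
    ∑ i ∈ I, |∑ n ∈ Icc 1 x, vonMangoldt n * kap (q i) (a i) n|
      ≤ 30 * Φ * (J : ℝ) ^ 2 * (1 + Real.log (w ^ J : ℕ)) ^ 4 * (w : ℝ) ^ (J - 1)
        + Φ * (1 + Real.log (w ^ J : ℕ)) * (w : ℝ) ^ 4 * S := by
  classical
  set L : ℝ := 1 + Real.log (w ^ J : ℕ) with hL
  have hlog := Real.log_natCast_nonneg (w ^ J)
  have hL1 : 1 ≤ L := by linarith
  have hΦ0 : 0 ≤ Φ := by linarith
  have hW : (1 : ℝ) ≤ w := by exact_mod_cast (by omega : 1 ≤ w)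
  have hHH : ∀ n, n ≤ w ^ J → HH n ≤ L := fun n hn => (HH_mono hn).trans (HH_le _)
  have hcard : (I.card : ℝ) ≤ (w : ℝ) ^ E := by
    have := card_le_card_of_injOn q (fun i hi => mem_coe.2 (mem_range.2 (hq1 i hi))) hinj
    rw [card_range] at this
    exact_mod_cast this
  have hJ : (1 : ℝ) ≤ (J : ℝ) ^ 2 := one_le_pow₀ (by exact_mod_cast (by omega : 1 ≤ J))
  have hx0 : 0 ≤ Real.log x := Real.log_natCast_nonneg x
  have hxL : Real.log x ≤ L := (log_nat_mono hx).trans (by simp only; linarith)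
  have hL4 : L ≤ L ^ 4 := le_self_pow₀ hL1 (by norm_num)
  set P : ℝ := Φ * (J : ℝ) ^ 2 * L ^ 4 * (w : ℝ) ^ (J - 1) with hP
  have hP0 : 0 ≤ P := by positivity
  have hP1 : Φ * L * (w : ℝ) ^ (J - 1) ≤ P := by
    calc Φ * L * (w : ℝ) ^ (J - 1) = Φ * 1 * L * (w : ℝ) ^ (J - 1) := by ring
      _ ≤ _ := by rw [hP]; gcongr
  have hP2 : L * (w : ℝ) ^ (J - 1) ≤ P := by
    refine le_trans ?_ hP1
    calc L * (w : ℝ) ^ (J - 1) = 1 * L * (w : ℝ) ^ (J - 1) := by ring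
      _ ≤ _ := by gcongr
  have hgoal : 30 * Φ * (J : ℝ) ^ 2 * L ^ 4 * (w : ℝ) ^ (J - 1) = 30 * P := by rw [hP]; ring
  rw [hgoal]
  have hS1 : 0 ≤ Φ * L * (w : ℝ) ^ 4 * S := by positivity
  by_cases hxU : x < w ^ 6
  · have t1 : ∀ i ∈ I, |∑ n ∈ Icc 1 x, vonMangoldt n * kap (q i) (a i) n| ≤ (w : ℝ) ^ 6 * L := by
      intro i _
      refine (abs_sum_le_sum_abs _ _).trans ((sum_le_card_nsmul _ _ L fun n hn => ?_).trans ?_)
      · rw [abs_mul, abs_of_nonneg vonMangoldt_nonneg]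
        refine (mul_le_of_le_one_right vonMangoldt_nonneg (abs_kap_le _ _ _)).trans ?_
        exact vonMangoldt_le_log.trans ((log_nat_mono (mem_Icc.1 hn).2).trans hxL)
      · rw [nsmul_eq_mul, Nat.card_Icc]
        refine mul_le_mul_of_nonneg_right ?_ (by linarith)
        exact_mod_cast (by omega : x + 1 - 1 ≤ w ^ 6)
    refine (sum_le_card_nsmul _ _ _ t1).trans ?_
    rw [nsmul_eq_mul]
    have t2 : (w : ℝ) ^ E * (w : ℝ) ^ 6 ≤ (w : ℝ) ^ (J - 1) := by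
      rw [← pow_add]; exact pow_le_pow_right₀ hW (by omega)
    have t3 : (I.card : ℝ) * ((w : ℝ) ^ 6 * L) ≤ L * (w : ℝ) ^ (J - 1) := by
      calc _ ≤ (w : ℝ) ^ E * ((w : ℝ) ^ 6 * L) := by gcongr
        _ = L * ((w : ℝ) ^ E * (w : ℝ) ^ 6) := by ring
        _ ≤ _ := by gcongr
    linarith
  have hU : w ^ 6 ≤ x := not_lt.1 hxU
  have hU1 : 1 ≤ w ^ 6 := Nat.one_le_pow _ _ (by omega)
  set α := highPart muR (w ^ 6) with hα
  set β := highPart vonMangoldt (w ^ 6) * zetaR with hβ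
  have s1 := fun i (hi : i ∈ I) => typeI_pieces (hq0 i hi) (ha i hi) x (w ^ 6) hU hU1
  have s2 : ∀ j ∈ Icc 6 (J - 7), ∑ i ∈ I, (1 / ((q i).totient : ℝ)) *
      ∑ χ ∈ (univ.filter fun χ : DirichletCharacter ℂ (q i) => χ ≠ 1).filter
        (fun χ => w ^ 2 ≤ χ.conductor),
        ‖∑ m ∈ range (w ^ (j + 1)), ∑ n ∈ range (w ^ (J - j) + 1),
          if n ≤ min (x / m) (w ^ (J - j)) then
            ((if Nat.log w m = j then α m else 0 : ℝ) : ℂ) *
              (β n * χ ((m * n : ℕ) : ZMod (q i))) else 0‖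
      ≤ 8 * Φ * J * L ^ 4 * (w : ℝ) ^ (J - 1) := by
    intro j hj
    rw [mem_Icc] at hj
    have hNx : 2 * (w ^ (J - j) + 1) ≤ w ^ J := by
      have h1 : 1 ≤ w ^ (J - j) := Nat.one_le_pow _ _ (by omega)
      have h2 : 2 ^ 2 ≤ w ^ 2 := Nat.pow_le_pow_left hw 2
      have h3 : w ^ 2 * w ^ (J - j) ≤ w ^ J := by
        rw [← pow_add]; exact Nat.pow_le_pow_right (by omega) (by omega)
      nlinarith
    refine (BVa_typeII I q hinj w E Φ hΦ hw hq0 hq1 hq2 (w ^ (j + 1)) (w ^ (J - j) + 1)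
      (by positivity) (fun m => if Nat.log w m = j then α m else 0) β
      (fun m => min (x / m) (w ^ (J - j))) (fun m => Nat.lt_succ_of_le (min_le_right _ _))
      (4 * L ^ 2 * (w : ℝ) ^ (J - 1)) (by positivity) fun i hi => ?_).trans ?_
    · rw [mem_Ico] at hi
      refine scale_ineq w L _ _ _ _ _ J i j hW hL1 hi.1 (by omega) (by omega) (by omega)
        (by push_cast; exact le_rfl) (by positivity) ?_
        (sum_nonneg fun _ _ => by positivity) ?_ (sum_nonneg fun _ _ => by positivity) ?_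
        (HH_nonneg _) (hHH _ (Nat.pow_le_pow_right (by omega) (by omega)))
      · have : (1 : ℝ) ≤ (w : ℝ) ^ (J - j) := one_le_pow₀ hW
        push_cast; linarith
      · refine (sum_le_card_nsmul _ _ 1 fun m _ => ?_).trans (by simp)
        rw [sq_le_one_iff_abs_le_one]
        split_ifs
        · rw [hα, highPart_apply]; split_ifs
          · simp
          · exact abs_muR_le m
        · simp
      · refine (sum_le_card_nsmul _ _ (L ^ 2) fun n hn => ?_).trans (by simp)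
        refine pow_le_pow_left₀ (high_zeta_nonneg _ _) ((high_zeta_le _ _).trans ?_) 2
        have : Real.log n ≤ Real.log (w ^ J : ℕ) :=
          log_nat_mono (by have := mem_range.1 hn; omega)
        linarith
    · have b1 := hHH _ hNx
      have b2 := hHH (w ^ E) (Nat.pow_le_pow_right (by omega) (by omega))
      have b3 : (E : ℝ) ≤ J := by exact_mod_cast (by omega : E ≤ J)
      have b4 := HH_nonneg (w ^ E)
      calc _ ≤ (L + L) * (Φ * L * (J * (4 * L ^ 2 * (w : ℝ) ^ (J - 1)))) := by gcongr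
        _ = _ := by ring
  have s3 : ∑ i ∈ I, (1 / ((q i).totient : ℝ)) *
      ∑ χ ∈ (univ.filter fun χ : DirichletCharacter ℂ (q i) => χ ≠ 1).filter
        (fun χ => w ^ 2 ≤ χ.conductor), ‖∑ n ∈ Icc 1 x, ((α * β) n : ℂ) * χ n‖ ≤ 8 * P := by
    calc _ ≤ ∑ i ∈ I, ∑ j ∈ Icc 6 (J - 7), (1 / ((q i).totient : ℝ)) *
          ∑ χ ∈ (univ.filter fun χ : DirichletCharacter ℂ (q i) => χ ≠ 1).filter
            (fun χ => w ^ 2 ≤ χ.conductor),
          ‖∑ m ∈ range (w ^ (j + 1)), ∑ n ∈ range (w ^ (J - j) + 1),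
            if n ≤ min (x / m) (w ^ (J - j)) then
              ((if Nat.log w m = j then α m else 0 : ℝ) : ℂ) *
                (β n * χ ((m * n : ℕ) : ZMod (q i))) else 0‖ := by
          refine sum_le_sum fun i _ => ?_
          rw [← mul_sum, sum_comm]
          refine mul_le_mul_of_nonneg_left (sum_le_sum fun χ _ => ?_) (by positivity)
          rw [BVa_split w J x hw hx α β (fun m hm => by rw [hα, highPart_apply, if_pos hm])
            (fun n hn => high_zeta_eq_zero hn) (fun n => χ n)]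
          exact norm_sum_le _ _
      _ ≤ J * (8 * Φ * J * L ^ 4 * (w : ℝ) ^ (J - 1)) := by
          rw [sum_comm]
          refine (sum_le_card_nsmul _ _ _ s2).trans ?_
          rw [nsmul_eq_mul, Nat.card_Icc]
          apply mul_le_mul_of_nonneg_right _ (by positivity)
          exact_mod_cast (by omega : J - 7 + 1 - 6 ≤ J)
      _ = _ := by rw [hP]; ring
  have s4 : ∀ i ∈ I, (1 / ((q i).totient : ℝ)) *
      ∑ χ ∈ (univ.filter fun χ : DirichletCharacter ℂ (q i) => χ ≠ 1).filter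
        (fun χ => ¬ w ^ 2 ≤ χ.conductor), ‖∑ n ∈ Icc 1 x, ((α * β) n : ℂ) * χ n‖
      ≤ 5 * Φ * (w : ℝ) ^ 16 * L + Φ * (w : ℝ) ^ 4 * S * (1 / (q i : ℝ)) := by
    intro i hi
    have hq' : (0 : ℝ) < q i := by exact_mod_cast hq0 i hi
    have t1 : ∑ χ ∈ (univ.filter fun χ : DirichletCharacter ℂ (q i) => χ ≠ 1).filter
        (fun χ => ¬ w ^ 2 ≤ χ.conductor), ‖∑ n ∈ Icc 1 x, ((α * β) n : ℂ) * χ n‖
        ≤ (w : ℝ) ^ 4 * (5 * (q i) * (w : ℝ) ^ 12 * L + S) := by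
      refine (sum_le_card_nsmul _ _ (5 * (q i) * (w : ℝ) ^ 12 * L + S) fun χ hχ => ?_).trans ?_
      · simp only [mem_filter, mem_univ, true_and, not_le] at hχ
        have : NeZero (q i) := ⟨(hq0 i hi).ne'⟩
        refine (BVa_typeI_char hχ.1 x (w ^ 6) hU hU1).trans (add_le_add ?_ (hS i hi χ hχ.1 hχ.2))
        calc _ ≤ 5 * (q i : ℝ) * ((w ^ 6 : ℕ) : ℝ) ^ 2 * L := by gcongr
          _ = _ := by push_cast; ring
      · rw [nsmul_eq_mul]
        have t2 := BVa_card_small (hq0 i hi) (w ^ 2)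
        have t3 : (((w ^ 2 : ℕ) : ℝ)) ^ 2 = (w : ℝ) ^ 4 := by push_cast; ring
        rw [t3] at t2
        refine mul_le_mul_of_nonneg_right ?_ (by positivity)
        convert t2
    calc _ ≤ Φ / (q i) * ((w : ℝ) ^ 4 * (5 * (q i) * (w : ℝ) ^ 12 * L + S)) :=
          mul_le_mul (BVa_inv_totient (hq0 i hi) (hq2 i hi)) t1
            (sum_nonneg fun _ _ => norm_nonneg _) (by positivity)
      _ = _ := by field_simp
  have s5 : ∑ i ∈ I, (1 / (q i : ℝ)) ≤ L := by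
    refine le_trans ?_ (hHH (w ^ E) (Nat.pow_le_pow_right (by omega) (by omega)))
    unfold HH
    refine sum_le_of_injOn _ _ _ _ q hinj (fun i hi => mem_Icc.2 ⟨hq0 i hi, (hq1 i hi).le⟩)
      (fun _ _ => by positivity) (fun _ _ => le_rfl)
  have s6 : ∑ i ∈ I, (5 * Φ * (w : ℝ) ^ 16 * L + Φ * (w : ℝ) ^ 4 * S * (1 / (q i : ℝ)))
      ≤ 5 * P + Φ * L * (w : ℝ) ^ 4 * S := by
    rw [sum_add_distrib, sum_const, nsmul_eq_mul, ← mul_sum]
    have t2 : (w : ℝ) ^ E * (w : ℝ) ^ 16 ≤ (w : ℝ) ^ (J - 1) := by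
      rw [← pow_add]; exact pow_le_pow_right₀ hW (by omega)
    apply add_le_add
    · calc _ ≤ (w : ℝ) ^ E * (5 * Φ * (w : ℝ) ^ 16 * L) := by gcongr
        _ = 5 * (Φ * L * ((w : ℝ) ^ E * (w : ℝ) ^ 16)) := by ring
        _ ≤ 5 * (Φ * L * (w : ℝ) ^ (J - 1)) := by gcongr
        _ ≤ _ := by linarith
    · calc _ ≤ Φ * (w : ℝ) ^ 4 * S * L := by gcongr
        _ = _ := by ring
  have s7 : ∑ i ∈ I, |∑ n ∈ Icc 1 x, (α * β) n * kap (q i) (a i) n|
      ≤ 8 * P + (5 * P + Φ * L * (w : ℝ) ^ 4 * S) := by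
    refine le_trans ?_ (add_le_add s3 ((sum_le_sum s4).trans s6))
    rw [← sum_add_distrib]
    refine sum_le_sum fun i hi => ?_
    rw [← mul_add, sum_filter_add_sum_filter_not]
    exact BVa_kap (hq0 i hi) (ha i hi) _ _
  refine (sum_le_sum s1).trans ?_
  rw [sum_add_distrib, sum_const, nsmul_eq_mul]
  have s8 : (I.card : ℝ) * (3 * ((w ^ 6 : ℕ) : ℝ) ^ 2 * Real.log x) ≤ 3 * P := by
    have t1 : (w : ℝ) ^ E * ((w : ℝ) ^ 6) ^ 2 ≤ (w : ℝ) ^ (J - 1) := by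
      rw [← pow_mul, ← pow_add]; exact pow_le_pow_right₀ hW (by omega)
    calc _ ≤ (w : ℝ) ^ E * (3 * ((w ^ 6 : ℕ) : ℝ) ^ 2 * L) := by gcongr
      _ = 3 * (L * ((w : ℝ) ^ E * ((w : ℝ) ^ 6) ^ 2)) := by push_cast; ring
      _ ≤ 3 * (L * (w : ℝ) ^ (J - 1)) := by gcongr
      _ ≤ _ := by linarith
  linarith

end Pool.Agent.Work.MP_6d9ff5_nt
end
end

-- merged part: Pool.Agent.Work.MP_6d9ff5_nt.BVb
section
/-!
# The Bombieri-Vinogradov theorem
-/

noncomputable section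

open Finset ArithmeticFunction Filter

namespace Pool.Agent.Work.MP_6d9ff5_nt

open Pool.Agent.Lib.LargeSieve

lemma BVb_nc (q x : ℕ) (hq : 0 < q) :
    ∑ n ∈ Icc 1 x, (if Nat.Coprime n q then (0 : ℝ) else vonMangoldt n)
      ≤ 2 * √(x : ℝ) * Real.log x + Real.log q := by
  rcases Nat.eq_zero_or_pos x with rfl | hx
  · simp [Real.log_natCast_nonneg]
  have h1 := Chebyshev.psi_sub_theta_le (x := (x : ℝ)) (by exact_mod_cast hx)
  rw [Chebyshev.psi_sub_theta_eq_sum_not_prime, Nat.floor_natCast, sum_filter] at h1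
  have h2 : ∑ n ∈ Icc 1 x, (if n ∣ q then (vonMangoldt n : ℝ) else 0) ≤ Real.log q := by
    rw [← sum_filter, ← vonMangoldt_sum]
    refine sum_le_sum_of_subset_of_nonneg (fun n hn => ?_) fun n _ _ => vonMangoldt_nonneg
    exact Nat.mem_divisors.2 ⟨(mem_filter.1 hn).2, hq.ne'⟩
  have h3 : Ioc 0 x = Icc 1 x := by ext n; simp [Nat.succ_le_iff]
  rw [h3] at h1
  refine le_trans ?_ (add_le_add h1 h2)
  rw [← sum_add_distrib]
  refine sum_le_sum fun n _ => ?_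
  have h0 : (0 : ℝ) ≤ vonMangoldt n := vonMangoldt_nonneg
  by_cases hc : Nat.Coprime n q
  · rw [if_pos hc]; split_ifs <;> linarith
  · rw [if_neg hc]
    by_cases hp : n.Prime
    · have hd : n ∣ q := by
        by_contra hd
        exact hc ((Nat.Prime.coprime_iff_not_dvd hp).2 hd)
      simp [hp, hd]
    · rw [if_pos hp]; split_ifs <;> linarith

lemma BVb_prim {q : ℕ} (hq : 0 < q) (χ : DirichletCharacter ℂ q) (x : ℕ) :
    ‖∑ n ∈ Icc 1 x, (vonMangoldt n : ℂ) * χ n‖ ≤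
      ‖∑ n ∈ range (x + 1), χ.primitiveCharacter n * vonMangoldt n‖
        + (2 * √(x : ℝ) * Real.log x + Real.log q) := by
  have h1 : ∑ n ∈ range (x + 1), χ.primitiveCharacter n * (vonMangoldt n : ℂ)
      = ∑ n ∈ Icc 1 x, χ.primitiveCharacter n * (vonMangoldt n : ℂ) := by
    symm
    refine sum_subset (fun n hn => ?_) fun n hn hn' => ?_
    · simp only [mem_Icc, mem_range] at hn ⊢; omega
    · have : n = 0 := by simp only [mem_Icc, mem_range] at hn hn'; omega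
      subst this; simp
  rw [h1]
  have h2 : ∑ n ∈ Icc 1 x, (vonMangoldt n : ℂ) * χ n
      = ∑ n ∈ Icc 1 x, χ.primitiveCharacter n * (vonMangoldt n : ℂ)
        + ∑ n ∈ Icc 1 x, ((vonMangoldt n : ℂ) * χ n - χ.primitiveCharacter n * vonMangoldt n) := by
    rw [← sum_add_distrib]; exact sum_congr rfl fun n _ => by ring
  rw [h2]
  refine (norm_add_le _ _).trans (add_le_add le_rfl ?_)
  refine (norm_sum_le _ _).trans (le_trans (sum_le_sum fun n _ => ?_) (BVb_nc q x hq))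
  by_cases hc : Nat.Coprime n q
  · rw [if_pos hc]
    have := χ.primitiveCharacter_apply_of_isCoprime (a := n) (Nat.isCoprime_iff_coprime.2 hc)
    simp only [Int.cast_natCast] at this
    rw [this, mul_comm, sub_self, norm_zero]
  · rw [if_neg hc, χ.map_nonunit (by rwa [ZMod.isUnit_iff_coprime]), mul_zero, zero_sub, norm_neg,
      norm_mul, Complex.norm_real, Real.norm_of_nonneg vonMangoldt_nonneg]
    exact mul_le_of_le_one_left vonMangoldt_nonneg (DirichletCharacter.norm_le_one _ _)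

lemma BVb_tot (q : ℕ) (L : ℝ) (hq : 0 < q) (hL : Real.exp 76 ≤ L) (hqL : Real.log q ≤ L) :
    (q : ℝ) ≤ L ^ 2 * q.totient := by
  have he : (77 : ℝ) ≤ Real.exp 76 := by linarith [Real.add_one_le_exp (76 : ℝ)]
  have ht : (1 : ℝ) ≤ q.totient := by exact_mod_cast Nat.totient_pos.2 hq
  rcases lt_or_ge q 16 with h | h
  · have : (q : ℝ) ≤ 16 := by exact_mod_cast h.le
    nlinarith
  · have h1 := Lib.ANT.div_totient_le_loglog q h
    rw [div_le_iff₀ (by linarith)] at h1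
    have h16 : (16 : ℝ) ≤ q := by exact_mod_cast h
    have h2 : 0 < Real.log q := Real.log_pos (by linarith)
    have h3 : Real.log (Real.log q) ≤ L := by linarith [Real.log_le_sub_one_of_pos h2]
    refine h1.trans (mul_le_mul_of_nonneg_right ?_ (by linarith))
    calc _ ≤ Real.exp 76 * L := by gcongr
      _ ≤ L * L := by gcongr; linarith
      _ = _ := by ring

lemma BVb_ev (n : ℕ) (c : ℝ) : ∀ᶠ X : ℕ in atTop, c * Real.log X ^ n ≤ √(X : ℝ) := by
  have h := (isLittleO_log_rpow_rpow_atTop (n : ℝ) (s := 1 / 2) (by norm_num)).bound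
    (c := 1 / (|c| + 1)) (by positivity)
  filter_upwards [tendsto_natCast_atTop_atTop.eventually h,
    Lib.ANT.tendsto_log_nat.eventually_gt_atTop 0] with X h h0
  rw [Real.norm_of_nonneg (by positivity), Real.norm_of_nonneg (by positivity),
    Real.rpow_natCast, ← Real.sqrt_eq_rpow, div_mul_eq_mul_div, one_mul,
    le_div_iff₀ (by positivity)] at h
  have h1 : 0 ≤ Real.log X ^ n := by positivity
  nlinarith [le_abs_self c]

/-- The choice of the parameters. -/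
lemma BVb_par (X v : ℕ) (hv : 3 ≤ v) (h29 : v ^ 29 ≤ X) (hL : Real.log X < v) :
    ∃ w J : ℕ, 29 ≤ J ∧ (J : ℝ) ≤ Real.log X ∧ v ≤ w ∧ w ≤ v ^ 2 ∧ X ≤ w ^ J ∧
      (w : ℝ) ^ J ≤ 3 * X := by
  classical
  have hX0 : X ≠ 0 := by
    have : 0 < v ^ 29 := by positivity
    omega
  set J := Nat.log v X with hJ
  have hJ29 : 29 ≤ J := Nat.le_log_of_pow_le (by omega) h29
  have h1 : v ^ J ≤ X := Nat.pow_log_le_self v hX0
  have h2 : X < v ^ (J + 1) := Nat.lt_pow_succ_log_self (by omega) X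
  have hex : X ≤ (v ^ 2) ^ J := by
    rw [← pow_mul]
    exact h2.le.trans (Nat.pow_le_pow_right (by omega) (by omega))
  have hE : ∃ w : ℕ, X ≤ w ^ J := ⟨_, hex⟩
  have hw1 : X ≤ Nat.find hE ^ J := Nat.find_spec hE
  have hw2 : Nat.find hE ≤ v ^ 2 := Nat.find_min' hE hex
  have hw3 : v ≤ Nat.find hE := (Nat.pow_le_pow_iff_left (by omega)).1 (h1.trans hw1)
  have hJL : (J : ℝ) ≤ Real.log X := by
    have a1 : ((v : ℝ)) ^ J ≤ X := by exact_mod_cast h1
    have a2 : (3 : ℝ) ≤ v := by exact_mod_cast hv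
    have a3 := Real.log_le_log (by positivity) a1
    rw [Real.log_pow] at a3
    have a4 : 1 ≤ Real.log v := by
      rw [Real.le_log_iff_exp_le (by linarith)]
      linarith [Real.exp_one_lt_d9]
    nlinarith [Nat.cast_nonneg (α := ℝ) J]
  obtain ⟨u, hu⟩ : ∃ u, Nat.find hE = u + 1 := ⟨Nat.find hE - 1, by omega⟩
  have hu1 : ¬ X ≤ u ^ J := Nat.find_min hE (by omega)
  have hJu : J ≤ u := by
    have : (J : ℝ) < v := hJL.trans_lt hL
    have : J < v := by exact_mod_cast this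
    omega
  refine ⟨_, J, hJ29, hJL, hw3, hw2, hw1, ?_⟩
  rw [hu]
  have hu0 : (0 : ℝ) < u := by exact_mod_cast (show 0 < u by omega)
  have b1 : ((u : ℝ)) ^ J ≤ X := by exact_mod_cast (not_le.1 hu1).le
  have b2 : ((u + 1 : ℕ) : ℝ) ≤ u * Real.exp (1 / u) := by
    have := Real.add_one_le_exp (1 / (u : ℝ))
    push_cast
    calc (u : ℝ) + 1 = u * (1 / u + 1) := by field_simp; ring
      _ ≤ _ := by gcongr
  have b3 : Real.exp (1 / u) ^ J ≤ 3 := by
    rw [← Real.exp_nat_mul]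
    have : (J : ℝ) * (1 / u) ≤ 1 := by
      rw [mul_one_div, div_le_one hu0]; exact_mod_cast hJu
    linarith [Real.exp_le_exp.2 this, Real.exp_one_lt_d9]
  calc _ ≤ ((u : ℝ) * Real.exp (1 / u)) ^ J := by gcongr
    _ = (u : ℝ) ^ J * Real.exp (1 / u) ^ J := mul_pow _ _ _
    _ ≤ X * 3 := by gcongr
    _ = _ := by ring

/-- Hints. `L = log X`, `A' = A + 9`, `J = ⌊L / (A' log L)⌋`, `w = ⌈X ^ (1 / J)⌉`, so that
`L ^ A' ≤ w ≤ 2 L ^ (2 A')`, `X ≤ w ^ J ≤ 3 X` (as `J ≤ L ≤ X ^ (1/J)`), `w ^ (J - 1) ≤ 3 X / w`;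
`E = (J - 5) / 2`, `w ^ E ≥ √X / w ^ 3`; `B = 6 A' + 1` or larger; `Φ = 1 + L` or any bound for `q / φ q`,
`q ≤ X` (for instance `Lib.ANT.div_totient_le_loglog`). For `hS` of `bv_large`: pass to
`χ.primitiveCharacter` (level `χ.conductor < w ^ 2 ≤ L ^ (4 A' + 1)`, not `1` since the conductor is not `1`),
the two sums differ only at prime powers of primes dividing `q`, total at most `log₂ q * log x ≤ 2 L ^ 2`,
and use `Lib.ANT.siegel_walfisz` with a large exponent. -/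
theorem BV (A : ℕ) : ∃ B : ℕ, ∀ᶠ X : ℕ in atTop, ∀ Q : ℕ, (Q : ℝ) * Real.log X ^ B ≤ √(X : ℝ) →
    ∀ a : ℕ → ℕ, (∀ q, 0 < q → Nat.Coprime (a q) q) → ∀ x ≤ X,
      ∑ q ∈ Icc 1 Q, |∑ n ∈ Icc 1 x, vonMangoldt n * kap q (a q) n| ≤ X / Real.log X ^ A := by
  classical
  obtain ⟨k, hk⟩ : ∃ k, k = A + 9 := ⟨_, rfl⟩
  obtain ⟨C, hC⟩ : ∃ C, C = A + 8 * k + 4 := ⟨_, rfl⟩
  refine ⟨6 * k + 1, ?_⟩
  filter_upwards [Lib.ANT.siegel_walfisz C, BVb_ev (29 * k) (2 ^ 29), BVb_ev (C + 1) 3,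
    Lib.ANT.tendsto_log_nat.eventually_ge_atTop (Real.exp 76),
    Lib.ANT.tendsto_log_nat.eventually_ge_atTop 20000, eventually_ge_atTop 1]
    with X hSW e1 e2 hLe hL hX1 Q hQ a ha x hx
  set L := Real.log X with hLd
  have hXr : (1 : ℝ) ≤ X := by exact_mod_cast hX1
  have hL1 : 1 ≤ L := by linarith
  have hL0 : 0 < L := by linarith
  have hs1 : 1 ≤ √(X : ℝ) := Real.one_le_sqrt.2 hXr
  have hss : √(X : ℝ) * √(X : ℝ) = X := Real.mul_self_sqrt (by linarith)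
  have hsX : √(X : ℝ) ≤ X := by nlinarith
  have hLk : L ^ 2 ≤ L ^ k := pow_le_pow_right₀ hL1 (by omega)
  have hv1 : L ^ k ≤ (⌈L ^ k⌉₊ : ℝ) := Nat.le_ceil _
  have hv2 : (⌈L ^ k⌉₊ : ℝ) ≤ 2 * L ^ k := by
    have := Nat.ceil_lt_add_one (a := L ^ k) (by positivity)
    nlinarith
  set v := ⌈L ^ k⌉₊ with hvd
  have hv3 : 3 ≤ v := by
    have : (3 : ℝ) ≤ v := by nlinarith
    exact_mod_cast this
  have h29 : v ^ 29 ≤ X := by
    have : (v : ℝ) ^ 29 ≤ X := by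
      calc (v : ℝ) ^ 29 ≤ (2 * L ^ k) ^ 29 := by gcongr
        _ = 2 ^ 29 * L ^ (29 * k) := by rw [mul_pow, ← pow_mul, mul_comm k]
        _ ≤ X := e1.trans hsX
    exact_mod_cast this
  obtain ⟨w, J, hJ, hJL, hvw, hwv, hXw, hw3⟩ := BVb_par X v hv3 h29 (by nlinarith)
  have hwr : (w : ℝ) ≤ 4 * L ^ (2 * k) := by
    have : (w : ℝ) ≤ (v : ℝ) ^ 2 := by exact_mod_cast hwv
    calc (w : ℝ) ≤ (2 * L ^ k) ^ 2 := this.trans (by gcongr)
      _ = _ := by rw [mul_pow, ← pow_mul, mul_comm k]; norm_num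
  have hwl : L ^ k ≤ w := hv1.trans (by exact_mod_cast hvw)
  have hw0 : (0 : ℝ) < w := lt_of_lt_of_le (by positivity) hwl
  have hQX : (Q : ℝ) ≤ X := by
    have : (1 : ℝ) ≤ L ^ (6 * k + 1) := one_le_pow₀ hL1
    nlinarith [Nat.cast_nonneg (α := ℝ) Q]
  have hQw : Q < w ^ ((J - 5) / 2) := by
    by_contra hcon
    have c1 : (w : ℝ) ^ ((J - 5) / 2) ≤ Q := by exact_mod_cast not_lt.1 hcon
    have c2 : (X : ℝ) ≤ (w : ℝ) ^ J := by exact_mod_cast hXw
    have hw1 : (1 : ℝ) ≤ w := by exact_mod_cast (show 1 ≤ w by omega)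
    have c3 : (w : ℝ) ^ J ≤ (w : ℝ) ^ (((J - 5) / 2 + 3) * 2) := pow_le_pow_right₀ hw1 (by omega)
    rw [pow_mul, pow_add] at c3
    have c4 : (w : ℝ) ^ 3 ≤ 64 * L ^ (6 * k) := by
      calc (w : ℝ) ^ 3 ≤ (4 * L ^ (2 * k)) ^ 3 := by gcongr
        _ = _ := by rw [mul_pow, ← pow_mul, show 2 * k * 3 = 6 * k by ring]; norm_num
    have c5 : √(X : ℝ) ≤ (w : ℝ) ^ ((J - 5) / 2) * (w : ℝ) ^ 3 :=
      Real.sqrt_le_iff.2 ⟨by positivity, c2.trans c3⟩
    have c6 : (w : ℝ) ^ ((J - 5) / 2) * (w : ℝ) ^ 3 ≤ Q * (64 * L ^ (6 * k)) := by gcongr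
    have c7 : (0 : ℝ) < Q := lt_of_lt_of_le (by positivity) c1
    have c8 : (0 : ℝ) < Q * L ^ (6 * k) := by positivity
    rw [pow_succ] at hQ
    nlinarith
  have hlogq : ∀ q ∈ Icc 1 Q, Real.log q ≤ L := fun q hq => by
    have h1 : (q : ℝ) ≤ Q := by exact_mod_cast (mem_Icc.1 hq).2
    have h2 : (0 : ℝ) < q := by exact_mod_cast (mem_Icc.1 hq).1
    exact Real.log_le_log h2 (h1.trans hQX)
  have hLC : 0 < L ^ C := by positivity
  have key := bv_large (Icc 1 Q) (fun q => q) a (fun _ _ _ _ h => h) w ((J - 5) / 2) J (L ^ 2)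
    (one_le_pow₀ hL1) (by omega) (fun q hq => (mem_Icc.1 hq).1)
    (fun q hq => lt_of_le_of_lt (mem_Icc.1 hq).2 hQw)
    (fun q hq => BVb_tot q L (mem_Icc.1 hq).1 hLe (hlogq q hq))
    (fun q hq => ha q (mem_Icc.1 hq).1) (by omega) (by omega) x (hx.trans hXw)
    (2 * (X / L ^ C)) (by positivity) (fun q hq χ hχ hc => by
      have hq0 : 0 < q := (mem_Icc.1 hq).1
      have : NeZero q := ⟨hq0.ne'⟩
      have : NeZero χ.conductor := ⟨χ.conductor_ne_zero⟩
      have hne : χ.primitiveCharacter ≠ 1 := fun h => hχ (by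
        rw [← χ.changeLevel_primitiveCharacter, h, map_one])
      have hcl : (χ.conductor : ℝ) ≤ L ^ C := by
        have d1 : (χ.conductor : ℝ) ≤ (w : ℝ) ^ 2 := by exact_mod_cast hc.le
        calc (χ.conductor : ℝ) ≤ (4 * L ^ (2 * k)) ^ 2 := d1.trans (by gcongr)
          _ = L ^ (4 * k) * 16 := by
            rw [mul_pow, ← pow_mul, show 2 * k * 2 = 4 * k by ring]; ring
          _ ≤ L ^ (4 * k) * L := by gcongr; linarith
          _ = L ^ (4 * k + 1) := (pow_succ _ _).symm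
          _ ≤ L ^ C := pow_le_pow_right₀ hL1 (by omega)
      have d2 := hSW χ.conductor χ.primitiveCharacter hne hcl (x + 1) (by omega)
      have d3 := BVb_prim hq0 χ x
      have hxr : (x : ℝ) ≤ X := by exact_mod_cast hx
      have d4 : Real.log x ≤ L := by
        rcases Nat.eq_zero_or_pos x with rfl | hx0
        · simp [hL0.le]
        · exact Real.log_le_log (by exact_mod_cast hx0) hxr
      have d5 : 2 * √(x : ℝ) * Real.log x ≤ 2 * √(X : ℝ) * L := by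
        have := Real.log_natCast_nonneg x
        gcongr
      have d6 : 3 * √(X : ℝ) * L ≤ X / L ^ C := by
        rw [le_div_iff₀ hLC]
        calc 3 * √(X : ℝ) * L * L ^ C = √(X : ℝ) * (3 * L ^ (C + 1)) := by ring
          _ ≤ √(X : ℝ) * √(X : ℝ) := by gcongr
          _ = X := hss
      have d7 := hlogq q hq
      nlinarith)
  refine key.trans ?_
  have f1 : 1 + Real.log ((w ^ J : ℕ) : ℝ) ≤ 3 * L := by
    have g1 : Real.log ((w ^ J : ℕ) : ℝ) ≤ Real.log (3 * X) := by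
      push_cast
      exact Real.log_le_log (by positivity) hw3
    rw [Real.log_mul (by norm_num) (by linarith)] at g1
    linarith [Real.log_le_sub_one_of_pos (show (0 : ℝ) < 3 by norm_num)]
  have f0 : 0 ≤ 1 + Real.log ((w ^ J : ℕ) : ℝ) := by linarith [Real.log_natCast_nonneg (w ^ J)]
  have f2 : (w : ℝ) ^ (J - 1) ≤ 3 * X / L ^ k := by
    rw [le_div_iff₀ (by positivity)]
    calc (w : ℝ) ^ (J - 1) * L ^ k ≤ (w : ℝ) ^ (J - 1) * w := by gcongr
      _ = (w : ℝ) ^ J := by rw [← pow_succ, show J - 1 + 1 = J by omega]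
      _ ≤ _ := hw3
  have f3 : (w : ℝ) ^ 4 ≤ 256 * L ^ (8 * k) := by
    calc (w : ℝ) ^ 4 ≤ (4 * L ^ (2 * k)) ^ 4 := by gcongr
      _ = _ := by rw [mul_pow, ← pow_mul, show 2 * k * 4 = 8 * k by ring]; norm_num
  have hY : 0 ≤ (X : ℝ) / L ^ A := by positivity
  have t1 : 30 * L ^ 2 * (J : ℝ) ^ 2 * (1 + Real.log ((w ^ J : ℕ) : ℝ)) ^ 4 * (w : ℝ) ^ (J - 1)
      ≤ 7290 / L * (X / L ^ A) := by
    calc _ ≤ 30 * L ^ 2 * L ^ 2 * (3 * L) ^ 4 * (3 * X / L ^ k) := by gcongr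
      _ = _ := by rw [hk]; field_simp; ring
  have t2 : L ^ 2 * (1 + Real.log ((w ^ J : ℕ) : ℝ)) * (w : ℝ) ^ 4 * (2 * (X / L ^ C))
      ≤ 1536 / L * (X / L ^ A) := by
    calc _ ≤ L ^ 2 * (3 * L) * (256 * L ^ (8 * k)) * (2 * (X / L ^ C)) := by gcongr
      _ = _ := by rw [hC]; field_simp; ring
  have t3 : 7290 / L + 1536 / L ≤ 1 := by
    rw [← add_div, div_le_one hL0]; linarith
  nlinarith

end Pool.Agent.Work.MP_6d9ff5_nt
end
end

-- merged part: Pool.Agent.Work.MP_6d9ff5_nt.Cnt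
section
/-!
# Primes `2 N - 1` with `N` prime to the primorial and divisible by `k`
-/

noncomputable section

open Finset Filter

namespace Pool.Agent.Work.MP_6d9ff5_nt

open ArithmeticFunction Pool.Agent.Lib.LargeSieve
open scoped Chebyshev ArithmeticFunction.Moebius

/-- weighted count without the coprimality condition -/
def Cnt_S (Y m : ℕ) : ℝ := ∑ N ∈ (Ioc Y (2 * Y)).filter (fun N => m ∣ N), th (2 * N - 1)

/-- the error term for one modulus -/
def Cnt_E (Y q : ℕ) : ℝ := ∑ n ∈ Ioc (2 * Y - 1) (4 * Y - 1), th n * kap q (q - 1) n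

/-- the total mass -/
def Cnt_T (Y : ℕ) : ℝ := ∑ n ∈ Ioc (2 * Y - 1) (4 * Y - 1), th n

lemma Cnt_ind (W N : ℕ) (hW : W ≠ 0) :
    (if Nat.Coprime N W then (1 : ℝ) else 0)
      = ∑ r ∈ W.divisors, if r ∣ N then (μ r : ℝ) else 0 := by
  have h1 : ∑ r ∈ W.divisors, (if r ∣ N then (μ r : ℝ) else 0)
      = ∑ r ∈ (Nat.gcd N W).divisors, (μ r : ℝ) := by
    rw [← sum_filter]
    refine sum_congr ?_ fun _ _ => rfl
    ext r
    simp only [mem_filter, Nat.mem_divisors, Nat.dvd_gcd_iff, ne_eq, Nat.gcd_eq_zero_iff]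
    tauto
  have h2 := congrArg (fun f : ArithmeticFunction ℝ => f (Nat.gcd N W))
    (coe_moebius_mul_coe_zeta (R := ℝ))
  simp only [coe_mul_zeta_apply, intCoe_apply, one_apply] at h2
  rw [h1, h2]

lemma Cnt_moeb (W Y k : ℕ) (hW : W ≠ 0) (hk : Nat.Coprime k W) :
    cnt W Y k = ∑ r ∈ W.divisors, (μ r : ℝ) * Cnt_S Y (k * r) := by
  have h1 : cnt W Y k = ∑ N ∈ Ioc Y (2 * Y),
      (if Nat.Coprime N W then (1 : ℝ) else 0) * (if k ∣ N then th (2 * N - 1) else 0) := by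
    unfold cnt NN
    rw [filter_filter, sum_filter]
    refine sum_congr rfl fun N _ => ?_
    by_cases h1 : Nat.Coprime N W <;> by_cases h2 : k ∣ N <;> simp [h1, h2]
  rw [h1]
  simp only [Cnt_ind W _ hW, sum_mul]
  rw [sum_comm]
  refine sum_congr rfl fun r hr => ?_
  unfold Cnt_S
  rw [sum_filter, mul_sum]
  refine sum_congr rfl fun N _ => ?_
  have hc : Nat.Coprime k r := hk.coprime_dvd_right (Nat.dvd_of_mem_divisors hr)
  by_cases h1 : r ∣ N <;> by_cases h2 : k ∣ N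
  · simp [h1, h2, hc.mul_dvd_of_dvd_of_dvd h2 h1]
  · have : ¬ k * r ∣ N := fun h => h2 (Dvd.dvd.trans (Dvd.intro _ rfl) h)
    simp [h2, this]
  · have : ¬ k * r ∣ N := fun h => h1 (Dvd.dvd.trans (Dvd.intro_left _ rfl) h)
    simp [h1, this]
  · have : ¬ k * r ∣ N := fun h => h1 (Dvd.dvd.trans (Dvd.intro_left _ rfl) h)
    simp [h1, this]

lemma Cnt_mod {q n : ℕ} (hq : 0 < q) : n ≡ q - 1 [MOD q] ↔ q ∣ n + 1 := by
  constructor
  · intro h
    have h2 := h.add_right 1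
    rw [Nat.sub_add_cancel hq] at h2
    exact (Nat.modEq_zero_iff_dvd).1 (h2.trans (Nat.modEq_zero_iff_dvd.2 dvd_rfl))
  · intro h
    have h2 : n + 1 ≡ q - 1 + 1 [MOD q] := by
      rw [Nat.sub_add_cancel hq]
      exact (Nat.modEq_zero_iff_dvd.2 h).trans (Nat.modEq_zero_iff_dvd.2 dvd_rfl).symm
    exact Nat.ModEq.add_right_cancel' 1 h2

lemma Cnt_S_eq (Y m : ℕ) (hm : 0 < m) (hY : 2 * m ≤ 2 * Y - 1) :
    Cnt_S Y m = Cnt_T Y / ((2 * m).totient : ℝ) + Cnt_E Y (2 * m) := by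
  have h1 : Cnt_S Y m = ∑ n ∈ (Ioc (2 * Y - 1) (4 * Y - 1)).filter (fun n => 2 * m ∣ n + 1),
      th n := by
    unfold Cnt_S
    refine sum_bij (fun N _ => 2 * N - 1) ?_ ?_ ?_ (fun _ _ => rfl)
    · intro N hN
      obtain ⟨h1, h2⟩ := mem_filter.1 hN
      have h3 := mem_Ioc.1 h1
      refine mem_filter.2 ⟨mem_Ioc.2 ⟨by omega, by omega⟩, ?_⟩
      rw [show 2 * N - 1 + 1 = 2 * N by omega]
      exact Nat.mul_dvd_mul_left 2 h2
    · intro N hN N' hN' h
      have h3 := mem_Ioc.1 (mem_filter.1 hN).1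
      have h4 := mem_Ioc.1 (mem_filter.1 hN').1
      omega
    · intro n hn
      obtain ⟨h1, c, h2⟩ := mem_filter.1 hn
      have h3 := mem_Ioc.1 h1
      have h4 : n + 1 = 2 * (m * c) := by rw [h2]; ring
      refine ⟨m * c, mem_filter.2 ⟨mem_Ioc.2 ⟨by omega, by omega⟩, Dvd.intro _ rfl⟩, by omega⟩
  rw [h1, sum_filter]
  unfold Cnt_T Cnt_E
  rw [sum_div, ← sum_add_distrib]
  refine sum_congr rfl fun n hn => ?_
  have h3 := mem_Ioc.1 hn
  by_cases hp : n.Prime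
  · have hc : Nat.Coprime n (2 * m) :=
      (Nat.Prime.coprime_iff_not_dvd hp).2 fun h => by
        have := Nat.le_of_dvd (by omega) h
        omega
    unfold kap
    rw [if_pos hc]
    simp only [Cnt_mod (show 0 < 2 * m by omega)]
    split_ifs <;> ring
  · simp [th, hp]

lemma Cnt_th_le (n : ℕ) : th n ≤ vonMangoldt n := by
  unfold th
  split_ifs with h
  · rw [vonMangoldt_apply_prime h]
  · exact vonMangoldt_nonneg

lemma Cnt_sum_th (n : ℕ) : ∑ q ∈ Ioc 0 n, th q = θ n := by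
  unfold Chebyshev.theta th
  rw [Nat.floor_natCast, sum_filter]

lemma Cnt_sum_L (n : ℕ) : ∑ q ∈ Ioc 0 n, vonMangoldt q = ψ n := by
  unfold Chebyshev.psi
  rw [Nat.floor_natCast]

lemma Cnt_E_le (Y q : ℕ) (hY : 1 ≤ Y) :
    |Cnt_E Y q| ≤ |∑ n ∈ Icc 1 (4 * Y - 1), vonMangoldt n * kap q (q - 1) n|
      + |∑ n ∈ Icc 1 (2 * Y - 1), vonMangoldt n * kap q (q - 1) n|
      + 2 * √((4 * Y : ℕ) : ℝ) * Real.log ((4 * Y : ℕ) : ℝ) := by
  have hI : ∀ x : ℕ, Icc 1 x = Ioc 0 x := fun x => by ext; simp only [mem_Icc, mem_Ioc]; omega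
  have h1 := sum_Ioc_consecutive (fun n => vonMangoldt n * kap q (q - 1) n)
    (Nat.zero_le (2 * Y - 1)) (show 2 * Y - 1 ≤ 4 * Y - 1 by omega)
  have h2 : Cnt_E Y q = ∑ n ∈ Ioc (2 * Y - 1) (4 * Y - 1), vonMangoldt n * kap q (q - 1) n
      - ∑ n ∈ Ioc (2 * Y - 1) (4 * Y - 1), (vonMangoldt n - th n) * kap q (q - 1) n := by
    unfold Cnt_E
    rw [← sum_sub_distrib]
    exact sum_congr rfl fun n _ => by ring
  have h3 : |∑ n ∈ Ioc (2 * Y - 1) (4 * Y - 1), (vonMangoldt n - th n) * kap q (q - 1) n|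
      ≤ 2 * √((4 * Y : ℕ) : ℝ) * Real.log ((4 * Y : ℕ) : ℝ) := by
    calc _ ≤ ∑ n ∈ Ioc (2 * Y - 1) (4 * Y - 1), |(vonMangoldt n - th n) * kap q (q - 1) n| :=
          abs_sum_le_sum_abs _ _
      _ ≤ ∑ n ∈ Ioc (2 * Y - 1) (4 * Y - 1), (vonMangoldt n - th n) := by
          refine sum_le_sum fun n _ => ?_
          rw [abs_mul, abs_of_nonneg (sub_nonneg.2 (Cnt_th_le n))]
          exact mul_le_of_le_one_right (sub_nonneg.2 (Cnt_th_le n)) (abs_kap_le _ _ _)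
      _ ≤ ∑ n ∈ Ioc 0 (4 * Y), (vonMangoldt n - th n) := by
          refine sum_le_sum_of_subset_of_nonneg (Ioc_subset_Ioc (Nat.zero_le _) (by omega))
            fun n _ _ => sub_nonneg.2 (Cnt_th_le n)
      _ = ψ ((4 * Y : ℕ) : ℝ) - θ ((4 * Y : ℕ) : ℝ) := by
          rw [sum_sub_distrib, Cnt_sum_th, Cnt_sum_L]
      _ ≤ _ := Chebyshev.psi_sub_theta_le (by exact_mod_cast (by omega : 1 ≤ 4 * Y))
  rw [hI, hI, h2, eq_sub_of_add_eq' h1]
  refine (abs_sub _ _).trans ?_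
  linarith [abs_sub (∑ n ∈ Ioc 0 (4 * Y - 1), vonMangoldt n * kap q (q - 1) n)
    (∑ n ∈ Ioc 0 (2 * Y - 1), vonMangoldt n * kap q (q - 1) n)]

/-- the function `r ↦ 1 / φ (2 r)` -/
def Cnt_f : ArithmeticFunction ℝ := ⟨fun r => 1 / ((2 * r).totient : ℝ), by simp⟩

lemma Cnt_f_apply (r : ℕ) : Cnt_f r = 1 / ((2 * r).totient : ℝ) := rfl

lemma Cnt_tot {m n : ℕ} (h : Nat.Coprime m n) (hn : Odd n) :
    (2 * (m * n)).totient = (2 * m).totient * (2 * n).totient := by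
  have h2 : Nat.Coprime 2 n := Nat.coprime_two_left.2 hn
  rw [← mul_assoc, Nat.totient_mul (Nat.Coprime.mul_left h2 h), Nat.totient_mul h2]
  simp

lemma Cnt_f_mult : Cnt_f.IsMultiplicative := by
  refine ⟨by simp [Cnt_f_apply], fun {m n} h => ?_⟩
  simp only [Cnt_f_apply]
  rcases Nat.even_or_odd n with hn | hn
  · have hm : Odd m := by
      rw [← Nat.coprime_two_right]
      exact h.coprime_dvd_right hn.two_dvd
    rw [mul_comm m n, Cnt_tot h.symm hm]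
    push_cast
    rw [one_div_mul_one_div, mul_comm]
  · rw [Cnt_tot h hn]
    push_cast
    rw [one_div_mul_one_div]

/-- the density constant -/
def Cnt_c (W : ℕ) : ℝ := ∑ r ∈ W.divisors, (μ r : ℝ) * (1 / ((2 * r).totient : ℝ))

lemma Cnt_c_bd {W : ℕ} (hW : Squarefree W) : 0 < Cnt_c W ∧ Cnt_c W ≤ 1 := by
  have h : Cnt_c W = ∏ p ∈ W.primeFactors, (1 - Cnt_f p) :=
    (IsMultiplicative.prodPrimeFactors_one_sub_of_squarefree Cnt_f Cnt_f_mult hW).symm
  have h2 : ∀ p ∈ W.primeFactors, 0 < 1 - Cnt_f p ∧ 1 - Cnt_f p ≤ 1 := by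
    intro p hp
    have hp2 := (Nat.prime_of_mem_primeFactors hp).two_le
    have h3 : 0 < (2 * p).totient := Nat.totient_pos.2 (by omega)
    have h4 : (2 * p).totient ≠ 1 := by
      rw [Ne, Nat.totient_eq_one_iff]; omega
    have h5 : (2 : ℝ) ≤ ((2 * p).totient : ℝ) := by exact_mod_cast (by omega)
    rw [Cnt_f_apply]
    have h6 : 1 / ((2 * p).totient : ℝ) ≤ 1 / 2 := one_div_le_one_div_of_le (by norm_num) h5
    have h7 : 0 ≤ 1 / ((2 * p).totient : ℝ) := by positivity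
    constructor <;> linarith
  rw [h]
  exact ⟨prod_pos fun p hp => (h2 p hp).1,
    prod_le_one (fun p hp => (h2 p hp).1.le) fun p hp => (h2 p hp).2⟩

lemma Cnt_T_bd : ∀ᶠ Y : ℕ in atTop, (Y : ℝ) ≤ Cnt_T Y ∧ Cnt_T Y ≤ 3 * Y := by
  have h1 := Pool.Agent.Lib.ANT.tendsto_theta_div.eventually
    (Icc_mem_nhds (show (9 / 10 : ℝ) < 1 by norm_num) (show (1 : ℝ) < 11 / 10 by norm_num))
  obtain ⟨x0, hx0⟩ := eventually_atTop.1 h1
  filter_upwards [eventually_ge_atTop 1, tendsto_natCast_atTop_atTop.eventually_ge_atTop x0]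
    with Y hY hYx
  have hc := sum_Ioc_consecutive th (Nat.zero_le (2 * Y - 1))
    (show 2 * Y - 1 ≤ 4 * Y - 1 by omega)
  rw [Cnt_sum_th, Cnt_sum_th] at hc
  have hY' : (1 : ℝ) ≤ Y := by exact_mod_cast hY
  have e1 : ((2 * Y - 1 : ℕ) : ℝ) = 2 * Y - 1 := by
    rw [Nat.cast_sub (by omega)]; push_cast; ring
  have e2 : ((4 * Y - 1 : ℕ) : ℝ) = 4 * Y - 1 := by
    rw [Nat.cast_sub (by omega)]; push_cast; ring
  rw [e1, e2] at hc
  obtain ⟨a1, a2⟩ := hx0 (2 * Y - 1) (by linarith)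
  obtain ⟨b1, b2⟩ := hx0 (4 * Y - 1) (by linarith)
  rw [le_div_iff₀ (by linarith)] at a1 b1
  rw [div_le_iff₀ (by linarith)] at a2 b2
  unfold Cnt_T
  constructor <;> linarith

lemma Cnt_one {W Y k : ℕ} (hW : W ≠ 0) (h2 : 2 ∣ W) (hk0 : 0 < k) (hk : Nat.Coprime k W)
    (hY : 2 * (k * W) ≤ 2 * Y - 1) :
    |cnt W Y k - Cnt_c W * Cnt_T Y / k.totient| ≤ ∑ r ∈ W.divisors, |Cnt_E Y (2 * (k * r))| := by
  have h1 : cnt W Y k - Cnt_c W * Cnt_T Y / k.totient
      = ∑ r ∈ W.divisors, (μ r : ℝ) * Cnt_E Y (2 * (k * r)) := by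
    rw [Cnt_moeb W Y k hW hk]
    unfold Cnt_c
    rw [sum_mul, sum_div, ← sum_sub_distrib]
    refine sum_congr rfl fun r hr => ?_
    have hr0 := Nat.pos_of_mem_divisors hr
    have hr1 := Nat.divisor_le hr
    have hc : Nat.Coprime k (2 * r) :=
      Nat.Coprime.mul_right (hk.coprime_dvd_right h2)
        (hk.coprime_dvd_right (Nat.dvd_of_mem_divisors hr))
    have h3 : k * r ≤ k * W := Nat.mul_le_mul_left k hr1
    rw [Cnt_S_eq Y (k * r) (by positivity) (by omega)]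
    have h4 : (2 * (k * r)).totient = k.totient * (2 * r).totient := by
      rw [← Nat.totient_mul hc]; congr 1; ring
    rw [h4]
    push_cast
    ring
  rw [h1]
  refine (abs_sum_le_sum_abs _ _).trans (sum_le_sum fun r _ => ?_)
  rw [abs_mul]
  refine mul_le_of_le_one_left (abs_nonneg _) ?_
  exact_mod_cast abs_moebius_le_one (n := r)

lemma Cnt_err {W Y Q : ℕ} (hW : W ≠ 0) (h2 : 2 ∣ W) (hY : 2 * (Q * W) ≤ 2 * Y - 1) :
    err W Y (Cnt_c W * Cnt_T Y) Q ≤ W * ∑ q ∈ Icc 1 (2 * (Q * W)), |Cnt_E Y q| := by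
  unfold err
  calc _ ≤ ∑ k ∈ (Icc 1 Q).filter (fun k => Nat.Coprime k W),
        ∑ r ∈ W.divisors, |Cnt_E Y (2 * (k * r))| := by
        refine sum_le_sum fun k hk => ?_
        obtain ⟨h3, h4⟩ := mem_filter.1 hk
        have h5 := mem_Icc.1 h3
        have h6 : k * W ≤ Q * W := Nat.mul_le_mul_right W h5.2
        exact Cnt_one hW h2 (by omega) h4 (by omega)
    _ = ∑ r ∈ W.divisors, ∑ k ∈ (Icc 1 Q).filter (fun k => Nat.Coprime k W),
        |Cnt_E Y (2 * (k * r))| := sum_comm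
    _ ≤ ∑ r ∈ W.divisors, ∑ q ∈ Icc 1 (2 * (Q * W)), |Cnt_E Y q| := by
        refine sum_le_sum fun r hr => ?_
        have hr0 := Nat.pos_of_mem_divisors hr
        have hr1 := Nat.divisor_le hr
        rw [← sum_image (g := fun k => 2 * (k * r)) (f := fun q => |Cnt_E Y q|)]
        · refine sum_le_sum_of_subset_of_nonneg ?_ fun _ _ _ => abs_nonneg _
          intro q hq
          obtain ⟨k, hk, rfl⟩ := mem_image.1 hq
          have h5 := mem_Icc.1 (mem_filter.1 hk).1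
          have h6 : k * r ≤ Q * W := Nat.mul_le_mul h5.2 hr1
          have h7 : 0 < k * r := Nat.mul_pos (by omega) hr0
          exact mem_Icc.2 ⟨by omega, by omega⟩
        · intro k _ k' _ h
          have h' : k * r = k' * r := by simpa using h
          exact Nat.eq_of_mul_eq_mul_right hr0 h'
    _ ≤ _ := by
        rw [sum_const, nsmul_eq_mul]
        refine mul_le_mul_of_nonneg_right ?_ (sum_nonneg fun _ _ => abs_nonneg _)
        exact_mod_cast Nat.card_divisors_le_self W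

lemma Cnt_num {w y l L q s : ℝ} {A : ℕ} (hw : 1 ≤ w) (hy : 0 ≤ y) (hl : 32 * w ^ 2 ≤ l) (hL : l ≤ L)
    (hL2 : L ≤ 2 * l) (hq : 0 ≤ q) (hs : 0 ≤ s) (hs2 : s * s = y) (hqs : q * l ^ (A + 2) ≤ s) :
    w * (4 * y / L ^ (A + 1) + 4 * y / L ^ (A + 1) + 2 * (q * w) * (2 * (2 * s) * L))
      ≤ y / l ^ A := by
  have hw2 : w ≤ w ^ 2 := by nlinarith
  have hl0 : 0 < l := by nlinarith
  have hA : 0 < l ^ A := by positivity
  have h1 : 4 * y / L ^ (A + 1) ≤ 4 * y / l ^ (A + 1) := by gcongr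
  have h2 : w * (4 * y / l ^ (A + 1)) ≤ y / l ^ A / 4 := by
    rw [pow_succ, ← mul_div_assoc, div_div, div_le_div_iff₀ (by positivity) (by positivity)]
    have : 0 ≤ y * l ^ A * (l - 16 * w) := by
      have : 0 ≤ l - 16 * w := by nlinarith
      positivity
    nlinarith
  have h3 : w * (2 * (q * w) * (2 * (2 * s) * L)) ≤ y / l ^ A / 2 := by
    have a1 : w * (2 * (q * w) * (2 * (2 * s) * L)) ≤ w * (2 * (q * w) * (2 * (2 * s) * (2 * l))) := by
      gcongr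
    refine a1.trans ?_
    rw [div_div, le_div_iff₀ (by positivity)]
    have a2 : q * l ^ (A + 2) * s ≤ s * s := mul_le_mul_of_nonneg_right hqs hs
    have a3 : 32 * w ^ 2 * (q * s * l * l ^ A) ≤ l * (q * s * l * l ^ A) :=
      mul_le_mul_of_nonneg_right hl (by positivity)
    have a4 : l * (q * s * l * l ^ A) = q * l ^ (A + 2) * s := by ring
    nlinarith
  have h4 : w * (4 * y / L ^ (A + 1)) ≤ w * (4 * y / l ^ (A + 1)) :=
    mul_le_mul_of_nonneg_left h1 (by linarith)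
  rw [mul_add, mul_add]
  linarith

/-- Hints. `W = primorial K` is squarefree and even. For `k` prime to `W`,
`cnt W Y k = ∑ r ∣ W, μ r * ∑ (primes q in Ioc (2Y-1) (4Y-1), q ≡ 2kr - 1 mod 2kr) log q`. All these primes
exceed the modulus, so the inner sum is `Θ / φ (2kr) + ∑ th q * kap (2kr) (2kr-1) q`, `Θ = ∑ th q` over the
interval, `Y ≤ Θ ≤ 3Y` eventually (`Lib.ANT.tendsto_theta_div`). `φ (2kr) = φ k * φ (2r)` and
`c = ∑ r ∣ W, μ r / φ (2r) = (1 - 1/2) ∏ (3 ≤ p ≤ K) (1 - 1/(p-1))` is positive and at most `1`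
(`ArithmeticFunction.IsMultiplicative.prodPrimeFactors_one_sub_of_squarefree` with `prodPrimeFactors f`,
`f 2 = 1/2`, `f p = 1/(p-1)`); `M = c Θ`. Replacing `th` by `vonMangoldt` costs at most
`ψ - θ ≤ 2 √(4Y) log (4Y)` per modulus (`Chebyshev.psi_sub_theta_le`, `abs_kap_le`); apply `BV` with
`X = 4 Y`, `a q = q - 1`, at `x = 2Y - 1` and `x = 4Y - 1`, to the moduli `2kr ≤ 2 W Q` (injective in `k`). -/
theorem cnt_bv (K : ℕ) (hK : 2 ≤ K) : ∃ c : ℝ, 0 < c ∧ ∀ A : ℕ, ∃ B : ℕ, ∀ᶠ Y : ℕ in atTop,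
    ∃ M : ℝ, c * Y ≤ M ∧ M ≤ 3 * Y ∧ ∀ Q : ℕ, (Q : ℝ) * Real.log Y ^ B ≤ √(Y : ℝ) →
      err (primorial K) Y M Q ≤ Y / Real.log Y ^ A := by
  have hsq : Squarefree (primorial K) := squarefree_primorial K
  have hW0 : primorial K ≠ 0 := (primorial_pos K).ne'
  have h2 : 2 ∣ primorial K := (Nat.prime_two.dvd_primorial_iff).2 hK
  generalize primorial K = W at hsq hW0 h2
  obtain ⟨hc0, hc1⟩ := Cnt_c_bd hsq
  refine ⟨Cnt_c W, hc0, fun A => ?_⟩
  obtain ⟨B0, hB0⟩ := BV (A + 1)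
  refine ⟨B0 + A + 2, ?_⟩
  have h4 : Tendsto (fun Y : ℕ => 4 * Y) atTop atTop :=
    tendsto_id.const_mul_atTop' (by norm_num)
  have hlog : Tendsto (fun Y : ℕ => Real.log Y) atTop atTop :=
    Real.tendsto_log_atTop.comp tendsto_natCast_atTop_atTop
  filter_upwards [h4.eventually hB0, Cnt_T_bd, eventually_ge_atTop 4,
    hlog.eventually_ge_atTop (32 * (W : ℝ) ^ 2),
    hlog.eventually_ge_atTop (2 * (W : ℝ) * 2 ^ B0)] with Y hBV hT hY hl1 hl2
  have hY' : (4 : ℝ) ≤ Y := by exact_mod_cast hY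
  have hw : (1 : ℝ) ≤ W := by exact_mod_cast Nat.pos_of_ne_zero hW0
  refine ⟨Cnt_c W * Cnt_T Y, mul_le_mul_of_nonneg_left hT.1 hc0.le,
    (mul_le_of_le_one_left (by linarith [hT.1]) hc1).trans hT.2, fun Q hQ => ?_⟩
  have hl : 1 ≤ Real.log Y := by nlinarith
  have e4 : ((4 * Y : ℕ) : ℝ) = 4 * Y := by push_cast; ring
  have hL1 : Real.log Y ≤ Real.log ((4 * Y : ℕ) : ℝ) := by
    rw [e4]; exact Real.log_le_log (by linarith) (by linarith)
  have hL2 : Real.log ((4 * Y : ℕ) : ℝ) ≤ 2 * Real.log Y := by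
    rw [e4, Real.log_mul (by norm_num) (by linarith)]
    have := Real.log_le_log (by norm_num) hY'
    linarith
  have hs : √((4 * Y : ℕ) : ℝ) = 2 * √(Y : ℝ) := by
    rw [e4, Real.sqrt_mul (by norm_num), show (4 : ℝ) = 2 ^ 2 by norm_num,
      Real.sqrt_sq (by norm_num)]
  have hs0 : 0 ≤ √(Y : ℝ) := Real.sqrt_nonneg _
  have hs2 : √(Y : ℝ) * √(Y : ℝ) = Y := Real.mul_self_sqrt (by linarith)
  have hQ0 : (0 : ℝ) ≤ Q := Nat.cast_nonneg Q
  have hQ1 : (Q : ℝ) * Real.log Y ^ (A + 2) ≤ √(Y : ℝ) :=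
    (mul_le_mul_of_nonneg_left (pow_le_pow_right₀ hl (by omega)) hQ0).trans hQ
  have hQ2 : (Q : ℝ) * Real.log Y ^ (B0 + 1) ≤ √(Y : ℝ) :=
    (mul_le_mul_of_nonneg_left (pow_le_pow_right₀ hl (by omega)) hQ0).trans hQ
  have hQ3 : ((2 * (Q * W) : ℕ) : ℝ) * Real.log ((4 * Y : ℕ) : ℝ) ^ B0 ≤ √(Y : ℝ) := by
    refine le_trans ?_ hQ2
    have a1 : Real.log ((4 * Y : ℕ) : ℝ) ^ B0 ≤ 2 ^ B0 * Real.log Y ^ B0 := by
      rw [← mul_pow]; exact pow_le_pow_left₀ (by linarith) hL2 _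
    calc _ ≤ ((2 * (Q * W) : ℕ) : ℝ) * (2 ^ B0 * Real.log Y ^ B0) :=
          mul_le_mul_of_nonneg_left a1 (Nat.cast_nonneg _)
      _ = (2 * W * 2 ^ B0) * (Q * Real.log Y ^ B0) := by push_cast; ring
      _ ≤ Real.log Y * (Q * Real.log Y ^ B0) :=
          mul_le_mul_of_nonneg_right hl2 (by positivity)
      _ = _ := by ring
  have hQ4 : 2 * (Q * W) ≤ 2 * Y - 1 := by
    have a1 : (1 : ℝ) ≤ Real.log ((4 * Y : ℕ) : ℝ) ^ B0 := one_le_pow₀ (by linarith)
    have a2 : ((2 * (Q * W) : ℕ) : ℝ) ≤ √(Y : ℝ) :=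
      (le_mul_of_one_le_right (Nat.cast_nonneg _) a1).trans hQ3
    have a3 : √(Y : ℝ) ≤ Y := by
      rw [Real.sqrt_le_left (by linarith)]; nlinarith
    have a4 : 2 * (Q * W) ≤ Y := by exact_mod_cast a2.trans a3
    omega
  have hcop : ∀ q : ℕ, 0 < q → Nat.Coprime (q - 1) q := fun q hq => by
    obtain ⟨q, rfl⟩ : ∃ q', q = q' + 1 := ⟨q - 1, by omega⟩
    simp
  have hb := hBV (2 * (Q * W)) (by rw [hs]; linarith) (fun q => q - 1) hcop
  have hb1 := hb (4 * Y - 1) (by omega)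
  have hb2 := hb (2 * Y - 1) (by omega)
  refine (Cnt_err hW0 h2 hQ4).trans ?_
  refine le_trans ?_ (Cnt_num hw (by linarith) hl1 hL1 hL2 hQ0 hs0 hs2 hQ1)
  refine mul_le_mul_of_nonneg_left ?_ (by linarith)
  refine (sum_le_sum fun q _ => Cnt_E_le Y q (by omega)).trans ?_
  rw [sum_add_distrib, sum_add_distrib, sum_const, nsmul_eq_mul, Nat.card_Icc, hs]
  rw [← e4]
  have a5 : ((2 * (Q * W) + 1 - 1 : ℕ) : ℝ) = 2 * (Q * W) := by
    rw [Nat.add_sub_cancel]; push_cast; ring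
  rw [a5]
  linarith

end Pool.Agent.Work.MP_6d9ff5_nt
end
end
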