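import Pool.Agent.Work.MP_6d9ff5_nt.TopP1
import Pool.Agent.Work.MP_6d9ff5_nt.Cnt
import Pool.Agent.Work.MP_6d9ff5_nt.Top2

/-!
# The bulk of the primes
-/

noncomputable section

open Finset Filter

namespace Pool.Agent.Work.MP_6d9ff5_nt

lemma two_pow_le_pR {t : ℕ} (ht : 1 ≤ t) : (2 : ℝ) ^ t ≤ pR t := by
  have : 2 ^ t ≤ pR t := Nat.le_self_pow (by omega) _
  exact_mod_cast this

lemma log_pR (t : ℕ) : (t : ℝ) ^ 2 / 2 ≤ Real.log (pR t) := by
  unfold pR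
  push_cast
  rw [Real.log_pow, Real.log_pow]
  have := Real.log_two_gt_d9
  nlinarith [sq_nonneg (t : ℝ)]

lemma sum_split (W Y s : ℕ) (f : ℕ → ℝ) : ∑ N ∈ NN W Y, f N = ∑ N ∈ GG W Y s, f N +
    ∑ N ∈ (NN W Y).filter (fun N => ¬ Squarefree N), f N +
    ∑ N ∈ (NN W Y).filter (fun N => Squarefree N ∧ s < N.primeFactors.card), f N := by
  unfold GG
  simp_rw [sum_filter]
  rw [← sum_add_distrib, ← sum_add_distrib]
  refine sum_congr rfl fun N _ => ?_
  by_cases h1 : Squarefree N <;> by_cases h2 : N.primeFactors.card ≤ s <;> simp [h1, h2, not_le.1]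

lemma natlog_le {D : ℕ} (hD : 0 < D) : (Nat.log 2 D : ℝ) ≤ 2 * Real.log D := by
  have h1 : ((2 ^ Nat.log 2 D : ℕ) : ℝ) ≤ D := by exact_mod_cast Nat.pow_log_le_self 2 hD.ne'
  have h2 := Real.log_le_log (by positivity) h1
  rw [Nat.cast_pow, Real.log_pow] at h2
  have h3 := Real.log_two_gt_d9
  have h4 : (0 : ℝ) ≤ Nat.log 2 D := Nat.cast_nonneg _
  push_cast at h2
  nlinarith

/-- the error terms -/
lemma bulk_err : ∃ C : ℝ, 1 ≤ C ∧ ∀ {t L Y E a b d w V : ℝ}, 1 ≤ t → t ^ 203 ≤ L → L ≤ (2 * t) ^ 203 →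
    0 ≤ Y → 0 ≤ E → E ≤ Y / L ^ 5 → 0 ≤ a → a ≤ 3 * L → 0 ≤ b → b ≤ 4 * L → d ≤ 2 * L →
    t ^ 900 ≤ w → V = t ^ 500 →
    E ≤ Y ∧ V * E ≤ Y ∧ d * E ≤ 2 * Y ∧ 6 * a * Y * b / V ≤ C * Y ∧
      a * (2 * Y) * b ^ 3 / w ≤ C * Y := by
  obtain ⟨C, hC⟩ : ∃ C : ℝ, C = 2 ^ 203 := ⟨_, rfl⟩
  have hC1 : 1 ≤ C := hC ▸ one_le_pow₀ (by norm_num)
  have hC4 : 1 ≤ C ^ 4 := one_le_pow₀ hC1
  refine ⟨384 * C ^ 4, by linarith, ?_⟩
  intro t L Y E a b d w V ht h1 h2 hY hE0 hE ha0 ha hb0 hb hd hw hV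
  have hL : 1 ≤ L := (one_le_pow₀ ht).trans h1
  have hE' : L ^ 5 * E ≤ Y := by rwa [le_div_iff₀' (by positivity)] at hE
  have e1 : V ≤ L ^ 5 := hV ▸ (pow_le_pow_right₀ ht (by norm_num : 500 ≤ 203 * 5)).trans
    ((pow_mul t 203 5).le.trans (pow_le_pow_left₀ (by positivity) h1 5))
  have e2 : L ≤ L ^ 5 := le_self_pow₀ hL (by norm_num)
  have e3 : ∀ k : ℕ, L ^ k ≤ C ^ k * t ^ (203 * k) := fun k => by
    rw [pow_mul, ← mul_pow, hC, ← mul_pow]; exact pow_le_pow_left₀ (by linarith) h2 k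
  have e4 : t ^ (203 * 2) ≤ V := (pow_le_pow_right₀ ht (by norm_num : 203 * 2 ≤ 500)).trans hV.ge
  have e5 : t ^ (203 * 4) ≤ w := (pow_le_pow_right₀ ht (by norm_num)).trans hw
  have e6 : L ^ 2 ≤ C ^ 4 * V := (e3 2).trans
    (mul_le_mul (pow_le_pow_right₀ hC1 (by norm_num)) e4 (by positivity) (by positivity))
  have e7 : L ^ 4 ≤ C ^ 4 * w := (e3 4).trans (mul_le_mul_of_nonneg_left e5 (by positivity))
  have hV0 : 0 < V := lt_of_lt_of_le (by positivity) e4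
  have hw0 : 0 < w := lt_of_lt_of_le (by positivity) e5
  clear e3 e4 e5 hV hw h1 h2 hC
  refine ⟨by nlinarith, by nlinarith, by nlinarith, ?_, ?_⟩
  · rw [div_le_iff₀ hV0]
    calc 6 * a * Y * b ≤ 6 * (3 * L) * Y * (4 * L) := by gcongr
      _ = 72 * L ^ 2 * Y := by ring
      _ ≤ 384 * (C ^ 4 * V) * Y := by gcongr; norm_num
      _ = _ := by ring
  · rw [div_le_iff₀ hw0]
    calc a * (2 * Y) * b ^ 3 ≤ (3 * L) * (2 * Y) * (4 * L) ^ 3 := by gcongr
      _ = 384 * L ^ 4 * Y := by ring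
      _ ≤ 384 * (C ^ 4 * w) * Y := by gcongr
      _ = _ := by ring

lemma bulk_ev (B : ℕ) : ∀ᶠ t : ℕ in atTop, ∀ L : ℝ, 0 ≤ L → L ≤ (2 * t) ^ 203 →
    ((t ^ 500 : ℕ) : ℝ) ^ 2 * (2 * L) ^ B ≤ 2 ^ t ∧ 3 * L * 2 ^ ps t ≤ 2 ^ t ∧ L ≤ 2 ^ t := by
  filter_upwards [ev_pow (500 * 2 + 203 * B) (2 ^ B), ev_pow (203 + 900) 3, ev_pow 203 1,
    eventually_ge_atTop 1] with t t1 t2 t3 t4 L h0 h2
  have h3 : (0 : ℝ) ≤ t := Nat.cast_nonneg _
  refine ⟨le_trans ?_ t1, le_trans ?_ t2, h2.trans ((one_mul _).ge.trans t3)⟩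
  · rw [pow_add, pow_mul, pow_mul, mul_pow 2 L, mul_left_comm, Nat.cast_pow]
    exact mul_le_mul_of_nonneg_left (mul_le_mul (pow_le_pow_left₀ (by positivity)
      (pow_le_pow_left₀ h3 (by linarith) _) _) (pow_le_pow_left₀ h0 h2 B) (by positivity)
      (by positivity)) (by positivity)
  · rw [pow_add, mul_assoc]
    exact mul_le_mul_of_nonneg_left (mul_le_mul h2 (two_pow_ps t (by omega)).2 (by positivity)
      (by positivity)) (by norm_num)

theorem bulk (η : ℝ) (hη0 : 0 < η) (hη1 : η ≤ 1 / 10) : ∀ᶠ n : ℕ in atTop, ∃ Q : Finset ℕ,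
    (∀ N ∈ Q, Odd N ∧ Squarefree N ∧ (2 * N - 1).Prime ∧ Real.exp ((2 - η) * Real.log n) ≤ N ∧
      N ≤ n ^ 2 ∧ ∀ l : ℕ, l.Prime → l ∣ N → l * Real.log n ≤ n) ∧
    (Q.card : ℝ) ≤ (1 - η) * n / 2 ∧
    (∀ l : ℕ, l.Prime → ((Q.filter fun N => l ∣ N).card : ℝ) ≤ (1 - η) * n / l) ∧
    (1 - 6 * η) * n / 2 ≤ Q.card := by
  obtain ⟨K, ⟨c1, hc1, hZ⟩, hK2, hKη⟩ :=
    ((zwin η hη0).and ((eventually_ge_atTop 2).and (ev_le (14 / η)))).exists
  obtain ⟨c, hc, hB⟩ := cnt_bv K hK2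
  obtain ⟨B, hB⟩ := hB 5
  obtain ⟨R₀, hZ⟩ := eventually_atTop.1 hZ
  obtain ⟨Y₀, hB⟩ := eventually_atTop.1 hB
  rw [div_le_iff₀' hη0] at hKη
  set γ := c * c1 / 2 with hγ
  have hγ0 : 0 < γ := by positivity
  obtain ⟨C, hC1, herr⟩ := bulk_err
  have hP := (eventually_ge_atTop 200).and <| (eventually_ge_atTop R₀).and <|
    (eventually_ge_atTop Y₀).and <| (ev_le (1 / η)).and <| (ev_le (100 * C / (η * γ))).and <|
    (bulk_ev B).and <| (ev_pow 1 (512 / η ^ 2)).and <|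
    (ev_log 1 2301).and <| (ev_le_log 1).and (tr_par (η * γ / 8) (by positivity))
  filter_upwards [exists_par hP] with n ⟨t, ⟨ht, tR, tY, t1, t2, t3, t5, t6, t7, htr⟩, h1, h2⟩
  obtain ⟨hn, a1, hR, hD, hY, hYn, hDR⟩ := par_sizes ht h1
  replace htr := htr n h1 h2 (primorial K)
  have hR1 := two_pow_le_pR (t := t) (by omega)
  have hR3 := log_pR t
  have hs := ps_le t7
  obtain ⟨t9, t4, t8⟩ := t3 _ (Real.log_natCast_nonneg n) h2
  obtain ⟨V, hV⟩ : ∃ V : ℕ, V = t ^ 500 := ⟨_, rfl⟩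
  have hV1 : 1 ≤ V := (Nat.one_le_pow _ _ (lt_of_lt_of_le (by norm_num) ht)).trans hV.ge
  rw [← hV] at t9
  replace herr := fun {Y E a b d : ℝ} a1 a2 a3 a4 a5 a6 a7 a8 =>
    herr (Y := Y) (E := E) (a := a) (b := b) (d := d) (V := V) (by exact_mod_cast (by omega : 1 ≤ t))
      h1 h2 a1 a2 a3 a4 a5 a6 a7 a8 (two_pow_ps t (by omega)).1 (by exact_mod_cast hV)
  clear hV h1 h2 hP t3
  have hYdef : pY n t = pD n t ^ 2 * pR t ^ 2 := rfl
  set L := Real.log n with hL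
  set R := pR t
  set D := pD n t
  set Y := pY n t
  set s := ps t
  have ht' : (200 : ℝ) ≤ t := by exact_mod_cast ht
  have hn' : (0 : ℝ) < n := by exact_mod_cast hn
  rw [div_le_iff₀' hη0] at t1
  rw [div_le_iff₀' (by positivity)] at t2
  have b0 : (t : ℝ) * t * t ≤ t ^ 202 :=
    (by ring_nf; rfl : (t : ℝ) * t * t ≤ t ^ 3).trans (pow_le_pow_right₀ (by linarith) (by norm_num))
  have b1 : (t : ℝ) ≤ t * t := by nlinarith
  have b2 : (t : ℝ) * t ≤ t * t * t := by nlinarith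
  have b3 : (t : ℝ) ≤ 2 ^ t := by exact_mod_cast Nat.lt_two_pow_self.le
  have htR : t ≤ R := by exact_mod_cast b3.trans hR1
  have hRD : R ≤ D := by
    exact_mod_cast hR.trans ((Real.exp_le_exp.2 (by linarith)).trans hD)
  have hD0 : 0 < D := by omega
  have hRpos : 0 < R := by omega
  have hDn : D ≤ n := (Nat.le_mul_of_pos_right _ (by positivity)).trans hDR
  have hDY : D ≤ Y := by
    rw [hYdef]
    exact (Nat.le_self_pow (by norm_num) _).trans (Nat.le_mul_of_pos_right _ (by positivity))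
  have hY0 : (0 : ℝ) < Y := by exact_mod_cast (by omega : 0 < Y)
  have hLY : L ≤ Real.log Y := (Real.le_log_iff_exp_le hY0).2
    ((Real.exp_le_exp.2 (by linarith)).trans hY)
  have h4Y : Real.log (4 * Y) ≤ 3 * L := (Real.log_le_iff_le_exp (by positivity)).2
    ((four_mul_le_exp hn (by linarith) (hYn.trans (by nlinarith))).2 hYn)
  have h2Y : Real.log (2 * Y) ≤ 3 * L := (Real.log_le_log (by positivity) (by linarith)).trans h4Y
  have hY1 : (1 : ℝ) ≤ Y := by exact_mod_cast (by omega : 1 ≤ Y)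
  have hYL : Real.log Y ≤ 2 * L := by
    have : (Y : ℝ) ≤ n ^ 2 := by exact_mod_cast hYn
    have := Real.log_le_log hY0 this
    rw [Real.log_pow] at this
    exact_mod_cast this
  obtain ⟨M, hM1, -, hM3⟩ := hB Y (by omega)
  obtain ⟨hZ1, hZ2⟩ := hZ R (by omega) D hRD
  have hM0 : 0 ≤ M := le_trans (by positivity) hM1
  have hE := hM3 (D * V ^ 2) (by
    have e1 : √(Y : ℝ) = D * R := by
      rw [hYdef]; push_cast; rw [← mul_pow, Real.sqrt_sq (by positivity)]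
    have e2 : Real.log Y ^ B ≤ (2 * L) ^ B := pow_le_pow_left₀ (by linarith) hYL B
    rw [e1]; push_cast
    rw [mul_assoc]
    exact mul_le_mul_of_nonneg_left ((mul_le_mul_of_nonneg_left e2 (by positivity)).trans
      (t9.trans hR1)) (by positivity))
  have hDQ : D ≤ D * V ^ 2 := Nat.le_mul_of_pos_right _ (by positivity)
  set E := err (primorial K) Y M (D * V ^ 2) with hEdef
  have hlD : (Nat.log 2 D : ℝ) ≤ 2 * L := (natlog_le hD0).trans (by
    have := Real.log_le_log (by exact_mod_cast hD0) (by exact_mod_cast hDn : (D : ℝ) ≤ n)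
    linarith)
  have l4 : 0 ≤ Real.log (4 * Y) := Real.log_nonneg (by linarith)
  have l2 : 0 ≤ Real.log (2 * Y) := Real.log_nonneg (by linarith)
  have hL0 : 0 < L := by linarith
  obtain ⟨r1, r2, r3, r4, r5⟩ := herr (E := E) (b := 1 + Real.log (2 * Y)) hY0.le
    (err_nonneg _ _ _ _) (hE.trans (by gcongr)) l4 h4Y (by linarith) (by linarith) hlD
  have hX : γ * t ^ 2 * Y ≤ M * ZZ (primorial K) D R :=
    calc _ = c * Y * (c1 * (t ^ 2 / 2)) := by rw [hγ]; ring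
      _ ≤ _ := mul_le_mul hM1 (le_trans (by gcongr) hZ1) (by positivity) hM0
  have hX1 : 100 * (C * Y) ≤ η * (M * ZZ (primorial K) D R) :=
    calc _ = 100 * C * Y := by ring
      _ ≤ η * γ * (t * t) * Y := mul_le_mul_of_nonneg_right (t2.trans (by gcongr)) hY0.le
      _ = η * (γ * t ^ 2 * Y) := by ring
      _ ≤ _ := by gcongr
  have hCY : (Y : ℝ) ≤ C * Y := le_mul_of_one_le_left hY0.le hC1
  have hX0 : 0 < M * ZZ (primorial K) D R := lt_of_lt_of_le (by positivity) hX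
  have m1' := abs_le.1 (m1 (primorial K) Y D R _ M hDQ)
  have m2' := m2 K Y D R _ V M η (by omega) hM0 hη0.le hV1 le_rfl hZ2
  have m3' := m3 (primorial K) Y D R s
  rw [← hEdef] at m1' m2'
  have m4 : 3 * (1 + η) * M * ZZ (primorial K) D R / K ≤ η / 4 * (M * ZZ (primorial K) D R) := by
    have : (0 : ℝ) < K := by exact_mod_cast (by omega : 0 < K)
    rw [div_le_iff₀ this]
    calc _ = 3 * (1 + η) * (M * ZZ (primorial K) D R) := by ring
      _ ≤ (η * K / 4) * (M * ZZ (primorial K) D R) := by gcongr; linarith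
      _ = _ := by ring
  have hst : (s : ℝ) + 1 ≤ t := by rw [pow_one] at t6; linarith
  have hRn : (R : ℝ) ≤ n := by exact_mod_cast hRD.trans hDn
  have hR0 : (0 : ℝ) < R := lt_of_lt_of_le (by positivity) hR1
  obtain ⟨Q, q1, q2, q3, q4⟩ := bulk_fin K Y D R s n M η hη0 hη1 (by linarith) hYdef (by omega) hDR
    (hRD.trans hDn) (t1.trans (by gcongr)) hX0 (by linarith)
    (by rw [sum_split _ _ s] at m1'; linarith)
    (fun I hI => by
      have e1 := htr I hI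
      have e2 := u1 (primorial K) Y D R s _ M η hM0 hDQ I hI hZ2
      rw [← hEdef] at e2
      have e3 : η * γ / 8 * t ^ 2 * Y ≤ η / 8 * (M * ZZ (primorial K) D R) :=
        calc _ = η / 8 * (γ * t ^ 2 * Y) := by ring
          _ ≤ _ := by gcongr
      linarith)
    (by
      calc _ ≤ n * (3 * L * 2 ^ s) := by gcongr
        _ ≤ Real.exp L * Real.exp t := by
            rw [hL, Real.exp_log hn']
            exact mul_le_mul_of_nonneg_left (t4.trans (by exact_mod_cast two_pow_le_exp t)) hn'.le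
        _ ≤ Y := by rw [← Real.exp_add]; exact (Real.exp_le_exp.2 (by linarith)).trans hY
        _ ≤ _ := by nlinarith)
    (by
      have e1 : ((n / R + 1 : ℕ) : ℝ) ≤ 2 * (n / R) := by
        have : ((n / R : ℕ) : ℝ) ≤ n / R := Nat.cast_div_le
        have : (1 : ℝ) ≤ n / R := (one_le_div hR0).2 hRn
        push_cast; linarith
      have e2 : 512 * (t : ℝ) ≤ η ^ 2 * R := by
        have := t5.trans hR1
        rw [div_mul_eq_mul_div, div_le_iff₀' (by positivity)] at this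
        linarith
      have e3 : √(((n / R + 1 : ℕ) : ℝ) * ((s + 1) * n)) ≤ η * n / 16 := by
        refine Real.sqrt_le_iff.2 ⟨by positivity, ?_⟩
        calc _ ≤ 2 * (n / R : ℝ) * (t * n) := by gcongr
          _ = (512 * t) * (n ^ 2 / 256) / R := by ring
          _ ≤ (η ^ 2 * R) * (n ^ 2 / 256) / R := by gcongr
          _ = _ := by field_simp; norm_num
      linarith)
  refine ⟨Q, fun N hN => ?_, q2, q3, q4⟩
  obtain ⟨e1, e2, e3⟩ := q1 N hN
  obtain ⟨e4, e5, -⟩ := mem_filter.1 e1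
  obtain ⟨e6, e7⟩ := mem_filter.1 e4
  obtain ⟨e8, e9⟩ := mem_Ioc.1 e6
  have e10 : 2 ∣ primorial K := dvd_prod_of_mem (fun p => p)
    (mem_filter.2 ⟨mem_range.2 (by omega), Nat.prime_two⟩)
  refine ⟨Nat.coprime_two_right.1 (e7.coprime_dvd_right e10), e5, e2, ?_, ?_, fun l hl hlN => ?_⟩
  · refine le_trans (Real.exp_le_exp.2 ?_) (hY.trans (by exact_mod_cast e8.le))
    have : η * (200 * (t * t * t)) ≤ η * L := by gcongr; linarith
    nlinarith
  · refine e9.trans (le_trans ?_ (Nat.pow_le_pow_left hDR 2))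
    rw [hYdef]
    calc 2 * (D ^ 2 * R ^ 2) ≤ R ^ 8 * (D ^ 2 * R ^ 2) :=
          Nat.mul_le_mul_right _ (le_trans (by omega) (Nat.le_self_pow (by norm_num) R))
      _ = _ := by ring
  · have f1 : (l : ℝ) * R ≤ n := by exact_mod_cast e3 l hl hlN
    exact le_trans (mul_le_mul_of_nonneg_left (t8.trans hR1) (by positivity)) f1

end Pool.Agent.Work.MP_6d9ff5_nt
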