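import Pool.Agent.Work.MP_6d9ff5_nt.Top2
import Pool.Agent.Lib.LargeSieve.Additive
import Pool.Agent.Lib.ANT.Mertens
import Pool.Agent.Lib.ANT.DivisorBound

-- merged part: Pool.Agent.Work.MP_6d9ff5_nt.Cos
section
/-!
# The cosine sum over the mixing primes
-/

noncomputable section

open Finset

namespace Pool.Agent.Work.MP_6d9ff5_nt

open Pool.Agent.Lib.LargeSieve

lemma Cos_abel (c : ℕ → ℝ) (K : ℝ) (hK : ∀ n, |∑ i ∈ range (n + 1), c i| ≤ K) (m : ℕ) (hm : 1 ≤ m)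
    (J : ℕ) (hJ : m ≤ J) : ∑ i ∈ Ioc m J, c i / i ≤ 2 * K / m := by
  have key : ∀ J : ℕ, m ≤ J → ∑ i ∈ Ioc m J, c i / i - (∑ i ∈ range (J + 1), c i) / J
      ≤ 2 * K / m - K / J := by
    intro J hJ
    induction J, hJ using Nat.le_induction with
    | base =>
      have hm' : (0 : ℝ) < m := by exact_mod_cast hm
      have h1 := (abs_le.1 (hK m)).1
      have h2 : -(∑ i ∈ range (m + 1), c i) / m ≤ K / m :=
        div_le_div_of_nonneg_right (by linarith) hm'.le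
      have h3 : 2 * K / m - K / m = K / m := by ring
      rw [Ioc_self, sum_empty, h3, zero_sub, ← neg_div]
      exact h2
    | succ n hn ih =>
      have hn' : (0 : ℝ) < n := by exact_mod_cast (by omega : 0 < n)
      rw [sum_Ioc_succ_top hn, sum_range_succ c (n + 1)]
      have h1 := (abs_le.1 (hK n)).2
      generalize ∑ i ∈ range (n + 1), c i = B at *
      push_cast
      have h2 : B * (1 / n - 1 / (n + 1)) ≤ K * (1 / n - 1 / (n + 1)) := by
        refine mul_le_mul_of_nonneg_right h1 (sub_nonneg.2 ?_)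
        exact one_div_le_one_div_of_le hn' (by linarith)
      have e1 : (B + c (n + 1)) / (n + 1) = B * (1 / (n + 1)) + c (n + 1) / (n + 1) := by ring
      have e2 : B / n = B * (1 / n) := by ring
      have e3 : K / n = K * (1 / n) := by ring
      have e4 : K / (n + 1) = K * (1 / (n + 1)) := by ring
      rw [e1, e4]
      rw [e2, e3] at ih
      linarith
  have hJ' : (0 : ℝ) < J := by exact_mod_cast (by omega : 0 < J)
  have h1 := key J hJ
  have h2 : (∑ i ∈ range (J + 1), c i) / J ≤ K / J :=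
    div_le_div_of_nonneg_right (abs_le.1 (hK J)).2 hJ'.le
  linarith

lemma Cos_re (x : ℝ) : (ee x).re = Real.cos (2 * Real.pi * x) := by
  unfold ee
  rw [mul_comm, Complex.exp_ofReal_mul_I_re]

lemma Cos_part (θ : ℝ) (h : 0 < ‖ee θ - 1‖) (n : ℕ) :
    |∑ i ∈ range n, Real.cos (2 * Real.pi * (i * θ))| ≤ 2 / ‖ee θ - 1‖ := by
  have e1 : ∑ i ∈ range n, Real.cos (2 * Real.pi * (i * θ)) = (∑ i ∈ range n, ee θ ^ i).re := by
    rw [Complex.re_sum]
    exact sum_congr rfl fun i _ => by rw [← ee_nat_mul, Cos_re]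
  rw [e1]
  refine (Complex.abs_re_le_norm _).trans ?_
  rw [le_div_iff₀ h, ← norm_mul, geom_sum_mul]
  refine (norm_sub_le _ _).trans ?_
  rw [norm_pow, norm_ee, one_pow, norm_one]
  norm_num

lemma Cos_le_HH (θ : ℝ) (n : ℕ) :
    ∑ i ∈ Icc 1 n, Real.cos (2 * Real.pi * (i * θ)) / i ≤ HH n :=
  sum_le_sum fun i _ => div_le_div_of_nonneg_right (Real.cos_le_one _) (Nat.cast_nonneg i)

/-- Hints. If `dZ θ = 0` then `ee θ = 1`. Otherwise `‖ee θ - 1‖ ≤ 2 π dZ θ`; with `m = ⌈1 / dZ θ⌉` the terms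
`i ≤ m` give at most `HH m ≤ 1 + log m`, and the terms `i > m` are bounded by Abel summation, the partial sums
of `ee (i θ)` being at most `1 / dZ θ` up to a constant (`norm_sum_ee_le`). -/
theorem cos_harm : ∃ C : ℝ, ∀ (J : ℕ) (θ : ℝ),
    ‖ee θ - 1‖ * Real.exp (∑ i ∈ Icc 1 J, Real.cos (2 * Real.pi * (i * θ)) / i) ≤ C := by
  refine ⟨4 * Real.exp 3, fun J θ => ?_⟩
  rcases (norm_nonneg (ee θ - 1)).eq_or_lt with h | h
  · rw [← h, zero_mul]; positivity
  have h2 : ‖ee θ - 1‖ ≤ 2 := by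
    refine (norm_sub_le _ _).trans ?_
    rw [norm_ee, norm_one]; norm_num
  set K : ℝ := 2 / ‖ee θ - 1‖ with hK
  have hK1 : 1 ≤ K := by rw [hK, le_div_iff₀ h]; linarith
  have hm1 : 1 ≤ ⌈K⌉₊ := Nat.ceil_pos.2 (by linarith)
  have hm2 : K ≤ ⌈K⌉₊ := Nat.le_ceil K
  have hm3 : (⌈K⌉₊ : ℝ) ≤ 2 * K := by
    have := Nat.ceil_lt_add_one (by linarith : (0 : ℝ) ≤ K)
    linarith
  generalize ⌈K⌉₊ = m at hm1 hm2 hm3
  have hm' : (0 : ℝ) < m := by linarith
  have h3 : HH m ≤ 1 + Real.log (2 * K) := by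
    have := HH_le m
    have := Real.log_le_log hm' hm3
    linarith
  have h4 : ∑ i ∈ Icc 1 J, Real.cos (2 * Real.pi * (i * θ)) / i ≤ 3 + Real.log (2 * K) := by
    rcases le_total J m with hJ | hJ
    · have := Cos_le_HH θ J
      have := HH_mono hJ
      linarith
    · have a1 := Cos_abel (fun i => Real.cos (2 * Real.pi * (i * θ))) K
        (fun n => Cos_part θ h (n + 1)) m hm1 J hJ
      have a2 := Cos_le_HH θ m
      have a3 : 2 * K / m ≤ 2 := by rw [div_le_iff₀ hm']; linarith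
      have e : ∀ n : ℕ, Icc 1 n = Ioc 0 n := fun n => by ext x; simp only [mem_Icc, mem_Ioc]; omega
      rw [e] at a2 ⊢
      rw [← sum_Ioc_consecutive _ (Nat.zero_le m) hJ]
      linarith
  have h5 := Real.exp_le_exp.2 h4
  rw [Real.exp_add, Real.exp_log (by linarith)] at h5
  refine (mul_le_mul_of_nonneg_left h5 h.le).trans (le_of_eq ?_)
  rw [hK]; field_simp; norm_num

lemma Cos_fib (t J i : ℕ) (ht : 2 ≤ t) (hi : i ∈ Icc 1 J) :
    (PP t J).filter (fun p => Nat.log (2 ^ t) p = i)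
      = (Ioc ((2 ^ t) ^ i) ((2 ^ t) ^ (i + 1))).filter Nat.Prime := by
  obtain ⟨h1, h2⟩ := mem_Icc.1 hi
  have hb : 1 < 2 ^ t := Nat.one_lt_two_pow (by omega)
  have np : ∀ k, 1 ≤ k → ¬ ((2 ^ t) ^ k).Prime := fun k hk hp => by
    rw [← pow_mul] at hp
    have h3 := Nat.Prime.eq_one_of_pow hp
    have h4 : t * 1 ≤ t * k := Nat.mul_le_mul_left t hk
    omega
  have m1 : 2 ^ t ≤ (2 ^ t) ^ i := Nat.le_self_pow (by omega) _
  have m2 : (2 ^ t) ^ (i + 1) ≤ (2 ^ t) ^ (J + 1) := Nat.pow_le_pow_right hb.le (by omega)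
  ext p
  simp only [PP, mem_filter, mem_Ico, mem_Ioc]
  rw [Nat.log_eq_iff (Or.inl (by omega))]
  constructor
  · rintro ⟨⟨_, hp⟩, a1, a2⟩
    refine ⟨⟨lt_of_le_of_ne a1 fun e => np i h1 (e ▸ hp), a2.le⟩, hp⟩
  · rintro ⟨⟨a1, a2⟩, hp⟩
    have a3 : p < (2 ^ t) ^ (i + 1) := lt_of_le_of_ne a2 fun e => np (i + 1) (by omega) (e ▸ hp)
    exact ⟨⟨⟨m1.trans a1.le, a3.trans_le m2⟩, hp⟩, a1.le, a3⟩

lemma Cos_ht (t J p : ℕ) (ht : 2 ≤ t) (hp : p ∈ PP t J) : Nat.log (2 ^ t) p ∈ Icc 1 J := by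
  have hb : 1 < 2 ^ t := Nat.one_lt_two_pow (by omega)
  obtain ⟨h1, h2⟩ := mem_Ico.1 (mem_filter.1 hp).1
  refine mem_Icc.2 ⟨Nat.log_pos hb h1, Nat.lt_succ_iff.1 ?_⟩
  exact Nat.log_lt_of_lt_pow (by omega) h2

lemma Cos_w (t J i : ℕ) (ht : 2 ≤ t) (hi : i ∈ Icc 1 J) :
    |∑ p ∈ (PP t J).filter (fun p => Nat.log (2 ^ t) p = i), 1 / (p : ℝ) - 1 / i|
      ≤ 70 / t * (1 / i) + (1 / i - 1 / (i + 1)) := by
  rw [Cos_fib t J i ht hi]
  obtain ⟨h1, _⟩ := mem_Icc.1 hi
  have hb : 1 < 2 ^ t := Nat.one_lt_two_pow (by omega)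
  have m1 : 2 ^ t ≤ (2 ^ t) ^ i := Nat.le_self_pow (by omega) _
  have h := Pool.Agent.Lib.ANT.abs_sum_inv_prime_Ioc_sub_le ((2 ^ t) ^ i) ((2 ^ t) ^ (i + 1))
    (by omega) (Nat.pow_le_pow_right hb.le (by omega))
  have hl2 : (0.69 : ℝ) < Real.log 2 := by have := Real.log_two_gt_d9; linarith
  have hi' : (1 : ℝ) ≤ i := by exact_mod_cast h1
  have ht' : (2 : ℝ) ≤ t := by exact_mod_cast ht
  have hL : 0 < t * Real.log 2 := by positivity
  push_cast at h
  simp only [Real.log_pow] at h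
  push_cast at h
  rw [Real.log_mul (by positivity) hL.ne', Real.log_mul (x := i) (by positivity) hL.ne'] at h
  have a1 : Real.log (i + 1) - Real.log i ≤ 1 / i := by
    rw [← Real.log_div (by positivity) (by positivity)]
    refine (Real.log_le_sub_one_of_pos (by positivity)).trans (le_of_eq ?_)
    field_simp; ring
  have a2 : Real.log i - Real.log (i + 1) ≤ -(1 / (i + 1)) := by
    rw [← Real.log_div (by positivity) (by positivity)]
    refine (Real.log_le_sub_one_of_pos (by positivity)).trans (le_of_eq ?_)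
    field_simp; ring
  have a3 : 48 / (i * (t * Real.log 2)) ≤ 70 / t * (1 / i) := by
    have e : (70 : ℝ) / t * (1 / i) = 70 / (i * t) := by field_simp
    have hit : (0 : ℝ) < i * t := by positivity
    rw [e, div_le_div_iff₀ (by positivity) hit]
    have := mul_le_mul_of_nonneg_left hl2.le hit.le
    nlinarith
  have a4 : 1 / ((i : ℝ) + 1) ≤ 1 / i := one_div_le_one_div_of_le (by linarith) (by linarith)
  simp only [← one_div] at h
  obtain ⟨b1, b2⟩ := abs_le.1 h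
  exact abs_le.2 ⟨by linarith, by linarith⟩

lemma Cos_tel (J : ℕ) : ∑ i ∈ Icc 1 J, (1 / (i : ℝ) - 1 / (i + 1)) = 1 - 1 / (J + 1) := by
  induction J with
  | zero => simp
  | succ n ih => rw [sum_Icc_succ_top (by omega), ih]; push_cast; ring

lemma Cos_dev (t J : ℕ) (ht : 2 ≤ t) (hJ : Real.log J ≤ t) (f : ℕ → ℝ) (hf : ∀ i, |f i| ≤ 1) :
    |∑ p ∈ PP t J, 1 / (p : ℝ) * f (Nat.log (2 ^ t) p) - ∑ i ∈ Icc 1 J, f i / i| ≤ 141 := by
  have ht' : (2 : ℝ) ≤ t := by exact_mod_cast ht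
  rw [← sum_fiberwise_of_maps_to (fun p hp => Cos_ht t J p ht hp), ← sum_sub_distrib]
  refine (abs_sum_le_sum_abs _ _).trans ?_
  have h1 : ∀ i ∈ Icc 1 J, |∑ p ∈ (PP t J).filter (fun p => Nat.log (2 ^ t) p = i),
      1 / (p : ℝ) * f (Nat.log (2 ^ t) p) - f i / i| ≤ 70 / t * (1 / i) + (1 / i - 1 / (i + 1)) := by
    intro i hi
    have e : ∑ p ∈ (PP t J).filter (fun p => Nat.log (2 ^ t) p = i),
        1 / (p : ℝ) * f (Nat.log (2 ^ t) p) - f i / i
        = (∑ p ∈ (PP t J).filter (fun p => Nat.log (2 ^ t) p = i), 1 / (p : ℝ) - 1 / i) * f i := by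
      rw [sub_mul, sum_mul, sum_congr rfl fun p hp => by rw [(mem_filter.1 hp).2]]
      ring
    rw [e, abs_mul]
    exact (mul_le_of_le_one_right (abs_nonneg _) (hf i)).trans (Cos_w t J i ht hi)
  refine (sum_le_sum h1).trans ?_
  rw [sum_add_distrib, ← mul_sum, Cos_tel]
  have h2 : ∑ i ∈ Icc 1 J, 1 / (i : ℝ) ≤ 2 * t := (HH_le J).trans (by linarith)
  have h3 : 70 / (t : ℝ) * ∑ i ∈ Icc 1 J, 1 / (i : ℝ) ≤ 70 / t * (2 * t) :=
    mul_le_mul_of_nonneg_left h2 (by positivity)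
  have h4 : 70 / (t : ℝ) * (2 * t) = 140 := by field_simp; norm_num
  have h5 : 0 ≤ 1 / ((J : ℝ) + 1) := by positivity
  linarith

/-- Hints. `b = 2 ^ t` and its powers are not prime, so the primes of height `i` (`1 ≤ i ≤ J`) are the primes in
`Ioc (b^i) (b^(i+1))`; by `Lib.ANT.abs_sum_inv_prime_Ioc_sub_le` their reciprocals sum to
`log ((i+1)/i)` up to `48 / (i t log 2)`, and `|log ((i+1)/i) - 1/i| ≤ 1/i^2`. So the total deviation from the
weights `1 / i` is at most `70 (1 + log J) / t + 2 ≤ 142`. Group the sum over `PP` by height and use `cos_harm`,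
`HH_le`, `log_le_HH`. -/
theorem cosb : ∃ C : ℝ, 0 ≤ C ∧ ∀ t J : ℕ, 2 ≤ t → 1 ≤ J → Real.log J ≤ t →
    (∀ θ : ℝ, ‖ee θ - 1‖ * Real.exp (∑ p ∈ PP t J,
      1 / (p : ℝ) * Real.cos (2 * Real.pi * (Nat.log (2 ^ t) p * θ))) ≤ C) ∧
    |lam (PP t J) - Real.log J| ≤ C := by
  obtain ⟨C, hC⟩ := cos_harm
  have hC0 : 0 ≤ C := le_trans (by positivity) (hC 0 0)
  have h0 : 0 ≤ C * Real.exp 141 := by positivity
  refine ⟨C * Real.exp 141 + 142, by positivity, fun t J ht _ hJ => ⟨fun θ => ?_, ?_⟩⟩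
  · have h1 := (abs_le.1 (Cos_dev t J ht hJ (fun i => Real.cos (2 * Real.pi * (i * θ)))
      fun i => Real.abs_cos_le_one _)).2
    have h2 := Real.exp_le_exp.2 (sub_le_iff_le_add'.1 h1)
    rw [Real.exp_add] at h2
    have h3 := mul_le_mul_of_nonneg_left h2 (norm_nonneg (ee θ - 1))
    have h4 := mul_le_mul_of_nonneg_right (hC J θ) (Real.exp_pos 141).le
    rw [mul_assoc] at h4
    linarith
  · have h1 := abs_le.1 (Cos_dev t J ht hJ (fun _ => 1) fun _ => by simp)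
    simp only [mul_one] at h1
    have h2 := HH_le J
    have h3 := log_le_HH J
    unfold HH at h2 h3
    unfold lam
    exact abs_le.2 ⟨by linarith [h1.1], by linarith [h1.2]⟩

end Pool.Agent.Work.MP_6d9ff5_nt
end
end

-- merged part: Pool.Agent.Work.MP_6d9ff5_nt.Par
section
/-!
# Parameters
-/

noncomputable section

open Finset Filter Topology

namespace Pool.Agent.Work.MP_6d9ff5_nt

/-- length of the window -/
def pR (t : ℕ) : ℕ := (2 ^ t) ^ t
/-- bound for the number of prime factors -/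
def ps (t : ℕ) : ℕ := 900 * (Nat.log 2 t + 1)
/-- top of the window -/
def pD (n t : ℕ) : ℕ := n / pR t ^ 5
/-- size of `N` -/
def pY (n t : ℕ) : ℕ := pD n t ^ 2 * pR t ^ 2

lemma exists_par {P : ℕ → Prop} (hP : ∀ᶠ t in atTop, P t) : ∀ᶠ n : ℕ in atTop, ∃ t, P t ∧
    (t : ℝ) ^ 203 ≤ Real.log n ∧ Real.log n ≤ (2 * t) ^ 203 := by
  have h1 : Tendsto (fun n : ℕ => Real.log n) atTop atTop :=
    Real.tendsto_log_atTop.comp tendsto_natCast_atTop_atTop
  have h2 : Tendsto (fun n : ℕ => ⌊Real.log n ^ ((203 : ℕ) : ℝ)⁻¹⌋₊) atTop atTop :=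
    tendsto_nat_floor_atTop.comp ((tendsto_rpow_atTop (by norm_num)).comp h1)
  filter_upwards [h2.eventually hP, h2.eventually_ge_atTop 1] with n a b
  have h0 := Real.log_natCast_nonneg n
  have e := Real.rpow_inv_natCast_pow h0 (n := 203) (by norm_num)
  have h3 : 0 ≤ Real.log n ^ ((203 : ℕ) : ℝ)⁻¹ := by positivity
  refine ⟨_, a, ?_, ?_⟩
  · exact (pow_le_pow_left₀ (by positivity) (Nat.floor_le h3) _).trans e.le
  · refine e.ge.trans (pow_le_pow_left₀ h3 ?_ _)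
    have := Nat.lt_floor_add_one (Real.log n ^ ((203 : ℕ) : ℝ)⁻¹)
    have : (1 : ℝ) ≤ ⌊Real.log n ^ ((203 : ℕ) : ℝ)⁻¹⌋₊ := by exact_mod_cast b
    linarith

lemma ev_pow (k : ℕ) (C : ℝ) : ∀ᶠ t : ℕ in atTop, C * (2 * t : ℝ) ^ k ≤ 2 ^ t := by
  have h := (tendsto_pow_const_div_const_pow_of_one_lt k (r := 2) one_lt_two).const_mul (C * 2 ^ k)
  rw [mul_zero] at h
  filter_upwards [h.eventually_le_const one_pos] with t ht
  rw [← mul_div_assoc, div_le_one (by positivity)] at ht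
  rw [mul_pow]; linarith

lemma ev_log (k : ℕ) (C : ℝ) : ∀ᶠ t : ℕ in atTop, C * Real.log t ^ k ≤ t := by
  have h := ((Real.isLittleO_pow_log_id_atTop (n := k)).const_mul_left C).bound one_pos
  filter_upwards [tendsto_natCast_atTop_atTop.eventually h] with t ht
  simp only [Real.norm_eq_abs, id, Nat.abs_cast, one_mul] at ht
  exact (le_abs_self _).trans ht

lemma ev_le (C : ℝ) : ∀ᶠ t : ℕ in atTop, C ≤ t := tendsto_natCast_atTop_atTop.eventually_ge_atTop C

lemma ev_le_log (C : ℝ) : ∀ᶠ t : ℕ in atTop, C ≤ Real.log t :=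
  (Real.tendsto_log_atTop.comp tendsto_natCast_atTop_atTop).eventually_ge_atTop C

lemma two_pow_le_exp (k : ℕ) : ((2 ^ k : ℕ) : ℝ) ≤ Real.exp k := by
  have : (2 : ℝ) ≤ Real.exp 1 := by have := Real.add_one_le_exp 1; linarith
  rw [← mul_one (k : ℝ), Real.exp_nat_mul]
  push_cast
  exact pow_le_pow_left₀ (by norm_num) this k

lemma pow_pow_le_exp (t k : ℕ) : (((2 ^ t) ^ k : ℕ) : ℝ) ≤ Real.exp (t * k) := by
  rw [← pow_mul]
  exact_mod_cast two_pow_le_exp (t * k)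

lemma exp_le_div {a b : ℕ} {α β : ℝ} (hb : 0 < b) (h1 : Real.exp α ≤ a) (h2 : (b : ℝ) ≤ Real.exp β)
    (h : β ≤ α) : Real.exp (α - β - 1) ≤ (a / b : ℕ) := by
  have h3 : b ≤ a := by exact_mod_cast h2.trans ((Real.exp_le_exp.2 h).trans h1)
  have h4 : 1 ≤ a / b := Nat.div_pos h3 hb
  have h5 : a < b * (a / b + 1) := Nat.lt_mul_div_succ a hb
  have h6 : (a : ℝ) ≤ b * (2 * (a / b : ℕ)) := by
    have : a ≤ b * (2 * (a / b)) := h5.le.trans (Nat.mul_le_mul_left _ (by omega))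
    exact_mod_cast this
  have h7 : (2 : ℝ) ≤ Real.exp 1 := by have := Real.add_one_le_exp 1; linarith
  rw [Real.exp_sub, Real.exp_sub, div_div, div_le_iff₀ (by positivity)]
  calc _ ≤ (b : ℝ) * (2 * (a / b : ℕ)) := h1.trans h6
    _ ≤ Real.exp β * (Real.exp 1 * (a / b : ℕ)) := by gcongr
    _ = _ := by ring

lemma ps_le {t : ℕ} (ht : 1 ≤ Real.log t) : (ps t : ℝ) ≤ 2300 * Real.log t := by
  have h0 : t ≠ 0 := by rintro rfl; simp at ht; linarith
  have h1 : ((2 ^ Nat.log 2 t : ℕ) : ℝ) ≤ t := by exact_mod_cast Nat.pow_log_le_self 2 h0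
  have h2 := Real.log_le_log (by positivity) h1
  rw [Nat.cast_pow, Real.log_pow] at h2
  have h3 := Real.log_two_gt_d9
  have h4 : (0 : ℝ) ≤ Nat.log 2 t := Nat.cast_nonneg _
  unfold ps
  push_cast at h2 ⊢
  nlinarith

lemma two_pow_ps (t : ℕ) (ht : t ≠ 0) :
    (t : ℝ) ^ 900 ≤ 2 ^ ps t ∧ (2 : ℝ) ^ ps t ≤ (2 * t) ^ 900 := by
  have h1 : 2 ^ Nat.log 2 t ≤ t := Nat.pow_log_le_self 2 ht
  have h2 : t < 2 ^ (Nat.log 2 t + 1) := Nat.lt_pow_succ_log_self one_lt_two t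
  unfold ps
  rw [mul_comm 900, pow_mul]
  refine ⟨pow_le_pow_left₀ (by positivity) (by exact_mod_cast h2.le) _,
    pow_le_pow_left₀ (by positivity) ?_ _⟩
  rw [pow_succ']
  exact_mod_cast Nat.mul_le_mul_left 2 h1

lemma Phi_le {X : ℝ} (hX : 16 ≤ X) (v : ℕ) (h1 : 1 ≤ v) (h2 : (v : ℝ) ≤ X) :
    (v : ℝ) / v.totient ≤ Real.exp 76 * Real.log (Real.log X) := by
  have hl2 := Real.log_two_gt_d9
  have h16 : Real.log 16 = 4 * Real.log 2 := by
    rw [show (16 : ℝ) = 2 ^ 4 by norm_num, Real.log_pow]; norm_num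
  by_cases h : 16 ≤ v
  · refine (Lib.ANT.div_totient_le_loglog v h).trans (mul_le_mul_of_nonneg_left ?_ (by positivity))
    have h3 : (16 : ℝ) ≤ v := by exact_mod_cast h
    have := Real.log_le_log (by norm_num) h3
    exact Real.log_le_log (by linarith) (Real.log_le_log (by linarith) h2)
  · have h3 : (1 : ℝ) ≤ v.totient := by exact_mod_cast Nat.totient_pos.2 h1
    have h4 : (v : ℝ) ≤ 16 := by exact_mod_cast (not_le.1 h).le
    have h5 := Real.log_le_log (by norm_num) hX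
    have h6 : Real.log 2 ≤ Real.log (Real.log X) := Real.log_le_log (by norm_num) (by linarith)
    have h7 := Real.add_one_le_exp 76
    calc _ ≤ (v : ℝ) := div_le_self (by positivity) h3
      _ ≤ 77 * (0.69 : ℝ) := by linarith
      _ ≤ _ := by gcongr <;> linarith

/-- the sieve factor -/
lemma Phi_par {t : ℕ} {L : ℝ} (ht : 1 ≤ Real.log t) (h2 : L ≤ (2 * t) ^ 203) (hL : 1 ≤ L) {Y : ℕ}
    (hY : (4 * Y : ℝ) ≤ Real.exp (3 * L)) (u : ℕ) (h1 : 1 ≤ u) (hu : u ≤ 2 * Y) :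
    ((2 * u : ℕ) : ℝ) / (2 * u).totient ≤ Real.exp 76 * (410 * Real.log t) := by
  have h0 : (0 : ℝ) < t := by
    rcases Nat.eq_zero_or_pos t with rfl | h
    · simp at ht; linarith
    · exact_mod_cast h
  have h16 : (16 : ℝ) ≤ Real.exp (3 * L) := by
    have h3 := Real.exp_one_gt_d9
    have h4 : Real.exp 1 ^ 3 ≤ Real.exp (3 * L) := by
      rw [← Real.exp_nat_mul]; exact Real.exp_le_exp.2 (by push_cast; linarith)
    have : (2.7 : ℝ) ^ 3 ≤ Real.exp 1 ^ 3 := pow_le_pow_left₀ (by norm_num) (by linarith) 3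
    nlinarith
  refine (Phi_le h16 (2 * u) (by omega) (le_trans ?_ hY)).trans
    (mul_le_mul_of_nonneg_left ?_ (by positivity))
  · exact_mod_cast (by omega : 2 * u ≤ 4 * Y)
  · rw [Real.log_exp]
    have h3 := Real.log_le_log (by linarith) (mul_le_mul_of_nonneg_left h2 (by norm_num : (0 : ℝ) ≤ 3))
    rw [Real.log_mul (y := (2 * t : ℝ) ^ 203) (by norm_num) (by positivity), Real.log_pow,
      Real.log_mul (x := 2) (by norm_num) h0.ne'] at h3
    have h4 := Real.log_two_lt_d9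
    have h5 := Real.log_le_sub_one_of_pos (by norm_num : (0 : ℝ) < 3)
    push_cast at h3
    linarith

/-- sizes of the parameters -/
lemma par_sizes {n t : ℕ} (ht : 200 ≤ t) (h1 : (t : ℝ) ^ 203 ≤ Real.log n) :
    0 < n ∧ 200 * (t : ℝ) ^ 202 ≤ Real.log n ∧ (pR t : ℝ) ≤ Real.exp (t * t) ∧
    Real.exp (Real.log n - 6 * (t * t)) ≤ pD n t ∧
    Real.exp (2 * Real.log n - 12 * (t * t)) ≤ pY n t ∧ pY n t ≤ n ^ 2 ∧ pD n t * pR t ^ 5 ≤ n := by
  have ht' : (200 : ℝ) ≤ t := by exact_mod_cast ht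
  have a1 : 200 * (t : ℝ) ^ 202 ≤ Real.log n := le_trans (by rw [pow_succ' _ 202]; gcongr) h1
  have a2 : (t : ℝ) * t ≤ t ^ 202 := by
    rw [← sq]; exact pow_le_pow_right₀ (by linarith) (by norm_num)
  have a3 : (1 : ℝ) ≤ t * t := by nlinarith
  have hn : 0 < n := by
    rcases Nat.eq_zero_or_pos n with rfl | h
    · simp only [Nat.cast_zero, Real.log_zero] at a1; linarith
    · exact h
  have hR : (pR t : ℝ) ≤ Real.exp (t * t) := pow_pow_le_exp t t
  have hR0 : 0 < pR t := by unfold pR; positivity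
  have hD : Real.exp (Real.log n - 6 * (t * t)) ≤ pD n t := by
    refine le_trans (Real.exp_le_exp.2 (by linarith)) (exp_le_div (α := Real.log n)
      (β := 5 * (t * t)) (by positivity) (Real.exp_log (by exact_mod_cast hn)).le ?_ (by linarith))
    have := pow_le_pow_left₀ (by positivity) hR 5
    rw [← Real.exp_nat_mul] at this
    push_cast at this ⊢; exact this
  have hDR : pD n t * pR t ^ 5 ≤ n := Nat.div_mul_le_self _ _
  refine ⟨hn, a1, hR, hD, ?_, ?_, hDR⟩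
  · have := pow_le_pow_left₀ (by positivity) hD 2
    rw [← Real.exp_nat_mul] at this
    have h3 : (1 : ℝ) ≤ (pR t : ℝ) ^ 2 := one_le_pow₀ (by exact_mod_cast hR0)
    calc _ = Real.exp ((2 : ℕ) * (Real.log n - 6 * (t * t))) := by push_cast; ring_nf
      _ ≤ (pD n t : ℝ) ^ 2 * 1 := by rwa [mul_one]
      _ ≤ (pD n t : ℝ) ^ 2 * (pR t : ℝ) ^ 2 := by gcongr
      _ = _ := by unfold pY; push_cast; rfl
  · unfold pY
    rw [← mul_pow]
    exact Nat.pow_le_pow_left (le_trans (Nat.mul_le_mul_left _ (Nat.le_self_pow (by norm_num) _)) hDR) 2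

end Pool.Agent.Work.MP_6d9ff5_nt
end
end

-- merged part: Pool.Agent.Work.MP_6d9ff5_nt.TrP
section
/-!
# The transfer error with the chosen parameters
-/

noncomputable section

open Finset Filter Topology

namespace Pool.Agent.Work.MP_6d9ff5_nt

lemma four_mul_le_exp {n Y : ℕ} (hn : 0 < n) (hL : 3 ≤ Real.log n) (hY : Y ≤ 2 * n ^ 2 * n) :
    (4 * Y : ℝ) ≤ Real.exp (4 * Real.log n) ∧ (Y ≤ n ^ 2 → (4 * Y : ℝ) ≤ Real.exp (3 * Real.log n)) := by
  have hn' : (0 : ℝ) < n := by exact_mod_cast hn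
  have h8 : (8 : ℝ) ≤ n := by
    have h1 := Real.exp_one_gt_d9
    have h2 : Real.exp 1 ^ 3 ≤ n := by
      rw [← Real.exp_nat_mul, ← Real.exp_log hn']; exact Real.exp_le_exp.2 (by push_cast; linarith)
    have : (2.7 : ℝ) ^ 3 ≤ Real.exp 1 ^ 3 := pow_le_pow_left₀ (by norm_num) (by linarith) 3
    nlinarith
  constructor
  · have : Real.exp (4 * Real.log n) = n ^ 4 := by
      rw [show (4 : ℝ) = (4 : ℕ) by norm_num, Real.exp_nat_mul, Real.exp_log hn']
    rw [this]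
    have h1 : (Y : ℝ) ≤ 2 * n ^ 2 * n := by exact_mod_cast hY
    have h2 : (0 : ℝ) ≤ n ^ 3 := by positivity
    nlinarith
  · intro h
    have : Real.exp (3 * Real.log n) = n ^ 3 := by
      rw [show (3 : ℝ) = (3 : ℕ) by norm_num, Real.exp_nat_mul, Real.exp_log hn']
    rw [this]
    have h1 : (Y : ℝ) ≤ n ^ 2 := by exact_mod_cast h
    have h2 : (0 : ℝ) ≤ n ^ 2 := by positivity
    nlinarith

lemma bracket_le {t s : ℕ} {C l : ℝ} (ht : 200 ≤ t) (hs : s + 1 ≤ t) (hC : 0 ≤ C)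
    (hl : 200 * Real.log t - C ≤ l) :
    8 * (t : ℝ) ^ 2 * (2 * Real.exp (-l / 100) + C * √((t + s + s * t ^ 200 + 2 : ℕ) : ℝ) *
      Real.exp (-(62 / 100) * l)) ≤ 16 * Real.exp C + 16 * C * Real.exp C := by
  have ht' : (200 : ℝ) ≤ t := by exact_mod_cast ht
  have h0 : (0 : ℝ) < t := by linarith
  have e : ∀ k : ℕ, Real.exp (C - k * Real.log t) = Real.exp C / t ^ k := fun k => by
    rw [Real.exp_sub, Real.exp_nat_mul, Real.exp_log h0]
  have a1 : Real.exp (-l / 100) ≤ Real.exp C / t ^ 2 := by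
    rw [← e]; exact Real.exp_le_exp.2 (by push_cast; linarith)
  have a2 : Real.exp (-(62 / 100) * l) ≤ Real.exp C / t ^ 124 := by
    rw [← e]; exact Real.exp_le_exp.2 (by push_cast; linarith)
  have a3 : √((t + s + s * t ^ 200 + 2 : ℕ) : ℝ) ≤ 2 * t ^ 122 := by
    refine Real.sqrt_le_iff.2 ⟨by positivity, ?_⟩
    have b1 : s * t ^ 200 ≤ t ^ 244 := (Nat.mul_le_mul_right _ (by omega : s ≤ t)).trans (by
      rw [← pow_succ']; exact Nat.pow_le_pow_right (by omega) (by norm_num))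
    have b2 : t ≤ t ^ 244 := Nat.le_self_pow (by norm_num) t
    have : t + s + s * t ^ 200 + 2 ≤ (2 * t ^ 122) ^ 2 := by
      rw [mul_pow, ← pow_mul]; norm_num; omega
    exact_mod_cast this
  calc _ ≤ 8 * (t : ℝ) ^ 2 * (2 * (Real.exp C / t ^ 2) + C * (2 * t ^ 122) *
        (Real.exp C / t ^ 124)) := by gcongr
    _ = _ := by field_simp; ring

theorem tr_par (δ : ℝ) (hδ : 0 < δ) : ∀ᶠ t : ℕ in atTop, ∀ n : ℕ, (t : ℝ) ^ 203 ≤ Real.log n →
    Real.log n ≤ (2 * t) ^ 203 → ∀ (W : ℕ) (I : Finset ℕ), (∀ l ∈ I, l.Prime) →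
      ∑ l ∈ I, max (U2 W (pY n t) (pD n t) (pR t) (ps t) l - U1 W (pY n t) (pD n t) (pR t) (ps t) l) 0
        ≤ δ * t ^ 2 * pY n t := by
  obtain ⟨C, hC, hcos⟩ := cosb
  set c1 : ℝ := 2 * Real.exp 73 * (Real.exp 76 * 410) + 1 with hc1
  set c2 : ℝ := 4601 + (16 * Real.exp C + 16 * C * Real.exp C) with hc2
  filter_upwards [eventually_ge_atTop 200, ev_le_log 1, ev_le_log C, ev_log 1 2301,
    ev_log 3 (300 * 2501 * c1 * (2 * (Real.exp 73 + 1)) * c2 / δ)] with t ht l1 l2 l3 l4 n h1 h2 W I hI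
  obtain ⟨hn, a1, hR, hD, hY, hYn, hDR⟩ := par_sizes ht h1
  set L := Real.log n with hL
  set l := Real.log t with hl
  have ht' : (200 : ℝ) ≤ t := by exact_mod_cast ht
  have hs := ps_le l1
  rw [pow_one] at l3
  have hs1 : ps t + 1 ≤ t := by exact_mod_cast (by linarith : (ps t : ℝ) + 1 ≤ t)
  have hlJ : Real.log (t ^ 200 : ℕ) = 200 * l := by rw [Nat.cast_pow, Real.log_pow]; norm_num [hl]
  obtain ⟨k1, k2⟩ := hcos t (t ^ 200) (by omega) (Nat.one_le_pow _ _ (by omega)) (by linarith)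
  rw [hlJ, abs_le] at k2
  set lm := lam (PP t (t ^ 200)) with hlm
  have hlm0 : 0 ≤ lm := lam_nonneg _
  have p1 : (t : ℝ) * t ≤ t ^ 202 := by
    rw [← sq]; exact pow_le_pow_right₀ (by linarith) (by norm_num)
  have p2 : (t : ℝ) ≤ t * t := by nlinarith
  have p3 : (t : ℝ) ^ 202 = t * t * t ^ 200 := by ring
  have p4 : (1 : ℝ) ≤ t ^ 200 := one_le_pow₀ (by linarith)
  have p5 : (ps t : ℝ) + 1 ≤ t := by linarith
  have p6 : (0 : ℝ) ≤ ps t := Nat.cast_nonneg _
  have p7 : (t : ℝ) * t ^ 200 ≤ t * t * t ^ 200 := by gcongr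
  have p8 : (t : ℝ) * t ≤ t * t ^ 200 :=
    mul_le_mul_of_nonneg_left (le_self_pow₀ (by linarith) (by norm_num)) (by linarith)
  have hz : 2 ≤ Real.exp (L / 100) := by have := Real.add_one_le_exp (L / 100); linarith
  have h4Y := (four_mul_le_exp hn (by linarith) (hYn.trans (by nlinarith))).2 hYn
  have hzp : ∀ k : ℕ, Real.exp (L / 100) ^ k = Real.exp (k * (L / 100)) := fun k =>
    (Real.exp_nat_mul _ _).symm
  have key := tr3 W (pY n t) (pD n t) t t (ps t) (t ^ 200) I hI (Real.exp (L / 100))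
    (Real.exp 76 * (410 * l)) C (by omega) hs1 rfl hz
    ((pow_pow_le_exp _ _).trans (Real.exp_le_exp.2 (by push_cast; nlinarith)))
    (le_trans (Real.exp_le_exp.2 (by linarith)) hY)
    (Phi_par l1 h2 (by linarith) h4Y) ?_ ?_ hC k1
  · refine key.trans ?_
    rw [Real.log_exp]
    have b1 : Real.log (4 * pY n t) ≤ 3 * L := by
      have : (0 : ℝ) < pY n t := (Real.exp_pos _).trans_le hY
      rw [Real.log_le_iff_le_exp (by positivity)]; exact h4Y
    have b2 := bracket_le ht hs1 hC (l := lm) (by linarith)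
    have b3 : 0 ≤ 16 * Real.exp C + 16 * C * Real.exp C := by positivity
    have b4 : 0 < L := by linarith
    rw [div_mul_eq_mul_div, div_le_iff₀ hδ] at l4
    calc _ ≤ 3 * L * (2501 * l) * (c1 * l / (L / 100) * pY n t) * (2 * t * (Real.exp 73 + 1)) *
          (c2 * l) := by
          gcongr
          · linarith
          · rw [hc1]; linarith
          · linarith
          · rw [hc2]; nlinarith
      _ = 300 * 2501 * c1 * (2 * (Real.exp 73 + 1)) * c2 * l ^ 3 * t * pY n t := by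
          field_simp; ring
      _ ≤ t * δ * t * pY n t := by gcongr
      _ = _ := by ring
  · have q1 : (t : ℝ) * (t + ps t + ps t * t ^ 200 + 1) ≤ 3 * t ^ 202 := by
      have : (ps t : ℝ) * t ^ 200 ≤ t * t ^ 200 := by gcongr; linarith
      have : (t : ℝ) + ps t + ps t * t ^ 200 + 1 ≤ 3 * (t * t ^ 200) := by linarith
      nlinarith
    refine le_trans ?_ (exp_le_div (by positivity) hD (pow_pow_le_exp _ _) (by push_cast; linarith))
    rw [hzp, ← Real.exp_add]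
    exact Real.exp_le_exp.2 (by push_cast; linarith)
  · have q1 : (t : ℝ) * ((t ^ 200 + 1) * (ps t + 1)) ≤ 2 * t ^ 202 := by
      have : ((t : ℝ) ^ 200 + 1) * (ps t + 1) ≤ (2 * t ^ 200) * t := by gcongr; linarith
      nlinarith
    have q2 : (((2 ^ t) ^ (t ^ 200 + 1)) ^ (ps t + 1) : ℕ) ≤ Real.exp (2 * t ^ 202) := by
      rw [← pow_mul]
      exact (pow_pow_le_exp _ _).trans (Real.exp_le_exp.2 (by push_cast; linarith))
    have q3 : Real.log (Real.exp (L / 100)) ≤ Real.exp (L / 100) := by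
      rw [Real.log_exp]; have := Real.add_one_le_exp (L / 100); linarith
    have q4 : (1 : ℝ) ≤ (pR t : ℝ) ^ 2 :=
      one_le_pow₀ (by exact_mod_cast Nat.one_le_iff_ne_zero.2 (by unfold pR; positivity))
    have q5 : Real.exp (L / 100) ^ 8 * Real.exp lm * Real.exp (L / 100) * Real.exp (2 * t ^ 202)
        ≤ pD n t := by
      rw [hzp, ← Real.exp_add, ← Real.exp_add, ← Real.exp_add]
      exact le_trans (Real.exp_le_exp.2 (by push_cast; linarith)) hD
    rw [Nat.cast_mul]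
    calc _ ≤ Real.exp (L / 100) ^ 8 * Real.exp lm * Real.exp (L / 100) *
          (pD n t * Real.exp (2 * t ^ 202)) := by gcongr
      _ = Real.exp (L / 100) ^ 8 * Real.exp lm * Real.exp (L / 100) * Real.exp (2 * t ^ 202) *
          pD n t * 1 := by ring
      _ ≤ pD n t * pD n t * (pR t : ℝ) ^ 2 := by gcongr
      _ = _ := by unfold pY; push_cast; ring

end Pool.Agent.Work.MP_6d9ff5_nt
end
end

-- merged part: Pool.Agent.Work.MP_6d9ff5_nt.Round
section
/-!
# Rounding, pruning and the final product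
-/

noncomputable section

open Finset

namespace Pool.Agent.Work.MP_6d9ff5_nt

/-- Hint: induction on `G`; for the new element the `π`-average of the two choices of the quadratic form
grows by `π (1 - π) ∑ f^2 ≤ π ∑ f^2`. -/
theorem round {ι : Type*} (I : Finset ι) (f : ι → ℕ → ℝ) (π : ℕ → ℝ) (G : Finset ℕ)
    (hπ : ∀ N ∈ G, 0 ≤ π N ∧ π N ≤ 1) :
    ∃ Q ⊆ G, ∑ i ∈ I, (∑ N ∈ Q, f i N - ∑ N ∈ G, π N * f i N) ^ 2
      ≤ ∑ i ∈ I, ∑ N ∈ G, π N * f i N ^ 2 := by
  induction G using Finset.induction_on with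
  | empty => exact ⟨∅, Subset.rfl, by simp⟩
  | insert a G ha ih =>
    obtain ⟨Q, hQ, hb⟩ := ih fun N hN => hπ N (mem_insert_of_mem hN)
    have haQ : a ∉ Q := fun h => ha (hQ h)
    obtain ⟨h0, h1⟩ := hπ a (mem_insert_self a G)
    have hF : 0 ≤ ∑ i ∈ I, f i a ^ 2 := sum_nonneg fun _ _ => sq_nonneg _
    have hR : ∑ i ∈ I, ∑ N ∈ insert a G, π N * f i N ^ 2
        = π a * ∑ i ∈ I, f i a ^ 2 + ∑ i ∈ I, ∑ N ∈ G, π N * f i N ^ 2 := by
      rw [mul_sum, ← sum_add_distrib]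
      exact sum_congr rfl fun i _ => by rw [sum_insert ha]
    have hav : π a * ∑ i ∈ I, (∑ N ∈ insert a Q, f i N - ∑ N ∈ insert a G, π N * f i N) ^ 2
        + (1 - π a) * ∑ i ∈ I, (∑ N ∈ Q, f i N - ∑ N ∈ insert a G, π N * f i N) ^ 2
        = ∑ i ∈ I, (∑ N ∈ Q, f i N - ∑ N ∈ G, π N * f i N) ^ 2
          + π a * (1 - π a) * ∑ i ∈ I, f i a ^ 2 := by
      rw [mul_sum, mul_sum, mul_sum, ← sum_add_distrib, ← sum_add_distrib]
      refine sum_congr rfl fun i _ => ?_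
      rw [sum_insert ha, sum_insert haQ]
      ring
    rw [hR]
    have hq : π a * (1 - π a) * ∑ i ∈ I, f i a ^ 2 ≤ π a * ∑ i ∈ I, f i a ^ 2 := by
      have := mul_nonneg (mul_nonneg h0 h0) hF
      nlinarith
    set A := ∑ i ∈ I, (∑ N ∈ insert a Q, f i N - ∑ N ∈ insert a G, π N * f i N) ^ 2 with hA
    set B := ∑ i ∈ I, (∑ N ∈ Q, f i N - ∑ N ∈ insert a G, π N * f i N) ^ 2 with hB
    rcases le_total A B with hAB | hAB
    · refine ⟨insert a Q, insert_subset_insert a hQ, ?_⟩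
      have := mul_nonneg (sub_nonneg.2 h1) (sub_nonneg.2 hAB)
      rw [← hA]
      nlinarith
    · refine ⟨Q, hQ.trans (subset_insert a G), ?_⟩
      have := mul_nonneg h0 (sub_nonneg.2 hAB)
      rw [← hB]
      nlinarith

/-- Hint: induction on `I`, or delete for each `l` a subset of the multiples of `l` of the right size. -/
theorem prune (Q I : Finset ℕ) (cap : ℕ → ℕ) :
    ∃ Q' ⊆ Q, (∀ l ∈ I, (Q'.filter fun N => l ∣ N).card ≤ cap l) ∧
      Q.card ≤ Q'.card + ∑ l ∈ I, ((Q.filter fun N => l ∣ N).card - cap l) := by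
  induction I using Finset.induction_on with
  | empty => exact ⟨Q, Subset.rfl, by simp, by simp⟩
  | insert l I hl ih =>
    obtain ⟨Q', hQ', hc, hb⟩ := ih
    obtain ⟨T, hT, hTc⟩ := exists_subset_card_eq
      (Nat.sub_le (Q'.filter fun N => l ∣ N).card (cap l))
    have hTQ : T ⊆ Q' := hT.trans (filter_subset _ _)
    refine ⟨Q' \ T, sdiff_subset.trans hQ', ?_, ?_⟩
    · intro k hk
      rcases mem_insert.1 hk with rfl | hk
      · have he : (Q' \ T).filter (fun N => k ∣ N) = (Q'.filter fun N => k ∣ N) \ T := by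
          ext N; simp only [mem_filter, mem_sdiff]; tauto
        rw [he, card_sdiff_of_subset hT]
        omega
      · exact (card_le_card (filter_subset_filter _ sdiff_subset)).trans (hc k hk)
    · rw [sum_insert hl, card_sdiff_of_subset hTQ]
      have h1 := card_le_card hTQ
      have h2 : (Q'.filter fun N => l ∣ N).card ≤ (Q.filter fun N => l ∣ N).card :=
        card_le_card (filter_subset_filter _ hQ')
      omega

/-- `round` for weighted indicator features -/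
theorem Round_weighted {ι : Type*} (I : Finset ι) (g : ι → ℕ) (w : ι → ℝ) (hw : ∀ i ∈ I, 0 ≤ w i)
    (π : ℕ → ℝ) (G : Finset ℕ) (hπ : ∀ N ∈ G, 0 ≤ π N ∧ π N ≤ 1) :
    ∃ Q ⊆ G, ∑ i ∈ I, w i * (((Q.filter fun N => g i ∣ N).card : ℝ)
        - ∑ N ∈ G.filter (fun N => g i ∣ N), π N) ^ 2
      ≤ ∑ i ∈ I, w i * ∑ N ∈ G.filter (fun N => g i ∣ N), π N := by
  obtain ⟨Q, hQ, hb⟩ := round I (fun i N => if g i ∣ N then √(w i) else 0) π G hπ
  refine ⟨Q, hQ, ?_⟩
  refine le_of_eq_of_le (sum_congr rfl fun i hi => ?_) (hb.trans_eq (sum_congr rfl fun i hi => ?_))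
  · have h1 : ∑ N ∈ Q, (if g i ∣ N then √(w i) else 0)
        = √(w i) * ((Q.filter fun N => g i ∣ N).card : ℝ) := by
      rw [← sum_filter, sum_const, nsmul_eq_mul, mul_comm]
    have h2 : ∑ N ∈ G, π N * (if g i ∣ N then √(w i) else 0)
        = √(w i) * ∑ N ∈ G.filter (fun N => g i ∣ N), π N := by
      rw [sum_filter, mul_sum]
      refine sum_congr rfl fun N _ => ?_
      split_ifs <;> ring
    rw [h1, h2, ← mul_sub, mul_pow, Real.sq_sqrt (hw i hi)]
  · rw [sum_filter, mul_sum]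
    refine sum_congr rfl fun N _ => ?_
    split_ifs
    · rw [Real.sq_sqrt (hw i hi)]; ring
    · ring

/-- deleting elements spoils few fibres when the fibres are disjoint -/
theorem Round_spoil (G Lt A B : Finset ℕ) (huniq : ∀ N ∈ G, (Lt.filter fun l => l ∣ N).card ≤ 1)
    (hA : A ⊆ G) (hB : B ⊆ A) :
    ∑ l ∈ Lt, ((A.filter fun N => l ∣ N).card - (B.filter fun N => l ∣ N).card) + B.card
      ≤ A.card := by
  have h1 : ∀ l ∈ Lt, (A.filter fun N => l ∣ N).card - (B.filter fun N => l ∣ N).card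
      = ∑ N ∈ A \ B, if l ∣ N then 1 else 0 := by
    intro l _
    rw [← card_sdiff_of_subset (filter_subset_filter _ hB), ← card_filter]
    congr 1
    ext N; simp only [mem_filter, mem_sdiff]; tauto
  rw [sum_congr rfl h1, sum_comm]
  have h2 : ∑ N ∈ A \ B, ∑ l ∈ Lt, (if l ∣ N then 1 else 0) ≤ ∑ N ∈ A \ B, 1 := by
    refine sum_le_sum fun N hN => ?_
    rw [← card_filter]
    exact huniq N (hA (mem_sdiff.1 hN).1)
  have h3 := card_sdiff_add_card_eq_card hB
  rw [← card_eq_sum_ones] at h2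
  omega

/-- Hint: `round` with `f l N = if l ∣ N then 1 else 0`, Cauchy-Schwarz, `prune`. -/
theorem bulk_select (G I : Finset ℕ) (h1 : 1 ∈ I) (π : ℕ → ℝ) (hπ : ∀ N ∈ G, 0 ≤ π N ∧ π N ≤ 1)
    (cap : ℕ → ℕ) (S : ℝ) (hS : ∑ l ∈ I, ∑ N ∈ G.filter (fun N => l ∣ N), π N ≤ S) :
    ∃ Q ⊆ G, (∀ l ∈ I, (Q.filter fun N => l ∣ N).card ≤ cap l) ∧
      ∑ N ∈ G, π N - 2 * √(I.card * S)
        - ∑ l ∈ I, max (∑ N ∈ G.filter (fun N => l ∣ N), π N - cap l) 0 ≤ Q.card := by
  obtain ⟨Q0, hQ0, hb⟩ := Round_weighted I (fun l => l) (fun _ => 1) (fun _ _ => zero_le_one) π G hπ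
  simp only [one_mul] at hb
  obtain ⟨Q, hQ, hc, hcard⟩ := prune Q0 I cap
  refine ⟨Q, hQ.trans hQ0, hc, ?_⟩
  set c : ℕ → ℕ := fun l => (Q0.filter fun N => l ∣ N).card with hcdef
  set μ : ℕ → ℝ := fun l => ∑ N ∈ G.filter (fun N => l ∣ N), π N with hμ
  have hb' : ∑ l ∈ I, |(c l : ℝ) - μ l| ^ 2 ≤ S := by
    simp only [sq_abs]
    exact hb.trans hS
  have hcs : ∑ l ∈ I, |(c l : ℝ) - μ l| ≤ √(I.card * S) := by
    refine Real.le_sqrt_of_sq_le ?_
    exact sq_sum_le_card_mul_sum_sq.trans (mul_le_mul_of_nonneg_left hb' (Nat.cast_nonneg _))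
  have hone : |(c 1 : ℝ) - μ 1| ≤ ∑ l ∈ I, |(c l : ℝ) - μ l| :=
    single_le_sum (f := fun l => |(c l : ℝ) - μ l|) (fun _ _ => abs_nonneg _) h1
  have hc1 : c 1 = Q0.card := by simp [hcdef]
  have hμ1 : μ 1 = ∑ N ∈ G, π N := by simp [hμ]
  have hex : ((∑ l ∈ I, (c l - cap l) : ℕ) : ℝ)
      ≤ ∑ l ∈ I, |(c l : ℝ) - μ l| + ∑ l ∈ I, max (μ l - cap l) 0 := by
    rw [Nat.cast_sum, ← sum_add_distrib]
    refine sum_le_sum fun l _ => ?_
    have h3 := le_abs_self ((c l : ℝ) - μ l)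
    have h4 := abs_nonneg ((c l : ℝ) - μ l)
    have h5 := le_max_left (μ l - cap l) 0
    have h6 := le_max_right (μ l - cap l) 0
    rcases le_total (c l) (cap l) with h | h
    · rw [Nat.sub_eq_zero_of_le h, Nat.cast_zero]; linarith
    · rw [Nat.cast_sub h]; linarith
  have hcard' : (Q0.card : ℝ) ≤ Q.card + ((∑ l ∈ I, (c l - cap l) : ℕ) : ℝ) := by
    exact_mod_cast hcard
  have h7 := neg_abs_le ((c 1 : ℝ) - μ 1)
  rw [hc1, hμ1] at h7 hone
  show ∑ N ∈ G, π N - 2 * √(I.card * S) - ∑ l ∈ I, max (μ l - cap l) 0 ≤ Q.card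
  linarith

/-- Hints. `round` over the index type `Bool × ℕ` (or a sum type) with `f = 1[l ∣ N] / mean l` for `l ∈ Lg`,
`f = 1[l ∣ N] / √(cap l / 2)` for `l ∈ Lo`; the right side is at most `S = card Lg / (2 Λ) + card Lo`.
At most `4 S` elements of `Lg` have fewer than `m l` multiples, the total excess over the caps is at most `S`;
`prune` for `Lo` (each deleted `N` spoils at most one `l ∈ Lt`), then keep `min (count) (m l)` multiples of
each `l ∈ Lt` (the fibres are disjoint by `huniq`). -/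
theorem top_select (G Lt Lg Lo : Finset ℕ) (hLg : Lg ⊆ Lt) (π : ℕ → ℝ)
    (hπ : ∀ N ∈ G, 0 ≤ π N ∧ π N ≤ 1) (m cap : ℕ → ℕ) (Λ : ℝ) (hΛ : 1 ≤ Λ)
    (huniq : ∀ N ∈ G, (Lt.filter fun l => l ∣ N).card ≤ 1)
    (hg : ∀ l ∈ Lg, 1 ≤ m l ∧ 2 * Λ * m l ≤ ∑ N ∈ G.filter (fun N => l ∣ N), π N)
    (ho : ∀ l ∈ Lo, 1 ≤ cap l ∧ 2 * ∑ N ∈ G.filter (fun N => l ∣ N), π N ≤ cap l) :
    ∃ Q ⊆ G, (∀ l ∈ Lo, (Q.filter fun N => l ∣ N).card ≤ cap l) ∧
      (∀ l ∈ Lt, (Q.filter fun N => l ∣ N).card ≤ m l) ∧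
      ((Lg.filter fun l => (Q.filter fun N => l ∣ N).card ≠ m l).card : ℝ)
        ≤ 5 * (Lg.card / (2 * Λ) + Lo.card) := by
  set μ : ℕ → ℝ := fun l => ∑ N ∈ G.filter (fun N => l ∣ N), π N with hμ
  have hΛ0 : 0 < Λ := by linarith
  have hμg : ∀ l ∈ Lg, 2 * Λ ≤ μ l ∧ 2 * (m l : ℝ) ≤ μ l := by
    intro l hl
    obtain ⟨h1, h2⟩ := hg l hl
    have h1' : (1 : ℝ) ≤ m l := by exact_mod_cast h1
    have h2' : 2 * Λ * m l ≤ μ l := h2
    constructor <;> nlinarith
  obtain ⟨Q0, hQ0, hb⟩ := Round_weighted (Lg.disjSum Lo) (Sum.elim id id)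
    (Sum.elim (fun l => 1 / μ l ^ 2) (fun l => 2 / (cap l : ℝ)))
    (by rintro (l | l) _ <;> simp only [Sum.elim_inl, Sum.elim_inr] <;> positivity) π G hπ
  rw [sum_disjSum, sum_disjSum] at hb
  simp only [Sum.elim_inl, Sum.elim_inr, id] at hb
  set c : ℕ → ℕ := fun l => (Q0.filter fun N => l ∣ N).card with hcdef
  have hb' : ∑ l ∈ Lg, 1 / μ l ^ 2 * ((c l : ℝ) - μ l) ^ 2
      + ∑ l ∈ Lo, 2 / (cap l : ℝ) * ((c l : ℝ) - μ l) ^ 2
      ≤ ∑ l ∈ Lg, 1 / μ l ^ 2 * μ l + ∑ l ∈ Lo, 2 / (cap l : ℝ) * μ l := hb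
  have hr1 : ∑ l ∈ Lg, 1 / μ l ^ 2 * μ l ≤ Lg.card / (2 * Λ) := by
    rw [div_eq_mul_one_div (Lg.card : ℝ), ← nsmul_eq_mul, ← sum_const]
    refine sum_le_sum fun l hl => ?_
    have h1 := (hμg l hl).1
    have h2 : 0 < μ l := by linarith
    have h3 : 1 / μ l ^ 2 * μ l = 1 / μ l := by field_simp
    rw [h3]
    exact one_div_le_one_div_of_le (by linarith) h1
  have hr2 : ∑ l ∈ Lo, 2 / (cap l : ℝ) * μ l ≤ Lo.card := by
    rw [← mul_one (Lo.card : ℝ), ← nsmul_eq_mul, ← sum_const]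
    refine sum_le_sum fun l hl => ?_
    obtain ⟨h1, h2⟩ := ho l hl
    have h1' : (0 : ℝ) < cap l := by exact_mod_cast h1
    have h2' : 2 * μ l ≤ cap l := h2
    rw [div_mul_eq_mul_div, div_le_one h1']
    exact h2'
  have hl1 : ((Lg.filter fun l => c l < m l).card : ℝ) / 4
      ≤ ∑ l ∈ Lg, 1 / μ l ^ 2 * ((c l : ℝ) - μ l) ^ 2 := by
    refine le_trans ?_ (sum_le_sum_of_subset_of_nonneg (filter_subset (fun l => c l < m l) Lg)
      fun _ _ _ => by positivity)
    rw [div_eq_mul_one_div, ← nsmul_eq_mul, ← sum_const]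
    refine sum_le_sum fun l hl => ?_
    obtain ⟨hl, hlt⟩ := mem_filter.1 hl
    obtain ⟨h1, h2⟩ := hμg l hl
    have h3 : 0 < μ l := by linarith
    have h4 : (c l : ℝ) < m l := by exact_mod_cast hlt
    have h5 : (0 : ℝ) ≤ c l := Nat.cast_nonneg _
    rw [one_div_mul_eq_div, div_le_div_iff₀ (by norm_num) (by positivity)]
    nlinarith
  have hl2 : ((∑ l ∈ Lo, (c l - cap l) : ℕ) : ℝ)
      ≤ ∑ l ∈ Lo, 2 / (cap l : ℝ) * ((c l : ℝ) - μ l) ^ 2 := by
    rw [Nat.cast_sum]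
    refine sum_le_sum fun l hl => ?_
    obtain ⟨h1, h2⟩ := ho l hl
    have h1' : (0 : ℝ) < cap l := by exact_mod_cast h1
    have h2' : 2 * μ l ≤ cap l := h2
    rcases le_total (c l) (cap l) with h | h
    · rw [Nat.sub_eq_zero_of_le h, Nat.cast_zero]; positivity
    · have h' : (cap l : ℝ) ≤ c l := by exact_mod_cast h
      rw [Nat.cast_sub h, div_mul_eq_mul_div, le_div_iff₀ h1']
      have h3 : (c l : ℝ) - cap l / 2 ≤ c l - μ l := by linarith
      have h4 : ((c l : ℝ) - cap l / 2) ^ 2 ≤ (c l - μ l) ^ 2 :=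
        pow_le_pow_left₀ (by linarith) h3 2
      nlinarith [sq_nonneg ((c l : ℝ) - cap l)]
  have hn1 : 0 ≤ ∑ l ∈ Lg, 1 / μ l ^ 2 * ((c l : ℝ) - μ l) ^ 2 := sum_nonneg fun _ _ => by positivity
  have hn2 : 0 ≤ ∑ l ∈ Lo, 2 / (cap l : ℝ) * ((c l : ℝ) - μ l) ^ 2 :=
    sum_nonneg fun _ _ => by positivity
  obtain ⟨Q1, hQ1, hc1, hcard1⟩ := prune Q0 Lo cap
  obtain ⟨Q2, hQ2, hc2, hcard2⟩ := prune Q1 Lt m
  refine ⟨Q2, (hQ2.trans hQ1).trans hQ0,
    fun l hl => (card_le_card (filter_subset_filter _ hQ2)).trans (hc1 l hl), hc2, ?_⟩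
  have hs1 := Round_spoil G Lt Q0 Q1 huniq hQ0 hQ1
  have hs2 := Round_spoil G Lt Q1 Q2 huniq (hQ1.trans hQ0) hQ2
  have hle : ∀ l ∈ Lt, (Q1.filter fun N => l ∣ N).card - m l
      ≤ (Q1.filter fun N => l ∣ N).card - (Q2.filter fun N => l ∣ N).card :=
    fun l hl => Nat.sub_le_sub_left (hc2 l hl) _
  have heq := (sum_eq_sum_iff_of_le hle).1 (le_antisymm (sum_le_sum hle) (by omega))
  have hsub : (Lg.filter fun l => (Q2.filter fun N => l ∣ N).card ≠ m l) ⊆
      (Lg.filter fun l => c l < m l) ∪ Lt.filter fun l => (Q1.filter fun N => l ∣ N).card < c l := by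
    intro l hl
    obtain ⟨hl, hne⟩ := mem_filter.1 hl
    have h1 := heq l (hLg hl)
    have h2 := hc2 l (hLg hl)
    have h3 : (Q2.filter fun N => l ∣ N).card ≤ (Q1.filter fun N => l ∣ N).card :=
      card_le_card (filter_subset_filter _ hQ2)
    rw [mem_union, mem_filter, mem_filter]
    by_cases h4 : c l < m l
    · exact Or.inl ⟨hl, h4⟩
    · exact Or.inr ⟨hLg hl, by omega⟩
  have hsp : (Lt.filter fun l => (Q1.filter fun N => l ∣ N).card < c l).card
      ≤ ∑ l ∈ Lt, (c l - (Q1.filter fun N => l ∣ N).card) := by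
    rw [card_filter]
    refine sum_le_sum fun l _ => ?_
    split_ifs <;> omega
  have hs1' : ∑ l ∈ Lt, (c l - (Q1.filter fun N => l ∣ N).card) + Q1.card ≤ Q0.card := hs1
  have hcard1' : Q0.card ≤ Q1.card + ∑ l ∈ Lo, (c l - cap l) := hcard1
  have hfin : (Lg.filter fun l => (Q2.filter fun N => l ∣ N).card ≠ m l).card
      ≤ (Lg.filter fun l => c l < m l).card + ∑ l ∈ Lo, (c l - cap l) := by
    have := (card_le_card hsub).trans (card_union_le _ _)
    omega
  have hfin' : ((Lg.filter fun l => (Q2.filter fun N => l ∣ N).card ≠ m l).card : ℝ)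
      ≤ (Lg.filter fun l => c l < m l).card + ((∑ l ∈ Lo, (c l - cap l) : ℕ) : ℝ) := by
    exact_mod_cast hfin
  linarith

/-- the product of distinct primes `2 N - 1` -/
theorem Round_sigma (Q : Finset ℕ) (hQ : ∀ N ∈ Q, (2 * N - 1).Prime) :
    Squarefree (∏ N ∈ Q, (2 * N - 1)) ∧
      ArithmeticFunction.sigma 1 (∏ N ∈ Q, (2 * N - 1)) = ∏ N ∈ Q, 2 * N := by
  induction Q using Finset.induction_on with
  | empty => simp
  | insert a Q ha ih =>
    obtain ⟨h1, h2⟩ := ih fun N hN => hQ N (mem_insert_of_mem hN)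
    have hp := hQ a (mem_insert_self a Q)
    have hcop : Nat.Coprime (2 * a - 1) (∏ N ∈ Q, (2 * N - 1)) := by
      refine Nat.Coprime.prod_right fun N hN => ?_
      have hq := hQ N (mem_insert_of_mem hN)
      refine (Nat.coprime_primes hp hq).2 fun h => ha ?_
      have := hp.two_le
      have := hq.two_le
      have : a = N := by omega
      exact this ▸ hN
    rw [prod_insert ha, prod_insert ha]
    refine ⟨(Nat.squarefree_mul hcop).2 ⟨hp.prime.squarefree, h1⟩, ?_⟩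
    rw [ArithmeticFunction.isMultiplicative_sigma.map_mul_of_coprime hcop, h2]
    congr 1
    have h3 := ArithmeticFunction.sigma_one_apply_prime_pow (i := 1) hp
    rw [pow_one] at h3
    rw [h3]
    have := hp.two_le
    simp only [sum_range_succ, range_zero, sum_empty, pow_zero, pow_one]
    omega

theorem Round_fact (n l : ℕ) (hl : l.Prime) : n / l ≤ n.factorial.factorization l := by
  rw [Nat.factorization_factorial hl (b := Nat.log l n + 2) (by omega)]
  have := single_le_sum (f := fun i => n / l ^ i) (s := Ico 1 (Nat.log l n + 2))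
    (fun _ _ => Nat.zero_le _) (a := 1) (mem_Ico.2 ⟨le_rfl, by omega⟩)
  simpa using this

theorem Round_fact_eq (n l : ℕ) (hl : l.Prime) (h : n < l * l) :
    n.factorial.factorization l = n / l := by
  have hlog : Nat.log l n < 2 := by
    rcases Nat.eq_zero_or_pos n with rfl | hn
    · simp
    · exact Nat.log_lt_of_lt_pow hn.ne' (by rwa [pow_two])
  rw [Nat.factorization_factorial hl hlog]
  simp

theorem Round_val (Q : Finset ℕ) (hQ : ∀ N ∈ Q, Odd N ∧ Squarefree N) (l : ℕ) (hl : l.Prime) :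
    (∏ N ∈ Q, 2 * N).factorization l
      = if l = 2 then Q.card else (Q.filter fun N => l ∣ N).card := by
  have h0 : ∀ N ∈ Q, N ≠ 0 := fun N hN => (hQ N hN).2.ne_zero
  rw [Nat.factorization_prod_apply fun N hN => mul_ne_zero two_ne_zero (h0 N hN)]
  have h1 : ∀ N ∈ Q, (2 * N).factorization l
      = (if l = 2 then 1 else 0) + if l ∣ N then 1 else 0 := by
    intro N hN
    rw [Nat.factorization_mul two_ne_zero (h0 N hN), Finsupp.add_apply,
      Nat.prime_two.factorization, Finsupp.single_apply]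
    congr 1
    · simp only [eq_comm]
    · split_ifs with h
      · have h2 := (hQ N hN).2.natFactorization_le_one l
        have h3 := hl.factorization_pos_of_dvd (h0 N hN) h
        omega
      · exact Nat.factorization_eq_zero_of_not_dvd h
  rw [sum_congr rfl h1]
  split_ifs with h
  · rw [card_eq_sum_ones]
    refine sum_congr rfl fun N hN => ?_
    have : ¬ l ∣ N := by
      rw [h]
      exact (hQ N hN).1.not_two_dvd_nat
    simp [this]
  · rw [card_filter]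
    simp

/-- Hints. `y = ∏ N ∈ Q, (2N - 1)` (distinct primes, `ArithmeticFunction.isMultiplicative_sigma`,
`sigma_one_apply_prime` or `sigma_apply_prime_pow`), `σ y = ∏ 2N`; the factorization of `∏ 2N` at `2` is `card Q`, at an
odd prime `l` the number of multiples of `l` in `Q`; `n / l ≤ (n !).factorization l` (Legendre, or
`l ^ (n / l) ∣ n !`). Take `D = n ! / σ y`; `Nat.factorization_prime_le_iff_dvd`. -/
theorem assemble (n : ℕ) (Q : Finset ℕ)
    (hQ : ∀ N ∈ Q, Odd N ∧ Squarefree N ∧ (2 * N - 1).Prime) (h2 : Q.card ≤ n / 2)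
    (hl : ∀ l : ℕ, l.Prime → (Q.filter fun N => l ∣ N).card ≤ n / l) :
    ∃ y D : ℕ, Squarefree y ∧ ArithmeticFunction.sigma 1 y = ∏ N ∈ Q, 2 * N ∧
      ArithmeticFunction.sigma 1 y * D = n.factorial ∧
      ∀ l : ℕ, l.Prime → n < l * l → (Q.filter fun N => l ∣ N).card = n / l → 2 < l → ¬ l ∣ D := by
  obtain ⟨h1, h3⟩ := Round_sigma Q fun N hN => (hQ N hN).2.2
  have hv := Round_val Q fun N hN => ⟨(hQ N hN).1, (hQ N hN).2.1⟩
  have hP : ∏ N ∈ Q, 2 * N ≠ 0 :=
    prod_ne_zero_iff.2 fun N hN => mul_ne_zero two_ne_zero (hQ N hN).2.1.ne_zero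
  have hdvd : ∏ N ∈ Q, 2 * N ∣ n.factorial := by
    refine (Nat.factorization_prime_le_iff_dvd hP n.factorial_ne_zero).1 fun l hp => ?_
    refine le_trans ?_ (Round_fact n l hp)
    rw [hv l hp]
    split_ifs with h
    · rw [h]; exact h2
    · exact hl l hp
  obtain ⟨D, hD⟩ := hdvd
  have hD0 : D ≠ 0 := fun h => n.factorial_ne_zero (by rw [hD, h, mul_zero])
  refine ⟨∏ N ∈ Q, (2 * N - 1), D, h1, h3, by rw [h3, hD], fun l hp hn hc h2l hd => ?_⟩
  have h4 := Round_fact_eq n l hp hn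
  rw [hD, Nat.factorization_mul hP hD0, Finsupp.add_apply, hv l hp, if_neg (by omega), hc] at h4
  have := hp.factorization_pos_of_dvd hD0 hd
  omega

end Pool.Agent.Work.MP_6d9ff5_nt
end
end

-- merged part: Pool.Agent.Work.MP_6d9ff5_nt.Bulk
section
/-!
# The bulk selection, finite form
-/

noncomputable section

open Finset

namespace Pool.Agent.Work.MP_6d9ff5_nt

lemma gg_le {W D R N s : ℕ} (hN : Squarefree N) (hs : N.primeFactors.card ≤ s) :
    gg W D R N ≤ 2 ^ s := by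
  calc gg W D R N ≤ N.divisors.card :=
        card_le_card fun d hd => Nat.mem_divisors.2 ⟨(mem_filter.1 hd).2, hN.ne_zero⟩
    _ ≤ 2 ^ N.primeFactors.card := by
        rw [Nat.card_divisors hN.ne_zero]
        exact prod_le_pow_card _ _ _ fun p _ => by
          have := hN.natFactorization_le_one p; omega
    _ ≤ _ := Nat.pow_le_pow_right (by norm_num) hs

lemma c1_add_c2 (W D R N l : ℕ) : c1 W D R N l + c2 W D R N l = gg W D R N := by
  unfold c1 c2 gg
  rw [← filter_filter, ← filter_filter, card_filter_add_card_filter_not]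

lemma prime_small {W D R N n l : ℕ} (hN : N ≤ 2 * (D ^ 2 * R ^ 2)) (hN0 : 0 < N) (hR : 2 ≤ R)
    (hDR : D * R ^ 5 ≤ n) (hg : 0 < gg W D R N) (hl : l.Prime) (hlN : l ∣ N) : l * R ≤ n := by
  obtain ⟨d, hd⟩ := card_pos.1 hg
  obtain ⟨hd1, m, rfl⟩ := mem_filter.1 hd
  obtain ⟨hd2, hd3, -⟩ := mem_filter.1 hd1
  obtain ⟨hd4, hd5⟩ := mem_Icc.1 hd2
  have hm : 0 < m := Nat.pos_of_mul_pos_left hN0
  have h1 : l ≤ D * R ^ 4 := by
    rcases (Nat.Prime.dvd_mul hl).1 hlN with h | h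
    · exact (Nat.le_of_dvd hd4 h).trans (hd5.trans (Nat.le_mul_of_pos_right _ (by positivity)))
    · refine (Nat.le_of_dvd hm h).trans (Nat.le_of_mul_le_mul_left (c := D) ?_ (by omega))
      calc D * m ≤ d * R * m := Nat.mul_le_mul_right _ hd3.le
        _ = d * m * R := by ring
        _ ≤ R * (D ^ 2 * R ^ 2) * R :=
            Nat.mul_le_mul_right _ (hN.trans (Nat.mul_le_mul_right _ hR))
        _ = _ := by ring
  calc l * R ≤ D * R ^ 4 * R := Nat.mul_le_mul_right _ h1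
    _ = D * R ^ 5 := by ring
    _ ≤ n := hDR

theorem bulk_fin (K Y D R s n : ℕ) (M η : ℝ) (hη0 : 0 < η) (hη1 : η ≤ 1 / 10) (hK : 1 ≤ η * K)
    (hY : Y = D ^ 2 * R ^ 2) (hR2 : 2 ≤ R) (hDR : D * R ^ 5 ≤ n) (hRn : R ≤ n) (hηR : 1 ≤ η * R)
    (hMZ : 0 < M * ZZ (primorial K) D R)
    (hup : ∑ N ∈ NN (primorial K) Y, th (2 * N - 1) * gg (primorial K) D R N
      ≤ (1 + η) * (M * ZZ (primorial K) D R))
    (hlo : (1 - η) * (M * ZZ (primorial K) D R)
      ≤ ∑ N ∈ GG (primorial K) Y s, th (2 * N - 1) * gg (primorial K) D R N)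
    (hU : ∀ I : Finset ℕ, (∀ l ∈ I, l.Prime) →
      ∑ l ∈ I, max (U2 (primorial K) Y D R s l - U1 (primorial K) Y D R s l) 0 +
      2 * ∑ l ∈ I, max (U1 (primorial K) Y D R s l
        - (1 + η) * M * ZZ (primorial K) D R / (l - 1)) 0 ≤ η / 4 * (M * ZZ (primorial K) D R))
    (hκ : n * (Real.log (4 * Y) * 2 ^ s) ≤ M * ZZ (primorial K) D R)
    (hS : 2 * √(((n / R + 1 : ℕ) : ℝ) * ((s + 1) * n)) ≤ η * n / 8) :
    ∃ Q : Finset ℕ, (∀ N ∈ Q, N ∈ GG (primorial K) Y s ∧ (2 * N - 1).Prime ∧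
        ∀ l : ℕ, l.Prime → l ∣ N → l * R ≤ n) ∧ (Q.card : ℝ) ≤ (1 - η) * n / 2 ∧
      (∀ l : ℕ, l.Prime → ((Q.filter fun N => l ∣ N).card : ℝ) ≤ (1 - η) * n / l) ∧
      (1 - 6 * η) * n / 2 ≤ Q.card := by
  set W := primorial K with hW
  set X := M * ZZ W D R with hX
  have hn : (0 : ℝ) ≤ n := Nat.cast_nonneg n
  have hRn' : (R : ℝ) ≤ n := by exact_mod_cast hRn
  have hηn : 1 ≤ η * n := hηR.trans (by gcongr)
  set κ : ℝ := (1 - 4 * η) * (n / 2) / X with hκdef
  have hκ0 : 0 ≤ κ := div_nonneg (mul_nonneg (by linarith) (by positivity)) hMZ.le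
  have hκX : κ * X = (1 - 4 * η) * (n / 2) := div_mul_cancel₀ _ hMZ.ne'
  set G := (GG W Y s).filter fun N => (2 * N - 1).Prime ∧ 0 < gg W D R N with hG
  set π : ℕ → ℝ := fun N => κ * (th (2 * N - 1) * gg W D R N) with hπ
  have hπ0 : ∀ N, 0 ≤ π N := fun N => mul_nonneg hκ0 (mul_nonneg (th_nonneg _) (Nat.cast_nonneg _))
  set I := (Icc 1 (n / R)).filter Nat.Prime with hI
  have hI1 : 1 ∉ I := fun h => Nat.not_prime_one (mem_filter.1 h).2
  set cap : ℕ → ℕ := fun l => if l = 1 then ⌊(1 - η) * n / 2⌋₊ else ⌊(1 - η) * n / l⌋₊ with hcap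
  have hmean : ∀ l, ∑ N ∈ G.filter (fun N => l ∣ N), π N = κ * (U1 W Y D R s l + U2 W Y D R s l) := by
    intro l
    rw [U1, U2, ← sum_add_distrib, mul_sum, hG, filter_comm]
    rw [sum_filter_of_ne]
    · refine sum_congr rfl fun N _ => ?_
      rw [← mul_add, ← Nat.cast_add, c1_add_c2]
    · intro N _ h
      refine ⟨by_contra fun h1 => h ?_, Nat.pos_of_ne_zero fun h1 => h ?_⟩
      · simp [hπ, th, h1]
      · simp [hπ, h1]
  have htot : ∑ N ∈ G, π N = κ * ∑ N ∈ GG W Y s, th (2 * N - 1) * gg W D R N := by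
    rw [mul_sum, hG, sum_filter_of_ne]
    intro N _ h
    refine ⟨by_contra fun h1 => h ?_, Nat.pos_of_ne_zero fun h1 => h ?_⟩
    · simp [hπ, th, h1]
    · simp [hπ, h1]
  have htot1 : ∑ N ∈ G, π N ≤ (1 - 3 * η) * (n / 2) := by
    rw [htot]
    calc _ ≤ κ * ((1 + η) * X) := mul_le_mul_of_nonneg_left (le_trans
          (sum_le_sum_of_subset_of_nonneg (filter_subset _ _) fun _ _ _ =>
            mul_nonneg (th_nonneg _) (Nat.cast_nonneg _)) hup) hκ0
      _ = (1 + η) * ((1 - 4 * η) * (n / 2)) := by rw [← hκX]; ring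
      _ ≤ _ := by nlinarith [mul_nonneg (mul_nonneg hη0.le hη0.le) hn]
  have htot2 : (1 - 5 * η) * (n / 2) ≤ ∑ N ∈ G, π N := by
    rw [htot]
    calc _ ≤ (1 - η) * ((1 - 4 * η) * (n / 2)) := by
          nlinarith [mul_nonneg (mul_nonneg hη0.le hη0.le) hn]
      _ = κ * ((1 - η) * X) := by rw [← hκX]; ring
      _ ≤ _ := mul_le_mul_of_nonneg_left hlo hκ0
  have hGm : ∀ N ∈ G, N ∈ GG W Y s ∧ (2 * N - 1).Prime ∧ ∀ l : ℕ, l.Prime → l ∣ N → l * R ≤ n := by
    intro N hN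
    obtain ⟨a1, a2, a3⟩ := mem_filter.1 hN
    have a4 := mem_Ioc.1 (mem_filter.1 (mem_filter.1 a1).1).1
    exact ⟨a1, a2, fun l b1 b2 => prime_small (hY ▸ a4.2) (by omega) hR2 hDR a3 b1 b2⟩
  obtain ⟨Q, hQG, hQ1, hQ2⟩ := bulk_select G (insert 1 I) (mem_insert_self _ _) π
    (fun N hN => ⟨hπ0 N, by
      have a1 := mem_filter.1 (hGm N hN).1
      have a2 : (gg W D R N : ℝ) ≤ 2 ^ s := by exact_mod_cast gg_le a1.2.1 a1.2.2
      have a3 := th_le a1.1
      have a4 := (th_nonneg _).trans a3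
      have a5 : κ ≤ n / X := div_le_div_of_nonneg_right (by nlinarith) hMZ.le
      calc π N ≤ n / X * (Real.log (4 * Y) * 2 ^ s) := by
            simp only [hπ]; gcongr; exact mul_nonneg (th_nonneg _) (Nat.cast_nonneg _)
        _ ≤ 1 := by rw [div_mul_eq_mul_div, div_le_one hMZ]; exact hκ⟩) cap ((s + 1) * n) (by
      simp_rw [sum_filter]
      rw [sum_comm]
      calc _ ≤ ∑ N ∈ G, (s + 1) * π N := by
            refine sum_le_sum fun N hN => ?_
            rw [← sum_filter, sum_const, nsmul_eq_mul]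
            refine mul_le_mul_of_nonneg_right ?_ (hπ0 N)
            have a1 := (mem_filter.1 (hGm N hN).1).2
            have : ((insert 1 I).filter fun l => l ∣ N) ⊆ insert 1 N.primeFactors := fun l hl => by
              obtain ⟨b1, b2⟩ := mem_filter.1 hl
              rcases mem_insert.1 b1 with rfl | b1
              · exact mem_insert_self _ _
              · exact mem_insert_of_mem
                  (Nat.mem_primeFactors.2 ⟨(mem_filter.1 b1).2, b2, a1.1.ne_zero⟩)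
            exact_mod_cast (card_le_card this).trans
              ((card_insert_le _ _).trans (Nat.succ_le_succ a1.2))
        _ ≤ _ := by
            rw [← mul_sum]
            exact mul_le_mul_of_nonneg_left (by nlinarith) (by positivity))
  refine ⟨Q, fun N hN => hGm N (hQG hN), ?_, fun l hl => ?_, ?_⟩
  · have := hQ1 1 (mem_insert_self _ _)
    simp only [one_dvd, filter_true, hcap, if_true] at this
    exact (Nat.cast_le.2 this).trans (Nat.floor_le (by nlinarith))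
  · have h0 : 0 ≤ (1 - η) * n / l := div_nonneg (by nlinarith) (Nat.cast_nonneg _)
    by_cases h : l ∈ I
    · have := hQ1 l (mem_insert_of_mem h)
      simp only [hcap, if_neg hl.ne_one] at this
      exact (Nat.cast_le.2 this).trans (Nat.floor_le h0)
    · rw [filter_eq_empty_iff.2 fun N hN hlN => h (mem_filter.2 ⟨mem_Icc.2 ⟨hl.pos,
        (Nat.le_div_iff_mul_le (by omega)).2 ((hGm N (hQG hN)).2.2 l hl hlN)⟩, hl⟩)]
      simpa using h0
  · refine le_trans ?_ hQ2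
    have b1 : √(((insert 1 I).card : ℝ) * ((s + 1) * n)) ≤ √(((n / R + 1 : ℕ) : ℝ) * ((s + 1) * n)) := by
      gcongr
      refine (card_insert_le _ _).trans (Nat.succ_le_succ ((card_filter_le _ _).trans (by simp)))
    have b2 : max (∑ N ∈ G.filter (fun N => 1 ∣ N), π N - cap 1) 0 = 0 := by
      refine max_eq_right ?_
      simp only [one_dvd, filter_true, hcap, if_true]
      have := Nat.lt_floor_add_one ((1 - η) * n / 2)
      linarith
    have b3 : ∀ l ∈ I, max (∑ N ∈ G.filter (fun N => l ∣ N), π N - cap l) 0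
        ≤ κ * (max (U2 W Y D R s l - U1 W Y D R s l) 0 +
          2 * max (U1 W Y D R s l - (1 + η) * M * ZZ W D R / (l - 1)) 0) := by
      intro l hl
      obtain ⟨c1, c2⟩ := mem_filter.1 hl
      have c0 : 0 ≤ κ * (max (U2 W Y D R s l - U1 W Y D R s l) 0 +
          2 * max (U1 W Y D R s l - (1 + η) * M * ZZ W D R / (l - 1)) 0) := by positivity
      refine max_le ?_ c0
      by_cases hlK : l ≤ K
      · rw [filter_eq_empty_iff.2 fun N hN hlN => ?_, sum_empty]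
        · have : (0 : ℝ) ≤ cap l := Nat.cast_nonneg _
          linarith
        · have a1 := (mem_filter.1 (mem_filter.1 (hGm N hN).1).1).2
          have a2 : l ∣ W := dvd_prod_of_mem _ (mem_filter.2 ⟨mem_range.2 (by omega), c2⟩)
          exact c2.ne_one (Nat.eq_one_of_dvd_coprimes a1 hlN a2)
      · rw [hmean]
        have d1 : (K : ℝ) + 1 ≤ l := by exact_mod_cast not_le.1 hlK
        have d0 : (0 : ℝ) < K := by
          by_contra h
          have : η * K ≤ 0 := mul_nonpos_of_nonneg_of_nonpos hη0.le (not_lt.1 h)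
          linarith
        have d2 : (0 : ℝ) < l - 1 := by linarith
        have d3 : (0 : ℝ) < l := by linarith
        have d4 : (l : ℝ) * R ≤ n := by
          exact_mod_cast (Nat.le_div_iff_mul_le (by omega)).1 (mem_Icc.1 c1).2
        have d5 : 1 ≤ η * (n / l) := hηR.trans (mul_le_mul_of_nonneg_left
          ((le_div_iff₀ d3).2 (by linarith)) hη0.le)
        have d6 : n / ((l : ℝ) - 1) ≤ (1 + η) * (n / l) := by
          rw [← mul_div_assoc, div_le_div_iff₀ d2 d3]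
          have : 1 ≤ η * (l - 1) := hK.trans (mul_le_mul_of_nonneg_left (by linarith) hη0.le)
          nlinarith
        have d7 : κ * (2 * ((1 + η) * M * ZZ W D R / (l - 1))) ≤ cap l := by
          have e1 := Nat.lt_floor_add_one ((1 - η) * n / l)
          have e2 : 0 ≤ (n : ℝ) / l := by positivity
          have e3 : (1 - 4 * η) * (1 + η) * (1 + η) ≤ 1 - 2 * η := by nlinarith [sq_nonneg η, pow_pos hη0 3]
          simp only [hcap, if_neg c2.ne_one]
          calc _ = κ * X * (2 * (1 + η) / (l - 1)) := by rw [hX]; ring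
            _ = (1 - 4 * η) * (1 + η) * (n / (l - 1)) := by rw [hκX]; ring
            _ ≤ (1 - 4 * η) * (1 + η) * ((1 + η) * (n / l)) :=
                mul_le_mul_of_nonneg_left d6 (mul_nonneg (by linarith) (by linarith))
            _ ≤ (1 - 2 * η) * (n / l) := by rw [← mul_assoc]; gcongr
            _ ≤ _ := by rw [mul_div_assoc] at e1; rw [mul_div_assoc]; linarith
        have d8 : U1 W Y D R s l + U2 W Y D R s l ≤ max (U2 W Y D R s l - U1 W Y D R s l) 0 +
            2 * max (U1 W Y D R s l - (1 + η) * M * ZZ W D R / (l - 1)) 0 +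
            2 * ((1 + η) * M * ZZ W D R / (l - 1)) := by
          have := le_max_left (U2 W Y D R s l - U1 W Y D R s l) 0
          have := le_max_left (U1 W Y D R s l - (1 + η) * M * ZZ W D R / (l - 1)) 0
          linarith
        have := mul_le_mul_of_nonneg_left d8 hκ0
        linarith
    have b4 := sum_le_sum b3
    rw [← mul_sum, sum_add_distrib, ← mul_sum] at b4
    have b5 := mul_le_mul_of_nonneg_left (hU I fun l hl => (mem_filter.1 hl).2) hκ0
    have b6 : κ * (η / 4 * X) ≤ η * n / 8 := by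
      have : κ * (η / 4 * X) = η / 4 * ((1 - 4 * η) * (n / 2)) := by rw [← hκX]; ring
      rw [this]; nlinarith [mul_nonneg (mul_nonneg hη0.le hη0.le) hn]
    rw [sum_insert hI1, b2]
    linarith

end Pool.Agent.Work.MP_6d9ff5_nt
end
end

-- merged part: Pool.Agent.Work.MP_6d9ff5_nt.TopP1
section
/-!
# The large primes, finite form
-/

noncomputable section

open Finset

namespace Pool.Agent.Work.MP_6d9ff5_nt

/-- the large primes -/
def LT (n T : ℕ) : Finset ℕ := (Icc 1 n).filter fun l => l.Prime ∧ n < l * T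

lemma mem_LT {n T l : ℕ} : l ∈ LT n T ↔ l.Prime ∧ n < l * T ∧ l ≤ n := by
  unfold LT
  rw [mem_filter, mem_Icc]
  exact ⟨fun h => ⟨h.2.1, h.2.2, h.1.2⟩, fun h => ⟨⟨h.1.pos, h.2.2⟩, h.1, h.2.1⟩⟩

lemma mem_CC {W Y n R l N : ℕ} : N ∈ CC W Y n R l ↔ N ∈ NN W Y ∧ l ∣ N ∧ Squarefree N ∧
    (2 * N - 1).Prime ∧ ∀ p : ℕ, p.Prime → p ∣ N → p ≠ l → p * R ≤ n := by
  classical
  unfold CC
  rw [mem_filter]

lemma half_le_floor {x : ℝ} (hx : 1 ≤ x) : 1 ≤ ⌊x⌋₊ ∧ x / 2 ≤ ⌊x⌋₊ := by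
  have h1 : 1 ≤ ⌊x⌋₊ := Nat.le_floor (by exact_mod_cast hx)
  have h2 : (1 : ℝ) ≤ ⌊x⌋₊ := by exact_mod_cast h1
  have h3 := Nat.lt_floor_add_one x
  exact ⟨h1, by linarith⟩

lemma card_primes_le (n : ℕ) : ((Icc 1 n).filter Nat.Prime).card = Nat.primeCounting n := by
  rw [Nat.primeCounting, Nat.primeCounting', Nat.count_eq_card_filter_range]
  congr 1
  ext p
  simp only [mem_filter, mem_Icc, mem_range]
  exact ⟨fun h => ⟨by omega, h.2⟩, fun h => ⟨⟨h.2.pos, by omega⟩, h.2⟩⟩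

open Classical in
theorem top_fin (W Y n R T : ℕ) (M η Λ : ℝ) (hW : 2 ∣ W) (hη0 : 0 < η) (hη1 : η ≤ 1) (hΛ : 1 ≤ Λ)
    (hM : 0 < M) (hY : n ^ 2 ≤ Y) (hTR : T ≤ R) (hR : 0 < R) (hηR : 2 ≤ η * R) (hRn : R ≤ n)
    (hπ : 4 * Λ * n * Real.log (4 * Y) ≤ M)
    (huse : ∀ k : ℕ, (k = 1 ∨ k.Prime) → k * R ≤ n →
      4 * Λ * n / M * ∑ N ∈ (NN W Y).filter
        (fun N => k ∣ N ∧ ∃ l : ℕ, l.Prime ∧ l ∣ N ∧ n < l * T ∧ l ≤ n), th (2 * N - 1)
          ≤ η * n / (8 * k)) :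
    ∃ Q : Finset ℕ, (∀ N ∈ Q, Odd N ∧ Squarefree N ∧ (2 * N - 1).Prime ∧ n ^ 2 < N) ∧
      (Q.card : ℝ) ≤ η * n / 2 ∧
      (∀ l : ℕ, l.Prime → (Q.filter fun N => l ∣ N).card ≤ n / l) ∧
      (∀ l : ℕ, l.Prime → l * T ≤ n → ((Q.filter fun N => l ∣ N).card : ℝ) ≤ η * n / l) ∧
      (((LT n T).filter fun l => (Q.filter fun N => l ∣ N).card ≠ n / l).card : ℝ)
        ≤ ((LT n T).filter fun l => wt W Y n R l < M / (2 * l)).card
          + 5 * (Nat.primeCounting n / (2 * Λ) + (n / R + 1 : ℕ)) := by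
  have hn : (0 : ℝ) ≤ n := Nat.cast_nonneg n
  have hRn' : (R : ℝ) ≤ n := by exact_mod_cast hRn
  have hηn : 2 ≤ η * n := hηR.trans (by gcongr)
  set Lt := LT n T with hLt
  set Lg := Lt.filter fun l => ¬ wt W Y n R l < M / (2 * l) with hLg
  set G := Lt.biUnion (CC W Y n R) with hG
  set κ : ℝ := 4 * Λ * n / M with hκ
  have hκ0 : 0 ≤ κ := by positivity
  set π : ℕ → ℝ := fun N => κ * th (2 * N - 1) with hπdef
  have hπ0 : ∀ N, 0 ≤ π N := fun N => mul_nonneg hκ0 (th_nonneg _)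
  set I := (Icc 1 (n / R)).filter Nat.Prime with hI
  have hImem : ∀ l, l ∈ I ↔ l.Prime ∧ l * R ≤ n := fun l => by
    rw [hI, mem_filter, mem_Icc, Nat.le_div_iff_mul_le hR]
    exact ⟨fun h => ⟨h.2, h.1.2⟩, fun h => ⟨⟨h.1.pos, h.2⟩, h.1⟩⟩
  set cap : ℕ → ℕ := fun l => if l = 1 then ⌊η * n / 2⌋₊ else ⌊η * n / l⌋₊ with hcap
  have hGm : ∀ N ∈ G, ∃ l ∈ Lt, N ∈ CC W Y n R l := fun N hN => mem_biUnion.1 hN
  have hbig : ∀ l ∈ Lt, ¬ l * R ≤ n := fun l hl h => by
    have h1 := (mem_LT.1 hl).2.1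
    have := Nat.mul_le_mul_left l hTR
    omega
  have hsame : ∀ N l0 l, N ∈ CC W Y n R l0 → l ∈ Lt → l ∣ N → l = l0 := fun N l0 l h1 h2 h3 => by
    by_contra h
    exact hbig l h2 ((mem_CC.1 h1).2.2.2.2 l (mem_LT.1 h2).1 h3 h)
  have hmean : ∀ k : ℕ, (k = 1 ∨ k.Prime) → k * R ≤ n →
      ∑ N ∈ G.filter (fun N => k ∣ N), π N ≤ η * n / (8 * k) := by
    intro k hk hkR
    refine le_trans ?_ (huse k hk hkR)
    rw [mul_sum]
    refine sum_le_sum_of_subset_of_nonneg (fun N hN => ?_) fun N _ _ => hπ0 N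
    obtain ⟨a1, a2⟩ := mem_filter.1 hN
    obtain ⟨l, b1, b2⟩ := hGm N a1
    obtain ⟨c1, c2, c3⟩ := mem_LT.1 b1
    exact mem_filter.2 ⟨(mem_CC.1 b2).1, a2, l, c1, (mem_CC.1 b2).2.1, c2, c3⟩
  obtain ⟨Q, hQG, hQ1, hQ2, hQ3⟩ := top_select G Lt Lg (insert 1 I) (filter_subset _ _) π
    (fun N hN => ⟨hπ0 N, by
      obtain ⟨l, -, b2⟩ := hGm N hN
      have a3 := th_le (mem_CC.1 b2).1
      calc π N ≤ κ * Real.log (4 * Y) := mul_le_mul_of_nonneg_left a3 hκ0
        _ ≤ 1 := by rw [hκ, div_mul_eq_mul_div, div_le_one hM]; exact hπ⟩)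
    (fun l => n / l) cap Λ hΛ
    (fun N hN => by
      obtain ⟨l0, -, b2⟩ := hGm N hN
      exact card_le_one.2 fun a ha b hb =>
        (hsame N l0 a b2 (mem_filter.1 ha).1 (mem_filter.1 ha).2).trans
          (hsame N l0 b b2 (mem_filter.1 hb).1 (mem_filter.1 hb).2).symm)
    (fun l hl => by
      obtain ⟨a1, a2⟩ := mem_filter.1 hl
      obtain ⟨c1, -, c3⟩ := mem_LT.1 a1
      have l0 : (0 : ℝ) < l := by exact_mod_cast c1.pos
      refine ⟨Nat.div_pos c3 c1.pos, ?_⟩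
      have d1 : κ * wt W Y n R l ≤ ∑ N ∈ G.filter (fun N => l ∣ N), π N := by
        rw [wt, mul_sum]
        exact sum_le_sum_of_subset_of_nonneg (fun N hN =>
          mem_filter.2 ⟨mem_biUnion.2 ⟨l, a1, hN⟩, (mem_CC.1 hN).2.1⟩) fun N _ _ => hπ0 N
      have d2 : ((n / l : ℕ) : ℝ) ≤ n / l := Nat.cast_div_le
      calc 2 * Λ * ((n / l : ℕ) : ℝ) ≤ 2 * Λ * (n / l) := by gcongr
        _ = κ * (M / (2 * l)) := by rw [hκ]; field_simp; ring
        _ ≤ κ * wt W Y n R l := mul_le_mul_of_nonneg_left (not_lt.1 a2) hκ0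
        _ ≤ _ := d1)
    (fun l hl => by
      rcases mem_insert.1 hl with rfl | hl
      · have d1 := hmean 1 (Or.inl rfl) (by omega)
        have d2 := half_le_floor (x := η * n / 2) (by linarith)
        simp only [hcap, if_true]
        push_cast at d1
        exact ⟨d2.1, by linarith [d2.2]⟩
      · obtain ⟨c1, c2⟩ := (hImem l).1 hl
        have l0 : (0 : ℝ) < l := by exact_mod_cast c1.pos
        have d1 := hmean l (Or.inr c1) c2
        have d0 : (l : ℝ) * R ≤ n := by exact_mod_cast c2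
        have d3 : 1 ≤ η * n / l := by
          rw [le_div_iff₀ l0]
          nlinarith [mul_le_mul_of_nonneg_left d0 hη0.le, mul_le_mul_of_nonneg_left hηR l0.le]
        have d2 := half_le_floor d3
        simp only [hcap, if_neg c1.ne_one]
        have d4 : η * n / (8 * l) = η * n / l / 8 := by field_simp
        exact ⟨d2.1, by linarith [d2.2]⟩)
  have hlow : ∀ l : ℕ, l.Prime → l ∉ Lt → ((Q.filter fun N => l ∣ N).card : ℝ) ≤ η * n / l := by
    intro l hl hlt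
    have h0 : 0 ≤ η * n / l := by positivity
    by_cases h : l ∈ I
    · have := hQ1 l (mem_insert_of_mem h)
      simp only [hcap, if_neg hl.ne_one] at this
      exact (Nat.cast_le.2 this).trans (Nat.floor_le h0)
    · rw [filter_eq_empty_iff.2 fun N hN hlN => ?_]
      · simpa using h0
      · obtain ⟨l0, b1, b2⟩ := hGm N (hQG hN)
        exact h ((hImem l).2 ⟨hl, (mem_CC.1 b2).2.2.2.2 l hl hlN fun e => hlt (e ▸ b1)⟩)
  refine ⟨Q, fun N hN => ?_, ?_, fun l hl => ?_, fun l hl h => hlow l hl fun h1 => ?_, ?_⟩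
  · obtain ⟨l0, -, b2⟩ := hGm N (hQG hN)
    obtain ⟨c1, -, c3, c4, -⟩ := mem_CC.1 b2
    obtain ⟨e1, e2⟩ := mem_filter.1 c1
    refine ⟨?_, c3, c4, hY.trans_lt (mem_Ioc.1 e1).1⟩
    exact Nat.coprime_two_right.1 (Nat.Coprime.coprime_dvd_right hW e2)
  · have := hQ1 1 (mem_insert_self _ _)
    simp only [one_dvd, filter_true, hcap, if_true] at this
    exact (Nat.cast_le.2 this).trans (Nat.floor_le (by positivity))
  · by_cases h : l ∈ Lt
    · exact hQ2 l h
    · have h1 := hlow l hl h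
      have l0 : (0 : ℝ) < l := by exact_mod_cast hl.pos
      rw [Nat.le_div_iff_mul_le hl.pos]
      rw [le_div_iff₀ l0] at h1
      have : η * n ≤ n := by nlinarith
      exact_mod_cast h1.trans this
  · have := (mem_LT.1 h1).2.1
    omega
  · have h1 : (Lt.filter fun l => (Q.filter fun N => l ∣ N).card ≠ n / l) ⊆
        (Lt.filter fun l => wt W Y n R l < M / (2 * l)) ∪
          (Lg.filter fun l => (Q.filter fun N => l ∣ N).card ≠ n / l) := fun l hl => by
      obtain ⟨a1, a2⟩ := mem_filter.1 hl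
      by_cases h : wt W Y n R l < M / (2 * l)
      · exact mem_union_left _ (mem_filter.2 ⟨a1, h⟩)
      · exact mem_union_right _ (mem_filter.2 ⟨mem_filter.2 ⟨a1, h⟩, a2⟩)
    have h2 := (card_le_card h1).trans (card_union_le _ _)
    have h3 : (Lg.card : ℝ) ≤ Nat.primeCounting n := by
      rw [← card_primes_le]
      exact_mod_cast card_le_card fun l hl => by
        obtain ⟨c1, -, c3⟩ := mem_LT.1 (mem_filter.1 hl).1
        exact mem_filter.2 ⟨mem_Icc.2 ⟨c1.pos, c3⟩, c1⟩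
    have h4 : ((insert 1 I).card : ℝ) ≤ (n / R + 1 : ℕ) := by
      exact_mod_cast (card_insert_le _ _).trans
        (Nat.succ_le_succ ((card_filter_le _ _).trans (by simp)))
    have h5 : (Lg.card : ℝ) / (2 * Λ) ≤ Nat.primeCounting n / (2 * Λ) := by gcongr
    have h6 : (((Lt.filter fun l => (Q.filter fun N => l ∣ N).card ≠ n / l).card : ℕ) : ℝ) ≤
        ((Lt.filter fun l => wt W Y n R l < M / (2 * l)).card : ℝ) +
          ((Lg.filter fun l => (Q.filter fun N => l ∣ N).card ≠ n / l).card : ℝ) := by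
      exact_mod_cast h2
    linarith

end Pool.Agent.Work.MP_6d9ff5_nt
end
end
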