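import Pool.Agent.Work.MP_6d9ff5_nt.Top2
import Pool.Agent.Work.MP_6d9ff5_nt.TopP1
import Pool.Agent.Work.MP_6d9ff5_nt.Cnt
import Pool.Agent.Work.MP_6d9ff5_nt.BulkP

-- merged part: Pool.Agent.Work.MP_6d9ff5_nt.Top1
section
/-!
# Most large primes have many candidates
-/

noncomputable section

open Finset

namespace Pool.Agent.Work.MP_6d9ff5_nt

/-- the mixing primes of the square test -/
def Top1_P (K V : ℕ) : Finset ℕ := (Ioc K V).filter Nat.Prime

open Classical in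
/-- numbers with a large square factor -/
def Top1_T (W Y V : ℕ) : Finset ℕ :=
  (NN W Y).filter fun N => ∃ p : ℕ, p.Prime ∧ V < p ∧ p ^ 2 ∣ N

/-- the tail -/
def Top1_tail (W Y V l : ℕ) : ℝ := ∑ N ∈ (Top1_T W Y V).filter (fun N => l ∣ N), th (2 * N - 1)

lemma Top1_tel (K V : ℕ) (hK : 1 ≤ K) :
    ∑ m ∈ Ioc K V, 1 / ((m : ℝ) * ((m : ℝ) - 1)) ≤ 1 / (K : ℝ) := by
  have hK' : (1 : ℝ) ≤ K := by exact_mod_cast hK
  rcases le_total V K with h | h
  · rw [Ioc_eq_empty (by omega), sum_empty]; positivity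
  · have key : ∀ V, K ≤ V → ∑ m ∈ Ioc K V, 1 / ((m : ℝ) * ((m : ℝ) - 1)) = 1 / (K : ℝ) - 1 / (V : ℝ) := by
      intro V hV
      induction V, hV using Nat.le_induction with
      | base => simp
      | succ V hV ih =>
        rw [Finset.sum_Ioc_succ_top hV, ih]
        have hV' : (1 : ℝ) ≤ V := le_trans hK' (by exact_mod_cast hV)
        push_cast
        have h1 : (V : ℝ) ≠ 0 := by positivity
        have h2 : (V : ℝ) + 1 ≠ 0 := by positivity
        rw [add_sub_cancel_right]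
        field_simp
        ring
    rw [key V h]
    have : (0 : ℝ) ≤ 1 / (V : ℝ) := by positivity
    linarith

lemma Top1_cop {K m : ℕ} (hm : m.Prime) (h : K < m) : Nat.Coprime m (primorial K) := by
  rw [Nat.Prime.coprime_iff_not_dvd hm, hm.dvd_primorial_iff]
  omega

lemma Top1_card_T (W Y V : ℕ) (hV : 1 ≤ V) : ((Top1_T W Y V).card : ℝ) ≤ 2 * Y / V := by
  classical
  have hsub : Top1_T W Y V ⊆
      (Ioc V (V + 2 * Y)).biUnion fun m => (Ioc 0 (2 * Y)).filter fun N => m ^ 2 ∣ N := by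
    intro N hN
    obtain ⟨h1, p, hp, hVp, hd⟩ := mem_filter.1 hN
    have h2 := mem_Ioc.1 (mem_filter.1 h1).1
    have h3 : p ^ 2 ≤ N := Nat.le_of_dvd (by omega) hd
    have h4 : p ≤ p ^ 2 := by nlinarith [hp.pos]
    refine mem_biUnion.2 ⟨p, mem_Ioc.2 ⟨hVp, by omega⟩, mem_filter.2 ⟨mem_Ioc.2 ⟨by omega, h2.2⟩, hd⟩⟩
  have h1 : (Top1_T W Y V).card ≤ ∑ m ∈ Ioc V (V + 2 * Y), 2 * Y / m ^ 2 := by
    refine (card_le_card hsub).trans (card_biUnion_le.trans (le_of_eq ?_))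
    exact sum_congr rfl fun m _ => Nat.Ioc_filter_dvd_card_eq_div _ _
  have h2 : ((Top1_T W Y V).card : ℝ) ≤ ∑ m ∈ Ioc V (V + 2 * Y), (2 * Y : ℝ) * ((m : ℝ) ^ 2)⁻¹ := by
    refine le_trans (by exact_mod_cast h1 : ((Top1_T W Y V).card : ℝ)
      ≤ ((∑ m ∈ Ioc V (V + 2 * Y), 2 * Y / m ^ 2 : ℕ) : ℝ)) ?_
    rw [Nat.cast_sum]
    refine sum_le_sum fun m _ => ?_
    refine Nat.cast_div_le.trans (le_of_eq ?_)
    push_cast
    rw [div_eq_mul_inv]
  rw [← mul_sum] at h2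
  have h3 := sum_Ioc_inv_sq_le_sub (α := ℝ) (k := V) (n := V + 2 * Y) (by omega) (by omega)
  have h4 : (0 : ℝ) ≤ ((V + 2 * Y : ℕ) : ℝ)⁻¹ := by positivity
  have h5 : (0 : ℝ) ≤ 2 * Y := by positivity
  rw [div_eq_mul_inv]
  exact h2.trans (mul_le_mul_of_nonneg_left (by linarith) h5)

lemma Top1_card_primes (L : Finset ℕ) (hL : ∀ l ∈ L, l.Prime) {N B : ℕ} (hN : 0 < N) (hB : N ≤ B) :
    (L.filter fun l => l ∣ N).card ≤ Nat.log 2 B := by
  refine Nat.le_log_of_pow_le (by norm_num) ?_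
  have h1 : 2 ^ (L.filter fun l => l ∣ N).card ≤ ∏ l ∈ L.filter (fun l => l ∣ N), l := by
    rw [← prod_const]
    exact prod_le_prod' fun l hl => (hL l (mem_filter.1 hl).1).two_le
  have h2 : ∏ l ∈ L.filter (fun l => l ∣ N), l ∣ N := by
    refine dvd_trans (prod_dvd_prod_of_subset _ _ (fun l => l) ?_) (Nat.prod_primeFactors_dvd N)
    intro l hl
    exact Nat.mem_primeFactors.2 ⟨hL l (mem_filter.1 hl).1, (mem_filter.1 hl).2, by omega⟩
  exact h1.trans ((Nat.le_of_dvd hN h2).trans hB)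

lemma Top1_sum_tail (W Y V : ℕ) (hV : 1 ≤ V) (L : Finset ℕ) (hL : ∀ l ∈ L, l.Prime) :
    ∑ l ∈ L, Top1_tail W Y V l ≤ Real.log (4 * Y) * Nat.log 2 (2 * Y) * (2 * Y) / V := by
  classical
  have hlog : 0 ≤ Real.log (4 * Y) := by
    have := Real.log_natCast_nonneg (4 * Y)
    push_cast at this
    exact this
  have h1 : ∑ l ∈ L, Top1_tail W Y V l
      = ∑ N ∈ Top1_T W Y V, ((L.filter fun l => l ∣ N).card : ℝ) * th (2 * N - 1) := by
    unfold Top1_tail
    simp_rw [sum_filter]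
    rw [sum_comm]
    refine sum_congr rfl fun N _ => ?_
    rw [← sum_filter, sum_const, nsmul_eq_mul]
  have h2 : ∑ N ∈ Top1_T W Y V, ((L.filter fun l => l ∣ N).card : ℝ) * th (2 * N - 1)
      ≤ ∑ _N ∈ Top1_T W Y V, (Nat.log 2 (2 * Y) : ℝ) * Real.log (4 * Y) := by
    refine sum_le_sum fun N hN => ?_
    have hN1 : N ∈ NN W Y := (mem_filter.1 hN).1
    have hN2 := mem_Ioc.1 (mem_filter.1 hN1).1
    refine mul_le_mul ?_ (th_le hN1) (th_nonneg _) (Nat.cast_nonneg _)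
    exact_mod_cast Top1_card_primes L hL (by omega) hN2.2
  rw [sum_const, nsmul_eq_mul] at h2
  have h3 := Top1_card_T W Y V hV
  have h4 : (0 : ℝ) ≤ (Nat.log 2 (2 * Y) : ℝ) * Real.log (4 * Y) := by positivity
  rw [h1]
  refine h2.trans ((mul_le_mul_of_nonneg_right h3 h4).trans (le_of_eq ?_))
  ring

open Classical in
lemma Top1_split (K Y n R V l : ℕ) (hl : l.Prime) (hVl : V < l) :
    cnt (primorial K) Y l ≤ wt (primorial K) Y n R l
      + ∑ p ∈ Top1_P K V, cnt (primorial K) Y (l * p ^ 2) + Top1_tail (primorial K) Y V l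
      + ∑ N ∈ (NN (primorial K) Y).filter
        (fun N => l ∣ N ∧ ∃ p : ℕ, p.Prime ∧ p ∣ N ∧ p ≠ l ∧ n < p * R), th (2 * N - 1) := by
  unfold cnt wt Top1_tail CC Top1_T
  rw [filter_filter]
  simp_rw [sum_filter]
  rw [sum_comm (s := Top1_P K V), ← sum_add_distrib, ← sum_add_distrib, ← sum_add_distrib]
  refine sum_le_sum fun N hN => ?_
  have h0 := th_nonneg (2 * N - 1)
  have hA : ∀ (c : Prop) [Decidable c], 0 ≤ if c then th (2 * N - 1) else 0 := by
    intro c _; split_ifs; exacts [h0, le_rfl]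
  have hS : 0 ≤ ∑ p ∈ Top1_P K V, if l * p ^ 2 ∣ N then th (2 * N - 1) else 0 :=
    sum_nonneg fun p _ => hA _
  have h1 := hA (l ∣ N ∧ Squarefree N ∧ (2 * N - 1).Prime ∧
    ∀ p : ℕ, p.Prime → p ∣ N → p ≠ l → p * R ≤ n)
  have h3 := hA ((∃ p : ℕ, p.Prime ∧ V < p ∧ p ^ 2 ∣ N) ∧ l ∣ N)
  have h4 := hA (l ∣ N ∧ ∃ p : ℕ, p.Prime ∧ p ∣ N ∧ p ≠ l ∧ n < p * R)
  by_cases hd : l ∣ N
  swap
  · rw [if_neg hd]; linarith
  rw [if_pos hd]
  by_cases hq : (2 * N - 1).Prime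
  swap
  · have : th (2 * N - 1) = 0 := by unfold th; rw [if_neg hq]
    linarith
  by_cases hsq : Squarefree N
  · by_cases hall : ∀ p : ℕ, p.Prime → p ∣ N → p ≠ l → p * R ≤ n
    · rw [if_pos ⟨hd, hsq, hq, hall⟩]; linarith
    · have hex : ∃ p : ℕ, p.Prime ∧ p ∣ N ∧ p ≠ l ∧ n < p * R := by
        by_contra hcon
        refine hall fun p hp hpN hpl => ?_
        by_contra hlt
        exact hcon ⟨p, hp, hpN, hpl, by omega⟩
      rw [if_pos (⟨hd, hex⟩ : l ∣ N ∧ ∃ p : ℕ, p.Prime ∧ p ∣ N ∧ p ≠ l ∧ n < p * R)]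
      linarith
  · obtain ⟨p, hp, hpp⟩ : ∃ p : ℕ, p.Prime ∧ p ^ 2 ∣ N := by
      by_contra hcon
      refine hsq (Nat.squarefree_iff_prime_squarefree.2 fun p hp hpp => hcon ⟨p, hp, ?_⟩)
      rw [pow_two]; exact hpp
    by_cases hpV : V < p
    · rw [if_pos (⟨⟨p, hp, hpV, hpp⟩, hd⟩ : (∃ p : ℕ, p.Prime ∧ V < p ∧ p ^ 2 ∣ N) ∧ l ∣ N)]
      linarith
    · have hcop : Nat.Coprime N (primorial K) := (mem_filter.1 hN).2
      have hpN : p ∣ N := dvd_trans (Dvd.intro_left _ (pow_two p).symm) hpp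
      have hKp : K < p := by
        by_contra hle
        have h5 : p ∣ primorial K := hp.dvd_primorial_iff.2 (by omega)
        have h6 := Nat.dvd_gcd hpN h5
        rw [hcop] at h6
        exact hp.one_lt.ne' (Nat.dvd_one.1 h6)
      have hmem : p ∈ Top1_P K V := mem_filter.2 ⟨mem_Ioc.2 ⟨hKp, by omega⟩, hp⟩
      have hlp : l * p ^ 2 ∣ N := by
        refine Nat.Coprime.mul_dvd_of_dvd_of_dvd ?_ hd hpp
        exact Nat.Coprime.pow_right 2 ((Nat.coprime_primes hl hp).2 (by omega))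
      have h7 := single_le_sum (f := fun p => if l * p ^ 2 ∣ N then th (2 * N - 1) else 0)
        (fun p _ => hA _) hmem
      simp only [if_pos hlp] at h7
      linarith

lemma Top1_main_term (K V l : ℕ) (M : ℝ) (hK : 8 ≤ K) (hM : 0 < M) (hl : l.Prime) (hVl : V < l) :
    ∑ p ∈ Top1_P K V, M / ((l * p ^ 2).totient : ℝ) ≤ M / (l.totient : ℝ) / 8 := by
  have hphi : (0 : ℝ) < l.totient := by exact_mod_cast Nat.totient_pos.2 hl.pos
  have h1 : ∑ p ∈ Top1_P K V, M / ((l * p ^ 2).totient : ℝ)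
      = M / (l.totient : ℝ) * ∑ p ∈ Top1_P K V, 1 / ((p : ℝ) * ((p : ℝ) - 1)) := by
    rw [mul_sum]
    refine sum_congr rfl fun p hp => ?_
    have hp1 := (mem_filter.1 hp).2
    have hp2 := mem_Ioc.1 (mem_filter.1 hp).1
    have hc : Nat.Coprime l (p ^ 2) :=
      Nat.Coprime.pow_right 2 ((Nat.coprime_primes hl hp1).2 (by omega))
    rw [Nat.totient_mul hc, Nat.totient_prime_pow_succ hp1 1]
    push_cast [Nat.cast_sub hp1.one_le]
    rw [pow_one, div_mul_div_comm, mul_one]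
  have h2 : ∑ p ∈ Top1_P K V, 1 / ((p : ℝ) * ((p : ℝ) - 1))
      ≤ ∑ m ∈ Ioc K V, 1 / ((m : ℝ) * ((m : ℝ) - 1)) := by
    refine sum_le_sum_of_subset_of_nonneg (filter_subset _ _) fun m hm _ => ?_
    have h3 : (1 : ℝ) ≤ m := by
      have := (mem_Ioc.1 hm).1
      exact_mod_cast (by omega : 1 ≤ m)
    have h4 : (0 : ℝ) ≤ (m : ℝ) - 1 := by linarith
    positivity
  have h3 := Top1_tel K V (by omega)
  have h4 : 1 / (K : ℝ) ≤ 1 / 8 :=
    one_div_le_one_div_of_le (by norm_num) (by exact_mod_cast hK)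
  have h5 : 0 ≤ M / (l.totient : ℝ) := by positivity
  rw [h1]
  refine (mul_le_mul_of_nonneg_left (h2.trans (h3.trans h4)) h5).trans (le_of_eq ?_)
  ring

lemma Top1_err_le (W Y Q c : ℕ) (M : ℝ) (hc : 0 < c) (L : Finset ℕ)
    (hL : ∀ l ∈ L, 1 ≤ l * c ∧ l * c ≤ Q ∧ Nat.Coprime (l * c) W) :
    ∑ l ∈ L, |cnt W Y (l * c) - M / ((l * c).totient : ℝ)| ≤ err W Y M Q := by
  classical
  have hinj : Set.InjOn (fun l => l * c) (L : Set ℕ) := fun a _ b _ hab =>
    Nat.eq_of_mul_eq_mul_right hc hab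
  rw [← sum_image (f := fun k => |cnt W Y k - M / (k.totient : ℝ)|) hinj]
  unfold err
  refine sum_le_sum_of_subset_of_nonneg ?_ fun _ _ _ => abs_nonneg _
  intro k hk
  obtain ⟨l, hl, rfl⟩ := mem_image.1 hk
  obtain ⟨h1, h2, h3⟩ := hL l hl
  exact mem_filter.2 ⟨mem_Icc.2 ⟨h1, h2⟩, h3⟩

open Classical in
/-- Hints. For a prime `l ∈ L`: every `N ∈ NN`, `l ∣ N`, `2N - 1` prime, lies in `CC`, or is divisible by `p^2` with
`K < p ≤ V` (then `p ≠ l`, `l p^2 ∣ N`), or by `p^2` with `p > V`, or is counted in `hbig`. So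
`wt l ≥ M/(l-1) - M/((l-1) K) - M/(8l) - e l` where `e l = |cnt l - M/φ l| + ∑ p, |cnt (l p^2) - M/φ (l p^2)| + tail l`,
(`∑ (p > K) 1/(p (p-1)) ≤ 1/K ≤ 1/8`). If `wt l < M/(2l)` then `e l > M/(4l) ≥ M/(4n)`. Sum of `e l` over `L`:
`err`, then `V * err` (for fixed `p`, `l ↦ l p^2` is injective), and the tails: each `N ≤ 2Y` has at most
`Nat.log 2 (2Y)` prime factors, `th_le`, `∑ (p > V) 2Y / p^2 ≤ 2Y / V`. -/
theorem top1 (K Y n R Q V : ℕ) (M : ℝ) (hK : 8 ≤ K) (hM : 0 < M) (hV : 1 ≤ V) (hQ : n * V ^ 2 ≤ Q)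
    (L : Finset ℕ) (hL : ∀ l ∈ L, l.Prime ∧ K < l ∧ V < l ∧ l ≤ n)
    (hbig : ∀ l ∈ L, ∑ N ∈ (NN (primorial K) Y).filter
        (fun N => l ∣ N ∧ ∃ p : ℕ, p.Prime ∧ p ∣ N ∧ p ≠ l ∧ n < p * R), th (2 * N - 1) ≤ M / (8 * l)) :
    ((L.filter fun l => wt (primorial K) Y n R l < M / (2 * l)).card : ℝ)
      ≤ 4 * n / M * ((1 + V) * err (primorial K) Y M Q
        + Real.log (4 * Y) * Nat.log 2 (2 * Y) * (2 * Y) / V) := by
  set W := primorial K with hW
  set e : ℕ → ℝ := fun l => |cnt W Y l - M / (l.totient : ℝ)|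
    + ∑ p ∈ Top1_P K V, |cnt W Y (l * p ^ 2) - M / ((l * p ^ 2).totient : ℝ)|
    + Top1_tail W Y V l with he
  have he0 : ∀ l, 0 ≤ e l := fun l => by
    have h1 : 0 ≤ ∑ p ∈ Top1_P K V, |cnt W Y (l * p ^ 2) - M / ((l * p ^ 2).totient : ℝ)| :=
      sum_nonneg fun _ _ => abs_nonneg _
    have h2 : 0 ≤ Top1_tail W Y V l := sum_nonneg fun _ _ => th_nonneg _
    have h3 := abs_nonneg (cnt W Y l - M / (l.totient : ℝ))
    simp only [he]
    linarith
  have hbad : ∀ l ∈ L.filter (fun l => wt W Y n R l < M / (2 * l)), (1 : ℝ) ≤ 4 * n / M * e l := by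
    intro l hl
    obtain ⟨hl1, hl2⟩ := mem_filter.1 hl
    obtain ⟨hp, hKl, hVl, hln⟩ := hL l hl1
    have h1 := Top1_split K Y n R V l hp hVl
    have h2 := hbig l hl1
    have h3 := Top1_main_term K V l M hK hM hp hVl
    have h4 : ∑ p ∈ Top1_P K V, cnt W Y (l * p ^ 2)
        ≤ ∑ p ∈ Top1_P K V, M / ((l * p ^ 2).totient : ℝ)
          + ∑ p ∈ Top1_P K V, |cnt W Y (l * p ^ 2) - M / ((l * p ^ 2).totient : ℝ)| := by
      rw [← sum_add_distrib]
      refine sum_le_sum fun p _ => ?_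
      have := le_abs_self (cnt W Y (l * p ^ 2) - M / ((l * p ^ 2).totient : ℝ))
      linarith
    have h5 := neg_abs_le (cnt W Y l - M / (l.totient : ℝ))
    have hl0 : (0 : ℝ) < l := by exact_mod_cast hp.pos
    have hphi : (0 : ℝ) < l.totient := by exact_mod_cast Nat.totient_pos.2 hp.pos
    have h6 : M / (l : ℝ) ≤ M / (l.totient : ℝ) :=
      div_le_div_of_nonneg_left hM.le hphi (by exact_mod_cast Nat.totient_le l)
    have h7 : M / (8 * (l : ℝ)) = M / l / 8 := by rw [div_div, mul_comm]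
    have h8 : M / (2 * (l : ℝ)) = M / l / 2 := by rw [div_div, mul_comm]
    have h9 : M / l / 4 ≤ e l := by
      simp only [he]
      rw [← hW] at h1
      linarith
    have hn : (l : ℝ) ≤ n := by exact_mod_cast hln
    have h10 : M / (n : ℝ) ≤ M / l := div_le_div_of_nonneg_left hM.le hl0 hn
    have hn0 : (0 : ℝ) < n := lt_of_lt_of_le hl0 hn
    have h11 : (1 : ℝ) = 4 * n / M * (M / n / 4) := by field_simp
    rw [h11]
    exact mul_le_mul_of_nonneg_left (by linarith) (by positivity)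
  have hsum : ∑ l ∈ L, e l ≤ (1 + V) * err W Y M Q
      + Real.log (4 * Y) * Nat.log 2 (2 * Y) * (2 * Y) / V := by
    simp only [he]
    rw [sum_add_distrib, sum_add_distrib, sum_comm]
    have h1 := Top1_err_le W Y Q 1 M one_pos L fun l hl => by
      obtain ⟨hp, hKl, hVl, hln⟩ := hL l hl
      have h0 : n * 1 ≤ n * V ^ 2 := Nat.mul_le_mul_left n (Nat.one_le_pow _ _ hV)
      rw [mul_one]
      exact ⟨hp.one_le, by omega, Top1_cop hp hKl⟩
    simp only [mul_one] at h1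
    have h2 : ∑ p ∈ Top1_P K V, ∑ l ∈ L, |cnt W Y (l * p ^ 2) - M / ((l * p ^ 2).totient : ℝ)|
        ≤ ∑ _p ∈ Top1_P K V, err W Y M Q := by
      refine sum_le_sum fun p hp => ?_
      have hp1 := (mem_filter.1 hp).2
      have hp2 := mem_Ioc.1 (mem_filter.1 hp).1
      refine Top1_err_le W Y Q (p ^ 2) M (pow_pos hp1.pos 2) L fun l hl => ?_
      obtain ⟨hq, hKl, hVl, hln⟩ := hL l hl
      refine ⟨Nat.mul_pos hq.pos (pow_pos hp1.pos 2), ?_, ?_⟩
      · exact (Nat.mul_le_mul hln (Nat.pow_le_pow_left hp2.2 2)).trans hQ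
      · exact Nat.Coprime.mul_left (Top1_cop hq hKl) (Nat.Coprime.pow_left 2 (Top1_cop hp1 hp2.1))
    rw [sum_const, nsmul_eq_mul] at h2
    have h3 : ((Top1_P K V).card : ℝ) ≤ V := by
      have : (Top1_P K V).card ≤ V := by
        refine (card_filter_le _ _).trans ?_
        rw [Nat.card_Ioc]; omega
      exact_mod_cast this
    have h4 := mul_le_mul_of_nonneg_right h3 (err_nonneg W Y M Q)
    have h5 := Top1_sum_tail W Y V hV L fun l hl => (hL l hl).1
    linarith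
  have hc : 0 ≤ 4 * (n : ℝ) / M := by positivity
  calc ((L.filter fun l => wt W Y n R l < M / (2 * l)).card : ℝ)
      = ∑ _l ∈ L.filter (fun l => wt W Y n R l < M / (2 * l)), (1 : ℝ) := by
        rw [sum_const, nsmul_eq_mul, mul_one]
    _ ≤ ∑ l ∈ L.filter (fun l => wt W Y n R l < M / (2 * l)), 4 * n / M * e l := sum_le_sum hbad
    _ ≤ ∑ l ∈ L, 4 * n / M * e l :=
        sum_le_sum_of_subset_of_nonneg (filter_subset _ _) fun l _ _ => mul_nonneg hc (he0 l)
    _ ≤ _ := by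
        rw [← mul_sum]
        exact mul_le_mul_of_nonneg_left hsum hc

end Pool.Agent.Work.MP_6d9ff5_nt
end
end

-- merged part: Pool.Agent.Work.MP_6d9ff5_nt.TopP
section
/-!
# The large primes
-/

noncomputable section

open Finset Filter

namespace Pool.Agent.Work.MP_6d9ff5_nt

lemma pi_bounds (T : ℕ) (hT : 0 < T) : ∀ᶠ n : ℕ in atTop,
    n / (2 * Real.log n) ≤ Nat.primeCounting n ∧
      (Nat.primeCounting (n / T) : ℝ) ≤ 4 * n / (T * Real.log n) := by
  have hT' : (0 : ℝ) < T := by exact_mod_cast hT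
  have h0 := Lib.ANT.tendsto_primeCounting_mul_log_div
  have h1 : Tendsto (fun n : ℕ => (n : ℝ)) atTop atTop := tendsto_natCast_atTop_atTop
  have h2 : Tendsto (fun n : ℕ => (n : ℝ) / T) atTop atTop := h1.atTop_div_const hT'
  filter_upwards [h1.eventually (h0.eventually_const_le (by norm_num : (1 / 2 : ℝ) < 1)),
    h2.eventually (h0.eventually_le_const (by norm_num : (1 : ℝ) < 2)),
    ev_le_log (2 * Real.log T + 1), eventually_gt_atTop 0] with n a b c d
  have hn : (0 : ℝ) < n := by exact_mod_cast d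
  have hlT := Real.log_natCast_nonneg T
  have hL : 0 < Real.log n := by linarith
  rw [Nat.floor_natCast, le_div_iff₀ hn] at a
  rw [Nat.floor_div_eq_div, Real.log_div hn.ne' hT'.ne', div_le_iff₀ (by positivity),
    ← mul_div_assoc, le_div_iff₀ hT'] at b
  constructor
  · rw [div_le_iff₀ (by positivity)]; linarith
  · rw [le_div_iff₀ (by positivity)]
    have h3 : (0 : ℝ) ≤ Nat.primeCounting (n / T) * T := by positivity
    nlinarith [mul_le_mul_of_nonneg_left (by linarith : Real.log n / 2 ≤ Real.log n - Real.log T) h3]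

lemma log_nat_le {m : ℕ} {a : ℝ} (ha : 0 ≤ a) (h : (m : ℝ) ≤ Real.exp a) : Real.log m ≤ a := by
  rcases Nat.eq_zero_or_pos m with rfl | hm
  · simpa using ha
  · exact (Real.log_le_iff_le_exp (by exact_mod_cast hm)).2 h

lemma top_num1 {X Y l Φ G L E t R R' n w δ : ℝ} (hL : 0 < L) (hX : X ≤ 3 * L) (hY : 0 ≤ Y) (hl : 0 < l)
    (hΦ0 : 0 ≤ Φ) (hΦ : Φ ≤ E * t) (hG0 : 0 ≤ G) (hG : G ≤ 4 * t ^ 2) (hR0 : 0 ≤ R') (hR : R' ≤ R)
    (hn : 0 < n) (hw : 0 ≤ w) (hδ : 0 < δ) (ht : 0 ≤ t) (h1 : 240000 * E / δ ≤ t) (h2 : t ^ 4 ≤ L)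
    (h3 : 6 / δ ≤ t) (h4 : t * L * R * w ≤ n) :
    X * (2 * Y / l * Φ * G / (L / 100) ^ 2 + 2 * Y * R' / (n * l) * w) ≤ 2 * δ * (Y / l) := by
  rw [div_le_iff₀ hδ] at h1 h3
  have hE : 0 ≤ E * t := hΦ0.trans hΦ
  have hR1 := hR0.trans hR
  have a1 : 240000 * E * t ^ 3 / L ≤ δ := by
    rw [div_le_iff₀ hL]
    calc _ ≤ t * δ * t ^ 3 := by gcongr
      _ = δ * t ^ 4 := by ring
      _ ≤ _ := by gcongr
  have a2 : 6 * (L * R * w) / n ≤ δ := by
    rw [div_le_iff₀ hn]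
    calc _ ≤ t * δ * (L * R * w) := by gcongr
      _ = δ * (t * L * R * w) := by ring
      _ ≤ _ := by gcongr
  calc _ ≤ 3 * L * (2 * Y / l * (E * t) * (4 * t ^ 2) / (L / 100) ^ 2 + 2 * Y * R / (n * l) * w) := by
        gcongr
    _ = (240000 * E * t ^ 3 / L + 6 * (L * R * w) / n) * (Y / l) := by field_simp; ring
    _ ≤ (δ + δ) * (Y / l) := by gcongr
    _ = _ := by ring

lemma top_num2 {X Y k L t V P e n c η M : ℝ} (hL : 0 < L) (ht : 1 ≤ t) (hX : X ≤ 3 * L) (hk0 : 0 ≤ k)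
    (hk : k ≤ 5 * L) (hY : 0 < Y) (hV : 1 ≤ V) (h1 : V * t ≤ L ^ 6) (h2 : L ^ 3 * t ≤ P * V)
    (he : e ≤ Y / L ^ 7) (hn : 0 ≤ n) (hc : 0 < c) (hη : 0 < η) (hP : 0 ≤ P) (hM : c * Y ≤ M)
    (h3 : 32 * (2 + 30 * P) / (c * η) ≤ t) :
    4 * n / M * ((1 + V) * e + X * k * (2 * Y) / V) ≤ η * n / (8 * L) := by
  rw [div_le_iff₀ (by positivity)] at h3
  have a1 : (1 + V) * e ≤ 2 * Y / (L * t) := by
    calc _ ≤ (2 * V) * (Y / L ^ 7) :=
          (mul_le_mul_of_nonneg_left he (by linarith)).trans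
            (mul_le_mul_of_nonneg_right (by linarith) (by positivity))
      _ = 2 * Y * (V * t) / (L * t * L ^ 6) := by field_simp
      _ ≤ 2 * Y * L ^ 6 / (L * t * L ^ 6) := by gcongr
      _ = _ := by field_simp
  have a2 : X * k * (2 * Y) / V ≤ 30 * P * Y / (L * t) := by
    calc _ ≤ 3 * L * (5 * L) * (2 * Y) / V := by gcongr
      _ = 30 * (L ^ 3 * t) * Y / (L * t * V) := by field_simp; ring
      _ ≤ 30 * (P * V) * Y / (L * t * V) := by gcongr
      _ = _ := by field_simp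
  have hM0 : 0 < M := lt_of_lt_of_le (by positivity) hM
  calc _ ≤ 4 * n / M * (2 * Y / (L * t) + 30 * P * Y / (L * t)) := by gcongr
    _ ≤ 4 * n / (c * Y) * (2 * Y / (L * t) + 30 * P * Y / (L * t)) := by gcongr
    _ = 32 * (2 + 30 * P) * n / (8 * L * (t * c)) := by field_simp; ring
    _ ≤ t * (c * η) * n / (8 * L * (t * c)) := by gcongr
    _ = _ := by field_simp

theorem top_one (η : ℝ) (hη : 0 < η) (hη1 : η ≤ 1) : ∀ᶠ n : ℕ in atTop, ∃ Q : Finset ℕ,
    (∀ N ∈ Q, Odd N ∧ Squarefree N ∧ (2 * N - 1).Prime ∧ n ^ 2 < N) ∧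
    (Q.card : ℝ) ≤ η * n / 2 ∧
    (∀ l : ℕ, l.Prime → (Q.filter fun N => l ∣ N).card ≤ n / l) ∧
    (∀ l : ℕ, l.Prime → l * Real.log n ≤ n → ((Q.filter fun N => l ∣ N).card : ℝ) ≤ η * n / l) ∧
    (((Icc 1 n).filter fun l : ℕ => l.Prime ∧
        (l * Real.log n ≤ n ∨ (Q.filter fun N => l ∣ N).card ≠ n / l)).card : ℝ)
      ≤ η * Nat.primeCounting n := by
  classical
  obtain ⟨c, hc, hA⟩ := cnt_bv 8 (by norm_num)
  obtain ⟨B, hB⟩ := hA 7
  obtain ⟨Y0, hY0⟩ := eventually_atTop.1 hB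
  obtain ⟨T, hT⟩ := exists_nat_ge (32 / η)
  have hT0' : (0 : ℝ) < T := lt_of_lt_of_le (by positivity) hT
  have hT0 : 0 < T := by exact_mod_cast hT0'
  obtain ⟨Λ, hΛ⟩ : ∃ Λ : ℝ, Λ = 10 / η := ⟨_, rfl⟩
  have hΛ1 : 1 ≤ Λ := by rw [hΛ, le_div_iff₀ hη]; linarith
  obtain ⟨δ, hδ⟩ : ∃ δ : ℝ, δ = c * η / (64 * Λ) := ⟨_, rfl⟩
  have hδ0 : 0 < δ := by rw [hδ]; positivity
  have hδ1 : δ * (64 * Λ) = c * η := by rw [hδ]; field_simp
  have hδ2 : δ * (64 * Λ) ≤ c := by rw [hδ1]; exact mul_le_of_le_one_right hc.le hη1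
  obtain ⟨E, hE⟩ : ∃ E : ℝ, E = Real.exp 76 * 410 := ⟨_, rfl⟩
  obtain ⟨P, hP⟩ : ∃ P : ℝ, P = (2 ^ 203) ^ 3 := ⟨_, rfl⟩
  have hP0 : 0 ≤ P := by rw [hP]; positivity
  have hev : ∀ᶠ t : ℕ in atTop, 200 ≤ t ∧ 1 ≤ Real.log t ∧ 2 * T ≤ t ∧
      3 ^ B * (2 * t : ℝ) ^ (700 * 2 + 203 * B) ≤ 2 ^ t ∧ 80 / η * (2 * t : ℝ) ^ 203 ≤ 2 ^ t ∧
      1 * (2 * t : ℝ) ^ (700 + 1) ≤ 2 ^ t ∧ 240000 * E / δ ≤ t ∧ 6 / δ ≤ t ∧
      32 * (2 + 30 * P) / (c * η) ≤ t :=
    (eventually_ge_atTop _).and <| (ev_le_log _).and <| (eventually_ge_atTop _).and <|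
      (ev_pow _ _).and <| (ev_pow _ _).and <| (ev_pow _ _).and <| (ev_le _).and <|
      (ev_le _).and (ev_le _)
  filter_upwards [exists_par hev, eventually_ge_atTop Y0, pi_bounds T hT0] with n hpar hnY hpi
  obtain ⟨t, ⟨ht, l1, tT, e1, e2, e3, e4, e5, e6⟩, h1, h2⟩ := hpar
  obtain ⟨hn, a1, hR, -⟩ := par_sizes ht h1
  obtain ⟨pi1, pi2⟩ := hpi
  set L := Real.log n with hL
  set R := pR t with hRdef
  have ht' : (200 : ℝ) ≤ t := by exact_mod_cast ht
  have ht1 : (1 : ℝ) ≤ t := by linarith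
  have hn' : (0 : ℝ) < n := by exact_mod_cast hn
  have hnL : (n : ℝ) = Real.exp L := (Real.exp_log hn').symm
  have p1 : (t : ℝ) * t ≤ t ^ 202 := by
    rw [← sq]; exact pow_le_pow_right₀ ht1 (by norm_num)
  have p2 : 2 * (t : ℝ) ≤ t * t := mul_le_mul_of_nonneg_right (by linarith) (by linarith)
  have p3 : (t : ℝ) ^ 4 ≤ L := (pow_le_pow_right₀ ht1 (by norm_num)).trans h1
  have hL0 : 0 < L := by linarith
  have hR2 : (2 : ℝ) ^ t ≤ R := by
    have : 2 ^ t ≤ R := Nat.le_self_pow (by omega) _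
    exact_mod_cast this
  have hR1 : (1 : ℝ) ≤ R := (one_le_pow₀ one_le_two).trans hR2
  have hR0 : 0 < R := by exact_mod_cast (by linarith : (0 : ℝ) < R)
  have htR : (t : ℝ) ≤ R := le_trans (by exact_mod_cast Nat.lt_two_pow_self.le) hR2
  have tT' : 2 * (T : ℝ) ≤ t := by exact_mod_cast tT
  have hTR' : (T : ℝ) ≤ R := by linarith
  have hTR : T ≤ R := by exact_mod_cast hTR'
  obtain ⟨z, hz⟩ : ∃ z : ℝ, z = Real.exp (L / 100) := ⟨_, rfl⟩
  have hz2 : 2 ≤ z := by have := Real.add_one_le_exp (L / 100); linarith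
  have hlz : Real.log z = L / 100 := by rw [hz, Real.log_exp]
  have hz8 : z ≤ z ^ 8 := le_self_pow₀ (by linarith) (by norm_num)
  have het : (t : ℝ) ≤ Real.exp t := by have := Real.add_one_le_exp (t : ℝ); linarith
  have he2 : (2 : ℝ) ≤ Real.exp 1 := by have := Real.add_one_le_exp 1; linarith
  have hN : t * L * R * z ^ 8 ≤ n := by
    have b1 : L ≤ Real.exp 1 * Real.exp (L / 2) := by
      have := mul_le_mul he2 (Real.add_one_le_exp (L / 2)) (by linarith) (by linarith)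
      linarith
    calc _ ≤ Real.exp t * (Real.exp 1 * Real.exp (L / 2)) * Real.exp (t * t) * z ^ 8 := by gcongr
      _ ≤ _ := by
        rw [hnL, hz, ← Real.exp_nat_mul, ← Real.exp_add, ← Real.exp_add, ← Real.exp_add,
          ← Real.exp_add]
        exact Real.exp_le_exp.2 (by push_cast; linarith)
  have hL1 : 1 ≤ L := by linarith
  have hzR : z * R ≤ n :=
    calc z * R = 1 * 1 * R * z := by ring
      _ ≤ t * L * R * z ^ 8 := by gcongr
      _ ≤ _ := hN
  have htL : t * L ≤ n :=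
    calc t * L = t * L * 1 * 1 := by ring
      _ ≤ t * L * R * z ^ 8 := by gcongr; linarith
      _ ≤ _ := hN
  have hRn' : (R : ℝ) ≤ n := (le_mul_of_one_le_left (by linarith) (by linarith)).trans hzR
  have hRn : R ≤ n := by exact_mod_cast hRn'
  obtain ⟨Y, hY⟩ : ∃ Y : ℕ, Y = n ^ 2 * R ^ 2 := ⟨_, rfl⟩
  have hYn : n ^ 2 ≤ Y := hY ▸ Nat.le_mul_of_pos_right _ (by positivity)
  have hYn1 : n ≤ Y := (Nat.le_self_pow two_ne_zero n).trans hYn
  have hY' : (Y : ℝ) = (n * R) ^ 2 := by rw [hY]; push_cast; ring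
  have hYp : (0 : ℝ) < Y := by rw [hY']; positivity
  have h4Y : (4 * Y : ℝ) ≤ Real.exp (3 * L) := by
    calc (4 * Y : ℝ) = 2 * 2 * (n * n) * (R * R) := by rw [hY']; ring
      _ ≤ Real.exp 1 * Real.exp 1 * (Real.exp L * Real.exp L) *
          (Real.exp (t * t) * Real.exp (t * t)) := by rw [← hnL]; gcongr
      _ ≤ _ := by
        simp only [← Real.exp_add]
        exact Real.exp_le_exp.2 (by linarith)
  have hX : Real.log (4 * Y) ≤ 3 * L := (Real.log_le_iff_le_exp (by positivity)).2 h4Y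
  have hlY1 : L ≤ Real.log Y := Real.log_le_log hn' (by exact_mod_cast hYn1)
  have hlY2 : Real.log Y ≤ 3 * L := (Real.log_le_log hYp (by linarith)).trans hX
  obtain ⟨M, hM1, -, hM3⟩ := hY0 Y (hnY.trans hYn1)
  have hM : 0 < M := lt_of_lt_of_le (by positivity) hM1
  obtain ⟨V, hV⟩ : ∃ V : ℕ, V = t ^ 700 := ⟨_, rfl⟩
  have hV' : (V : ℝ) = (t : ℝ) ^ 700 := by rw [hV, Nat.cast_pow]
  have hVt : t ≤ V := by
    have := le_self_pow₀ ht1 (by norm_num : 700 ≠ 0)
    rw [← hV'] at this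
    exact_mod_cast this
  have hV2 : (V : ℝ) ≤ (2 * t) ^ 700 := by
    rw [hV']; exact pow_le_pow_left₀ (by linarith) (by linarith) _
  have herr := hM3 (n * V ^ 2) (by
    rw [hY', Real.sqrt_sq (by positivity), ← hY', Nat.cast_mul, Nat.cast_pow, mul_assoc]
    refine mul_le_mul_of_nonneg_left (le_trans ?_ (e1.trans hR2)) hn'.le
    have b1 : Real.log Y ^ B ≤ (3 * (2 * t) ^ 203) ^ B :=
      pow_le_pow_left₀ (by linarith) (by linarith) _
    rw [pow_add, pow_mul, pow_mul, mul_left_comm, ← mul_pow]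
    gcongr)
  have hΦ := Phi_par l1 h2 hL1 h4Y
  have hlt : Real.log t ≤ t := by have := Real.log_le_sub_one_of_pos (by linarith : (0 : ℝ) < t); linarith
  have hΦ1 : Real.exp 76 * (410 * Real.log t) ≤ E * t := by
    rw [hE, mul_assoc]; gcongr
  have key : ∀ l G R' : ℝ, 0 < l → 0 ≤ G → G ≤ 4 * t ^ 2 → 0 ≤ R' → R' ≤ R →
      Real.log (4 * Y) * (2 * Y / l * (Real.exp 76 * (410 * Real.log t)) * G / Real.log z ^ 2
        + 2 * Y * R' / (n * l) * z ^ 8) ≤ 2 * δ * (Y / l) := fun l G R' b1 b2 b3 b4 b5 => by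
    rw [hlz]
    exact top_num1 hL0 hX hYp.le b1 (by positivity) hΦ1 b2 b3 b4 b5 hn' (by positivity) hδ0
      (by linarith) e4 p3 e5 hN
  have hVT : V * T ≤ n := by
    have b1 : (V : ℝ) * T ≤ (2 * t) ^ 700 * (2 * t) := by gcongr; linarith
    rw [one_mul, pow_succ] at e3
    exact_mod_cast b1.trans (e3.trans (hR2.trans hRn'))
  have hbad := top1 8 Y n R (n * V ^ 2) V M le_rfl hM (by omega) le_rfl (LT n T)
    (fun l hl => by
      obtain ⟨c1, c2, c3⟩ := mem_LT.1 hl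
      have : V < l := lt_of_mul_lt_mul_right (hVT.trans_lt c2) (Nat.zero_le _)
      exact ⟨c1, by omega, this, c3⟩)
    (fun l hl => by
      obtain ⟨c1, c2, c3⟩ := mem_LT.1 hl
      have l0 : (0 : ℝ) < l := by exact_mod_cast c1.pos
      refine (top_big _ Y n R l z _ hz2 hzR hR0 c1 hΦ).trans ((key l _ R l0 ?_ ?_ (by linarith)
        le_rfl).trans ?_)
      · have := Real.log_natCast_nonneg (2 * Y * R / (n * l)); linarith
      · have b1 : 2 * Y * R / (n * l) ≤ 2 * T * (R * R * R) := by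
          refine Nat.div_le_of_le_mul ?_
          calc 2 * Y * R = n * n * (2 * (R * R * R)) := by rw [hY]; ring
            _ ≤ n * (l * T) * (2 * (R * R * R)) := by gcongr
            _ = _ := by ring
        have b2 : ((2 * Y * R / (n * l) : ℕ) : ℝ) ≤ Real.exp (t + (t * t + t * t + t * t)) := by
          have b3 : ((2 * Y * R / (n * l) : ℕ) : ℝ) ≤ 2 * T * (R * R * R) := by exact_mod_cast b1
          refine b3.trans ?_
          simp only [Real.exp_add]
          gcongr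
          linarith
        have := log_nat_le (by positivity) b2
        rw [sq]; linarith
      · have b1 : 16 * δ ≤ c := by
          have := mul_le_mul_of_nonneg_left hΛ1 hδ0.le
          linarith
        calc 2 * δ * (Y / l) = 16 * δ * Y / (8 * l) := by field_simp; ring
          _ ≤ c * Y / (8 * l) := by gcongr
          _ ≤ _ := by gcongr)
  have hbad2 := hbad.trans (top_num2 (P := P) (t := t) (c := c) (η := η) hL0 ht1 hX (Nat.cast_nonneg _)
    (by
      have b1 : ((2 ^ Nat.log 2 (2 * Y) : ℕ) : ℝ) ≤ (2 * Y : ℕ) := by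
        exact_mod_cast Nat.pow_log_le_self 2 (by omega)
      have b2 := Real.log_le_log (by positivity) (b1.trans (by push_cast; linarith : _ ≤ (4 * Y : ℝ)))
      rw [Nat.cast_pow, Real.log_pow] at b2
      have b3 := Real.log_two_gt_d9
      have b4 : (0 : ℝ) ≤ Nat.log 2 (2 * Y) := Nat.cast_nonneg _
      push_cast at b2
      have := mul_le_mul_of_nonneg_left b3.le b4
      linarith)
    hYp (by exact_mod_cast (by omega : 1 ≤ V))
    (by
      rw [hV', ← pow_succ]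
      refine le_trans ?_ (pow_le_pow_left₀ (by positivity) h1 6)
      rw [← pow_mul]
      exact pow_le_pow_right₀ ht1 (by norm_num))
    (by
      have b1 := pow_le_pow_left₀ hL0.le h2 3
      rw [mul_pow, mul_pow, ← hP, ← pow_mul] at b1
      have b2 : (t : ℝ) ^ (203 * 3) * t ≤ V := by
        rw [hV', ← pow_succ]; exact pow_le_pow_right₀ ht1 (by norm_num)
      calc _ ≤ P * t ^ (203 * 3) * t := by gcongr
        _ ≤ _ := by rw [mul_assoc]; gcongr)
    (herr.trans (by gcongr)) hn'.le hc hη hP0 hM1 e6)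
  have h80 : 80 * L ≤ η * R := by
    have b1 : 80 / η * L ≤ R := le_trans (by gcongr) (e2.trans hR2)
    rw [div_mul_eq_mul_div, div_le_iff₀ hη] at b1
    linarith
  obtain ⟨Q, q1, q2, q3, q4, q5⟩ := top_fin (primorial 8) Y n R T M η Λ (by decide) hη hη1 hΛ1 hM hYn
    hTR hR0 (by linarith) hRn
    (by
      rw [div_le_iff₀ hδ0] at e5
      have b1 : 12 * Λ ≤ c * t := by
        have := mul_le_mul_of_nonneg_left hδ2 (by linarith : (0 : ℝ) ≤ t)
        have := mul_le_mul_of_nonneg_right e5 (by linarith : 0 ≤ Λ)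
        linarith
      have b2 : (n : ℝ) * n ≤ Y := by rw [← sq]; exact_mod_cast hYn
      calc _ ≤ 4 * Λ * n * (3 * L) := by gcongr
        _ = 12 * Λ * L * n := by ring
        _ ≤ c * t * L * n := by gcongr
        _ = c * (t * L * n) := by ring
        _ ≤ c * (n * n) := by gcongr
        _ ≤ c * Y := by gcongr
        _ ≤ _ := hM1)
    (fun k hk hkR => by
      have k0 : (0 : ℝ) < k := by
        rcases hk with rfl | hk
        · norm_num
        · exact_mod_cast hk.pos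
      have hT1 : (1 : ℝ) ≤ T := by exact_mod_cast hT0
      have b1 := (top_use (primorial 8) Y n T k z _ hz2 (le_trans (by gcongr) hzR) hT0 hk
        ((Nat.mul_le_mul_left k hTR).trans hkR) hΦ).trans (key k _ T k0 (by
          have := Real.log_nonneg (by linarith : (1 : ℝ) ≤ 2 * T); linarith) (by
          have := Real.log_le_sub_one_of_pos (by linarith : (0 : ℝ) < 2 * T); rw [sq]; linarith)
          hT0'.le hTR')
      calc _ ≤ 4 * Λ * n / M * (2 * δ * (Y / k)) := by gcongr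
        _ ≤ 4 * Λ * n / (c * Y) * (2 * δ * (Y / k)) := by gcongr
        _ = δ * (64 * Λ) * n / (8 * k * c) := by field_simp; ring
        _ = _ := by rw [hδ1]; field_simp)
  have hlT : ∀ l : ℕ, l * L ≤ n → l * T ≤ n := fun l h => by
    have : (l : ℝ) * T ≤ l * L := by gcongr; linarith
    exact_mod_cast this.trans h
  refine ⟨Q, q1, q2, q3, fun l hl h => q4 l hl (hlT l h), ?_⟩
  have s1 : ((Icc 1 n).filter fun l : ℕ => l.Prime ∧
      (l * L ≤ n ∨ (Q.filter fun N => l ∣ N).card ≠ n / l)) ⊆ (Icc 1 (n / T)).filter Nat.Prime ∪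
        (LT n T).filter fun l => (Q.filter fun N => l ∣ N).card ≠ n / l := fun l hl => by
    obtain ⟨c1, c2, c3⟩ := mem_filter.1 hl
    by_cases h : l * T ≤ n
    · exact mem_union_left _ (mem_filter.2
        ⟨mem_Icc.2 ⟨c2.pos, (Nat.le_div_iff_mul_le hT0).2 h⟩, c2⟩)
    · exact mem_union_right _ (mem_filter.2 ⟨mem_LT.2 ⟨c2, not_le.1 h, (mem_Icc.1 c1).2⟩,
        c3.resolve_left fun h' => h (hlT l h')⟩)
  have s2 := (card_le_card s1).trans (card_union_le _ _)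
  rw [card_primes_le] at s2
  refine (Nat.cast_le.2 s2).trans ?_
  rw [Nat.cast_add]
  have s3 : η * n / (8 * L) ≤ η / 4 * Nat.primeCounting n :=
    calc _ = η / 4 * (n / (2 * L)) := by field_simp; ring
      _ ≤ _ := by gcongr
  have s4 : (4 * n / (T * L) : ℝ) ≤ η * n / (8 * L) := by
    rw [div_le_iff₀ hη] at hT
    calc (4 * n / (T * L) : ℝ) = 32 * n / (8 * L * T) := by field_simp; ring
      _ ≤ T * η * n / (8 * L * T) := by gcongr
      _ = _ := by field_simp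
  have s5 : (Nat.primeCounting n : ℝ) / (2 * Λ) = η / 20 * Nat.primeCounting n := by
    rw [hΛ]; field_simp; ring
  have s6 : 5 * ((n / R + 1 : ℕ) : ℝ) ≤ η * n / (8 * L) := by
    have b1 : ((n / R : ℕ) : ℝ) ≤ n / R := Nat.cast_div_le
    have b2 : (1 : ℝ) ≤ n / R := (one_le_div (by linarith)).2 hRn'
    calc _ ≤ 10 * ((n : ℝ) / R) := by push_cast [Nat.cast_add]; linarith
      _ = 80 * L * n / (8 * L * R) := by field_simp; ring
      _ ≤ η * R * n / (8 * L * R) := by gcongr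
      _ = _ := by field_simp
  linarith

/-- Hints. `K = 8`, `W = primorial 8`, `c` and `B` from `cnt_bv` (`A = 7`), `t` from `exists_par`, `L = log n`,
`R = pR t`, `Y = n ^ 2 * R ^ 2`, `V = t ^ 700`, `Q = n * V ^ 2`, `z = exp (L / 100)`, `T` and `Λ` fixed large in
terms of `η`, `Φ` from `Phi_le` (`four_mul_le_exp`, compare `Phi_par`). `Lt` = primes in `(n / T, n]`,
`Lg` = those with `wt ≥ M / (2 l)` (`top1`, `top_big`), `G = Lt.biUnion (CC W Y n R)`, `π N = 4 Λ n / M * th`,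
`m l = n / l`, `Lo = insert 1 (primes ≤ n / R)`, `cap 1 = ⌊η n / 2⌋`, `cap l = ⌊η n / l⌋`, `top_use`,
`top_select`. The exceptional primes are those `≤ n / T`, those in `Lt \ Lg`, and those left by `top_select`;
`Lib.ANT.tendsto_primeCounting_mul_log_div` (or Chebyshev) gives `π (n / T) ≤ (3 / T) π n`, `π n ≥ n / (2 L)`. -/
theorem top (η : ℝ) (hη : 0 < η) : ∀ᶠ n : ℕ in atTop, ∃ Q : Finset ℕ,
    (∀ N ∈ Q, Odd N ∧ Squarefree N ∧ (2 * N - 1).Prime ∧ n ^ 2 < N) ∧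
    (Q.card : ℝ) ≤ η * n / 2 ∧
    (∀ l : ℕ, l.Prime → (Q.filter fun N => l ∣ N).card ≤ n / l) ∧
    (∀ l : ℕ, l.Prime → l * Real.log n ≤ n → ((Q.filter fun N => l ∣ N).card : ℝ) ≤ η * n / l) ∧
    (((Icc 1 n).filter fun l : ℕ => l.Prime ∧
        (l * Real.log n ≤ n ∨ (Q.filter fun N => l ∣ N).card ≠ n / l)).card : ℝ)
      ≤ η * Nat.primeCounting n := by
  have hm := min_le_left η 1
  filter_upwards [top_one (min η 1) (lt_min hη one_pos) (min_le_right _ _)] with n h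
  obtain ⟨Q, q1, q2, q3, q4, q5⟩ := h
  exact ⟨Q, q1, q2.trans (by gcongr), q3, fun l hl h => (q4 l hl h).trans (by gcongr),
    q5.trans (by gcongr)⟩

end Pool.Agent.Work.MP_6d9ff5_nt
end
end

-- merged part: Pool.Agent.Work.MP_6d9ff5_nt.Fin
section
/-!
# Factorials are almost values of the sum-of-divisors function
-/

noncomputable section

open Finset Filter

namespace Pool.Agent.Work.MP_6d9ff5_nt

lemma mul_log_le {n l : ℕ} (hl : 0 < l) (h : l * l ≤ n) : l * Real.log n ≤ n := by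
  have h1 : (0 : ℝ) < l := by exact_mod_cast hl
  have h2 : (l : ℝ) * l ≤ n := by exact_mod_cast h
  have h3 : (0 : ℝ) < n := lt_of_lt_of_le (by positivity) h2
  have h4 : (n : ℝ) ≤ (n / l) ^ 2 := by
    rw [div_pow, le_div_iff₀ (by positivity)]; nlinarith
  have h5 := Real.log_le_log h3 h4
  have h6 := Real.log_le_sub_one_of_pos (by positivity : (0 : ℝ) < n / l / 2)
  rw [Real.log_div (by positivity) (by norm_num)] at h6
  rw [Real.log_pow] at h5
  have h7 := Real.log_two_lt_d9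
  rw [← le_div_iff₀' h1]
  push_cast at h5
  linarith

theorem main (ε : ℝ) (hε : 0 < ε) : ∃ n₀ : ℕ, ∀ n ≥ n₀, ∃ y D : ℕ, Squarefree y ∧
    ArithmeticFunction.sigma 1 y * D = n.factorial ∧ (D : ℝ) ≤ (n.factorial : ℝ) ^ ε ∧
    (D.primeFactors.card : ℝ) ≤ ε * Nat.primeCounting n := by
  set η := min ε 1 / 10 with hη
  have h0 : 0 < η := by have := lt_min hε one_pos; positivity
  have h1 : η ≤ 1 / 10 := by have := min_le_right ε 1; linarith
  have h2 : 10 * η ≤ ε := by have := min_le_left ε 1; linarith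
  refine eventually_atTop.1 ?_
  filter_upwards [bulk η h0 h1, top η h0, eventually_ge_atTop 4] with n ⟨Q1, a1, a2, a3, a4⟩
    ⟨Q2, b1, b2, b3, b4, b5⟩ hn
  have hemp : ∀ l : ℕ, l.Prime → ¬ l * Real.log n ≤ n →
      (Q1 ∪ Q2).filter (fun N => l ∣ N) = Q2.filter fun N => l ∣ N := fun l hl h => by
    rw [filter_union, filter_eq_empty_iff.2 fun N hN hlN => h ((a1 N hN).2.2.2.2.2 l hl hlN),
      empty_union]
  obtain ⟨y, D, c1, c2, c3, c4⟩ := assemble n (Q1 ∪ Q2)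
    (fun N hN => (mem_union.1 hN).elim (fun h => ⟨(a1 N h).1, (a1 N h).2.1, (a1 N h).2.2.1⟩)
      fun h => ⟨(b1 N h).1, (b1 N h).2.1, (b1 N h).2.2.1⟩)
    (by
      have : ((Q1 ∪ Q2).card : ℝ) ≤ Q1.card + Q2.card := by exact_mod_cast card_union_le Q1 Q2
      rw [Nat.le_div_iff_mul_le two_pos]
      exact_mod_cast (by linarith : ((Q1 ∪ Q2).card : ℝ) * 2 ≤ n))
    (fun l hl => by
      by_cases h : l * Real.log n ≤ n
      · have e1 : (((Q1 ∪ Q2).filter fun N => l ∣ N).card : ℝ)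
            ≤ (Q1.filter fun N => l ∣ N).card + (Q2.filter fun N => l ∣ N).card := by
          rw [filter_union]; exact_mod_cast card_union_le _ _
        have e2 := e1.trans (add_le_add (a3 l hl) (b4 l hl h))
        rw [← add_div, le_div_iff₀ (by exact_mod_cast hl.pos)] at e2
        rw [Nat.le_div_iff_mul_le hl.pos]
        exact_mod_cast e2.trans (le_of_eq (by ring : _ = (n : ℝ)))
      · rw [hemp l hl h]; exact b3 l hl)
  refine ⟨y, D, c1, c3, ?_, le_trans ?_ (b5.trans (by gcongr; linarith))⟩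
  · have hn0 : (0 : ℝ) < n := by exact_mod_cast (by omega : 0 < n)
    have hL := Real.log_natCast_nonneg n
    have hF : (1 : ℝ) ≤ n.factorial := by exact_mod_cast n.factorial_pos
    have e1 : (n.factorial : ℝ) ≤ Real.exp (n * Real.log n) := by
      rw [Real.exp_nat_mul, Real.exp_log hn0]; exact_mod_cast n.factorial_le_pow
    have e2 : Real.exp ((2 - η) * Real.log n) ^ Q1.card ≤ (ArithmeticFunction.sigma 1 y : ℕ) := by
      have e3 : ∏ N ∈ Q1, N ≤ ∏ N ∈ Q1 ∪ Q2, 2 * N :=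
        (prod_le_prod' fun N _ => (by omega : N ≤ 2 * N)).trans
          (prod_le_prod_of_subset_of_one_le' subset_union_left fun N hN _ => by
            have := ((mem_union.1 hN).elim (fun h => (a1 N h).1) fun h => (b1 N h).1).pos
            omega)
      rw [c2, ← prod_const]
      refine (prod_le_prod (fun _ _ => by positivity) fun N hN => (a1 N hN).2.2.2.1).trans ?_
      rw [← Nat.cast_prod]
      exact Nat.cast_le.2 e3
    have e4 : (n.factorial : ℝ) ^ (1 - 7 * η) ≤ (ArithmeticFunction.sigma 1 y : ℕ) := by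
      refine (Real.rpow_le_rpow (by positivity) e1 (by linarith)).trans (le_trans ?_ e2)
      rw [← Real.exp_mul, ← Real.exp_nat_mul]
      refine Real.exp_le_exp.2 (le_trans ?_ (mul_le_mul_of_nonneg_right a4
        (mul_nonneg (by linarith) hL)))
      have := mul_nonneg hn0.le hL
      nlinarith [mul_nonneg this h0.le, mul_nonneg (mul_nonneg this h0.le) h0.le]
    have e5 : (n.factorial : ℝ) ^ (1 - 7 * η) * D
        ≤ (n.factorial : ℝ) ^ (1 - 7 * η) * (n.factorial : ℝ) ^ (7 * η) := by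
      rw [← Real.rpow_add (by positivity), sub_add_cancel, Real.rpow_one]
      refine (mul_le_mul_of_nonneg_right e4 (by positivity)).trans (le_of_eq ?_)
      exact_mod_cast c3
    exact (le_of_mul_le_mul_left e5 (by positivity)).trans
      (Real.rpow_le_rpow_of_exponent_le hF (by linarith))
  · refine Nat.cast_le.2 (card_le_card fun l hl => ?_)
    obtain ⟨e1, e2, -⟩ := Nat.mem_primeFactors.1 hl
    refine mem_filter.2 ⟨mem_Icc.2 ⟨e1.pos, e1.dvd_factorial.1 (c3 ▸ e2.mul_left _)⟩, e1, ?_⟩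
    by_contra h
    obtain ⟨e3, e4⟩ := not_or.1 h
    have e5 : n < l * l := not_le.1 fun h => e3 (mul_log_le e1.pos h)
    exact c4 l e1 e5 (by rw [hemp l e1 e3]; exact not_not.1 e4) (by nlinarith) e2

end Pool.Agent.Work.MP_6d9ff5_nt
end
end
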